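import Pool.Agent.Run7.h260.VC.F4
import Pool.Agent.Y391.CB.Chi2
import Pool.Agent.Y472.A.Final
import Pool.Agent.Y261.TK.CJ1

/-!
# The growth rate of the coloured Jones polynomials
-/

set_option autoImplicit false

namespace Run7.h260.VC

open Finset Filter Topology Metric Pool.Agent.W711.HT Pool.Agent.Y472 Pool.Agent.Y472.K
open Pool.Agent.Y833.CB (EN rp rN gN EN_eq sum_near near_pt Tf_congr Tf_diff wE_bd wE_diff cauchy comb)
open GapVol (lob)
open scoped Real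

lemma hCJ : HCJ := fun N hN => by
  obtain ⟨u, u', a, b, c⟩ := Pool.Agent.Y261.TK.cj1 Pool.Agent.Y686.CB.gda N hN
  exact ⟨u, u', a, b, c⟩

variable {n : ℕ} [NeZero n]

omit [NeZero n] in
/-- the bound of the trace on small circles away from the origin -/
lemma far_circ {N : ℕ} {R τ' B : ℝ} (hN : 1 ≤ N)
    (hR : 0 < R) (hR1 : R ≤ 1) (hNR : 1 / (N : ℝ) ≤ R / 8) (hNτ : 1 / (N : ℝ) ≤ τ')
    (h : ∀ χ : ℂ, |χ.re| ≤ π → |χ.im| ≤ τ' → R / 8 ≤ |χ.re| → ‖Tf N (wd n) χ‖ ≤ B)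
    {x : ℝ} (hx : R / 4 ≤ |x|) (hx1 : |x| ≤ π) {w : ℂ} (hw : ‖w - (x : ℂ)‖ = 1 / N) :
    ‖Tf N (wd n) w‖ ≤ B := by
  have hπ := Real.pi_gt_three
  obtain ⟨h1, h2⟩ := near_pt hw
  have h3 : |x| ≤ |w.re| + 1 / N := by
    have := abs_sub_abs_le_abs_sub x w.re
    rw [abs_sub_comm] at this
    linarith
  have h4 : |w.re| ≤ |x| + 1 / N := by
    have := abs_sub_abs_le_abs_sub w.re x
    linarith
  have hN1 : 1 / (N : ℝ) ≤ 1 / 8 := hNR.trans (by linarith)
  rcases le_or_gt |w.re| π with hc | hc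
  · exact h w hc (h2.trans hNτ) (by linarith)
  · rcases le_or_gt 0 w.re with h0 | h0
    · rw [abs_of_nonneg h0] at hc h4
      have e1 : Tf N (wd n) w = Tf N (wd n) (w - 2 * π) := Tf_congr N _ (Complex.cos_sub_two_pi w).symm
      have e2 : (w - 2 * π : ℂ).re = w.re - 2 * π := by simp
      have e3 : (w - 2 * π : ℂ).im = w.im := by simp
      rw [e1]
      refine h _ ?_ ?_ ?_
      · rw [e2, abs_le]; constructor <;> linarith
      · rw [e3]; exact h2.trans hNτ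
      · rw [e2, abs_of_nonpos (by linarith)]; linarith
    · rw [abs_of_neg h0] at hc h4
      have e1 : Tf N (wd n) w = Tf N (wd n) (w + 2 * π) := Tf_congr N _ (Complex.cos_add_two_pi w).symm
      have e2 : (w + 2 * π : ℂ).re = w.re + 2 * π := by simp
      have e3 : (w + 2 * π : ℂ).im = w.im := by simp
      rw [e1]
      refine h _ ?_ ?_ ?_
      · rw [e2, abs_le]; constructor <;> linarith
      · rw [e3]; exact h2.trans hNτ
      · rw [e2, abs_of_nonneg (by linarith)]; linarith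

/-- the error terms -/
lemma err_bd {R : ℝ} (hR : 0 < R) (hR1 : R ≤ 1) : ∃ κ : ℝ, 0 < κ ∧ ∀ m : ℤ, ∃ A : ℝ, 0 < A ∧
    ∀ᶠ N : ℕ in atTop,
      ‖EN N (wd n) m - ∑ p ∈ Icc (-(⌊R / 4 * N / (2 * π)⌋₊ : ℤ)) ⌊R / 4 * N / (2 * π)⌋₊,
          deriv (fun χ => wE N m χ * Tf N (wd n) χ) (2 * π * p / N)‖ ≤
      A * N ^ 2 * Real.exp (N * (G0 n - κ)) := by
  have hπ := Real.pi_gt_three
  obtain ⟨κ₁, τ, hκ₁, hτ, F2⟩ := Tf_far (n := n) hCJ (show 0 < R / 8 by positivity)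
  obtain ⟨κ₂, hκ₂, F3⟩ := Thi_bd (n := n) hCJ
  set κ := min κ₁ κ₂ with hκ
  have hκ0 : 0 < κ := by positivity
  refine ⟨κ, hκ0, fun m => ?_⟩
  set W : ℝ := Real.exp (1 + 2 * |(m : ℝ)|) with hW
  have hW0 : 0 < W := Real.exp_pos _
  refine ⟨2 * |(m : ℝ)| * W + W, by positivity, ?_⟩
  have t1 : ∀ᶠ N : ℕ in atTop, 1 / (N : ℝ) ≤ min (R / 8) τ := by
    have := tendsto_one_div_atTop_nhds_zero_nat (𝕜 := ℝ)
    exact (this.eventually_lt_const (u := min (R / 8) τ) (by positivity)).mono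
      fun N hN => hN.le
  filter_upwards [F2, F3, t1, eventually_ge_atTop 2] with N F2 F3 t1 hN2
  have hN0 : 0 < N := by omega
  have hN' : (0 : ℝ) < N := by exact_mod_cast hN0
  have hN1 : (1 : ℝ) ≤ N := by exact_mod_cast hN0
  have tR : 1 / (N : ℝ) ≤ R / 8 := t1.trans (min_le_left _ _)
  have tτ : 1 / (N : ℝ) ≤ τ := t1.trans (min_le_right _ _)
  set P : ℕ := ⌊R / 4 * N / (2 * π)⌋₊ with hP
  have hPle : (P : ℝ) ≤ R / 4 * N / (2 * π) := Nat.floor_le (by positivity)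
  have hPgt : R / 4 * N / (2 * π) < P + 1 := Nat.lt_floor_add_one _
  have hP2 : 2 * P < N := by
    have h1 : (2 * P : ℝ) < N := by
      have h2 : R / 4 * N / (2 * π) ≤ N / 24 := by
        rw [div_le_div_iff₀ (by positivity) (by norm_num)]
        nlinarith
      linarith
    exact_mod_cast h1
  set E3 : ℝ := Real.exp (N * (G0 n - κ)) with hE3
  have hE1 : Real.exp (N * (G0 n - κ₂)) ≤ E3 := by
    refine Real.exp_le_exp.2 (mul_le_mul_of_nonneg_left ?_ hN'.le)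
    have : κ ≤ κ₂ := min_le_right _ _
    linarith
  have hE2 : Real.exp (N * (G0 n - κ₁)) ≤ E3 := by
    refine Real.exp_le_exp.2 (mul_le_mul_of_nonneg_left ?_ hN'.le)
    have : κ ≤ κ₁ := min_le_left _ _
    linarith
  rw [EN_eq N hN0, ← sum_filter_add_sum_filter_not (range N) (fun p => |rp N p| ≤ (P : ℤ)),
    sum_near N P hP2]
  have hdec : (∑ q ∈ Icc (-(P : ℤ)) P, gN N (wd n) m q + ∑ p ∈ (range N).filter (fun p => ¬ |rp N p| ≤ (P : ℤ)),
      gN N (wd n) m (rp N p) + ∑ p ∈ range N, rN N (wd n) m p) -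
        ∑ p ∈ Icc (-(P : ℤ)) P, deriv (fun χ => wE N m χ * Tf N (wd n) χ) (2 * π * p / N) =
      ∑ p ∈ range N, rN N (wd n) m p + ∑ p ∈ (range N).filter (fun p => ¬ |rp N p| ≤ (P : ℤ)),
      gN N (wd n) m (rp N p) := by
    have : ∑ q ∈ Icc (-(P : ℤ)) P, gN N (wd n) m q =
        ∑ p ∈ Icc (-(P : ℤ)) P, deriv (fun χ => wE N m χ * Tf N (wd n) χ) (2 * π * p / N) := rfl
    rw [this]
    ring
  rw [hdec]
  have hchi : ∀ p : ℕ, p < N → |(2 * π * p / N : ℂ).re| ≤ 2 * π ∧ |(2 * π * p / N : ℂ).im| ≤ 1 / N := by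
    intro p hp
    have e2 : ((2 : ℂ) * π * p / N) = ((2 * π * p / N : ℝ) : ℂ) := by push_cast; rfl
    rw [e2, Complex.ofReal_re, Complex.ofReal_im, abs_zero]
    refine ⟨?_, by positivity⟩
    rw [abs_of_nonneg (by positivity), div_le_iff₀ hN']
    have : (p : ℝ) ≤ N := by exact_mod_cast hp.le
    have := Real.pi_pos
    gcongr
  have hr : ∀ p ∈ range N, ‖rN N (wd n) m p‖ ≤ 2 * |(m : ℝ)| * W * N * E3 := by
    intro p hp
    rw [mem_range] at hp
    have hwp := wE_bd N (by omega) m _ (hchi p hp).1 (hchi p hp).2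
    have gen : ∀ t : ℂ, ‖t‖ ≤ E3 → ‖2 * Complex.I * m * N * (wE N m (2 * π * p / N) * t)‖ ≤
        2 * |(m : ℝ)| * W * N * E3 := by
      intro t ht
      have e : ‖2 * Complex.I * m * N * (wE N m (2 * π * p / N) * t)‖ =
          2 * |(m : ℝ)| * N * (‖wE N m (2 * π * p / N)‖ * ‖t‖) := by
        rw [norm_mul, norm_mul, norm_mul, norm_mul, norm_mul, Complex.norm_I, Complex.norm_intCast]
        simp
      rw [e]
      have : ‖wE N m (2 * π * p / N)‖ * ‖t‖ ≤ W * E3 :=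
        mul_le_mul hwp ht (norm_nonneg _) hW0.le
      calc 2 * |(m : ℝ)| * N * (‖wE N m (2 * π * p / N)‖ * ‖t‖) ≤ 2 * |(m : ℝ)| * N * (W * E3) := by
            gcongr
        _ = _ := by ring
    unfold rN
    split_ifs with h
    · rw [norm_neg]
      exact gen _ (((F3 p hp).1 (by omega)).trans hE1)
    · exact gen _ (((F3 p hp).2 (by omega)).trans hE1)
  have hs1 : ‖∑ p ∈ range N, rN N (wd n) m p‖ ≤ 2 * |(m : ℝ)| * W * N ^ 2 * E3 := by
    refine (norm_sum_le_of_le _ hr).trans ?_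
    rw [sum_const, card_range, nsmul_eq_mul]
    apply le_of_eq
    ring
  have hw2 : ∀ (x : ℝ) (w : ℂ), |x| ≤ π → ‖w - (x : ℂ)‖ = 1 / N → ‖wE N m w‖ ≤ W := by
    intro x w hx hw
    obtain ⟨h1, h2⟩ := near_pt hw
    refine wE_bd N (by omega) m w ?_ h2
    have h4 : |w.re| ≤ |x| + 1 / N := by
      have := abs_sub_abs_le_abs_sub w.re x
      linarith
    linarith
  have hs2 : ‖∑ p ∈ (range N).filter (fun p => ¬ |rp N p| ≤ (P : ℤ)), gN N (wd n) m (rp N p)‖ ≤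
      W * N ^ 2 * E3 := by
    have hg : ∀ p ∈ (range N).filter (fun p => ¬ |rp N p| ≤ (P : ℤ)), ‖gN N (wd n) m (rp N p)‖ ≤
        W * N * E3 := by
      intro p hp
      rw [mem_filter, mem_range] at hp
      obtain ⟨hp1, hp2⟩ := hp
      have hq1 : (P : ℤ) + 1 ≤ |rp N p| := by omega
      have hq2 : 2 * |rp N p| ≤ N := by
        unfold rp
        split_ifs with h
        · rw [abs_of_nonneg (by omega)]; omega
        · rw [abs_of_neg (by omega)]; omega
      set x : ℝ := 2 * π * (rp N p : ℝ) / N with hx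
      have hxc : (2 * π * ((rp N p : ℤ) : ℂ) / N : ℂ) = (x : ℂ) := by rw [hx]; push_cast; rfl
      have hqr1 : ((P : ℝ) + 1) ≤ |(rp N p : ℝ)| := by exact_mod_cast hq1
      have hqr2 : 2 * |(rp N p : ℝ)| ≤ N := by exact_mod_cast hq2
      have hxa : |x| = 2 * π * |(rp N p : ℝ)| / N := by
        rw [hx, abs_div, abs_mul, abs_of_pos (by positivity : (0 : ℝ) < 2 * π), abs_of_pos hN']
      have hx1 : |x| ≤ π := by
        rw [hxa, div_le_iff₀ hN']
        nlinarith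
      have hx2 : R / 4 ≤ |x| := by
        rw [hxa, le_div_iff₀ hN']
        have h6 : R / 4 * N / (2 * π) ≤ |(rp N p : ℝ)| := by linarith
        rw [div_le_iff₀ (by positivity)] at h6
        linarith
      unfold gN
      rw [hxc]
      have h7 : ∀ w, ‖w - (x : ℂ)‖ = 1 / (N : ℝ) → ‖wE N m w * Tf N (wd n) w‖ ≤ W * E3 := by
        intro w hw
        rw [norm_mul]
        refine mul_le_mul (hw2 x w hx1 hw) ?_ (norm_nonneg _) hW0.le
        exact far_circ (by omega : 1 ≤ N) hR hR1 tR tτ (fun χ a b c => (F2 χ a b c).trans hE2) hx2 hx1 hw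
      have h9 := cauchy ((wE_diff N m).mul (Tf_diff N (wd n))) (x : ℂ) (one_div_pos.2 hN') h7
      refine h9.trans ?_
      rw [div_div_eq_mul_div, div_one]
      linarith
    refine (norm_sum_le_of_le _ hg).trans ?_
    rw [sum_const, nsmul_eq_mul]
    have hcard : (((range N).filter (fun p => ¬ |rp N p| ≤ (P : ℤ))).card : ℝ) ≤ N := by
      have := card_filter_le (range N) (fun p => ¬ |rp N p| ≤ (P : ℤ))
      rw [card_range] at this
      exact_mod_cast this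
    calc _ ≤ (N : ℝ) * (W * N * E3) := by
          have : 0 ≤ W * N * E3 := by positivity
          gcongr
      _ = _ := by ring
  refine (norm_add_le _ _).trans ?_
  have : (2 * |(m : ℝ)| * W + W) * N ^ 2 * E3 =
    2 * |(m : ℝ)| * W * N ^ 2 * E3 + W * N ^ 2 * E3 := by ring
  rw [this]
  linarith

/-- a rectangle on which `S_CHI` applies -/
lemma exists_R (n : ℕ) [NeZero n] : ∃ R c B : ℝ, 0 < R ∧ R ≤ 1 ∧ 0 < c ∧
    DifferentiableOn ℂ (Gv n) (Rc R R) ∧ (∀ z ∈ Rc R R, Gv n (-z) = Gv n z) ∧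
    (∀ z ∈ Rc R R, ‖Gv n z‖ ≤ B ∧ (deriv (deriv (Gv n)) z).re ≤ -c ∧ G0 n / 2 ≤ (Gv n z).re) ∧
    MW (fun N => Tf N (wd n)) (Gv n) (Rc R R) ∧
    (∀ z ∈ Rc R R, AnalyticAt ℂ (Gv n) z) := by
  obtain ⟨R₀, hR₀, hMW⟩ := Tf_MW (n := n) hCJ
  have hnn : (0 : ℝ) < n := by exact_mod_cast Nat.pos_of_ne_zero (NeZero.ne n)
  have hπ := Real.pi_pos
  set c : ℝ := n / (π * √3) / 2 with hc
  have hc0 : 0 < c := by positivity
  have hG : Tendsto (fun χ : ℂ => (Gv n χ).re) (𝓝 0) (𝓝 (Gv n 0).re) :=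
    (Complex.continuous_re.tendsto _).comp (Gv_an (n := n)).continuousAt.tendsto
  have c2 : ∀ᶠ χ₀ : ℂ in 𝓝 0, G0 n / 2 < (Gv n χ₀).re :=
    hG.eventually_const_lt (by rw [Gv_zero_re]; have := Gv_pos (n := n); rw [Gv_zero_re] at this; linarith)
  have c3 : ∀ᶠ χ₀ : ℂ in 𝓝 0, ‖Gv n χ₀‖ < ‖Gv n 0‖ + 1 :=
    ((Gv_an (n := n)).continuousAt.tendsto.norm).eventually_lt_const (by linarith)
  have c4 : ∀ᶠ χ₀ : ℂ in 𝓝 0, (deriv (deriv (Gv n)) χ₀).re < -c := by
    have h1 : Tendsto (fun χ => (deriv (deriv (Gv n)) χ).re) (𝓝 0) (𝓝 (deriv (deriv (Gv n)) 0).re) :=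
      (Complex.continuous_re.tendsto _).comp ((Gv_an (n := n)).deriv.deriv).continuousAt.tendsto
    refine h1.eventually_lt_const ?_
    rw [Gv_deriv2, Complex.ofReal_re, hc]
    have : 0 < n / (π * √3) := by positivity
    linarith
  obtain ⟨r, hr, hb⟩ := Metric.eventually_nhds_iff_ball.1
    (((c2.and c3).and (c4.and (Gv_even (n := n)))).and (Gv_an (n := n)).eventually_analyticAt)
  set R : ℝ := min (min R₀ 1) (r / 2) with hR
  have hR0 : 0 < R := by positivity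
  have hsub : ∀ z ∈ Rc R R, z ∈ ball (0 : ℂ) r := by
    intro z hz
    rw [mem_ball_zero_iff]
    have := Complex.norm_le_abs_re_add_abs_im z
    have h1 := hz.1
    have h2 := hz.2
    have h3 : R ≤ r / 2 := min_le_right _ _
    linarith
  refine ⟨R, c, ‖Gv n 0‖ + 1, hR0, (min_le_left _ _).trans (min_le_right _ _), hc0, ?_, ?_, ?_,
    hMW R hR0 ((min_le_left _ _).trans (min_le_left _ _)), ?_⟩
  · exact fun z hz => (hb z (hsub z hz)).2.differentiableAt.differentiableWithinAt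
  · exact fun z hz => (hb z (hsub z hz)).1.2.2
  · exact fun z hz => ⟨(hb z (hsub z hz)).1.1.2.le, (hb z (hsub z hz)).1.2.1.le, (hb z (hsub z hz)).1.1.1.le⟩
  · exact fun z hz => (hb z (hsub z hz)).2

/-- the growth rate of the coloured Jones polynomials -/
theorem main_limit (n : ℕ) [NeZero n] : ∃ C M : ℝ, 0 < C ∧ 0 < M ∧ ∀ m : ℤ, M ≤ |(m : ℝ)| →
    ∃ z : ℂ, 0 < z.im ∧ ‖z‖ ≤ C / |(m : ℝ)| ∧ Complex.I * m * z / π + Complex.I + deriv (Gv n) z = 0 ∧
      ‖Complex.I * m * z ^ 2 / (2 * π) + Complex.I * z + Gv n z - Gv n 0‖ ≤ C / |(m : ℝ)| ∧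
      Tendsto (fun N : ℕ => Real.log ‖Pool.Agent.H550R3.Jones.cjones N 2 (ftw m ++ bw (wd n)) (vN N)‖ / N)
        atTop (𝓝 (Complex.I * m * z ^ 2 / (2 * π) + Complex.I * z + Gv n z).re) := by
  obtain ⟨R, c, B, hR, hR1, hc, hGd, hGe, hGb, hMW, -⟩ := exists_R n
  have hG0 : 0 < G0 n := by have := Gv_pos (n := n); rwa [Gv_zero_re] at this
  obtain ⟨C, M, hC, hM, H⟩ := Pool.Agent.Y391.CB.chi R c B (G0 n / 2) hR hR1 hc (half_pos hG0)
  obtain ⟨κ, hκ, herr⟩ := err_bd (n := n) hR hR1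
  set μ : ℝ := min κ (G0 n) / 2 with hμ
  have hμ0 : 0 < μ := by positivity
  have hμ1 : μ ≤ κ / 2 := by
    have : min κ (G0 n) ≤ κ := min_le_left _ _
    rw [hμ]; linarith
  have hμ2 : μ ≤ G0 n / 2 := by
    have : min κ (G0 n) ≤ G0 n := min_le_right _ _
    rw [hμ]; linarith
  refine ⟨C, max M (C / (μ / 2) + 1), hC, lt_of_lt_of_le hM (le_max_left _ _), fun m hm => ?_⟩
  have hmM : M ≤ |(m : ℝ)| := (le_max_left _ _).trans hm
  have hm0 : 0 < |(m : ℝ)| := lt_of_lt_of_le hM hmM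
  have hmC : C / |(m : ℝ)| ≤ μ / 2 := by
    have h1 : C / (μ / 2) + 1 ≤ |(m : ℝ)| := (le_max_right _ _).trans hm
    have h2 : C / (μ / 2) ≤ |(m : ℝ)| := by linarith
    rw [div_le_iff₀ (by positivity)] at h2
    rw [div_le_iff₀ hm0]
    linarith
  obtain ⟨z, hz, hzim, hzn, hcrit, hval, hlim⟩ := H (fun N => Tf N (wd n)) (Gv n)
    (fun N => Tf_diff N _) (fun N z => Tf_congr N _ (Complex.cos_neg z)) hGd hGe hGb hMW m hmM
  refine ⟨z, hzim, hzn, hcrit, hval, ?_⟩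
  set V : ℝ := (Complex.I * m * z ^ 2 / (2 * π) + Complex.I * z + Gv n z).re with hV
  have hV1 : |V - G0 n| ≤ μ / 2 := by
    have h2 := Complex.abs_re_le_norm
      (Complex.I * m * z ^ 2 / (2 * π) + Complex.I * z + Gv n z - Gv n 0)
    rw [Complex.sub_re, Gv_zero_re] at h2
    exact h2.trans (hval.trans hmC)
  have hVlo := (abs_le.1 hV1).1
  have hVpos : 0 < V := by linarith
  obtain ⟨A, hA, herr⟩ := herr m
  have hfin := comb (E := fun N => EN N (wd n) m) hVpos (show 0 < μ / 4 by positivity) hlim (by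
    have hbig : ∀ᶠ N : ℕ in atTop, A * (N : ℝ) ^ 2 ≤ Real.exp (N * (μ / 4)) := by
      have h1 := (isLittleO_pow_exp_pos_mul_atTop 2 (show 0 < μ / 4 by positivity)).bound
        (show (0 : ℝ) < 1 / A by positivity)
      have h2 := tendsto_natCast_atTop_atTop (R := ℝ) |>.eventually h1
      filter_upwards [h2] with N hN
      rw [Real.norm_of_nonneg (by positivity), Real.norm_of_nonneg (by positivity), one_div,
        ← div_eq_inv_mul, le_div_iff₀ hA] at hN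
      rw [mul_comm (N : ℝ) (μ / 4), mul_comm A]
      exact hN
    filter_upwards [herr, hbig] with N herr hbig
    refine herr.trans ?_
    calc A * N ^ 2 * Real.exp (N * (G0 n - κ))
        ≤ Real.exp (N * (μ / 4)) * Real.exp (N * (G0 n - κ)) := by gcongr
      _ = Real.exp (N * (G0 n - κ + μ / 4)) := by
          rw [← Real.exp_add]; congr 1; ring
      _ ≤ Real.exp (N * (V - μ / 4)) := by
          refine Real.exp_le_exp.2 (mul_le_mul_of_nonneg_left ?_ (Nat.cast_nonneg N))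
          linarith)
  refine hfin.congr' ?_
  filter_upwards [eventually_ge_atTop 2] with N hN
  have hne : wd n ≠ [] := by
    rw [Ne, List.replicate_eq_nil_iff]
    exact NeZero.ne n
  rw [exact_formula N (wd n) m hN hne]
  rfl

end Run7.h260.VC
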