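import Pool.Agent.Run7.h260.VC.F3
import Pool.Agent.Y833.CB.Main3

/-!
# The growth of the traces
-/

set_option autoImplicit false

namespace Run7.h260.VC

open Finset Filter Topology Metric Pool.Agent.W711.HT Pool.Agent.Y472 Pool.Agent.Y472.K
open GapVol (lob)
open scoped Real

/-- `6 n Λ(π / 3) / π` -/
noncomputable def G0 (n : ℕ) : ℝ := 6 * n * lob (π / 3) / π

/-- the matrix entries, for all `N` -/
def HCJ : Prop := ∀ N : ℕ, 2 ≤ N → ∃ u u' : ℂ, ‖u‖ = 1 ∧ ‖u'‖ = 1 ∧ CJC N u u'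

lemma pow_absorb (n : ℕ) {κ : ℝ} (hκ : 0 < κ) : ∀ᶠ N : ℕ in atTop,
    2 * (N : ℝ) ^ (2 * n) ≤ Real.exp (N * κ) := by
  have h1 := (isLittleO_pow_exp_pos_mul_atTop (2 * n) hκ).bound (show (0 : ℝ) < 1 / 2 by norm_num)
  have h2 := tendsto_natCast_atTop_atTop (R := ℝ) |>.eventually h1
  filter_upwards [h2] with N hN
  rw [Real.norm_of_nonneg (by positivity), Real.norm_of_nonneg (by positivity)] at hN
  rw [mul_comm (N : ℝ) κ]
  linarith

variable {n : ℕ} [NeZero n]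

lemma sum_bd {N : ℕ} {S : Finset ((Fin n → ℕ) × (Fin n → ℕ))} (hS : S ⊆ cfg n N)
    {F : (Fin n → ℕ) × (Fin n → ℕ) → ℂ} {B : ℝ} (hB : 0 ≤ B) (h : ∀ c ∈ S, ‖F c‖ ≤ B) :
    ‖∑ c ∈ S, F c‖ ≤ (N : ℝ) ^ (2 * n) * B := by
  refine (norm_sum_le_of_le _ h).trans ?_
  rw [sum_const, nsmul_eq_mul]
  refine mul_le_mul_of_nonneg_right ?_ hB
  exact (Nat.cast_le.2 (card_le_card hS)).trans (card_cfg n N)

lemma Tf_sum {N : ℕ} {u u' : ℂ} (hc : CJC N u u') (χ : ℂ) :
    Tf N (wd n) χ = (u * u') ^ n * ∑ c ∈ cfg n N, co n N c.1 c.2 * Qc n N c.1 c.2 χ :=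
  Pool.Agent.Y941.TK.Tf_eq hc χ

omit [NeZero n] in
lemma norm_uu {u u' : ℂ} (hu : ‖u‖ = 1) (hu' : ‖u'‖ = 1) : ‖(u * u') ^ n‖ = 1 := by
  rw [norm_pow, norm_mul, hu, hu', mul_one, one_pow]

/-- away from `χ = 0` -/
theorem Tf_far (hCJ : HCJ) {ρ : ℝ} (hρ : 0 < ρ) : ∃ κ τ : ℝ, 0 < κ ∧ 0 < τ ∧ ∀ᶠ N : ℕ in atTop,
    ∀ χ : ℂ, |χ.re| ≤ π → |χ.im| ≤ τ → ρ ≤ |χ.re| →
      ‖Tf N (wd n) χ‖ ≤ Real.exp (N * (G0 n - κ)) := by
  obtain ⟨κ, τ, hκ, hτ, h⟩ := far_bd n hρ
  refine ⟨κ / 2, τ, half_pos hκ, hτ, ?_⟩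
  filter_upwards [h, pow_absorb n (half_pos hκ), eventually_ge_atTop 2] with N h hp hN χ h1 h2 h3
  obtain ⟨u, u', hu, hu', hc⟩ := hCJ N hN
  rw [Tf_sum hc, norm_mul, norm_uu hu hu', one_mul]
  refine (sum_bd (Finset.Subset.refl _) (Real.exp_pos _).le fun c hc =>
    h c.1 c.2 (mem_cfg.1 hc) χ h1 h2 (Or.inl h3)).trans ?_
  have h5 : (N : ℝ) ^ (2 * n) ≤ Real.exp (N * (κ / 2)) := by
    have : 0 ≤ (N : ℝ) ^ (2 * n) := by positivity
    linarith
  calc (N : ℝ) ^ (2 * n) * Real.exp (N * (6 * n * lob (π / 3) / π - κ))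
      ≤ Real.exp (N * (κ / 2)) * Real.exp (N * (6 * n * lob (π / 3) / π - κ)) := by gcongr
    _ = _ := by
        rw [← Real.exp_add]
        congr 1
        unfold G0
        ring

/-- the blocks -/
theorem Thi_bd (hCJ : HCJ) : ∃ κ : ℝ, 0 < κ ∧ ∀ᶠ N : ℕ in atTop, ∀ p < N,
    (2 * p ≤ N → ‖Thi N (wd n) p‖ ≤ Real.exp (N * (G0 n - κ))) ∧
    (N ≤ 2 * p → ‖Tf N (wd n) (2 * π * p / N) - Thi N (wd n) p‖ ≤ Real.exp (N * (G0 n - κ))) := by
  obtain ⟨κ, τ, hκ, hτ, h⟩ := far_bd n (show (0 : ℝ) < 1 / 6 by norm_num)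
  refine ⟨κ / 2, half_pos hκ, ?_⟩
  have hpi := Real.pi_pos
  filter_upwards [h, pow_absorb n (half_pos hκ), eventually_ge_atTop 2] with N h hpw hN p hp
  have hN' : (0 : ℝ) < N := by
    have : 0 < N := by omega
    exact_mod_cast this
  obtain ⟨u, u', hu, hu', hc⟩ := hCJ N hN
  have h5 : (N : ℝ) ^ (2 * n) ≤ Real.exp (N * (κ / 2)) := by
    have : 0 ≤ (N : ℝ) ^ (2 * n) := by positivity
    linarith
  have hfin : (N : ℝ) ^ (2 * n) * Real.exp (N * (6 * n * lob (π / 3) / π - κ)) ≤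
      Real.exp (N * (G0 n - κ / 2)) := by
    calc (N : ℝ) ^ (2 * n) * Real.exp (N * (6 * n * lob (π / 3) / π - κ))
      ≤ Real.exp (N * (κ / 2)) * Real.exp (N * (6 * n * lob (π / 3) / π - κ)) := by gcongr
    _ = _ := by
        rw [← Real.exp_add]
        congr 1
        unfold G0
        ring
  have hmk : ∀ k, ‖mk N p k‖ ≤ 1 := by
    intro k
    unfold mk
    split_ifs <;> simp
  have hprod : ∀ c : (Fin n → ℕ) × (Fin n → ℕ), ‖∏ r, mk N p (c.2 r) * mk N p (c.1 (r + 1))‖ ≤ 1 := by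
    intro c
    rw [norm_prod]
    refine Finset.prod_le_one (fun _ _ => norm_nonneg _) fun r _ => ?_
    rw [norm_mul]
    exact mul_le_one₀ (hmk _) (norm_nonneg _) (hmk _)
  have hprod01 : ∀ c : (Fin n → ℕ) × (Fin n → ℕ), (∏ r, mk N p (c.2 r) * mk N p (c.1 (r + 1))) ≠ 0 →
      (∏ r, mk N p (c.2 r) * mk N p (c.1 (r + 1))) = 1 := by
    intro c hc0
    rw [Finset.prod_ne_zero_iff] at hc0
    refine Finset.prod_eq_one fun r hr => ?_
    have := hc0 r hr
    unfold mk at this ⊢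
    split_ifs at this ⊢ <;> simp_all
  have hdiv : ∀ {a b : ℕ}, a ≤ b → ((a : ℝ) / N ≤ (b : ℝ) / N) := fun hab =>
    div_le_div_of_nonneg_right (by exact_mod_cast hab) hN'.le
  constructor
  · intro h2p
    rw [Thi_eq hc, norm_mul, norm_uu hu hu', one_mul]
    refine (sum_bd (Finset.Subset.refl _) (Real.exp_pos _).le fun c hcc => ?_).trans hfin
    rw [norm_mul]
    by_cases h0 : (∏ r, mk N p (c.2 r) * mk N p (c.1 (r + 1))) = 0
    · rw [h0, norm_zero, zero_mul]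
      exact (Real.exp_pos _).le
    · have h1 : mk N p (c.2 0) ≠ 0 := by
        have h0' := Finset.prod_ne_zero_iff.1 (show (∏ r, mk N p (c.2 r) * mk N p (c.1 (r + 1))) ≠ 0 from h0)
        exact left_ne_zero_of_mul (h0' 0 (mem_univ _))
      have ep : (2 * π * (p : ℂ) / N : ℂ) = ((2 * π * p / N : ℝ) : ℂ) := by push_cast; rfl
      have h2 : N ≤ c.2 0 + p := by
        unfold mk at h1
        by_contra hcon
        rw [if_neg hcon] at h1
        exact h1 rfl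
      have h3 := h c.1 c.2 (mem_cfg.1 hcc) (2 * π * p / N) (by
        rw [ep, Complex.ofReal_re, abs_of_nonneg (by positivity), div_le_iff₀ hN']
        have : (2 * p : ℝ) ≤ N := by exact_mod_cast h2p
        nlinarith) (by
        rw [ep, Complex.ofReal_im, abs_zero]
        exact hτ.le) (Or.inr ⟨0, Or.inr (by
          have h4 : (N : ℝ) ≤ 2 * (c.2 0 : ℝ) := by
            have : N ≤ 2 * c.2 0 := by omega
            exact_mod_cast this
          have h6 : (1 : ℝ) / 2 ≤ (c.2 0 : ℝ) / N := by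
            rw [le_div_iff₀ hN']
            linarith
          rw [abs_of_nonneg (by linarith)]
          linarith)⟩)
      calc _ ≤ 1 * ‖co n N c.1 c.2 * Qc n N c.1 c.2 (2 * π * p / N)‖ := by
            gcongr
            exact hprod c
        _ ≤ _ := by rw [one_mul]; exact h3
  · intro h2p
    rw [Thi_eq hc, Tf_sum hc, ← mul_sub, ← sum_sub_distrib, norm_mul, norm_uu hu hu', one_mul]
    refine (sum_bd (Finset.Subset.refl _) (Real.exp_pos _).le fun c hcc => ?_).trans hfin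
    by_cases h0 : (∏ r, mk N p (c.2 r) * mk N p (c.1 (r + 1))) = 1
    · rw [h0, one_mul, sub_self, norm_zero]
      exact (Real.exp_pos _).le
    · have h0' : (∏ r, mk N p (c.2 r) * mk N p (c.1 (r + 1))) = 0 := by
        by_contra hcon
        exact h0 (hprod01 c hcon)
      rw [h0', zero_mul, sub_zero]
      by_cases h1 : co n N c.1 c.2 * Qc n N c.1 c.2 (2 * π * p / N) = 0
      · rw [h1, norm_zero]
        exact (Real.exp_pos _).le
      have h2 := (mixed (mem_cfg.1 hcc) hp (by omega) h1 h0 0).1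
      have hcos : Complex.cos (2 * π * p / N) = Complex.cos (2 * π * p / N - 2 * π) :=
        (Complex.cos_sub_two_pi _).symm
      rw [Qc_congr hcos]
      have e : (2 * π * p / N - 2 * π : ℂ) = ((2 * π * p / N - 2 * π : ℝ) : ℂ) := by push_cast; rfl
      have hpN : (p : ℝ) ≤ N := by exact_mod_cast hp.le
      refine h c.1 c.2 (mem_cfg.1 hcc) (2 * π * p / N - 2 * π) ?_ ?_ (Or.inr ⟨0, Or.inl ?_⟩)
      · rw [e, Complex.ofReal_re, abs_le]
        have h3 : (N : ℝ) ≤ 2 * p := by exact_mod_cast h2p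
        have h4 : π ≤ 2 * π * p / N := by
          rw [le_div_iff₀ hN']
          nlinarith
        have h6 : 2 * π * p / N ≤ 2 * π := by
          rw [div_le_iff₀ hN']
          nlinarith
        constructor <;> linarith
      · rw [e, Complex.ofReal_im, abs_zero]
        exact hτ.le
      · have h4 : 2 * (c.1 0 : ℝ) ≤ N := by
          have : 2 * c.1 0 ≤ N := by omega
          exact_mod_cast this
        have h6 : (c.1 0 : ℝ) / N ≤ 1 / 2 := by
          rw [div_le_iff₀ hN']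
          linarith
        rw [abs_sub_comm, abs_of_nonneg (by linarith)]
        linarith

/-- the configurations outside the neighbourhood -/
lemma rest_far {ρ : Ix n → ℝ} (hρ : ∀ i, 0 < ρ i) : ∃ κ τ : ℝ, 0 < κ ∧ 0 < τ ∧ ∀ᶠ N : ℕ in atTop,
    ∀ χ : ℂ, |χ.re| ≤ π → |χ.im| ≤ τ →
      ‖∑ c ∈ cfg n N, co n N c.1 c.2 * Qc n N c.1 c.2 χ - ∑ c ∈ NC n ρ N, co n N c.1 c.2 * Qc n N c.1 c.2 χ‖ ≤
        Real.exp (N * (G0 n - κ)) := by
  classical
  obtain ⟨ρ', hρ', hle⟩ : ∃ ρ' : ℝ, 0 < ρ' ∧ ∀ i, ρ' ≤ ρ i := by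
    obtain ⟨i, _, hi⟩ := Finset.exists_min_image (Finset.univ : Finset (Ix n)) ρ ⟨none, mem_univ _⟩
    exact ⟨ρ i, hρ i, fun j => hi j (mem_univ j)⟩
  obtain ⟨κ, τ, hκ, hτ, h⟩ := far_bd n (half_pos hρ')
  refine ⟨κ / 2, τ, half_pos hκ, hτ, ?_⟩
  have c5 : ∀ᶠ N : ℕ in atTop, 1 / (N : ℝ) < ρ' / 2 :=
    (tendsto_one_div_atTop_nhds_zero_nat (𝕜 := ℝ)).eventually_lt_const (by positivity)
  filter_upwards [h, pow_absorb n (half_pos hκ), eventually_ge_atTop 2, c5] with N h hpw hN hNρ χ h1 h2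
  have hN0 : 0 < N := by omega
  have hN' : (0 : ℝ) < N := by exact_mod_cast hN0
  have hsub : NC n ρ N ⊆ cfg n N := by
    unfold NC
    exact Finset.filter_subset _ _
  rw [← Finset.sum_sdiff hsub, add_sub_cancel_right]
  refine (sum_bd (Finset.sdiff_subset) (Real.exp_pos _).le fun c hc =>
    h c.1 c.2 (mem_cfg.1 (mem_sdiff.1 hc).1) χ h1 h2 (Or.inr ?_)).trans ?_
  · obtain ⟨hc1, hc2⟩ := Finset.mem_sdiff.1 hc
    have hok := mem_cfg.1 hc1
    have hex : ∃ r, ¬ (N - 1 - c.1 r ∈ Ws (1 / 3) (ρ (ai r)) N ∧ c.2 r ∈ Ws (1 / 3) (ρ (bi r)) N) := by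
      by_contra hcon
      push Not at hcon
      apply hc2
      unfold NC
      simp only [mem_filter]
      exact ⟨hc1, hcon⟩
    obtain ⟨r, hr⟩ := hex
    refine ⟨r, ?_⟩
    rw [not_and_or] at hr
    have hpos : 0 < 1 / (N : ℝ) := by positivity
    rcases hr with hr | hr
    · left
      rw [ws_mem hN0, not_and_or, not_le, not_lt] at hr
      have e : ((N - 1 - c.1 r : ℕ) : ℝ) / N = 1 - 1 / N - (c.1 r : ℝ) / N := by
        have := hok.lt r
        rw [show N - 1 - c.1 r = N - (1 + c.1 r) by omega, Nat.cast_sub (by omega)]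
        push_cast
        field_simp
        ring
      rw [e] at hr
      have := hle (ai r)
      rcases hr with hr | hr
      · rw [le_abs]
        left
        linarith
      · rw [le_abs]
        right
        linarith
    · right
      rw [ws_mem hN0, not_and_or, not_le, not_lt] at hr
      have := hle (bi r)
      rcases hr with hr | hr
      · rw [le_abs]
        right
        linarith
      · rw [le_abs]
        left
        linarith
  · have h5 : (N : ℝ) ^ (2 * n) ≤ Real.exp (N * (κ / 2)) := by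
      have : 0 ≤ (N : ℝ) ^ (2 * n) := by positivity
      linarith
    calc (N : ℝ) ^ (2 * n) * Real.exp (N * (6 * n * lob (π / 3) / π - κ))
        ≤ Real.exp (N * (κ / 2)) * Real.exp (N * (6 * n * lob (π / 3) / π - κ)) := by gcongr
      _ = _ := by
          rw [← Real.exp_add]
          congr 1
          unfold G0
          ring

lemma Gv_zero_re : (Gv n 0).re = G0 n := by
  rw [Gv_zero, Complex.ofReal_re]
  rfl

/-- the growth of the trace along sequences -/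
theorem Tf_lim (hCJ : HCJ) : ∀ᶠ χ₀ in 𝓝 (0 : ℂ), ∀ χ : ℕ → ℂ, Tendsto χ atTop (𝓝 χ₀) →
    Tendsto (fun N : ℕ => Real.log ‖Tf N (wd n) (χ N)‖ / N) atTop (𝓝 (Gv n χ₀).re) := by
  obtain ⟨ρ, hρ, hnear⟩ := near_main n
  obtain ⟨κ, τ, hκ, hτ, hrest⟩ := rest_far (n := n) fun i => (hρ i).1
  have hpi := Real.pi_pos
  have c1 : ∀ᶠ χ₀ : ℂ in 𝓝 0, ‖χ₀‖ < min π τ := by
    have : Tendsto (fun χ : ℂ => ‖χ‖) (𝓝 0) (𝓝 ‖(0 : ℂ)‖) := tendsto_id.norm
    rw [norm_zero] at this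
    exact this.eventually_lt_const (by positivity)
  have hG : Tendsto (fun χ : ℂ => (Gv n χ).re) (𝓝 0) (𝓝 (Gv n 0).re) :=
    (Complex.continuous_re.tendsto _).comp (Gv_an (n := n)).continuousAt.tendsto
  have c2 : ∀ᶠ χ₀ : ℂ in 𝓝 0, 0 < (Gv n χ₀).re := hG.eventually_const_lt Gv_pos
  have c3 : ∀ᶠ χ₀ : ℂ in 𝓝 0, G0 n - κ / 2 < (Gv n χ₀).re :=
    hG.eventually_const_lt (by rw [Gv_zero_re]; linarith)
  filter_upwards [hnear, c1, c2, c3] with χ₀ hn c1 c2 c3 χ hχ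
  have hL := hn χ hχ
  refine Pool.Agent.Y833.CB.comb c2 (half_pos hκ) (S := fun N => Tf N (wd n) (χ N) -
    (Tf N (wd n) (χ N) - (if h : 2 ≤ N then ((hCJ N h).choose * (hCJ N h).choose_spec.choose) ^ n else 1) *
      ∑ c ∈ NC n ρ N, co n N c.1 c.2 * Qc n N c.1 c.2 (χ N))) ?_ ?_
  · refine hL.congr' ?_
    filter_upwards [eventually_ge_atTop 2] with N hN
    rw [sub_sub_cancel, dif_pos hN, norm_mul]
    obtain ⟨a, b, _⟩ := (hCJ N hN).choose_spec.choose_spec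
    rw [norm_uu a b, one_mul]
  · have c4 : ∀ᶠ N : ℕ in atTop, ‖χ N‖ < min π τ := hχ.norm.eventually_lt_const c1
    filter_upwards [hrest, c4, eventually_ge_atTop 2] with N h1 h2 hN
    obtain ⟨a, b, hc⟩ := (hCJ N hN).choose_spec.choose_spec
    rw [dif_pos hN]
    rw [sub_sub_cancel]
    conv_lhs => rw [Tf_sum hc]
    rw [← mul_sub, norm_mul, norm_uu a b, one_mul]
    refine (h1 (χ N) ?_ ?_).trans ?_
    · exact (Complex.abs_re_le_norm _).trans (h2.le.trans (min_le_left _ _))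
    · exact (Complex.abs_im_le_norm _).trans (h2.le.trans (min_le_right _ _))
    · refine Real.exp_le_exp.2 (mul_le_mul_of_nonneg_left (by linarith) (Nat.cast_nonneg N))

/-- the growth of the trace, uniformly -/
theorem Tf_MW (hCJ : HCJ) : ∃ R₀ : ℝ, 0 < R₀ ∧ ∀ R : ℝ, 0 < R → R ≤ R₀ →
    MW (fun N => Tf N (wd n)) (Gv n) (Rc R R) := by
  have hG : Tendsto (fun χ : ℂ => (Gv n χ).re) (𝓝 0) (𝓝 (Gv n 0).re) :=
    (Complex.continuous_re.tendsto _).comp (Gv_an (n := n)).continuousAt.tendsto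
  have c2 : ∀ᶠ χ₀ : ℂ in 𝓝 0, (Gv n 0).re / 2 < (Gv n χ₀).re :=
    hG.eventually_const_lt (by linarith [Gv_pos (n := n)])
  obtain ⟨r, hr, hb⟩ := Metric.eventually_nhds_iff_ball.1
    (((Tf_lim (n := n) hCJ).and c2).and (Gv_an (n := n)).eventually_analyticAt)
  refine ⟨r / 4, by positivity, fun R hR hRr => ?_⟩
  have hsub : Rc R R ⊆ closedBall (0 : ℂ) (r / 2) := by
    intro z hz
    rw [mem_closedBall_zero_iff]
    have := Complex.norm_le_abs_re_add_abs_im z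
    have h1 := hz.1
    have h2 := hz.2
    linarith
  have hsub2 : closedBall (0 : ℂ) (r / 2) ⊆ ball 0 r := closedBall_subset_ball (by linarith)
  have h1 := Pool.Agent.W583.HT.seq ℂ (closedBall (0 : ℂ) (r / 2)) (isCompact_closedBall 0 _)
    (fun N w => Real.log ‖Tf N (wd n) w‖ / N) (fun w => (Gv n w).re)
    (Complex.continuous_re.comp_continuousOn fun w hw =>
      (hb w (hsub2 hw)).2.continuousAt.continuousWithinAt) (by
      intro p p₀ hp₀ _ hp
      exact (hb _ (hsub2 hp₀)).1.1 p hp)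
  have hQp : 0 < (Gv n 0).re / 4 := by linarith [Gv_pos (n := n)]
  intro ε hε
  filter_upwards [h1 ε hε, h1 _ hQp, eventually_ge_atTop 1] with N h2 h3 hN w hw
  have hN' : (0 : ℝ) < N := by exact_mod_cast hN
  have hw' := hsub hw
  constructor
  · intro hcon
    have h4 := h3 w hw'
    simp only [hcon, norm_zero, Real.log_zero, zero_div, zero_sub, abs_neg] at h4
    have h5 := (hb _ (hsub2 hw')).1.2
    have h6 := (abs_le.1 h4).2
    linarith [Gv_pos (n := n)]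
  · have h4 := h2 w hw'
    have e : Real.log ‖Tf N (wd n) w‖ - N * (Gv n w).re =
        N * (Real.log ‖Tf N (wd n) w‖ / N - (Gv n w).re) := by
      field_simp
    show |Real.log ‖Tf N (wd n) w‖ - N * (Gv n w).re| ≤ ε * N
    rw [e, abs_mul, abs_of_pos hN']
    calc (N : ℝ) * |Real.log ‖Tf N (wd n) w‖ / N - (Gv n w).re| ≤ N * ε := by gcongr
      _ = ε * N := mul_comm _ _

end Run7.h260.VC
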