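import Mathlib

/-!
# Elimination of one variable from a potential
-/

set_option autoImplicit false

namespace Run7.h260.VC

open Filter Topology Metric Function
open scoped Real ContDiff

variable {ι : Type} [Fintype ι] [DecidableEq ι]

/-- partial derivative -/
noncomputable def Dp (Q : (ι → ℂ) → ℂ) (i : ι) (x : ι → ℂ) : ℂ := fderiv ℂ Q x (Pi.single i 1)

lemma upd_eq (x : ι → ℂ) (i : ι) (w : ℂ) : update x i w = x + (w - x i) • Pi.single i 1 := by
  funext j
  by_cases h : j = i
  · subst h; simp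
  · simp [h]

lemma slice {Q : (ι → ℂ) → ℂ} {x : ι → ℂ} {i : ι} {w : ℂ}
    (h : DifferentiableAt ℂ Q (update x i w)) :
    HasDerivAt (fun w => Q (update x i w)) (Dp Q i (update x i w)) w := by
  have h1 := h.hasFDerivAt.comp_hasDerivAt w (hasDerivAt_update x i w)
  exact h1

lemma Dp_an {Q : (ι → ℂ) → ℂ} {x : ι → ℂ} (i : ι) (h : AnalyticAt ℂ Q x) :
    AnalyticAt ℂ (Dp Q i) x := by
  exact ((ContinuousLinearMap.apply ℂ ℂ (Pi.single i (1 : ℂ))).analyticAt _).comp h.fderiv

lemma upd_cont (i : ι) : Continuous fun p : (ι → ℂ) × ℂ => update p.1 i p.2 :=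
  continuous_fst.update i continuous_snd

lemma upd_an {om : (ι → ℂ) → ℂ} (i : ι) {x : ι → ℂ} (h : AnalyticAt ℂ om x) :
    AnalyticAt ℂ (fun x : ι → ℂ => update x i (om x)) x := by
  rw [analyticAt_pi_iff]
  intro j
  by_cases hj : j = i
  · subst hj
    simpa using h
  · have : (fun x : ι → ℂ => update x i (om x) j) = fun x => x j := by
      funext y; simp [hj]
    rw [this]
    exact (ContinuousLinearMap.proj (R := ℂ) (φ := fun _ : ι => ℂ) j).analyticAt x

/-- the implicit function theorem in one variable -/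
theorem impl {D : (ι → ℂ) → ℂ} (i : ι) (hD : AnalyticAt ℂ D 0) (h0 : D 0 = 0)
    (h1 : Dp D i 0 ≠ 0) : ∃ om : (ι → ℂ) → ℂ, AnalyticAt ℂ om 0 ∧ om 0 = 0 ∧
      (∀ x w, om (update x i w) = om x) ∧ (∀ᶠ x in 𝓝 0, D (update x i (om x)) = 0) ∧
      ∀ᶠ x in 𝓝 0, D x = 0 → x i = om x := by
  set Φ : (ι → ℂ) → (ι → ℂ) := fun x => update x i (D x) with hΦ
  have hΦ0 : Φ 0 = 0 := by
    simp [hΦ, h0]
  have hΦa : AnalyticAt ℂ Φ 0 := upd_an i hD
  have hΦc : ContDiffAt ℂ ω Φ 0 := hΦa.contDiffAt
  have hd : HasFDerivAt Φ (fderiv ℂ Φ 0) 0 := hΦa.differentiableAt.hasFDerivAt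
  have hco : ∀ h j, fderiv ℂ Φ 0 h j = if j = i then fderiv ℂ D 0 h else h j := by
    intro h j
    have h2 := (hasFDerivAt_pi'.1 hd) j
    by_cases hj : j = i
    · subst hj
      rw [if_pos rfl]
      have e : (fun x => Φ x j) = D := by funext x; simp [hΦ]
      rw [e] at h2
      have := h2.unique hD.differentiableAt.hasFDerivAt
      rw [← this]; rfl
    · rw [if_neg hj]
      have e : (fun x => Φ x j) = fun x => x j := by funext x; simp [hΦ, hj]
      rw [e] at h2
      have := h2.unique (hasFDerivAt_apply (𝕜 := ℂ) j (0 : ι → ℂ))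
      have h3 := congrArg (fun f => f h) this
      exact h3
  have hinj : Injective (fderiv ℂ Φ 0) := by
    rw [injective_iff_map_eq_zero]
    intro h hh
    have h2 : ∀ j, j ≠ i → h j = 0 := by
      intro j hj
      have := hco h j
      rw [if_neg hj, hh] at this
      exact this.symm
    have h3 : h = (h i) • (Pi.single i 1 : ι → ℂ) := by
      funext j
      by_cases hj : j = i
      · subst hj; simp
      · simp [hj, h2 j hj]
    have h4 := hco h i
    rw [if_pos rfl, hh, h3, map_smul] at h4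
    have h5 : h i * Dp D i 0 = 0 := by
      have := h4.symm
      simpa [Dp] using this
    have h6 : h i = 0 := by
      rcases mul_eq_zero.1 h5 with h6 | h6
      · exact h6
      · exact absurd h6 h1
    rw [h3, h6, zero_smul]
  set e : (ι → ℂ) ≃L[ℂ] (ι → ℂ) :=
    (LinearEquiv.ofInjectiveEndo (fderiv ℂ Φ 0 : (ι → ℂ) →ₗ[ℂ] (ι → ℂ)) hinj).toContinuousLinearEquiv
    with he
  have hee : (e : (ι → ℂ) →L[ℂ] (ι → ℂ)) = fderiv ℂ Φ 0 := by
    ext1 h
    rfl
  have hd' : HasFDerivAt Φ (e : (ι → ℂ) →L[ℂ] (ι → ℂ)) 0 := by rw [hee]; exact hd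
  have hn : (ω : WithTop ℕ∞) ≠ 0 := by simp
  set Ψ := hΦc.localInverse hd' hn with hΨ
  have hs := hΦc.hasStrictFDerivAt' hd' hn
  have hΨa : AnalyticAt ℂ Ψ 0 := by
    have := hΦc.to_localInverse hd' hn
    rw [hΦ0] at this
    exact this.analyticAt
  have hΨ0 : Ψ 0 = 0 := by
    have := hΦc.localInverse_apply_image hd' hn
    rwa [hΦ0] at this
  have hr : ∀ᶠ y in 𝓝 0, Φ (Ψ y) = y := by
    have := hs.eventually_right_inverse
    rw [hΦ0] at this
    exact this
  have hl : ∀ᶠ x in 𝓝 0, Ψ (Φ x) = x := hs.eventually_left_inverse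
  have hu0 : Tendsto (fun x : ι → ℂ => update x i 0) (𝓝 0) (𝓝 0) := by
    have h2 : Continuous fun x : ι → ℂ => update x i (0 : ℂ) := continuous_id.update i continuous_const
    have := h2.tendsto 0
    simpa using this
  refine ⟨fun x => Ψ (update x i 0) i, ?_, ?_, ?_, ?_, ?_⟩
  · have h2 : AnalyticAt ℂ (fun x : ι → ℂ => update x i (0 : ℂ)) 0 := upd_an i analyticAt_const
    have h3 : AnalyticAt ℂ (fun x : ι → ℂ => Ψ (update x i 0)) 0 := by
      refine AnalyticAt.fun_comp ?_ h2
      simpa using hΨa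
    exact (analyticAt_pi_iff.1 h3) i
  · simp [hΨ0]
  · intro x w
    simp
  · filter_upwards [hu0.eventually hr] with x hx
    have h2 : ∀ j, j ≠ i → Ψ (update x i 0) j = x j := by
      intro j hj
      have := congrFun hx j
      simpa [hΦ, hj] using this
    have h3 : update x i (Ψ (update x i 0) i) = Ψ (update x i 0) := by
      funext j
      by_cases hj : j = i
      · subst hj; simp
      · simp [hj, h2 j hj]
    rw [h3]
    have := congrFun hx i
    simpa [hΦ] using this
  · filter_upwards [hl] with x hx h2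
    have h3 : Φ x = update x i 0 := by simp [hΦ, h2]
    rw [h3] at hx
    show x i = Ψ (update x i 0) i
    rw [hx]

/-- elimination of one variable -/
theorem pstep {Q : (ι → ℂ) → ℂ} (i : ι) (hQ : AnalyticAt ℂ Q 0) (h0 : Dp Q i 0 = 0)
    (h1 : Dp (Dp Q i) i 0 ≠ 0) : ∃ om : (ι → ℂ) → ℂ, AnalyticAt ℂ om 0 ∧ om 0 = 0 ∧
      (∀ x w, om (update x i w) = om x) ∧ (∀ᶠ x in 𝓝 0, Dp Q i (update x i (om x)) = 0) ∧
      (∀ᶠ x in 𝓝 0, Dp Q i x = 0 → x i = om x) ∧
      AnalyticAt ℂ (fun x => Q (update x i (om x))) 0 ∧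
      ∀ᶠ x in 𝓝 0, fderiv ℂ (fun x => Q (update x i (om x))) x = fderiv ℂ Q (update x i (om x)) := by
  obtain ⟨om, a1, a2, a3, a4, a5⟩ := impl i (Dp_an i hQ) h0 h1
  have hu := upd_an i a1
  have hu0 : update (0 : ι → ℂ) i (om 0) = 0 := by rw [a2]; simp
  refine ⟨om, a1, a2, a3, a4, a5, ?_, ?_⟩
  · refine AnalyticAt.fun_comp ?_ hu
    rw [hu0]
    exact hQ
  · have hc : Tendsto (fun x : ι → ℂ => update x i (om x)) (𝓝 0) (𝓝 0) := by
      have := hu.continuousAt.tendsto
      rwa [hu0] at this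
    filter_upwards [a4, a1.eventually_analyticAt, hc.eventually hQ.eventually_analyticAt]
      with x b1 b2 b3
    have hux := upd_an i b2
    have hd1 : HasFDerivAt (fun x : ι → ℂ => update x i (om x))
        (fderiv ℂ (fun x : ι → ℂ => update x i (om x)) x) x := hux.differentiableAt.hasFDerivAt
    have hd2 := b3.differentiableAt.hasFDerivAt.comp x hd1
    have e1 : fderiv ℂ (fun x => Q (update x i (om x))) x =
        (fderiv ℂ Q (update x i (om x))).comp (fderiv ℂ (fun x : ι → ℂ => update x i (om x)) x) :=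
      hd2.fderiv
    rw [e1]
    ext1 h
    rw [ContinuousLinearMap.comp_apply]
    have e2 : fderiv ℂ (fun x : ι → ℂ => update x i (om x)) x h =
        h + (fderiv ℂ om x h - h i) • (Pi.single i 1 : ι → ℂ) := by
      funext j
      have h2 := (hasFDerivAt_pi'.1 hd1) j
      by_cases hj : j = i
      · subst hj
        have e : (fun x : ι → ℂ => update x j (om x) j) = om := by funext x; simp
        rw [e] at h2
        have h3 := congrArg (fun f => f h) (h2.unique b2.differentiableAt.hasFDerivAt)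
        simp only [ContinuousLinearMap.comp_apply, ContinuousLinearMap.proj_apply] at h3
        rw [h3]
        simp
      · have e : (fun x : ι → ℂ => update x i (om x) j) = fun x => x j := by funext x; simp [hj]
        rw [e] at h2
        have h3 := congrArg (fun f => f h) (h2.unique (hasFDerivAt_apply (𝕜 := ℂ) j x))
        simp only [ContinuousLinearMap.comp_apply, ContinuousLinearMap.proj_apply] at h3
        rw [h3]
        simp [hj]
    rw [e2, map_add, map_smul]
    have : fderiv ℂ Q (update x i (om x)) (Pi.single i 1) = 0 := b1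
    rw [this, smul_zero, add_zero]

end Run7.h260.VC
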