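import Pool.Agent.Run7.h260.VC.E1

/-!
# Elimination of one variable: the real part in the real directions
-/

set_option autoImplicit false

namespace Run7.h260.VC

open Filter Topology Metric Function
open scoped Real

/-- on a vertical line the real part has a minimum at the critical point -/
theorem vert {g g1 g2 : ℂ → ℂ} {w : ℂ}
    (h1 : ∀ s ∈ Set.Icc (0 : ℝ) 1, HasDerivAt g (g1 (w - Complex.I * (s * w.im))) (w - Complex.I * (s * w.im)))
    (h2 : ∀ s ∈ Set.Icc (0 : ℝ) 1, HasDerivAt g1 (g2 (w - Complex.I * (s * w.im))) (w - Complex.I * (s * w.im)))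
    (h3 : ∀ s ∈ Set.Icc (0 : ℝ) 1, (g2 (w - Complex.I * (s * w.im))).re ≤ 0) (h0 : g1 w = 0) :
    (g w).re ≤ (g (w.re : ℂ)).re := by
  set c : ℝ → ℂ := fun s => w - Complex.I * (s * w.im) with hc
  have hcd : ∀ s : ℝ, HasDerivAt c (-(Complex.I * w.im)) s := by
    intro s
    have h4 : HasDerivAt (fun s : ℝ => (s : ℂ)) 1 s := Complex.ofRealCLM.hasDerivAt
    have h5 := ((h4.mul_const (w.im : ℂ)).const_mul Complex.I).const_sub w
    simpa [hc] using h5
  have hre : ∀ (f : ℂ → ℂ) (f' : ℂ) (s : ℝ), HasDerivAt f f' (c s) →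
      HasDerivAt (fun s => (f (c s)).re) ((-(Complex.I * w.im) * f').re) s := by
    intro f f' s hf
    have h6 := hf.comp_of_eq s (hcd s) rfl
    have h7 := (Complex.reCLM.hasFDerivAt.comp_hasDerivAt s h6)
    have h8 : Complex.reCLM (f' * -(Complex.I * w.im)) = (-(Complex.I * w.im) * f').re := by
      rw [mul_comm]; rfl
    rw [h8] at h7
    exact h7
  set ψ : ℝ → ℝ := fun s => (-(Complex.I * w.im) * g1 (c s)).re with hψ
  have hψd : ∀ s ∈ Set.Icc (0 : ℝ) 1, HasDerivAt ψ
      (-(w.im ^ 2) * (g2 (c s)).re) s := by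
    intro s hs
    have h6 := (h2 s hs).comp_of_eq s (hcd s) rfl
    have h7 := h6.const_mul (-(Complex.I * w.im))
    have h8 := (Complex.reCLM.hasFDerivAt.comp_hasDerivAt s h7)
    have h9 : Complex.reCLM (-(Complex.I * w.im) * (g2 (c s) * -(Complex.I * w.im))) =
        -(w.im ^ 2) * (g2 (c s)).re := by
      have : -(Complex.I * (w.im : ℂ)) * (g2 (c s) * -(Complex.I * w.im)) =
          ((-(w.im ^ 2) : ℝ) : ℂ) * g2 (c s) := by
        push_cast
        linear_combination (w.im : ℂ) ^ 2 * g2 (c s) * Complex.I_sq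
      rw [this]
      show ((((-(w.im ^ 2) : ℝ) : ℂ) * g2 (c s))).re = _
      rw [Complex.re_ofReal_mul]
    rw [h9] at h8
    exact h8
  have hφd : ∀ s ∈ Set.Icc (0 : ℝ) 1, HasDerivAt (fun s => (g (c s)).re) (ψ s) s := by
    intro s hs
    exact hre g _ s (h1 s hs)
  have hmono : MonotoneOn ψ (Set.Icc 0 1) := by
    refine monotoneOn_of_deriv_nonneg (convex_Icc 0 1) ?_ ?_ ?_
    · exact fun s hs => (hψd s hs).continuousAt.continuousWithinAt
    · intro s hs
      rw [interior_Icc] at hs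
      exact (hψd s ⟨hs.1.le, hs.2.le⟩).differentiableAt.differentiableWithinAt
    · intro s hs
      rw [interior_Icc] at hs
      rw [(hψd s ⟨hs.1.le, hs.2.le⟩).deriv]
      have := h3 s ⟨hs.1.le, hs.2.le⟩
      have h4 : 0 ≤ w.im ^ 2 := sq_nonneg _
      have h5 : (g2 (c s)).re ≤ 0 := this
      nlinarith
  have hc0 : c 0 = w := by simp [hc]
  have hψ0 : ψ 0 = 0 := by
    rw [hψ]
    simp only [hc0, h0]
    simp
  have hmono2 : MonotoneOn (fun s => (g (c s)).re) (Set.Icc 0 1) := by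
    refine monotoneOn_of_deriv_nonneg (convex_Icc 0 1) ?_ ?_ ?_
    · exact fun s hs => (hφd s hs).continuousAt.continuousWithinAt
    · intro s hs
      rw [interior_Icc] at hs
      exact (hφd s ⟨hs.1.le, hs.2.le⟩).differentiableAt.differentiableWithinAt
    · intro s hs
      rw [interior_Icc] at hs
      rw [(hφd s ⟨hs.1.le, hs.2.le⟩).deriv, ← hψ0]
      exact hmono (by simp) ⟨hs.1.le, hs.2.le⟩ hs.1.le
  have h5 := hmono2 (by simp : (0 : ℝ) ∈ Set.Icc (0 : ℝ) 1) (by simp : (1 : ℝ) ∈ Set.Icc (0 : ℝ) 1)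
    zero_le_one
  simp only [hc0] at h5
  have hc1 : c 1 = (w.re : ℂ) := by
    simp only [hc]
    apply Complex.ext <;> simp
  rwa [hc1] at h5

/-- the second derivative at a strict maximum along the real line -/
theorem neg2 {g g1 : ℂ → ℂ} {g2 : ℂ} {k : ℝ} (h1 : ∀ᶠ w in 𝓝 0, HasDerivAt g (g1 w) w)
    (h2 : HasDerivAt g1 g2 0) (h0 : g1 0 = 0)
    (h : ∀ᶠ t : ℝ in 𝓝 0, (g t).re ≤ (g 0).re - k * t ^ 2) : g2.re ≤ -(2 * k) := by
  by_contra hcon
  push Not at hcon
  set m : ℝ → ℝ := fun t => (g1 t).re + 2 * k * t with hm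
  have hmd : HasDerivAt m (g2.re + 2 * k) 0 := by
    have h3 : HasDerivAt (fun s : ℝ => (s : ℂ)) 1 (0 : ℝ) := Complex.ofRealCLM.hasDerivAt
    have h2' : HasDerivAt g1 g2 ((0 : ℝ) : ℂ) := by simpa using h2
    have h4 := h2'.comp (0 : ℝ) h3
    have h5 := (Complex.reCLM.hasFDerivAt.comp_hasDerivAt (0 : ℝ) h4)
    have h6 := (hasDerivAt_id (0 : ℝ)).const_mul (2 * k)
    have h7 := h5.add h6
    have e : Complex.reCLM (g2 * 1) + 2 * k * 1 = g2.re + 2 * k := by simp
    rw [e] at h7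
    exact h7
  have hm0 : m 0 = 0 := by simp [hm, h0]
  have hpos : ∀ᶠ t in 𝓝[>] (0 : ℝ), 0 < m t := by
    have h3 := hmd.tendsto_slope_zero_right
    have h4 : 0 < g2.re + 2 * k := by linarith
    have h5 := h3.eventually_const_lt h4
    filter_upwards [h5, self_mem_nhdsWithin] with t ht ht0
    rw [zero_add, hm0, sub_zero, smul_eq_mul] at ht
    have ht0' : (0 : ℝ) < t := ht0
    have h6 : 0 < t⁻¹ := inv_pos.2 ht0'
    exact (mul_pos_iff_of_pos_left h6).1 ht
  have h1r : ∀ᶠ t : ℝ in 𝓝 0, HasDerivAt g (g1 t) (t : ℂ) := by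
    have h3 : Tendsto (fun s : ℝ => (s : ℂ)) (𝓝 0) (𝓝 0) := by
      have := Complex.continuous_ofReal.tendsto 0
      simpa using this
    exact h3.eventually h1
  obtain ⟨δ1, hδ1, hb1⟩ := Metric.eventually_nhds_iff.1 (h1r.and h)
  obtain ⟨δ2, hδ2, hb2⟩ := (mem_nhdsGT_iff_exists_Ioo_subset' (zero_lt_one : (0 : ℝ) < 1)).1 hpos
  set δ := min (δ1 / 2) (δ2 / 2) with hδ
  have hδ2' : 0 < δ2 := hδ2
  have hδ0 : 0 < δ := lt_min (by linarith) (by linarith)
  have hδ1l : δ < δ1 := (min_le_left _ _).trans_lt (by linarith)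
  have hδ2l : δ < δ2 := (min_le_right _ _).trans_lt (by linarith)
  have hd : ∀ t ∈ Set.Icc 0 δ, HasDerivAt (fun t : ℝ => (g t).re + k * t ^ 2) (m t) t := by
    intro t ht
    have h3 : HasDerivAt (fun s : ℝ => (s : ℂ)) 1 t := Complex.ofRealCLM.hasDerivAt
    have hdist : dist t 0 < δ1 := by
      rw [Real.dist_eq, sub_zero, abs_of_nonneg ht.1]; linarith [ht.2]
    have h4 := (hb1 hdist).1.comp t h3
    have h5 := (Complex.reCLM.hasFDerivAt.comp_hasDerivAt t h4)
    have h6 := (hasDerivAt_pow 2 t).const_mul k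
    have h7 := h5.add h6
    have e : Complex.reCLM (g1 t * 1) + k * (((2 : ℕ) : ℝ) * t ^ (2 - 1)) = m t := by
      simp [hm]; ring
    rw [e] at h7
    exact h7
  have hstrict : StrictMonoOn (fun t : ℝ => (g t).re + k * t ^ 2) (Set.Icc 0 δ) := by
    refine strictMonoOn_of_deriv_pos (convex_Icc 0 δ) ?_ ?_
    · exact fun s hs => (hd s hs).continuousAt.continuousWithinAt
    · intro s hs
      rw [interior_Icc] at hs
      rw [(hd s ⟨hs.1.le, hs.2.le⟩).deriv]
      exact hb2 ⟨hs.1, hs.2.trans hδ2l⟩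
  have h5 := hstrict (Set.left_mem_Icc.2 hδ0.le) (Set.right_mem_Icc.2 hδ0.le) hδ0
  have hdist : dist δ 0 < δ1 := by
    rw [Real.dist_eq, sub_zero, abs_of_nonneg hδ0.le]; exact hδ1l
  have h6 := (hb1 hdist).2
  simp only [Complex.ofReal_zero] at h5
  linarith

variable {ι : Type} [Fintype ι] [DecidableEq ι]

/-- real points -/
def rc (t : ι → ℝ) : ι → ℂ := fun j => (t j : ℂ)

/-- quadratic maximum in the real directions `S` -/
def Qm (S : Finset ι) (k : ℝ) (Q : (ι → ℂ) → ℂ) : Prop :=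
  ∀ᶠ t : ι → ℝ in 𝓝 0, (∀ j, j ∉ S → t j = 0) → (Q (rc t)).re ≤ (Q 0).re - k * ∑ j, t j ^ 2

omit [Fintype ι] [DecidableEq ι] in
lemma rc_cont : Continuous (rc : (ι → ℝ) → ι → ℂ) :=
  continuous_pi fun j => Complex.continuous_ofReal.comp (continuous_apply j)

omit [Fintype ι] [DecidableEq ι] in
lemma rc_zero : rc (0 : ι → ℝ) = 0 := by funext j; simp [rc]

omit [Fintype ι] in
lemma rc_update (t : ι → ℝ) (i : ι) (s : ℝ) : rc (update t i s) = update (rc t) i (s : ℂ) := by
  funext j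
  by_cases h : j = i
  · subst h; simp [rc]
  · simp [rc, h]

omit [Fintype ι] in
lemma slice_tendsto (i : ι) : Tendsto (fun w : ℂ => update (0 : ι → ℂ) i w) (𝓝 0) (𝓝 0) := by
  have h2 : Continuous fun w : ℂ => update (0 : ι → ℂ) i w := continuous_const.update i continuous_id
  have := h2.tendsto 0
  simpa using this

theorem Qm.neg {S : Finset ι} {k : ℝ} {Q : (ι → ℂ) → ℂ} (h : Qm S k Q) {i : ι} (hi : i ∈ S)
    (hQ : AnalyticAt ℂ Q 0) (h0 : Dp Q i 0 = 0) : (Dp (Dp Q i) i 0).re ≤ -(2 * k) := by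
  refine neg2 (g := fun w => Q (update 0 i w)) (g1 := fun w => Dp Q i (update 0 i w)) (k := k)
    ?_ ?_ ?_ ?_
  · filter_upwards [(slice_tendsto i).eventually hQ.eventually_analyticAt] with w hw
    exact slice hw.differentiableAt
  · have h1 : update (0 : ι → ℂ) i 0 = 0 := by simp
    have := slice (Q := Dp Q i) (x := 0) (i := i) (w := 0) (by
      rw [h1]; exact (Dp_an i hQ).differentiableAt)
    rwa [h1] at this
  · simpa using h0
  · have h1 : Tendsto (fun t : ℝ => update (0 : ι → ℝ) i t) (𝓝 0) (𝓝 0) := by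
      have h2 : Continuous fun w : ℝ => update (0 : ι → ℝ) i w :=
        continuous_const.update i continuous_id
      have := h2.tendsto 0
      simpa using this
    filter_upwards [h1.eventually h] with t ht
    have h3 := ht (by
      intro j hj
      have : j ≠ i := fun h => hj (h ▸ hi)
      simp [this])
    rw [rc_update, rc_zero] at h3
    refine h3.trans (le_of_eq ?_)
    have e : ∑ j, update (0 : ι → ℝ) i t j ^ 2 = t ^ 2 := by
      rw [Finset.sum_eq_single i]
      · simp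
      · intro j _ hj; simp [hj]
      · simp
    rw [e]
    simp

theorem Qm.step {S : Finset ι} {k : ℝ} {Q : (ι → ℂ) → ℂ} (hk : 0 < k) (h : Qm S k Q) {i : ι}
    (hi : i ∈ S) (hQ : AnalyticAt ℂ Q 0) (h0 : Dp Q i 0 = 0) {om : (ι → ℂ) → ℂ}
    (a1 : AnalyticAt ℂ om 0) (a2 : om 0 = 0)
    (a4 : ∀ᶠ x in 𝓝 0, Dp Q i (update x i (om x)) = 0) :
    Qm (S.erase i) k (fun x => Q (update x i (om x))) := by
  have hneg := h.neg hi hQ h0
  have hD1 := Dp_an i hQ
  have hD2 := Dp_an i hD1
  have hev : ∀ᶠ x : ι → ℂ in 𝓝 0, AnalyticAt ℂ Q x ∧ AnalyticAt ℂ (Dp Q i) x ∧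
      (Dp (Dp Q i) i x).re < 0 := by
    refine hQ.eventually_analyticAt.and (hD1.eventually_analyticAt.and ?_)
    have h3 : ContinuousAt (fun x => (Dp (Dp Q i) i x).re) 0 :=
      Complex.continuous_re.continuousAt.comp hD2.continuousAt
    exact h3.eventually_lt continuousAt_const (by linarith)
  obtain ⟨r, hr, hb⟩ := Metric.eventually_nhds_iff.1 hev
  have hrc : Tendsto (rc : (ι → ℝ) → ι → ℂ) (𝓝 0) (𝓝 0) := by
    have := (rc_cont (ι := ι)).tendsto 0
    rwa [rc_zero] at this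
  have hom : Tendsto om (𝓝 0) (𝓝 0) := by
    have := a1.continuousAt.tendsto
    rwa [a2] at this
  have hu : Tendsto (fun t : ι → ℝ => update t i (om (rc t)).re) (𝓝 0) (𝓝 0) := by
    have h1 : Tendsto (fun t : ι → ℝ => (om (rc t)).re) (𝓝 0) (𝓝 0) := by
      have := (Complex.continuous_re.tendsto 0).comp (hom.comp hrc)
      rw [Complex.zero_re] at this
      exact this
    have h2 := (tendsto_id (α := ι → ℝ) (x := 𝓝 0)).update i h1
    simpa using h2
  have hsm1 : ∀ᶠ t : ι → ℝ in 𝓝 0, ‖rc t‖ < r := by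
    have := (hrc.norm).eventually_lt_const (by simpa using hr : ‖(0 : ι → ℂ)‖ < r)
    exact this
  have hsm2 : ∀ᶠ t : ι → ℝ in 𝓝 0, ‖om (rc t)‖ < r / 2 := by
    have := ((hom.comp hrc).norm).eventually_lt_const (by simpa using half_pos hr : ‖(0 : ℂ)‖ < r / 2)
    exact this
  filter_upwards [hu.eventually h, hrc.eventually a4, hsm1, hsm2] with t b1 b2 b3 b4 b5
  have hti : t i = 0 := b5 i (by simp)
  have h3 := b1 (by
    intro j hj
    have hji : j ≠ i := fun h => hj (h ▸ hi)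
    simp only [update_of_ne hji]
    exact b5 j (fun h => hj (Finset.mem_of_mem_erase h)))
  rw [rc_update] at h3
  -- the vertical line
  set w := om (rc t) with hw
  have hin : ∀ s ∈ Set.Icc (0 : ℝ) 1,
      dist (update (rc t) i (w - Complex.I * (s * w.im))) 0 < r := by
    intro s hs
    rw [dist_zero_right, pi_norm_lt_iff hr]
    intro j
    by_cases hj : j = i
    · subst hj
      rw [update_self]
      have h5 : ‖Complex.I * ((s : ℂ) * (w.im : ℂ))‖ ≤ ‖w‖ := by
        rw [norm_mul, Complex.norm_I, one_mul, norm_mul, Complex.norm_real, Complex.norm_real,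
          Real.norm_eq_abs, Real.norm_eq_abs, abs_of_nonneg hs.1]
        have := Complex.abs_im_le_norm w
        nlinarith [hs.2, abs_nonneg w.im, norm_nonneg w]
      calc _ ≤ ‖w‖ + ‖Complex.I * ((s : ℂ) * (w.im : ℂ))‖ := norm_sub_le _ _
        _ < r := by linarith
    · rw [update_of_ne hj]
      exact (norm_le_pi_norm (rc t) j).trans_lt b3
  have h4 := vert (g := fun w => Q (update (rc t) i w)) (g1 := fun w => Dp Q i (update (rc t) i w))
    (g2 := fun w => Dp (Dp Q i) i (update (rc t) i w)) (w := w)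
    (fun s hs => slice (hb (hin s hs)).1.differentiableAt)
    (fun s hs => slice (hb (hin s hs)).2.1.differentiableAt)
    (fun s hs => (hb (hin s hs)).2.2.le) b2
  have e1 : Q (update 0 i (om 0)) = Q 0 := by simp [a2]
  rw [e1]
  refine (h4.trans h3).trans ?_
  have e2 : ∑ j, t j ^ 2 ≤ ∑ j, update t i w.re j ^ 2 := by
    refine Finset.sum_le_sum fun j _ => ?_
    by_cases hj : j = i
    · subst hj
      rw [hti, update_self]
      have := sq_nonneg w.re
      simpa using this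
    · rw [update_of_ne hj]
  have := mul_le_mul_of_nonneg_left e2 hk.le
  linarith

end Run7.h260.VC
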