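import Pool.Agent.Run7.h260.VC.E2

/-!
# Elimination of one variable: the conditions of the saddle point method
-/

set_option autoImplicit false

namespace Run7.h260.VC

open Filter Topology Metric Function
open scoped Real

/-- on a horizontal segment the real part is maximal at the critical point -/
theorem horiz {g g1 g2 : ℂ → ℂ} {y s₀ a b : ℝ}
    (h1 : ∀ s ∈ Set.Icc a b, HasDerivAt g (g1 (s + y * Complex.I)) (s + y * Complex.I))
    (h2 : ∀ s ∈ Set.Icc a b, HasDerivAt g1 (g2 (s + y * Complex.I)) (s + y * Complex.I))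
    (h3 : ∀ s ∈ Set.Icc a b, (g2 (s + y * Complex.I)).re < 0) (h0 : g1 (s₀ + y * Complex.I) = 0)
    (hs₀ : s₀ ∈ Set.Icc a b) {s : ℝ} (hs : s ∈ Set.Icc a b) (hne : s ≠ s₀) :
    (g (s + y * Complex.I)).re < (g (s₀ + y * Complex.I)).re := by
  set c : ℝ → ℂ := fun s => s + y * Complex.I with hc
  have hcd : ∀ s : ℝ, HasDerivAt c 1 s := by
    intro s
    have h4 : HasDerivAt (fun s : ℝ => (s : ℂ)) 1 s := Complex.ofRealCLM.hasDerivAt
    exact h4.add_const _
  have hre : ∀ (f : ℂ → ℂ) (f' : ℂ) (s : ℝ), HasDerivAt f f' (c s) →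
      HasDerivAt (fun s => (f (c s)).re) f'.re s := by
    intro f f' s hf
    have h6 := hf.comp_of_eq s (hcd s) rfl
    have h7 := (Complex.reCLM.hasFDerivAt.comp_hasDerivAt s h6)
    rw [mul_one] at h7
    exact h7
  have hψd : ∀ s ∈ Set.Icc a b, HasDerivAt (fun s => (g1 (c s)).re) (g2 (c s)).re s :=
    fun s hs => hre g1 _ s (h2 s hs)
  have hφd : ∀ s ∈ Set.Icc a b, HasDerivAt (fun s => (g (c s)).re) (g1 (c s)).re s :=
    fun s hs => hre g _ s (h1 s hs)
  have hanti : StrictAntiOn (fun s => (g1 (c s)).re) (Set.Icc a b) := by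
    refine strictAntiOn_of_deriv_neg (convex_Icc a b) ?_ ?_
    · exact fun s hs => (hψd s hs).continuousAt.continuousWithinAt
    · intro s hs
      have hs' := interior_subset hs
      rw [(hψd s hs').deriv]
      exact h3 s hs'
  have hz : (g1 (c s₀)).re = 0 := by
    have : g1 (c s₀) = 0 := h0
    rw [this]; rfl
  rcases lt_or_gt_of_ne hne with hlt | hgt
  · have hsub : Set.Icc s s₀ ⊆ Set.Icc a b := Set.Icc_subset_Icc hs.1 hs₀.2
    have hm : StrictMonoOn (fun s => (g (c s)).re) (Set.Icc s s₀) := by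
      refine strictMonoOn_of_deriv_pos (convex_Icc s s₀) ?_ ?_
      · exact fun s hs => (hφd s (hsub hs)).continuousAt.continuousWithinAt
      · intro t ht
        rw [interior_Icc] at ht
        have ht' := hsub ⟨ht.1.le, ht.2.le⟩
        rw [(hφd t ht').deriv]
        have := hanti ht' hs₀ ht.2
        simp only [hz] at this
        exact this
    exact hm (Set.left_mem_Icc.2 hlt.le) (Set.right_mem_Icc.2 hlt.le) hlt
  · have hsub : Set.Icc s₀ s ⊆ Set.Icc a b := Set.Icc_subset_Icc hs₀.1 hs.2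
    have hm : StrictAntiOn (fun s => (g (c s)).re) (Set.Icc s₀ s) := by
      refine strictAntiOn_of_deriv_neg (convex_Icc s₀ s) ?_ ?_
      · exact fun s hs => (hφd s (hsub hs)).continuousAt.continuousWithinAt
      · intro t ht
        rw [interior_Icc] at ht
        have ht' := hsub ⟨ht.1.le, ht.2.le⟩
        rw [(hφd t ht').deriv]
        have := hanti hs₀ ht' ht.1
        simp only [hz] at this
        exact this
    exact hm (Set.left_mem_Icc.2 hgt.le) (Set.right_mem_Icc.2 hgt.le) hgt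

variable {ι : Type} [Fintype ι] [DecidableEq ι]

/-- the conditions of the saddle point method for the slice through `x` -/
structure Loc (Q : (ι → ℂ) → ℂ) (i : ι) (om : (ι → ℂ) → ℂ) (ρ h : ℝ) (x : ι → ℂ) : Prop where
  re : |(om x).re| < ρ
  im : |(om x).im| < h
  line : ∀ s : ℝ, -ρ ≤ s → s ≤ ρ → s ≠ (om x).re →
    (Q (update x i (s + (om x).im * Complex.I))).re < (Q (update x i (om x))).re
  side : ∀ y : ℝ, |y| ≤ h → (Q (update x i (-ρ + y * Complex.I))).re < (Q (update x i (om x))).re ∧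
    (Q (update x i (ρ + y * Complex.I))).re < (Q (update x i (om x))).re
  top : ∀ s : ℝ, -ρ ≤ s → s ≤ ρ →
    (Q (update x i (s + h * Complex.I))).re - 2 * π * h < (Q (update x i (om x))).re ∧
    (Q (update x i (s - h * Complex.I))).re - 2 * π * h < (Q (update x i (om x))).re
  crit : deriv (fun w => Q (update x i w)) (om x) = 0
  neg : (deriv (deriv fun w => Q (update x i w)) (om x)).re < 0

lemma upd_norm {x : ι → ℂ} {i : ι} {w : ℂ} {r : ℝ} (hr : 0 < r) (hx : ‖x‖ < r) (hw : ‖w‖ < r) :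
    ‖update x i w‖ < r := by
  rw [pi_norm_lt_iff hr]
  intro j
  by_cases hj : j = i
  · subst hj; rwa [update_self]
  · rw [update_of_ne hj]
    exact (norm_le_pi_norm x j).trans_lt hx

theorem loc {S : Finset ι} {k : ℝ} {Q : (ι → ℂ) → ℂ} (hk : 0 < k) (h : Qm S k Q) {i : ι}
    (hi : i ∈ S) (hQ : AnalyticAt ℂ Q 0) (h0 : Dp Q i 0 = 0) {om : (ι → ℂ) → ℂ}
    (a1 : AnalyticAt ℂ om 0) (a2 : om 0 = 0)
    (a4 : ∀ᶠ x in 𝓝 0, Dp Q i (update x i (om x)) = 0) {ρ₁ : ℝ} (hρ₁ : 0 < ρ₁) :
    ∃ ρ h : ℝ, 0 < ρ ∧ ρ < ρ₁ ∧ 0 < h ∧ h ≤ ρ ∧ ∀ᶠ x in 𝓝 0, Loc Q i om ρ h x := by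
  have hneg := h.neg hi hQ h0
  have hD1 := Dp_an i hQ
  have hD2 := Dp_an i hD1
  have hev : ∀ᶠ x : ι → ℂ in 𝓝 0, AnalyticAt ℂ Q x ∧ AnalyticAt ℂ (Dp Q i) x ∧
      (Dp (Dp Q i) i x).re < 0 ∧ ‖Dp Q i x‖ < 6 := by
    refine hQ.eventually_analyticAt.and (hD1.eventually_analyticAt.and (Eventually.and ?_ ?_))
    · have h3 : ContinuousAt (fun x => (Dp (Dp Q i) i x).re) 0 :=
        Complex.continuous_re.continuousAt.comp hD2.continuousAt
      exact h3.eventually_lt continuousAt_const (by linarith)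
    · have h3 : ContinuousAt (fun x => ‖Dp Q i x‖) 0 := hD1.continuousAt.norm
      exact h3.eventually_lt continuousAt_const (by rw [h0]; norm_num)
  obtain ⟨r, hr, hb⟩ := Metric.eventually_nhds_iff.1 hev
  have hb' : ∀ x : ι → ℂ, ‖x‖ < r → AnalyticAt ℂ Q x ∧ AnalyticAt ℂ (Dp Q i) x ∧
      (Dp (Dp Q i) i x).re < 0 ∧ ‖Dp Q i x‖ < 6 := fun x hx => hb (by rwa [dist_zero_right])
  have hom : Tendsto om (𝓝 0) (𝓝 0) := by
    have := a1.continuousAt.tendsto
    rwa [a2] at this
  -- the maximum on the real line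
  have hreal : ∀ᶠ t : ℝ in 𝓝 0, (Q (update 0 i (t : ℂ))).re ≤ (Q 0).re - k * t ^ 2 := by
    have h1 : Tendsto (fun t : ℝ => update (0 : ι → ℝ) i t) (𝓝 0) (𝓝 0) := by
      have h2 : Continuous fun w : ℝ => update (0 : ι → ℝ) i w :=
        continuous_const.update i continuous_id
      have := h2.tendsto 0
      simpa using this
    filter_upwards [h1.eventually h] with t ht
    have h3 := ht (by
      intro j hj
      have : j ≠ i := fun h => hj (h ▸ hi)
      simp [this])
    rw [rc_update, rc_zero] at h3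
    refine h3.trans (le_of_eq ?_)
    have e : ∑ j, update (0 : ι → ℝ) i t j ^ 2 = t ^ 2 := by
      rw [Finset.sum_eq_single i]
      · simp
      · intro j _ hj; simp [hj]
      · simp
    rw [e]
  obtain ⟨δ, hδ, hb2⟩ := Metric.eventually_nhds_iff.1 hreal
  set ρ := min (ρ₁ / 2) (min (r / 4) (δ / 2)) with hρ
  have hρ0 : 0 < ρ := by positivity
  have hρ1 : ρ < ρ₁ := (min_le_left _ _).trans_lt (by linarith)
  have hρr : ρ ≤ r / 4 := (min_le_right _ _).trans (min_le_left _ _)
  have hρδ : ρ < δ := ((min_le_right _ _).trans (min_le_right _ _)).trans_lt (by linarith)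
  have hreal' : ∀ t : ℝ, |t| ≤ ρ → (Q (update 0 i (t : ℂ))).re ≤ (Q 0).re - k * t ^ 2 := by
    intro t ht
    refine hb2 ?_
    rw [Real.dist_eq, sub_zero]
    exact ht.trans_lt hρδ
  -- continuity of slices
  have hsc : ∀ w : ℂ, ‖w‖ < r → ContinuousAt (fun p : (ι → ℂ) × ℂ => Q (update p.1 i p.2)) (0, w) := by
    intro w hw
    have h1 : ContinuousAt Q (update (0 : ι → ℂ) i w) :=
      (hb' _ (upd_norm hr (by simpa using hr) hw)).1.continuousAt
    exact ContinuousAt.comp (g := Q) (f := fun p : (ι → ℂ) × ℂ => update p.1 i p.2) h1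
      (upd_cont i).continuousAt
  have hcc : ContinuousAt (fun x : ι → ℂ => (Q (update x i (om x))).re) 0 := by
    have h1 : AnalyticAt ℂ (fun x : ι → ℂ => Q (update x i (om x))) 0 := by
      refine AnalyticAt.fun_comp ?_ (upd_an i a1)
      have hu0 : update (0 : ι → ℂ) i (om 0) = 0 := by rw [a2]; simp
      rw [hu0]
      exact hQ
    exact Complex.continuous_re.continuousAt.comp h1.continuousAt
  have hc0 : Q (update (0 : ι → ℂ) i (om 0)) = Q 0 := by rw [a2]; simp
  -- sides at `x = 0`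
  have hside : ∀ σ : ℝ, |σ| = ρ → ∀ᶠ y : ℝ in 𝓝 0,
      (Q (update (0 : ι → ℂ) i (σ + y * Complex.I))).re < (Q 0).re := by
    intro σ hσ
    have h1 : ‖(σ : ℂ)‖ < r := by
      rw [Complex.norm_real, Real.norm_eq_abs, hσ]; linarith
    have h2 : ContinuousAt (fun y : ℝ => (Q (update (0 : ι → ℂ) i (σ + y * Complex.I))).re) 0 := by
      have h3 : ContinuousAt (fun p : (ι → ℂ) × ℂ => Q (update p.1 i p.2))
          ((fun y : ℝ => ((0 : ι → ℂ), (σ : ℂ) + y * Complex.I)) 0) := by
        have : (fun y : ℝ => ((0 : ι → ℂ), (σ : ℂ) + y * Complex.I)) 0 = (0, (σ : ℂ)) := by simp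
        rw [this]
        exact hsc _ h1
      have h4 : ContinuousAt (fun y : ℝ => ((0 : ι → ℂ), (σ : ℂ) + y * Complex.I)) 0 := by
        fun_prop
      exact Complex.continuous_re.continuousAt.comp (ContinuousAt.comp (g := fun p : (ι → ℂ) × ℂ =>
        Q (update p.1 i p.2)) (f := fun y : ℝ => ((0 : ι → ℂ), (σ : ℂ) + y * Complex.I)) h3 h4)
    refine h2.eventually_lt continuousAt_const ?_
    have h5 := hreal' σ hσ.le
    have h6 : 0 < k * σ ^ 2 := by
      have : σ ≠ 0 := by
        rintro rfl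
        rw [abs_zero] at hσ
        linarith
      positivity
    simp only [Complex.ofReal_zero, zero_mul, add_zero]
    linarith
  obtain ⟨η, hη, hb3⟩ := Metric.eventually_nhds_iff.1
    ((hside ρ (abs_of_pos hρ0)).and (hside (-ρ) (by rw [abs_neg, abs_of_pos hρ0])))
  set h := min (η / 2) ρ with hh
  have hh0 : 0 < h := by positivity
  have hhρ : h ≤ ρ := min_le_right _ _
  have hhη : h < η := (min_le_left _ _).trans_lt (by linarith)
  have hsmall : ∀ s y : ℝ, |s| ≤ ρ → |y| ≤ ρ → ‖(s + y * Complex.I : ℂ)‖ < r / 2 + r / 4 := by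
    intro s y hs hy
    refine (norm_add_le _ _).trans_lt ?_
    rw [norm_mul, Complex.norm_I, mul_one, Complex.norm_real, Complex.norm_real, Real.norm_eq_abs,
      Real.norm_eq_abs]
    linarith
  -- top at `x = 0`
  have htop : ∀ s y : ℝ, |s| ≤ ρ → |y| = h →
      (Q (update (0 : ι → ℂ) i (s + y * Complex.I))).re - 2 * π * h < (Q 0).re := by
    intro s y hs hy
    have h1 : ‖Q (update (0 : ι → ℂ) i (s + y * Complex.I)) - Q (update (0 : ι → ℂ) i (s : ℂ))‖ ≤
        6 * ‖((s : ℂ) + y * Complex.I) - s‖ := by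
      refine Convex.norm_image_sub_le_of_norm_hasDerivWithin_le (s := ball (0 : ℂ) r)
        (f := fun w => Q (update (0 : ι → ℂ) i w)) (f' := fun w => Dp Q i (update (0 : ι → ℂ) i w))
        ?_ ?_ (convex_ball 0 r) ?_ ?_
      · intro w hw
        rw [mem_ball_zero_iff] at hw
        exact (slice (hb' _ (upd_norm hr (by simpa using hr) hw)).1.differentiableAt).hasDerivWithinAt
      · intro w hw
        rw [mem_ball_zero_iff] at hw
        exact (hb' _ (upd_norm hr (by simpa using hr) hw)).2.2.2.le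
      · rw [mem_ball_zero_iff, Complex.norm_real, Real.norm_eq_abs]; linarith
      · rw [mem_ball_zero_iff]
        exact (hsmall s y hs (by rw [hy]; exact hhρ)).trans_le (by linarith)
    have h2 : ‖((s : ℂ) + y * Complex.I) - s‖ = h := by
      rw [add_sub_cancel_left, norm_mul, Complex.norm_I, mul_one, Complex.norm_real,
        Real.norm_eq_abs, hy]
    rw [h2] at h1
    have h3 := (Complex.abs_re_le_norm _).trans h1
    rw [Complex.sub_re] at h3
    have h4 := (abs_le.1 h3).2
    have h5 := hreal' s hs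
    have h6 : 0 ≤ k * s ^ 2 := by positivity
    have h7 : 6 * h < 2 * π * h := by
      have := Real.pi_gt_three
      nlinarith
    linarith
  refine ⟨ρ, h, hρ0, hρ1, hh0, hhρ, ?_⟩
  -- compactness
  have hK : IsCompact (Set.Icc (-h) h) := isCompact_Icc
  have hK2 : IsCompact (Set.Icc (-ρ) ρ) := isCompact_Icc
  have gen : ∀ (c : ℝ → ℂ) (K : Set ℝ) (m : ℝ), IsCompact K → Continuous c →
      (∀ y ∈ K, ‖c y‖ < r ∧ (Q (update (0 : ι → ℂ) i (c y))).re - m < (Q 0).re) →
      ∀ᶠ x in 𝓝 (0 : ι → ℂ), ∀ y ∈ K, (Q (update x i (c y))).re - m < (Q (update x i (om x))).re := by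
    intro c K m hK hc hy
    refine hK.eventually_forall_of_forall_eventually fun y hyK => ?_
    have h1 : ContinuousAt (fun z : (ι → ℂ) × ℝ => (Q (update z.1 i (c z.2))).re - m) (0, y) := by
      refine ContinuousAt.sub ?_ continuousAt_const
      have h2 : ContinuousAt (fun z : (ι → ℂ) × ℝ => (z.1, c z.2)) (0, y) := by fun_prop
      exact Complex.continuous_re.continuousAt.comp (ContinuousAt.comp (g := fun p : (ι → ℂ) × ℂ =>
        Q (update p.1 i p.2)) (f := fun z : (ι → ℂ) × ℝ => (z.1, c z.2)) (hsc _ (hy y hyK).1) h2)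
    have h2 : ContinuousAt (fun z : (ι → ℂ) × ℝ => (Q (update z.1 i (om z.1))).re) (0, y) :=
      ContinuousAt.comp (g := fun x : ι → ℂ => (Q (update x i (om x))).re)
        (f := fun z : (ι → ℂ) × ℝ => z.1) hcc continuousAt_fst
    refine h1.eventually_lt h2 ?_
    simp only [hc0]
    exact (hy y hyK).2
  have g1 := gen (fun y => -ρ + y * Complex.I) _ 0 hK (by fun_prop) (by
    intro y hy
    have hy' : |y| ≤ h := abs_le.2 hy
    constructor
    · have := hsmall (-ρ) y (by rw [abs_neg, abs_of_pos hρ0]) (hy'.trans hhρ)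
      push_cast at this
      exact this.trans_le (by linarith)
    · have h1 := (hb3 (y := y) (by rw [Real.dist_eq, sub_zero]; exact hy'.trans_lt hhη)).2
      push_cast at h1
      linarith)
  have g2 := gen (fun y => ρ + y * Complex.I) _ 0 hK (by fun_prop) (by
    intro y hy
    have hy' : |y| ≤ h := abs_le.2 hy
    constructor
    · have := hsmall ρ y (by rw [abs_of_pos hρ0]) (hy'.trans hhρ)
      exact this.trans_le (by linarith)
    · have h1 := (hb3 (y := y) (by rw [Real.dist_eq, sub_zero]; exact hy'.trans_lt hhη)).1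
      linarith)
  have g3 := gen (fun s => s + h * Complex.I) _ (2 * π * h) hK2 (by fun_prop) (by
    intro s hs
    have hs' : |s| ≤ ρ := abs_le.2 hs
    have hhh : |h| = h := abs_of_pos hh0
    constructor
    · have := hsmall s h hs' (by rw [hhh]; exact hhρ)
      exact this.trans_le (by linarith)
    · exact htop s h hs' hhh)
  have g4 := gen (fun s => s - h * Complex.I) _ (2 * π * h) hK2 (by fun_prop) (by
    intro s hs
    have hs' : |s| ≤ ρ := abs_le.2 hs
    have hhh : |(-h)| = h := by rw [abs_neg, abs_of_pos hh0]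
    have e : (s : ℂ) - h * Complex.I = s + ((-h : ℝ) : ℂ) * Complex.I := by push_cast; ring
    constructor
    · simp only [e]
      have := hsmall s (-h) hs' (by rw [hhh]; exact hhρ)
      exact this.trans_le (by linarith)
    · simp only [e]
      exact htop s (-h) hs' hhh)
  have g5 : ∀ᶠ x : ι → ℂ in 𝓝 0, ‖x‖ < r := by
    have : Tendsto (fun x : ι → ℂ => ‖x‖) (𝓝 0) (𝓝 ‖(0 : ι → ℂ)‖) := tendsto_id.norm
    exact this.eventually_lt_const (by simpa using hr)
  have g6 : ∀ᶠ x : ι → ℂ in 𝓝 0, ‖om x‖ < h := by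
    have : Tendsto (fun x : ι → ℂ => ‖om x‖) (𝓝 0) (𝓝 ‖(0 : ℂ)‖) := hom.norm
    exact this.eventually_lt_const (by simpa using hh0)
  filter_upwards [a4, g1, g2, g3, g4, g5, g6] with x a4 g1 g2 g3 g4 g5 g6
  have hin : ∀ w : ℂ, ‖w‖ < r → ‖update x i w‖ < r := fun w hw => upd_norm hr g5 hw
  have hre : |(om x).re| < ρ := ((Complex.abs_re_le_norm _).trans_lt g6).trans_le hhρ
  have him : |(om x).im| < h := (Complex.abs_im_le_norm _).trans_lt g6
  have homr : ‖om x‖ < r := g6.trans_le (by linarith)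
  have hder : ∀ᶠ w in 𝓝 (om x), HasDerivAt (fun w => Q (update x i w)) (Dp Q i (update x i w)) w := by
    have : ∀ᶠ w in 𝓝 (om x), ‖w‖ < r := by
      have : Tendsto (fun w : ℂ => ‖w‖) (𝓝 (om x)) (𝓝 ‖om x‖) := tendsto_id.norm
      exact this.eventually_lt_const homr
    filter_upwards [this] with w hw
    exact slice (hb' _ (hin w hw)).1.differentiableAt
  have hder2 : deriv (fun w => Q (update x i w)) =ᶠ[𝓝 (om x)] fun w => Dp Q i (update x i w) := by
    filter_upwards [hder] with w hw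
    exact hw.deriv
  refine ⟨hre, him, ?_, ?_, ?_, ?_, ?_⟩
  · intro s hs1 hs2 hne
    have him' : |(om x).im| ≤ ρ := him.le.trans hhρ
    have hinl : ∀ s ∈ Set.Icc (-ρ) ρ, ‖update x i ((s : ℂ) + (om x).im * Complex.I)‖ < r := by
      intro s hs
      exact hin _ ((hsmall s _ (abs_le.2 hs) him').trans_le (by linarith))
    have hrm : (((om x).re : ℂ) + (om x).im * Complex.I) = om x := Complex.re_add_im _
    have := horiz (g := fun w => Q (update x i w)) (g1 := fun w => Dp Q i (update x i w))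
      (g2 := fun w => Dp (Dp Q i) i (update x i w)) (y := (om x).im) (s₀ := (om x).re) (a := -ρ)
      (b := ρ) (fun s hs => slice (hb' _ (hinl s hs)).1.differentiableAt)
      (fun s hs => slice (hb' _ (hinl s hs)).2.1.differentiableAt)
      (fun s hs => (hb' _ (hinl s hs)).2.2.1) (by rw [hrm]; exact a4) (abs_le.1 hre.le)
      (s := s) ⟨hs1, hs2⟩ hne
    simp only [hrm] at this
    exact this
  · intro y hy
    have b1 := g1 y (abs_le.1 hy)
    have b2 := g2 y (abs_le.1 hy)
    simp only [sub_zero] at b1 b2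
    exact ⟨b1, b2⟩
  · intro s hs1 hs2
    exact ⟨g3 s ⟨hs1, hs2⟩, g4 s ⟨hs1, hs2⟩⟩
  · rw [hder2.self_of_nhds]
    exact a4
  · rw [hder2.deriv_eq, (slice (hb' _ (hin _ homr)).2.1.differentiableAt).deriv]
    exact (hb' _ (hin _ homr)).2.2.1

end Run7.h260.VC
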