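import Pool.Agent.Run7.h260.VC.E3
import Pool.Agent.W588.HT.LapSum
import Pool.Agent.W930.HT.Log
import Pool.Agent.W583.HTSeq

/-!
# Elimination of one variable: asymptotics of the sum over a window
-/

set_option autoImplicit false

namespace Run7.h260.VC

open Filter Topology Metric Function
open Pool.Agent.W711.HT (MW S_SEQ S_LOG S_LAPSUM)
open scoped Real

variable {ι : Type} [Fintype ι] [DecidableEq ι]

/-- limits along sequences -/
def Lim (f : ℕ → (ι → ℂ) → ℂ) (Q : (ι → ℂ) → ℂ) : Prop :=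
  ∀ᶠ x₀ in 𝓝 (0 : ι → ℂ), ∀ x : ℕ → ι → ℂ, Tendsto x atTop (𝓝 x₀) →
    Tendsto (fun N : ℕ => Real.log ‖f N (x N)‖ / N) atTop (𝓝 (Q x₀).re)

/-- separately analytic -/
def San (f : ℕ → (ι → ℂ) → ℂ) : Prop := ∃ r : ℝ, 0 < r ∧ ∀ᶠ N : ℕ in atTop,
  ∀ x ∈ ball (0 : ι → ℂ) r, ∀ i, DifferentiableOn ℂ (fun w => f N (update x i w)) (ball 0 r)

/-- the window -/
noncomputable def Ws (c ρ : ℝ) (N : ℕ) : Finset ℕ := Finset.Ico ⌈(c - ρ) * N⌉₊ ⌈(c + ρ) * N⌉₊

/-- sum over the window -/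
noncomputable def Sm (c ρ : ℝ) (i : ι) (f : ℕ → (ι → ℂ) → ℂ) (N : ℕ) (x : ι → ℂ) : ℂ :=
  ∑ d ∈ Ws c ρ N, f N (update x i ((d : ℂ) / N - c))

lemma ws_mem {c ρ : ℝ} {N d : ℕ} (hN : 0 < N) : d ∈ Ws c ρ N ↔
    c - ρ ≤ (d : ℝ) / N ∧ (d : ℝ) / N < c + ρ := by
  have hN' : (0 : ℝ) < N := by exact_mod_cast hN
  rw [Ws, Finset.mem_Ico, Nat.ceil_le, Nat.lt_ceil, le_div_iff₀ hN', div_lt_iff₀ hN']

lemma ws_cast {c ρ : ℝ} {N d : ℕ} (hN : 0 < N) (hd : d ∈ Ws c ρ N) :
    ‖((d : ℂ) / N - c)‖ ≤ ρ := by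
  rw [ws_mem hN] at hd
  have e : ((d : ℂ) / N - c) = (((d : ℝ) / N - c : ℝ) : ℂ) := by push_cast; rfl
  rw [e, Complex.norm_real, Real.norm_eq_abs, abs_le]
  constructor <;> linarith [hd.1, hd.2]

omit [Fintype ι] in
lemma Sm_update (c ρ : ℝ) (i : ι) (f : ℕ → (ι → ℂ) → ℂ) (N : ℕ) (x : ι → ℂ) (w : ℂ) :
    Sm c ρ i f N (update x i w) = Sm c ρ i f N x := by
  simp [Sm]

theorem San.step {f : ℕ → (ι → ℂ) → ℂ} (hf : San f) : ∃ ρ₁ : ℝ, 0 < ρ₁ ∧ ∀ (c ρ : ℝ) (i : ι),
    ρ < ρ₁ → San (Sm c ρ i f) := by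
  obtain ⟨r, hr, hf⟩ := hf
  refine ⟨r, hr, fun c ρ i hρ => ⟨r, hr, ?_⟩⟩
  filter_upwards [hf, eventually_ge_atTop 1] with N hf hN x hx j
  rw [mem_ball_zero_iff] at hx
  have hin : ∀ d ∈ Ws c ρ N, ∀ x : ι → ℂ, ‖x‖ < r → ‖update x i ((d : ℂ) / N - c)‖ < r :=
    fun d hd x hx => upd_norm hr hx ((ws_cast (by omega) hd).trans_lt hρ)
  by_cases hj : j = i
  · subst hj
    have e : (fun w => Sm c ρ j f N (update x j w)) = fun _ => Sm c ρ j f N x := by
      funext w; exact Sm_update c ρ j f N x w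
    rw [e]
    exact differentiableOn_const _
  · have e : (fun w => Sm c ρ i f N (update x j w)) = fun w => ∑ d ∈ Ws c ρ N,
        f N (update (update x i ((d : ℂ) / N - c)) j w) := by
      funext w
      unfold Sm
      refine Finset.sum_congr rfl fun d _ => ?_
      rw [update_comm hj]
    rw [e]
    refine DifferentiableOn.fun_sum fun d hd => ?_
    exact hf _ (by rw [mem_ball_zero_iff]; exact hin d hd x hx) j

/-- the sum over the window of one variable -/
theorem astep {S : Finset ι} {k : ℝ} {Q : (ι → ℂ) → ℂ} (hk : 0 < k) (h : Qm S k Q) {i : ι}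
    (hi : i ∈ S) (hQ : AnalyticAt ℂ Q 0) (h0 : Dp Q i 0 = 0) (hpos : 0 < (Q 0).re)
    {om : (ι → ℂ) → ℂ} (a1 : AnalyticAt ℂ om 0) (a2 : om 0 = 0)
    (a4 : ∀ᶠ x in 𝓝 0, Dp Q i (update x i (om x)) = 0) {f : ℕ → (ι → ℂ) → ℂ} (hS : San f)
    (hL : Lim f Q) {c : ℝ} (hc : 0 < c) {ρ₀ : ℝ} (hρ₀ : 0 < ρ₀) :
    ∃ ρ : ℝ, 0 < ρ ∧ ρ < ρ₀ ∧ San (Sm c ρ i f) ∧ Lim (Sm c ρ i f) (fun x => Q (update x i (om x))) := by
  obtain ⟨ρ₁, hρ₁, hS1⟩ := hS.step
  obtain ⟨r₁, hr₁, hS2⟩ := hS
  -- a common radius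
  have hev : ∀ᶠ x₀ in 𝓝 (0 : ι → ℂ), AnalyticAt ℂ Q x₀ ∧ (Q 0).re / 2 < (Q x₀).re ∧
      ∀ x : ℕ → ι → ℂ, Tendsto x atTop (𝓝 x₀) →
        Tendsto (fun N : ℕ => Real.log ‖f N (x N)‖ / N) atTop (𝓝 (Q x₀).re) := by
    refine hQ.eventually_analyticAt.and (Eventually.and ?_ hL)
    have h3 : ContinuousAt (fun x => (Q x).re) 0 :=
      Complex.continuous_re.continuousAt.comp hQ.continuousAt
    exact continuousAt_const.eventually_lt h3 (by linarith)
  obtain ⟨r₂, hr₂, hb⟩ := Metric.eventually_nhds_iff.1 hev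
  set R := min r₁ r₂ with hR
  have hR0 : 0 < R := lt_min hr₁ hr₂
  have hR1 : R ≤ r₁ := min_le_left _ _
  have hR2 : R ≤ r₂ := min_le_right _ _
  have hb' : ∀ x : ι → ℂ, ‖x‖ < R → AnalyticAt ℂ Q x ∧ (Q 0).re / 2 < (Q x).re ∧
      ∀ x' : ℕ → ι → ℂ, Tendsto x' atTop (𝓝 x) →
        Tendsto (fun N : ℕ => Real.log ‖f N (x' N)‖ / N) atTop (𝓝 (Q x).re) :=
    fun x hx => hb (by rw [dist_zero_right]; exact hx.trans_le hR2)
  obtain ⟨ρ, h, hρ, hρm, hh, hhρ, hloc⟩ := loc hk h hi hQ h0 a1 a2 a4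
    (ρ₁ := min ρ₀ (min ρ₁ (min (R / 8) (c / 2)))) (by positivity)
  have hρρ₀ : ρ < ρ₀ := hρm.trans_le (min_le_left _ _)
  have hρρ₁ : ρ < ρ₁ := hρm.trans_le ((min_le_right _ _).trans (min_le_left _ _))
  have hρR : ρ < R / 8 := hρm.trans_le ((min_le_right _ _).trans ((min_le_right _ _).trans
    (min_le_left _ _)))
  have hρc : ρ < c / 2 := hρm.trans_le ((min_le_right _ _).trans ((min_le_right _ _).trans
    (min_le_right _ _)))
  refine ⟨ρ, hρ, hρρ₀, hS1 c ρ i hρρ₁, ?_⟩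
  have g5 : ∀ᶠ x : ι → ℂ in 𝓝 0, ‖x‖ < R / 2 := by
    have : Tendsto (fun x : ι → ℂ => ‖x‖) (𝓝 0) (𝓝 ‖(0 : ι → ℂ)‖) := tendsto_id.norm
    exact this.eventually_lt_const (by simpa using half_pos hR0)
  filter_upwards [hloc, g5] with x₀ hl hx₀ x hx
  have hx₀R : ‖x₀‖ < R := by linarith
  have hu : ∀ w : ℂ, ‖w‖ < R → ‖update x₀ i w‖ < R := fun w hw => upd_norm hR0 hx₀R hw
  -- the functions of one variable
  set u : ℕ → ℂ → ℂ := fun N w => f N (update (x N) i w) with hu_def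
  set g : ℂ → ℂ := fun w => Q (update x₀ i w) with hg_def
  have hgd : DifferentiableOn ℂ g (ball 0 R) := by
    intro w hw
    rw [mem_ball_zero_iff] at hw
    exact (slice (hb' _ (hu w hw)).1.differentiableAt).differentiableAt.differentiableWithinAt
  have hK : IsCompact (closedBall (0 : ℂ) (R / 2)) := isCompact_closedBall 0 _
  have hKR : closedBall (0 : ℂ) (R / 2) ⊆ ball 0 R := by
    intro w hw
    rw [mem_closedBall_zero_iff] at hw
    rw [mem_ball_zero_iff]; linarith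
  have hMW : MW u g (ball 0 (R / 2)) := by
    have h1 := Pool.Agent.W583.HT.seq ℂ (closedBall (0 : ℂ) (R / 2)) hK
      (fun N w => Real.log ‖u N w‖ / N) (fun w => (g w).re)
      (Complex.continuous_re.comp_continuousOn (hgd.mono hKR).continuousOn) (by
        intro p p₀ hp₀ _ hp
        have h2 := hKR hp₀
        rw [mem_ball_zero_iff] at h2
        exact (hb' _ (hu p₀ h2)).2.2 _ (hx.update i hp))
    have hQp : 0 < (Q 0).re / 4 := by linarith
    intro ε hε
    filter_upwards [h1 ε hε, h1 _ hQp, eventually_ge_atTop 1] with N h2 h3 hN w hw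
    have hN' : (0 : ℝ) < N := by exact_mod_cast hN
    have hw' : w ∈ closedBall (0 : ℂ) (R / 2) := ball_subset_closedBall hw
    have hwR : ‖w‖ < R := by
      have := hKR hw'
      rwa [mem_ball_zero_iff] at this
    constructor
    · intro hcon
      have h4 := h3 w hw'
      rw [hcon] at h4
      simp only [norm_zero, Real.log_zero, zero_div, zero_sub, abs_neg] at h4
      have h5 := (hb' _ (hu w hwR)).2.1
      have h6 := (abs_le.1 h4).2
      have h7 : (Q 0).re / 2 < (g w).re := h5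
      linarith
    · have h4 := h2 w hw'
      have e : Real.log ‖u N w‖ - N * (g w).re = N * (Real.log ‖u N w‖ / N - (g w).re) := by
        field_simp
      rw [e, abs_mul, abs_of_pos hN']
      calc (N : ℝ) * |Real.log ‖u N w‖ / N - (g w).re| ≤ N * ε := by gcongr
        _ = ε * N := mul_comm _ _
  have hxR : ∀ᶠ N : ℕ in atTop, ‖x N‖ < R := by
    exact hx.norm.eventually_lt_const hx₀R
  have hud : ∀ᶠ N : ℕ in atTop, DifferentiableOn ℂ (u N) (ball 0 (R / 2)) := by
    filter_upwards [hS2, hxR] with N h1 h2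
    refine (h1 (x N) (by rw [mem_ball_zero_iff]; linarith) i).mono ?_
    exact ball_subset_ball (by linarith)
  obtain ⟨q, κ, hκ, hq, hqg⟩ := Pool.Agent.W930.HTLog.main u g (ball 0 (R / 2))
    (closedBall 0 (R / 4)) isOpen_ball (convex_ball _ _) hud
    (hgd.mono (ball_subset_closedBall.trans hKR)) hMW (isCompact_closedBall 0 _)
    (closedBall_subset_ball (by linarith))
  -- Laplace
  have hsub : ball (0 : ℂ) (R / 4) ⊆ ball 0 (R / 2) := ball_subset_ball (by linarith)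
  set U : Set ℂ := ball (c : ℂ) (R / 4) with hU
  have hshift : ∀ w ∈ U, w - c ∈ ball (0 : ℂ) (R / 4) := by
    intro w hw
    rw [hU, mem_ball, dist_eq_norm] at hw
    rwa [mem_ball_zero_iff]
  have hpt : ∀ s y : ℝ, c - ρ ≤ s → s ≤ c + ρ → |y| ≤ h → ((s : ℂ) + y * Complex.I) ∈ U := by
    intro s y hs1 hs2 hy
    rw [hU, mem_ball, dist_eq_norm]
    have e : (s : ℂ) + y * Complex.I - c = ((s - c : ℝ) : ℂ) + y * Complex.I := by push_cast; ring
    rw [e]
    refine (norm_add_le _ _).trans_lt ?_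
    rw [norm_mul, Complex.norm_I, mul_one, Complex.norm_real, Complex.norm_real, Real.norm_eq_abs,
      Real.norm_eq_abs]
    have : |s - c| ≤ ρ := by rw [abs_le]; constructor <;> linarith
    linarith
  have hderc : ∀ w, deriv (fun w => g (w - c)) w = deriv g (w - c) := by
    intro w
    exact deriv_comp_sub_const g (c : ℂ) w
  have key := Pool.Agent.W588.HT.lapsum0 (fun N w => q N (w - c)) (fun w => g (w - c)) U (c - ρ)
    (c + ρ) h (c + om x₀) (fun N => ⌈(c - ρ) * N⌉₊) (fun N => ⌈(c + ρ) * N⌉₊) isOpen_ball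
    (by
      filter_upwards [hq] with N hN
      exact (hN.1.mono hsub).comp (by fun_prop) hshift)
    ((hgd.mono (ball_subset_ball (by linarith))).comp (by fun_prop) hshift)
    (by
      rw [Metric.tendstoUniformlyOn_iff] at hqg ⊢
      intro ε hε
      filter_upwards [hqg ε hε] with N hN w hw
      exact hN _ (ball_subset_closedBall (hshift w hw)))
    hpt hh
    ((tendsto_nat_ceil_mul_div_atTop (R := ℝ) (a := c - ρ) (by linarith)).comp
      tendsto_natCast_atTop_atTop)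
    ((tendsto_nat_ceil_mul_div_atTop (R := ℝ) (a := c + ρ) (by linarith)).comp
      tendsto_natCast_atTop_atTop)
    (by
      have := (abs_lt.1 hl.re).1
      simp only [Complex.add_re, Complex.ofReal_re]; linarith)
    (by
      have := (abs_lt.1 hl.re).2
      simp only [Complex.add_re, Complex.ofReal_re]; linarith)
    (by simpa using hl.im)
    (by
      rw [hderc, add_sub_cancel_left]
      exact hl.crit)
    (by
      have e : deriv (fun w => g (w - c)) = fun w => (deriv g) (w - c) := by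
        funext w; exact hderc w
      rw [e, deriv_comp_sub_const (deriv g) (c : ℂ), add_sub_cancel_left]
      exact hl.neg)
    (by
      intro s hs1 hs2 hne
      have e1 : (s : ℂ) + ((c : ℂ) + om x₀).im * Complex.I - c =
          ((s - c : ℝ) : ℂ) + (om x₀).im * Complex.I := by
        simp only [Complex.add_im, Complex.ofReal_im, zero_add]
        push_cast; ring
      have e2 : (c : ℂ) + om x₀ - c = om x₀ := by ring
      simp only [e1, e2]
      refine hl.line (s - c) (by linarith) (by linarith) ?_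
      intro hcon
      apply hne
      simp only [Complex.add_re, Complex.ofReal_re]
      linarith)
    (by
      intro y hy
      have e1 : ((c - ρ : ℝ) : ℂ) + y * Complex.I - c = -ρ + y * Complex.I := by push_cast; ring
      have e2 : (c : ℂ) + om x₀ - c = om x₀ := by ring
      have e3 : ((c + ρ : ℝ) : ℂ) + y * Complex.I - c = ρ + y * Complex.I := by push_cast; ring
      simp only [e1, e2, e3]
      exact hl.side y hy)
    (by
      intro s hs1 hs2
      have e1 : (s : ℂ) + h * Complex.I - c = ((s - c : ℝ) : ℂ) + h * Complex.I := by push_cast; ring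
      have e2 : (c : ℂ) + om x₀ - c = om x₀ := by ring
      have e3 : (s : ℂ) - h * Complex.I - c = ((s - c : ℝ) : ℂ) - h * Complex.I := by push_cast; ring
      simp only [e1, e2, e3]
      exact hl.top (s - c) (by linarith) (by linarith))
  have e0 : (c : ℂ) + om x₀ - c = om x₀ := by ring
  simp only [e0] at key
  refine key.congr' ?_
  filter_upwards [hq, eventually_ge_atTop 1] with N hq hN
  have e1 : Sm c ρ i f N (x N) = κ N * ∑ d ∈ Finset.Ico ⌈(c - ρ) * N⌉₊ ⌈(c + ρ) * N⌉₊,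
      Complex.exp (N * q N ((d : ℂ) / N - c)) := by
    unfold Sm
    rw [Finset.mul_sum]
    refine Finset.sum_congr rfl fun d hd => ?_
    have h1 : ((d : ℂ) / N - c) ∈ ball (0 : ℂ) (R / 2) := by
      rw [mem_ball_zero_iff]
      have := ws_cast (by omega) hd
      linarith
    exact hq.2 _ h1
  rw [e1, norm_mul, hκ N, one_mul]

end Run7.h260.VC
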