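import Pool.Agent.Run7.h260.VC.E4

/-!
# Elimination of many variables
-/

set_option autoImplicit false

namespace Run7.h260.VC

open Filter Topology Metric Function
open scoped Real

variable {ι : Type} [Fintype ι] [DecidableEq ι]

/-- the configurations -/
noncomputable def Cf (c : ℝ) (ρ : ι → ℝ) (T : Finset ι) (N : ℕ) : Finset (ι → ℕ) :=
  Fintype.piFinset fun i => if i ∈ T then Ws c (ρ i) N else {0}

/-- the point of a configuration -/
noncomputable def pt (c : ℝ) (T : Finset ι) (N : ℕ) (d : ι → ℕ) (x : ι → ℂ) : ι → ℂ :=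
  fun i => if i ∈ T then (d i : ℂ) / N - c else x i

/-- sum over the configurations -/
noncomputable def ST (c : ℝ) (ρ : ι → ℝ) (T : Finset ι) (f : ℕ → (ι → ℂ) → ℂ) (N : ℕ) (x : ι → ℂ) : ℂ :=
  ∑ d ∈ Cf c ρ T N, f N (pt c T N d x)

lemma Cf_mem {c : ℝ} {ρ : ι → ℝ} {T : Finset ι} {N : ℕ} {d : ι → ℕ} : d ∈ Cf c ρ T N ↔
    ∀ i, (i ∈ T → d i ∈ Ws c (ρ i) N) ∧ (i ∉ T → d i = 0) := by
  unfold Cf
  rw [Fintype.mem_piFinset]
  refine forall_congr' fun i => ?_
  by_cases h : i ∈ T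
  · simp [h]
  · simp [h]

lemma ST_empty (c : ℝ) (ρ : ι → ℝ) (f : ℕ → (ι → ℂ) → ℂ) : ST c ρ ∅ f = f := by
  funext N x
  have h : Cf c ρ ∅ N = {0} := by
    ext d
    rw [Cf_mem]
    simp [funext_iff]
  unfold ST
  rw [h, Finset.sum_singleton]
  congr 1

lemma ST_insert (c : ℝ) (ρ : ι → ℝ) {i : ι} (ρi : ℝ) {T : Finset ι} (hi : i ∉ T)
    (f : ℕ → (ι → ℂ) → ℂ) :
    ST c (update ρ i ρi) (insert i T) f = Sm c ρi i (ST c ρ T f) := by
  funext N x
  unfold Sm ST
  rw [← Finset.sum_product']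
  symm
  refine Finset.sum_nbij' (fun p => update p.2 i p.1) (fun d => (d i, update d i 0)) ?_ ?_ ?_ ?_ ?_
  · rintro ⟨e, d⟩ hp
    rw [Finset.mem_product, Cf_mem] at hp
    obtain ⟨h1, h2⟩ := hp
    rw [Cf_mem]
    intro j
    by_cases hj : j = i
    · subst hj
      simpa using h1
    · simp only [Finset.mem_insert, hj, false_or, update_of_ne hj]
      exact h2 j
  · intro d hd
    rw [Cf_mem] at hd
    rw [Finset.mem_product, Cf_mem]
    constructor
    · have := (hd i).1 (Finset.mem_insert_self i T)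
      simpa using this
    · intro j
      by_cases hj : j = i
      · subst hj
        simp [hi]
      · have := hd j
        simp only [Finset.mem_insert, hj, false_or, update_of_ne hj] at this
        simpa only [update_of_ne hj] using this
  · rintro ⟨e, d⟩ hp
    rw [Finset.mem_product, Cf_mem] at hp
    have h0 := (hp.2 i).2 hi
    simp only at h0
    simp only [update_self, update_idem, Prod.mk.injEq, true_and]
    funext j
    by_cases hj : j = i
    · subst hj; simp [h0]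
    · simp [hj]
  · intro d hd
    simp
  · rintro ⟨e, d⟩ hp
    congr 1
    funext j
    unfold pt
    by_cases hj : j = i
    · subst hj
      simp [hi]
    · simp [hj]

/-- the conclusion of the elimination of the variables `T` -/
structure El (c ρ₀ k : ℝ) (S T : Finset ι) (Q : (ι → ℂ) → ℂ) (f : ℕ → (ι → ℂ) → ℂ) (ρ : ι → ℝ)
    (QT : (ι → ℂ) → ℂ) (Ψ : (ι → ℂ) → ι → ℂ) : Prop where
  hρ : ∀ i, 0 < ρ i ∧ ρ i < ρ₀
  an : AnalyticAt ℂ QT 0
  zero : QT 0 = Q 0
  cont : ContinuousAt Ψ 0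
  psi0 : Ψ 0 = 0
  ev : ∀ᶠ x in 𝓝 0, (∀ j, j ∉ T → Ψ x j = x j) ∧ (∀ i ∈ T, Dp Q i (Ψ x) = 0) ∧ QT x = Q (Ψ x) ∧
    fderiv ℂ QT x = fderiv ℂ Q (Ψ x)
  uniq : ∀ᶠ x in 𝓝 0, (∀ i ∈ T, Dp Q i x = 0) → Ψ x = x
  qm : Qm (S \ T) k QT
  san : San (ST c ρ T f)
  lim : Lim (ST c ρ T f) QT

theorem elim {S : Finset ι} {k : ℝ} {Q : (ι → ℂ) → ℂ} (hk : 0 < k) (h : Qm S k Q)
    (hQ : AnalyticAt ℂ Q 0) (h0 : ∀ i ∈ S, Dp Q i 0 = 0) (hpos : 0 < (Q 0).re)
    {f : ℕ → (ι → ℂ) → ℂ} (hS : San f) (hL : Lim f Q) {c : ℝ} (hc : 0 < c) {ρ₀ : ℝ} (hρ₀ : 0 < ρ₀)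
    (T : Finset ι) : T ⊆ S → ∃ (ρ : ι → ℝ) (QT : (ι → ℂ) → ℂ) (Ψ : (ι → ℂ) → ι → ℂ),
      El c ρ₀ k S T Q f ρ QT Ψ := by
  induction T using Finset.induction_on with
  | empty =>
    intro _
    refine ⟨fun _ => ρ₀ / 2, Q, id, ⟨fun _ => ⟨by positivity, by linarith⟩, hQ, rfl, continuousAt_id, rfl,
      ?_, ?_, ?_, ?_, ?_⟩⟩
    · exact Eventually.of_forall fun x => ⟨fun _ _ => rfl, fun i hi => by simp at hi, rfl, rfl⟩
    · exact Eventually.of_forall fun x _ => rfl
    · rwa [Finset.sdiff_empty]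
    · rwa [ST_empty]
    · rwa [ST_empty]
  | insert i T hi ih =>
    intro hT
    have hiS : i ∈ S := hT (Finset.mem_insert_self i T)
    obtain ⟨ρ, QT, Ψ, E⟩ := ih ((Finset.subset_insert i T).trans hT)
    have hiST : i ∈ S \ T := Finset.mem_sdiff.2 ⟨hiS, hi⟩
    have hd0 : Dp QT i 0 = 0 := by
      have h1 := E.ev.self_of_nhds.2.2.2
      rw [E.psi0] at h1
      unfold Dp
      rw [h1]
      exact h0 i hiS
    have hneg := E.qm.neg hiST E.an hd0
    have hne : Dp (Dp QT i) i 0 ≠ 0 := by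
      intro hcon
      rw [hcon, Complex.zero_re] at hneg
      linarith
    obtain ⟨om, a1, a2, a3, a4, a5, a6, a7⟩ := pstep i E.an hd0 hne
    obtain ⟨ρi, b1, b2, b3, b4⟩ := astep hk E.qm hiST E.an hd0 (by rw [E.zero]; exact hpos) a1 a2 a4
      E.san E.lim hc hρ₀
    have hu := upd_an i a1
    have hu0 : update (0 : ι → ℂ) i (om 0) = 0 := by rw [a2]; simp
    have hz : Tendsto (fun x : ι → ℂ => update x i (om x)) (𝓝 0) (𝓝 0) := by
      have := hu.continuousAt.tendsto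
      rwa [hu0] at this
    refine ⟨update ρ i ρi, fun x => QT (update x i (om x)), fun x => Ψ (update x i (om x)), ⟨?_, a6,
      ?_, ?_, ?_, ?_, ?_, ?_, ?_, ?_⟩⟩
    · intro j
      by_cases hj : j = i
      · subst hj; rw [update_self]; exact ⟨b1, b2⟩
      · rw [update_of_ne hj]; exact E.hρ j
    · rw [hu0, E.zero]
    · have h1 : ContinuousAt Ψ (update (0 : ι → ℂ) i (om 0)) := by rw [hu0]; exact E.cont
      exact ContinuousAt.comp (g := Ψ) h1 hu.continuousAt
    · rw [hu0, E.psi0]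
    · filter_upwards [hz.eventually E.ev, a4, a7] with x e1 e2 e3
      refine ⟨?_, ?_, e1.2.2.1, ?_⟩
      · intro j hj
        rw [Finset.mem_insert, not_or] at hj
        rw [e1.1 j hj.2, update_of_ne hj.1]
      · intro j hj
        rcases Finset.mem_insert.1 hj with rfl | hj
        · have h1 := e1.2.2.2
          unfold Dp at e2 ⊢
          rw [← h1]
          exact e2
        · exact e1.2.1 j hj
      · rw [e3, e1.2.2.2]
    · filter_upwards [E.uniq, E.ev, a5] with x e1 e2 e3 e4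
      have h1 := e1 fun j hj => e4 j (Finset.mem_insert_of_mem hj)
      have h2 : Dp QT i x = 0 := by
        have h3 := e4 i (Finset.mem_insert_self i T)
        have h4 := e2.2.2.2
        rw [h1] at h4
        unfold Dp at h3 ⊢
        rw [h4]
        exact h3
      have h3 := e3 h2
      have h4 : update x i (om x) = x := by rw [← h3]; simp
      rw [h4, h1]
    · have h1 := E.qm.step hk hiST E.an hd0 a1 a2 a4
      have h2 : (S \ T).erase i = S \ insert i T := by
        ext j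
        simp only [Finset.mem_erase, Finset.mem_sdiff, Finset.mem_insert]
        tauto
      rwa [h2] at h1
    · rw [ST_insert c ρ ρi hi]; exact b3
    · rw [ST_insert c ρ ρi hi]; exact b4

end Run7.h260.VC
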