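import Pool.Agent.W120.VC.Tet
import Pool.Agent.H776R3.EvenVol.TaskL

/-!
# The rate away from the maximum
-/

set_option autoImplicit false

namespace Run7.h260.VC

open Filter Topology Metric Set MeasureTheory
open GapVol (lob)
open scoped Real

lemma tri0 {x y z : ℝ} (hx : 0 < x) (hy : 0 < y) (hz : 0 < z) (h : x + y + z = π) :
    0 ≤ lob x + lob y + lob z := by
  have hpi := Real.pi_pos
  have hp : lob π = 0 := EvenVol.LobIneq.lob_pi
  have h0 : lob 0 = 0 := GapVol.lob_zero
  have h1 := Pool.Agent.W120.VC.tet x y z π 0 0 hx hy hz h hpi.le le_rfl le_rfl (by ring)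
  have h2 := Pool.Agent.W120.VC.tet x y z 0 π 0 hx hy hz h le_rfl hpi.le le_rfl (by ring)
  have h3 := Pool.Agent.W120.VC.tet x y z 0 0 π hx hy hz h le_rfl le_rfl hpi.le (by ring)
  rw [hp, h0] at h1 h2 h3
  set V := lob x + lob y + lob z with hV
  set p := Real.log (2 * Real.sin x)
  set q := Real.log (2 * Real.sin y)
  set r := Real.log (2 * Real.sin z)
  have h4 := mul_le_mul_of_nonneg_left h1 hx.le
  have h5 := mul_le_mul_of_nonneg_left h2 hy.le
  have h6 := mul_le_mul_of_nonneg_left h3 hz.le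
  have h7 : 0 ≤ (x + y + z) * V := by
    have e : x * (V - (π - x) * p - (0 - y) * q - (0 - z) * r) +
        y * (V - (0 - x) * p - (π - y) * q - (0 - z) * r) +
        z * (V - (0 - x) * p - (0 - y) * q - (π - z) * r) =
        (x + y + z) * V - (π - (x + y + z)) * (x * p + y * q + z * r) := by ring
    rw [h] at e ⊢
    linarith
  rw [h] at h7
  by_contra hneg
  push Not at hneg
  nlinarith

/-- the logarithm is increasing near `π / 3` -/
lemma dlog {d : ℝ} (h0 : -(π / 3) ≤ d) (h1 : d ≤ 2 * π / 3) :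
    0 ≤ d * (Real.log (2 * Real.sin (π / 3 + d / 8)) - Real.log (2 * Real.sin (π / 3))) ∧
    (d ≠ 0 → 0 < d * (Real.log (2 * Real.sin (π / 3 + d / 8)) - Real.log (2 * Real.sin (π / 3)))) := by
  have hpi := Real.pi_pos
  have hs1 : 0 < Real.sin (π / 3 + d / 8) := Real.sin_pos_of_pos_of_lt_pi (by linarith) (by linarith)
  have hs2 : 0 < Real.sin (π / 3) := Real.sin_pos_of_pos_of_lt_pi (by linarith) (by linarith)
  have key : d ≠ 0 → 0 < d * (Real.log (2 * Real.sin (π / 3 + d / 8)) - Real.log (2 * Real.sin (π / 3))) := by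
    intro hd
    rcases lt_or_gt_of_ne hd with h | h
    · have h2 : Real.sin (π / 3 + d / 8) < Real.sin (π / 3) :=
        Real.sin_lt_sin_of_lt_of_le_pi_div_two (by linarith) (by linarith) (by linarith)
      have h3 := Real.log_lt_log (by positivity) (show 2 * Real.sin (π / 3 + d / 8) < 2 * Real.sin (π / 3) by linarith)
      exact mul_pos_of_neg_of_neg h (by linarith)
    · have h2 : Real.sin (π / 3) < Real.sin (π / 3 + d / 8) :=
        Real.sin_lt_sin_of_lt_of_le_pi_div_two (by linarith) (by linarith) (by linarith)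
      have h3 := Real.log_lt_log (by positivity) (show 2 * Real.sin (π / 3) < 2 * Real.sin (π / 3 + d / 8) by linarith)
      exact mul_pos h (by linarith)
  refine ⟨?_, key⟩
  rcases eq_or_ne d 0 with h | h
  · rw [h]; simp
  · exact (key h).le

lemma tet_lt {x y z : ℝ} (hx : 0 ≤ x) (hy : 0 ≤ y) (hz : 0 ≤ z) (h : x + y + z = π)
    (hne : ¬ (x = π / 3 ∧ y = π / 3)) : lob x + lob y + lob z < 3 * lob (π / 3) := by
  have hpi := Real.pi_pos
  obtain ⟨a, ha⟩ : ∃ a, a = x - π / 3 := ⟨_, rfl⟩
  obtain ⟨b, hb⟩ : ∃ b, b = y - π / 3 := ⟨_, rfl⟩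
  obtain ⟨c, hc⟩ : ∃ c, c = z - π / 3 := ⟨_, rfl⟩
  have hx' : x = π / 3 + a := by linarith
  have hy' : y = π / 3 + b := by linarith
  have hz' : z = π / 3 + c := by linarith
  have habc : a + b + c = 0 := by linarith
  have k1 := dlog (d := a) (by linarith) (by linarith)
  have k2 := dlog (d := b) (by linarith) (by linarith)
  have k3 := dlog (d := c) (by linarith) (by linarith)
  have t1 := Pool.Agent.W120.VC.tet (π / 3 + a / 8) (π / 3 + b / 8) (π / 3 + c / 8) x y z
    (by linarith) (by linarith) (by linarith) (by linarith) hx hy hz h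
  have t2 := Pool.Agent.W120.VC.tet (π / 3) (π / 3) (π / 3) (π / 3 + a / 8) (π / 3 + b / 8) (π / 3 + c / 8)
    (by linarith) (by linarith) (by linarith) (by ring) (by linarith) (by linarith) (by linarith) (by linarith)
  set L := Real.log (2 * Real.sin (π / 3)) with hL
  set La := Real.log (2 * Real.sin (π / 3 + a / 8))
  set Lb := Real.log (2 * Real.sin (π / 3 + b / 8))
  set Lc := Real.log (2 * Real.sin (π / 3 + c / 8))
  have e2 : (π / 3 + a / 8 - π / 3) * L + (π / 3 + b / 8 - π / 3) * L + (π / 3 + c / 8 - π / 3) * L = 0 := by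
    have : a * L + b * L + c * L = 0 := by rw [← add_mul, ← add_mul, habc, zero_mul]
    linarith
  have e1 : (x - (π / 3 + a / 8)) * La + (y - (π / 3 + b / 8)) * Lb + (z - (π / 3 + c / 8)) * Lc =
      7 / 8 * (a * (La - L) + b * (Lb - L) + c * (Lc - L)) := by
    rw [hx', hy', hz']
    have : a * L + b * L + c * L = 0 := by rw [← add_mul, ← add_mul, habc, zero_mul]
    linarith
  have hpos : 0 < a * (La - L) + b * (Lb - L) + c * (Lc - L) := by
    by_cases h1 : a = 0
    · have h2 : b ≠ 0 := by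
        intro h2
        exact hne ⟨by rw [hx', h1, add_zero], by rw [hy', h2, add_zero]⟩
      have := k2.2 h2
      linarith [k1.1, k3.1]
    · have := k1.2 h1
      linarith [k2.1, k3.1]
  linarith

lemma tet_le {x y z : ℝ} (hx : 0 ≤ x) (hy : 0 ≤ y) (hz : 0 ≤ z) (h : x + y + z = π) :
    lob x + lob y + lob z ≤ 3 * lob (π / 3) := by
  by_cases hne : x = π / 3 ∧ y = π / 3
  · have hz' : z = π / 3 := by linarith [hne.1, hne.2]
    rw [hne.1, hne.2, hz']
    linarith
  · exact (tet_lt hx hy hz h hne).le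

lemma third_pos : 0 < lob (π / 3) := by
  have h1 := GapVol.lob_dup
  have h2 := EvenVol.LobIneq.lob_six_pos
  linarith

lemma lob_refl (x : ℝ) : lob (π - x) = -lob x := by
  rw [← EvenVol.LobIneq.lob_neg, ← EvenVol.LobIneq.lob_per (-x)]
  congr 1
  ring

/-- the three term inequality -/
lemma T_lt {u v : ℝ} (hu : 0 ≤ u) (hu' : u ≤ π)
    (hne : ¬ (u = π / 3 ∧ ∃ k : ℤ, v = π / 3 + k * π)) :
    lob u + lob v - lob (u + v) < 3 * lob (π / 3) := by
  have hpi := Real.pi_pos
  -- reduction of `v`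
  obtain ⟨k, hk⟩ : ∃ k : ℤ, k = ⌊v / π⌋ := ⟨_, rfl⟩
  obtain ⟨w, hw⟩ : ∃ w : ℝ, w = v - k * π := ⟨_, rfl⟩
  have hw0 : 0 ≤ w := by
    have := Int.floor_le (v / π)
    rw [← hk, le_div_iff₀ hpi] at this
    linarith
  have hw1 : w < π := by
    have := Int.lt_floor_add_one (v / π)
    rw [← hk, div_lt_iff₀ hpi] at this
    linarith
  have hv : v = w + k * π := by linarith
  have e1 : lob v = lob w := by
    rw [hv]
    exact EvenVol.LobIneq.lob_per.int_mul k w
  have e2 : lob (u + v) = lob (u + w) := by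
    rw [hv, ← add_assoc]
    exact EvenVol.LobIneq.lob_per.int_mul k (u + w)
  rw [e1, e2]
  rcases le_or_gt (u + w) π with h | h
  · have h1 : ¬ (u = π / 3 ∧ w = π / 3) := by
      rintro ⟨a, b⟩
      exact hne ⟨a, k, by rw [hv, b]⟩
    have h2 := tet_lt hu hw0 (by linarith : 0 ≤ π - (u + w)) (by ring) h1
    rw [lob_refl] at h2
    linarith
  · have h3 : 0 ≤ lob (π - u) + lob (π - w) + lob (u + w - π) := by
      rcases eq_or_lt_of_le hu' with h4 | h4
      · rw [h4, sub_self, GapVol.lob_zero, lob_refl]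
        have : π + w - π = w := by ring
        rw [this]
        linarith
      · exact tri0 (by linarith) (by linarith) (by linarith) (by ring)
    have e3 : lob (u + w) = lob (u + w - π) := by
      rw [← EvenVol.LobIneq.lob_per (u + w - π)]
      congr 1
      ring
    rw [lob_refl, lob_refl, ← e3] at h3
    have := third_pos
    linarith

lemma T_le {u v : ℝ} (hu : 0 ≤ u) (hu' : u ≤ π) : lob u + lob v - lob (u + v) ≤ 3 * lob (π / 3) := by
  by_cases hne : u = π / 3 ∧ ∃ k : ℤ, v = π / 3 + k * π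
  · obtain ⟨h1, k, h2⟩ := hne
    have e1 : lob v = lob (π / 3) := by
      rw [h2]; exact EvenVol.LobIneq.lob_per.int_mul k _
    have e2 : lob (u + v) = lob (π / 3 + π / 3) := by
      rw [h1, h2, ← add_assoc]; exact EvenVol.LobIneq.lob_per.int_mul k _
    have e3 : lob (π / 3 + π / 3) = -lob (π / 3) := by
      rw [← lob_refl]; congr 1; ring
    rw [e1, e2, e3, h1]
    linarith
  · exact (T_lt hu hu' hne).le

/-- the rate of a pair on the real line -/
noncomputable def E0 (x a b : ℝ) : ℝ :=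
  (lob (π * (a - b)) + (lob (π * b + x / 2) + lob (π * b - x / 2) - lob (π * a + x / 2) -
    lob (π * a - x / 2)) / 2) / π

lemma E0_cont : Continuous fun p : ℝ × ℝ × ℝ => E0 p.1 p.2.1 p.2.2 := by
  have h := GapVol.lob_cont
  unfold E0
  fun_prop

lemma E0_eq (x a b : ℝ) : E0 x a b = ((lob (π * (a - b)) + lob (π * b + x / 2) -
    lob (π * (a - b) + (π * b + x / 2))) + (lob (π * (a - b)) + lob (π * b - x / 2) -
    lob (π * (a - b) + (π * b - x / 2)))) / (2 * π) := by
  have hpi := Real.pi_pos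
  unfold E0
  have e1 : π * (a - b) + (π * b + x / 2) = π * a + x / 2 := by ring
  have e2 : π * (a - b) + (π * b - x / 2) = π * a - x / 2 := by ring
  rw [e1, e2]
  field_simp
  ring

lemma E0_lt {x a b : ℝ} (hb : 0 ≤ b) (hab : b ≤ a) (ha : a ≤ 1) (hx : |x| ≤ π)
    (hne : ¬ (x = 0 ∧ a = 2 / 3 ∧ b = 1 / 3)) : E0 x a b < 3 * lob (π / 3) / π := by
  have hpi := Real.pi_pos
  have hu : 0 ≤ π * (a - b) := mul_nonneg hpi.le (by linarith)
  have hu' : π * (a - b) ≤ π := by
    have : a - b ≤ 1 := by linarith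
    nlinarith
  rw [E0_eq]
  have hlt : (lob (π * (a - b)) + lob (π * b + x / 2) -
    lob (π * (a - b) + (π * b + x / 2))) + (lob (π * (a - b)) + lob (π * b - x / 2) -
    lob (π * (a - b) + (π * b - x / 2))) < 2 * (3 * lob (π / 3)) := by
    have p1 := T_le (v := π * b + x / 2) hu hu'
    have p2 := T_le (v := π * b - x / 2) hu hu'
    by_cases c1 : π * (a - b) = π / 3 ∧ ∃ k : ℤ, π * b + x / 2 = π / 3 + k * π
    · by_cases c2 : π * (a - b) = π / 3 ∧ ∃ k : ℤ, π * b - x / 2 = π / 3 + k * π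
      · exfalso
        obtain ⟨d1, k, d2⟩ := c1
        obtain ⟨_, l, d3⟩ := c2
        have hab3 : a - b = 1 / 3 := by
          have : π * (a - b - 1 / 3) = 0 := by linarith
          rcases mul_eq_zero.1 this with h | h
          · linarith
          · linarith
        rw [abs_le] at hx
        have hxk : x = ((k - l : ℤ) : ℝ) * π := by push_cast; linarith
        have hkl : k - l = 0 ∨ k - l = 1 ∨ k - l = -1 := by
          have h1 : ((k - l : ℤ) : ℝ) ≤ 1 := by
            by_contra hc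
            push Not at hc
            nlinarith [hx.2]
          have h2 : (-1 : ℝ) ≤ ((k - l : ℤ) : ℝ) := by
            by_contra hc
            push Not at hc
            nlinarith [hx.1]
          have h1' : k - l ≤ 1 := by exact_mod_cast h1
          have h2' : -1 ≤ k - l := by exact_mod_cast h2
          omega
        rcases hkl with h | h | h
        · have hx0 : x = 0 := by rw [hxk, h]; simp
          have hkb : b - 1 / 3 = k := by
            have : π * (b - 1 / 3 - k) = 0 := by rw [hx0] at d2; linarith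
            rcases mul_eq_zero.1 this with h | h
            · linarith
            · linarith
          have hk0 : k = 0 := by
            have h1 : (k : ℝ) < 1 := by linarith
            have h2 : (-1 : ℝ) < k := by linarith
            have h1' : k < 1 := by exact_mod_cast h1
            have h2' : -1 < k := by exact_mod_cast h2
            omega
          rw [hk0] at hkb
          push_cast at hkb
          exact hne ⟨hx0, by linarith, by linarith⟩
        · have hx0 : x = π := by rw [hxk, h]; simp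
          have hkb : b + 1 / 6 = k := by
            have : π * (b + 1 / 6 - k) = 0 := by rw [hx0] at d2; linarith
            rcases mul_eq_zero.1 this with h | h
            · linarith
            · linarith
          have h1 : (k : ℝ) < 1 := by linarith
          have h2 : (0 : ℝ) < k := by linarith
          have h1' : k < 1 := by exact_mod_cast h1
          have h2' : 0 < k := by exact_mod_cast h2
          omega
        · have hx0 : x = -π := by rw [hxk, h]; simp
          have hkb : b - 5 / 6 = k := by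
            have : π * (b - 5 / 6 - k) = 0 := by rw [hx0] at d2; linarith
            rcases mul_eq_zero.1 this with h | h
            · linarith
            · linarith
          have h1 : (k : ℝ) < 0 := by linarith
          have h2 : (-1 : ℝ) < k := by linarith
          have h1' : k < 0 := by exact_mod_cast h1
          have h2' : -1 < k := by exact_mod_cast h2
          omega
      · have := T_lt hu hu' c2
        linarith
    · have := T_lt hu hu' c1
      linarith
  rw [div_lt_div_iff₀ (by positivity) hpi]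
  nlinarith

/-- the gap -/
theorem E0_gap {ρ : ℝ} (hρ : 0 < ρ) : ∃ κ : ℝ, 0 < κ ∧ ∀ x a b : ℝ, 0 ≤ b → b ≤ a → a ≤ 1 → |x| ≤ π →
    (ρ ≤ |x| ∨ ρ ≤ |a - 2 / 3| ∨ ρ ≤ |b - 1 / 3|) → E0 x a b ≤ 3 * lob (π / 3) / π - κ := by
  set K : Set (ℝ × ℝ × ℝ) := {p | 0 ≤ p.2.2 ∧ p.2.2 ≤ p.2.1 ∧ p.2.1 ≤ 1 ∧ |p.1| ≤ π ∧
    (ρ ≤ |p.1| ∨ ρ ≤ |p.2.1 - 2 / 3| ∨ ρ ≤ |p.2.2 - 1 / 3|)} with hK
  have hcl : IsClosed K := by
    have c1 : IsClosed {p : ℝ × ℝ × ℝ | 0 ≤ p.2.2} := isClosed_le continuous_const (by fun_prop)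
    have c2 : IsClosed {p : ℝ × ℝ × ℝ | p.2.2 ≤ p.2.1} := isClosed_le (by fun_prop) (by fun_prop)
    have c3 : IsClosed {p : ℝ × ℝ × ℝ | p.2.1 ≤ 1} := isClosed_le (by fun_prop) continuous_const
    have c4 : IsClosed {p : ℝ × ℝ × ℝ | |p.1| ≤ π} := isClosed_le (by fun_prop) continuous_const
    have c5 : IsClosed {p : ℝ × ℝ × ℝ | ρ ≤ |p.1|} := isClosed_le continuous_const (by fun_prop)
    have c6 : IsClosed {p : ℝ × ℝ × ℝ | ρ ≤ |p.2.1 - 2 / 3|} := isClosed_le continuous_const (by fun_prop)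
    have c7 : IsClosed {p : ℝ × ℝ × ℝ | ρ ≤ |p.2.2 - 1 / 3|} := isClosed_le continuous_const (by fun_prop)
    exact c1.inter (c2.inter (c3.inter (c4.inter (c5.union (c6.union c7)))))
  have hbd : K ⊆ Set.Icc (-π) π ×ˢ (Set.Icc (0 : ℝ) 1 ×ˢ Set.Icc (0 : ℝ) 1) := by
    rintro ⟨x, a, b⟩ ⟨h1, h2, h3, h4, _⟩
    simp only at h1 h2 h3 h4
    rw [abs_le] at h4
    exact ⟨h4, ⟨by linarith, h3⟩, ⟨h1, by linarith⟩⟩
  have hcomp : IsCompact K :=
    (isCompact_Icc.prod (isCompact_Icc.prod isCompact_Icc)).of_isClosed_subset hcl hbd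
  rcases K.eq_empty_or_nonempty with h0 | h0
  · refine ⟨1, one_pos, fun x a b h1 h2 h3 h4 h5 => ?_⟩
    have : ((x, a, b) : ℝ × ℝ × ℝ) ∈ K := ⟨h1, h2, h3, h4, h5⟩
    rw [h0] at this
    exact absurd this (Set.notMem_empty _)
  · obtain ⟨p, hp, hmax⟩ := hcomp.exists_isMaxOn h0 E0_cont.continuousOn
    obtain ⟨h1, h2, h3, h4, h5⟩ := hp
    have hlt := E0_lt h1 h2 h3 h4 (by
      rintro ⟨e1, e2, e3⟩
      rw [e1, e2, e3, abs_zero, sub_self, sub_self, abs_zero] at h5
      rcases h5 with h | h | h <;> linarith)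
    refine ⟨3 * lob (π / 3) / π - E0 p.1 p.2.1 p.2.2, by linarith, fun x a b g1 g2 g3 g4 g5 => ?_⟩
    have : E0 x a b ≤ E0 p.1 p.2.1 p.2.2 := hmax (a := (x, a, b)) ⟨g1, g2, g3, g4, g5⟩
    linarith

lemma E0_le {x a b : ℝ} (hb : 0 ≤ b) (hab : b ≤ a) (ha : a ≤ 1) :
    E0 x a b ≤ 3 * lob (π / 3) / π := by
  have hpi := Real.pi_pos
  have hu : 0 ≤ π * (a - b) := mul_nonneg hpi.le (by linarith)
  have hu' : π * (a - b) ≤ π := by
    have : a - b ≤ 1 := by linarith
    nlinarith
  rw [E0_eq, div_le_div_iff₀ (by positivity) hpi]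
  have p1 := T_le (v := π * b + x / 2) hu hu'
  have p2 := T_le (v := π * b - x / 2) hu hu'
  nlinarith

end Run7.h260.VC
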