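import Pool.Agent.Run7.h260.VC.F1
import Pool.Agent.Y155.TK.Jen
import Pool.Agent.Y220.TK.Qbd
import Pool.Agent.Y100.TK.Far
import Pool.Agent.Y681.TK.Fin

/-!
# The rate of the far configurations
-/

set_option autoImplicit false

namespace Run7.h260.VC

open Filter Topology Metric MeasureTheory Pool.Agent.W711.HT Pool.Agent.Y472.K
open GapVol (lob)
open scoped Real

lemma nsq (x y φ : ℝ) : ‖2 * Complex.cos (x + y * Complex.I) - 2 * (Real.cos φ : ℂ)‖ ^ 2 =
    4 * ((Real.cosh y - Real.cos (x + φ)) * (Real.cosh y - Real.cos (x - φ))) := by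
  have e : 2 * Complex.cos (x + y * Complex.I) - 2 * (Real.cos φ : ℂ) =
      ((2 * (Real.cos x * Real.cosh y - Real.cos φ) : ℝ) : ℂ) +
      ((-(2 * (Real.sin x * Real.sinh y)) : ℝ) : ℂ) * Complex.I := by
    rw [Complex.cos_add_mul_I]
    push_cast
    ring
  rw [e, Complex.sq_norm, Complex.normSq_add_mul_I]
  have h1 := Real.sin_sq_add_cos_sq x
  have h2 := Real.sin_sq_add_cos_sq φ
  have h3 := Real.cosh_sq y
  rw [Real.cos_add, Real.cos_sub]
  have e1 : Real.sin x ^ 2 = 1 - Real.cos x ^ 2 := by linarith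
  have e2 : Real.sin φ ^ 2 = 1 - Real.cos φ ^ 2 := by linarith
  have e3 : Real.sinh y ^ 2 = Real.cosh y ^ 2 - 1 := by linarith
  have : (2 * (Real.cos x * Real.cosh y - Real.cos φ)) ^ 2 + (-(2 * (Real.sin x * Real.sinh y))) ^ 2 =
      4 * ((Real.cos x * Real.cosh y - Real.cos φ) ^ 2 + Real.sin x ^ 2 * Real.sinh y ^ 2) := by ring
  rw [this, e1, e3]
  have : (Real.cosh y - (Real.cos x * Real.cos φ - Real.sin x * Real.sin φ)) *
      (Real.cosh y - (Real.cos x * Real.cos φ + Real.sin x * Real.sin φ)) =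
      Real.cosh y ^ 2 - 2 * Real.cosh y * Real.cos x * Real.cos φ + Real.cos x ^ 2 * Real.cos φ ^ 2 -
        Real.sin x ^ 2 * Real.sin φ ^ 2 := by ring
  rw [this, e1, e2]
  ring

lemma fac_mono {x y y' φ : ℝ} (h : |y| ≤ |y'|) :
    ‖2 * Complex.cos (x + y * Complex.I) - 2 * (Real.cos φ : ℂ)‖ ≤
      ‖2 * Complex.cos (x + y' * Complex.I) - 2 * (Real.cos φ : ℂ)‖ := by
  have h1 : Real.cosh y ≤ Real.cosh y' := Real.cosh_le_cosh.2 h
  have h2 := Real.cos_le_one (x + φ)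
  have h3 := Real.cos_le_one (x - φ)
  have h4 := Real.one_le_cosh y
  refine (sq_le_sq₀ (norm_nonneg _) (norm_nonneg _)).1 ?_
  rw [nsq, nsq]
  have : (Real.cosh y - Real.cos (x + φ)) * (Real.cosh y - Real.cos (x - φ)) ≤
      (Real.cosh y' - Real.cos (x + φ)) * (Real.cosh y' - Real.cos (x - φ)) :=
    mul_le_mul (by linarith) (by linarith) (by linarith) (by linarith)
  linarith

lemma Pq_mono {N j i : ℕ} {x y y' : ℝ} (h : |y| ≤ |y'|) :
    ‖Pq N j i (x + y * Complex.I)‖ ≤ ‖Pq N j i (x + y' * Complex.I)‖ := by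
  unfold Pq
  rw [norm_prod, norm_prod]
  exact Finset.prod_le_prod (fun _ _ => norm_nonneg _) fun s _ => fac_mono h

lemma Qc_mono {n N : ℕ} [NeZero n] {i j : Fin n → ℕ} {x y y' : ℝ} (h : |y| ≤ |y'|) :
    ‖Qc n N i j (x + y * Complex.I)‖ ≤ ‖Qc n N i j (x + y' * Complex.I)‖ := by
  unfold Qc
  rw [norm_prod, norm_prod]
  exact Finset.prod_le_prod (fun _ _ => norm_nonneg _) fun r _ => Pq_mono h

/-- the integrand on the real line -/
noncomputable def l0 (x t : ℝ) : ℝ := -GapVol.g (π * t + x / 2) - GapVol.g (π * t - x / 2)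

lemma g_int' (c a b : ℝ) : IntervalIntegrable (fun t => GapVol.g (π * t + c)) volume a b := by
  have h1 : MeromorphicOn (fun t : ℝ => 2 * Real.sin (π * t + c)) (Set.uIcc a b) := by
    intro t _
    have h3 : AnalyticAt ℝ (fun t : ℝ => 2 * Real.sin (π * t + c)) t := by fun_prop
    exact h3.meromorphicAt
  have h2 := h1.intervalIntegrable_log.neg
  exact h2

lemma g_intv (c a b : ℝ) : ∫ t in a..b, GapVol.g (π * t + c) = (lob (π * b + c) - lob (π * a + c)) / π := by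
  have hpi := Real.pi_pos
  rw [intervalIntegral.integral_comp_mul_add (fun t => GapVol.g t) hpi.ne' c, GapVol.lob_sub,
    smul_eq_mul]
  field_simp

lemma l0_int (x a b : ℝ) : IntervalIntegrable (l0 x) volume a b := by
  have h1 := g_int' (x / 2) a b
  have h2 := g_int' (-(x / 2)) a b
  exact h1.neg.sub h2

lemma l0_intv (x a b : ℝ) : ∫ t in a..b, l0 x t = (lob (π * a + x / 2) + lob (π * a - x / 2) -
    lob (π * b + x / 2) - lob (π * b - x / 2)) / π := by
  have h1 := g_int' (x / 2) a b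
  have h2 := g_int' (-(x / 2)) a b
  have e : (fun t => l0 x t) = fun t => -GapVol.g (π * t + x / 2) - GapVol.g (π * t + -(x / 2)) := by
    funext t
    unfold l0
    rw [sub_eq_add_neg (π * t)]
  have h1' : IntervalIntegrable (fun t => -GapVol.g (π * t + x / 2)) volume a b := h1.neg
  rw [e, intervalIntegral.integral_sub h1' h2, intervalIntegral.integral_neg, g_intv, g_intv]
  rw [← sub_eq_add_neg, ← sub_eq_add_neg]
  ring

lemma Lc_lob (δ : ℝ) : Lc δ = lob (π * δ) / π := by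
  have hpi := Real.pi_pos
  unfold Lc
  have h1 := g_intv 0 0 δ
  rw [add_zero, mul_zero, zero_add, GapVol.lob_zero, sub_zero] at h1
  rw [← h1, ← intervalIntegral.integral_neg]
  refine intervalIntegral.integral_congr fun t _ => ?_
  show -Real.log (2 * Real.sin (π * t)) = GapVol.g (π * t + 0)
  rw [add_zero]
  rfl

lemma l0_le (x y : ℝ) : ∀ᵐ t : ℝ, l0 x t ≤ lf x y t := by
  have h1 : ∀ c : ℝ, ∀ᵐ t : ℝ, Real.sin (π * t + c) ≠ 0 := by
    intro c
    have h2 : (Set.range fun k : ℤ => ((k : ℝ) * π - c) / π).Countable := Set.countable_range _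
    have h3 := h2.ae_notMem (μ := volume)
    filter_upwards [h3] with t ht h
    rw [Real.sin_eq_zero_iff] at h
    obtain ⟨k, hk⟩ := h
    refine ht ⟨k, ?_⟩
    have hpi := Real.pi_pos
    show ((k : ℝ) * π - c) / π = t
    rw [hk]
    field_simp
    ring
  filter_upwards [h1 (x / 2), h1 (-(x / 2))] with t a b
  rw [← sub_eq_add_neg] at b
  unfold l0 lf GapVol.g
  rw [neg_neg, sub_neg_eq_add, ← Real.log_mul (by simpa using a) (by simpa using b)]
  have h4 : |2 * Real.sin (π * t + x / 2) * (2 * Real.sin (π * t - x / 2))| ≤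
      ‖2 * Complex.cos (x + y * Complex.I) - 2 * (Real.cos (2 * π * t) : ℂ)‖ := by
    refine (sq_le_sq₀ (abs_nonneg _) (norm_nonneg _)).1 ?_
    rw [nsq, sq_abs]
    have e1 : x + 2 * π * t = 2 * (π * t + x / 2) := by ring
    have e2 : Real.cos (x - 2 * π * t) = Real.cos (2 * (π * t - x / 2)) := by
      rw [← Real.cos_neg]; congr 1; ring
    have hc := Real.one_le_cosh y
    rw [e1, e2, Real.cos_two_mul, Real.cos_two_mul]
    have s1 := Real.sin_sq_add_cos_sq (π * t + x / 2)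
    have s2 := Real.sin_sq_add_cos_sq (π * t - x / 2)
    have e3 : (2 * Real.sin (π * t + x / 2) * (2 * Real.sin (π * t - x / 2))) ^ 2 =
        4 * ((2 * Real.sin (π * t + x / 2) ^ 2) * (2 * Real.sin (π * t - x / 2) ^ 2)) := by ring
    rw [e3]
    have : (2 * Real.sin (π * t + x / 2) ^ 2) * (2 * Real.sin (π * t - x / 2) ^ 2) ≤
        (Real.cosh y - (2 * Real.cos (π * t + x / 2) ^ 2 - 1)) *
        (Real.cosh y - (2 * Real.cos (π * t - x / 2) ^ 2 - 1)) :=
      mul_le_mul (by linarith) (by linarith) (by positivity)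
        (by nlinarith [sq_nonneg (Real.sin (π * t + x / 2))])
    linarith
  rw [← Real.log_abs]
  refine Real.log_le_log (abs_pos.2 ?_) h4
  exact mul_ne_zero (by simpa using a) (by simpa using b)

lemma lf_full (x : ℝ) {y : ℝ} (hy : 0 < y) : ∫ t in (0 : ℝ)..1, lf x y t = y := by
  have h1 := Pool.Agent.Y155.TK.jen x y hy
  have hi : ∀ a b : ℝ, IntervalIntegrable (fun t => lf x y t) volume a b := fun a b =>
    (Pool.Agent.Y100.TK.lf_cont' hy x).intervalIntegrable _ _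
  have h2 : ∫ t in (1 / 2 : ℝ)..1, lf x y t = ∫ t in (0 : ℝ)..(1 / 2), lf x y t := by
    have h3 := intervalIntegral.integral_comp_sub_left (a := 0) (b := 1 / 2) (fun t => lf x y t) 1
    rw [sub_zero] at h3
    have e : (1 : ℝ) - 1 / 2 = 1 / 2 := by norm_num
    rw [e] at h3
    rw [← h3]
    refine intervalIntegral.integral_congr fun t _ => ?_
    show lf x y (1 - t) = lf x y t
    unfold lf
    have : Real.cos (2 * π * (1 - t)) = Real.cos (2 * π * t) := by
      rw [← Real.cos_two_pi_sub]; congr 1; ring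
    rw [this]
  rw [← intervalIntegral.integral_add_adjacent_intervals (hi 0 (1 / 2)) (hi (1 / 2) 1), h2, h1]
  ring

lemma Ep_le {x y a b : ℝ} (hy : 0 < y) (hb : 0 ≤ b) (hab : b ≤ a) (ha : a ≤ 1) :
    Ep x y a b ≤ E0 x a b + y / 2 := by
  have hpi := Real.pi_pos
  have hi : ∀ a b : ℝ, IntervalIntegrable (fun t => lf x y t) volume a b := fun a b =>
    (Pool.Agent.Y100.TK.lf_cont' hy x).intervalIntegrable _ _
  have h1 : ∫ t in b..a, (lf x y t - l0 x t) ≤ ∫ t in (0 : ℝ)..1, (lf x y t - l0 x t) := by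
    refine intervalIntegral.integral_mono_interval hb hab ha ?_ ((hi 0 1).sub (l0_int x 0 1))
    refine (ae_restrict_of_ae ?_)
    filter_upwards [l0_le x y] with t ht
    show (0 : ℝ) ≤ lf x y t - l0 x t
    linarith
  rw [intervalIntegral.integral_sub (hi b a) (l0_int x b a), intervalIntegral.integral_sub (hi 0 1)
    (l0_int x 0 1), lf_full x hy, l0_intv, l0_intv] at h1
  have e1 : lob (π * 1 + x / 2) = lob (x / 2) := by
    rw [← EvenVol.LobIneq.lob_per (x / 2)]; congr 1; ring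
  have e2 : lob (π * 1 - x / 2) = lob (-(x / 2)) := by
    rw [← EvenVol.LobIneq.lob_per (-(x / 2))]; congr 1; ring
  rw [e1, e2, mul_zero, zero_add, zero_sub] at h1
  unfold Ep E0
  rw [Lc_lob]
  have e3 : (lob (x / 2) + lob (-(x / 2)) - lob (x / 2) - lob (-(x / 2))) / π = 0 := by
    rw [show lob (x / 2) + lob (-(x / 2)) - lob (x / 2) - lob (-(x / 2)) = 0 by ring, zero_div]
  rw [e3] at h1
  rw [add_div, div_right_comm]
  linarith

variable {n : ℕ} [NeZero n]

lemma sum_Ep_le {x y κ ρ : ℝ} (hy : 0 < y) {a b : Fin n → ℝ} (hP : PO n a b) (hx : |x| ≤ π) (hκ : 0 ≤ κ)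
    (hgap : ∀ x a b : ℝ, 0 ≤ b → b ≤ a → a ≤ 1 → |x| ≤ π →
      (ρ ≤ |x| ∨ ρ ≤ |a - 2 / 3| ∨ ρ ≤ |b - 1 / 3|) → E0 x a b ≤ 3 * lob (π / 3) / π - κ)
    (hfar : ρ ≤ |x| ∨ ∃ r, ρ ≤ |a r - 2 / 3| ∨ ρ ≤ |b r - 1 / 3|) :
    ∑ r, (Ep x y (a r) (b r) + Ep x y (a (r + 1)) (b r)) ≤ 6 * n * lob (π / 3) / π - κ + n * y := by
  have hpi := Real.pi_pos
  set M : ℝ := 3 * lob (π / 3) / π with hM
  have hnn : (0 : ℝ) < n := by exact_mod_cast Nat.pos_of_ne_zero (NeZero.ne n)
  have b1 : ∀ r, Ep x y (a r) (b r) ≤ M + y / 2 := fun r =>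
    (Ep_le hy (hP.nn r) (hP.le r) (hP.le1 r)).trans
      (by linarith [E0_le (x := x) (hP.nn r) (hP.le r) (hP.le1 r)])
  have b2 : ∀ r, Ep x y (a (r + 1)) (b r) ≤ M + y / 2 := fun r =>
    (Ep_le hy (hP.nn r) (hP.le' r) (hP.le1 (r + 1))).trans
      (by linarith [E0_le (x := x) (hP.nn r) (hP.le' r) (hP.le1 (r + 1))])
  obtain ⟨r₀, hr₀⟩ : ∃ r₀ : Fin n, Ep x y (a r₀) (b r₀) ≤ M - κ + y / 2 := by
    rcases hfar with h | ⟨r, h⟩
    · exact ⟨0, (Ep_le hy (hP.nn 0) (hP.le 0) (hP.le1 0)).trans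
        (by linarith [hgap x _ _ (hP.nn 0) (hP.le 0) (hP.le1 0) hx (Or.inl h)])⟩
    · exact ⟨r, (Ep_le hy (hP.nn r) (hP.le r) (hP.le1 r)).trans
        (by linarith [hgap x _ _ (hP.nn r) (hP.le r) (hP.le1 r) hx (Or.inr h)])⟩
  have h1 : ∑ r, (Ep x y (a r) (b r) + Ep x y (a (r + 1)) (b r)) ≤
      ∑ r : Fin n, ((M + y / 2) + (M + y / 2) - if r = r₀ then κ else 0) := by
    refine Finset.sum_le_sum fun r _ => ?_
    by_cases hr : r = r₀
    · rw [if_pos hr, hr]
      linarith [b2 r₀]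
    · rw [if_neg hr]
      linarith [b1 r, b2 r]
  refine h1.trans (le_of_eq ?_)
  rw [Finset.sum_sub_distrib, Finset.sum_const, Finset.card_univ, Fintype.card_fin, nsmul_eq_mul,
    Finset.sum_ite_eq' Finset.univ r₀ (fun _ => κ), if_pos (Finset.mem_univ _), hM]
  ring

/-- the bound of the far configurations -/
theorem far_bd (n : ℕ) [NeZero n] {ρ : ℝ} (hρ : 0 < ρ) : ∃ κ τ : ℝ, 0 < κ ∧ 0 < τ ∧ ∀ᶠ N : ℕ in atTop,
    ∀ i j : Fin n → ℕ, Ok n N i j → ∀ χ : ℂ, |χ.re| ≤ π → |χ.im| ≤ τ →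
      (ρ ≤ |χ.re| ∨ ∃ r, ρ ≤ |(i r : ℝ) / N - 2 / 3| ∨ ρ ≤ |(j r : ℝ) / N - 1 / 3|) →
      ‖co n N i j * Qc n N i j χ‖ ≤ Real.exp (N * (6 * n * lob (π / 3) / π - κ)) := by
  have hnn : (0 : ℝ) < n := by exact_mod_cast Nat.pos_of_ne_zero (NeZero.ne n)
  obtain ⟨κ, hκ, hgap⟩ := E0_gap hρ
  set τ : ℝ := κ / (4 * n) with hτ
  have hτ0 : 0 < τ := by positivity
  obtain ⟨C, hC, hQ⟩ := Pool.Agent.Y220.TK.qb τ hτ0
  have hpoly : ∀ᶠ N : ℕ in atTop, C ^ n ≤ Real.exp (N * (κ / 8)) := by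
    have h1 : Tendsto (fun N : ℕ => Real.exp (N * (κ / 8))) atTop atTop :=
      Real.tendsto_exp_atTop.comp (tendsto_natCast_atTop_atTop.atTop_mul_const (by positivity))
    exact h1.eventually_ge_atTop _
  refine ⟨κ / 4, τ, by positivity, hτ0, ?_⟩
  filter_upwards [Pool.Agent.Y681.TK.t_SB (κ / (8 * n)) (by positivity), hpoly, eventually_ge_atTop 1]
    with N h1 h2 h3 i j hij χ hre him hfar
  have hN' : (0 : ℝ) < N := by exact_mod_cast h3
  have e1 := Pool.Agent.Y100.TK.co_bd h1 hij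
  have e2 := Pool.Agent.Y100.TK.Qc_bd (x := χ.re) (fun j i => hQ N h3 j i) hij
  have e3 : ‖Qc n N i j χ‖ ≤ ‖Qc n N i j (χ.re + τ * Complex.I)‖ := by
    have h4 := Qc_mono (n := n) (N := N) (i := i) (j := j) (x := χ.re) (y := χ.im) (y' := τ)
      (by rwa [abs_of_pos hτ0])
    rwa [Complex.re_add_im] at h4
  have hP : PO n (fun r => (i r : ℝ) / N) (fun r => (j r : ℝ) / N) := by
    refine ⟨fun r => by positivity, fun r => ?_, fun r => ?_, fun r => ?_⟩
    · rw [div_le_one hN']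
      exact_mod_cast (hij.lt r).le
    · exact div_le_div_of_nonneg_right (by exact_mod_cast hij.le r) hN'.le
    · exact div_le_div_of_nonneg_right (by exact_mod_cast hij.le' r) hN'.le
  have e4 := sum_Ep_le (n := n) hτ0 hP hre hκ.le hgap hfar
  have e5 := Pool.Agent.Y100.TK.HH_eq (n := n) hτ0 χ.re (fun r => (i r : ℝ) / N) (fun r => (j r : ℝ) / N)
  unfold HH at e5
  set L : ℝ := ∑ r, (Lc ((i r : ℝ) / N - (j r : ℝ) / N) +
      Lc ((i (r + 1) : ℝ) / N - (j r : ℝ) / N)) with hL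
  set J : ℝ := ∑ r, ∫ t in ((j r : ℝ) / N)..((i (r + 1) : ℝ) / N), lf χ.re τ t with hJ
  set H : ℝ := ∑ r, (Ep χ.re τ ((i r : ℝ) / N) ((j r : ℝ) / N) +
    Ep χ.re τ ((i (r + 1) : ℝ) / N) ((j r : ℝ) / N)) with hH
  have e6 : 2 * (n : ℝ) * (κ / (8 * n)) = κ / 4 := by
    field_simp
    ring
  rw [e6] at e1
  have e7 : (n : ℝ) * τ = κ / 4 := by
    rw [hτ]; field_simp
  rw [e7] at e4
  rw [norm_mul]
  calc ‖co n N i j‖ * ‖Qc n N i j χ‖
      ≤ Real.exp (N * (L + κ / 4)) * (Real.exp (N * (κ / 8)) * Real.exp (N * J)) := by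
        refine mul_le_mul e1 ((e3.trans e2).trans ?_) (norm_nonneg _) (Real.exp_pos _).le
        gcongr
    _ = Real.exp (N * (L + J + 3 * κ / 8)) := by
        rw [← Real.exp_add, ← Real.exp_add]
        congr 1
        ring
    _ ≤ _ := by
        refine Real.exp_le_exp.2 (mul_le_mul_of_nonneg_left ?_ hN'.le)
        have : L + J = H := by linarith
        rw [this]
        linarith

end Run7.h260.VC
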