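import Pool.Agent.Run7.h260.VC.N2

/-!
# Growth of the sum over the configurations near the maximum
-/

set_option autoImplicit false

namespace Run7.h260.VC

open Filter Topology Metric Finset Pool.Agent.W711.HT Pool.Agent.Y472 Pool.Agent.Y472.K
open scoped Real

lemma Sd_mid {N : ℕ} (hN : 0 < N) : Sd N ((N - 1) / 2) ^ 2 ≤ N ∧ (N : ℝ) / 2 ≤ Sd N ((N - 1) / 2) ^ 2 := by
  have h0 := Pool.Agent.W346.HT.Sd_mul (N := N) (n := (N - 1) / 2) (by omega)
  have hN' : (0 : ℝ) < N := by exact_mod_cast hN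
  rcases Nat.even_or_odd N with h | h
  · obtain ⟨k, hk⟩ := h
    have e1 : (N - 1) / 2 = k - 1 := by omega
    have e2 : N - 1 - (k - 1) = (k - 1) + 1 := by omega
    rw [e1] at h0 ⊢
    rw [e2, Pool.Agent.Y941.TK.Sd_succ'] at h0
    have e3 : π * (((k - 1 : ℕ) : ℝ) + 1) / N = π / 2 := by
      have hk1 : 1 ≤ k := by omega
      have hk' : (k : ℝ) ≠ 0 := by
        have : k ≠ 0 := by omega
        exact_mod_cast this
      rw [Nat.cast_sub hk1, hk]
      push_cast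
      field_simp
      ring
    rw [e3, Real.sin_pi_div_two] at h0
    constructor <;> nlinarith [sq_nonneg (Sd N (k - 1))]
  · obtain ⟨k, hk⟩ := h
    have e1 : N - 1 - (N - 1) / 2 = (N - 1) / 2 := by omega
    rw [e1] at h0
    constructor <;> nlinarith

lemma log_Sd_lim : Tendsto (fun N : ℕ => Real.log (Sd N ((N - 1) / 2)) / N) atTop (𝓝 0) := by
  have h1 : Tendsto (fun N : ℕ => Real.log N / (N : ℝ)) atTop (𝓝 0) := by
    have := (Real.isLittleO_log_id_atTop.tendsto_div_nhds_zero).comp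
      (tendsto_natCast_atTop_atTop (R := ℝ))
    exact this
  have h2 : Tendsto (fun N : ℕ => Real.log 2 / (N : ℝ)) atTop (𝓝 0) :=
    tendsto_const_div_atTop_nhds_zero_nat _
  have h3 : Tendsto (fun N : ℕ => (Real.log N / (N : ℝ)) / 2 - Real.log 2 / (N : ℝ) / 2) atTop (𝓝 0) := by
    simpa using (h1.div_const 2).sub (h2.div_const 2)
  have h4 : Tendsto (fun N : ℕ => (Real.log N / (N : ℝ)) / 2) atTop (𝓝 0) := by
    simpa using (h1.div_const 2)
  refine tendsto_of_tendsto_of_tendsto_of_le_of_le' h3 h4 ?_ ?_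
  · filter_upwards [eventually_ge_atTop 1] with N hN
    have hN' : (0 : ℝ) < N := by exact_mod_cast hN
    obtain ⟨_, a⟩ := Sd_mid (N := N) (by omega)
    have hp := Pool.Agent.Y941.TK.Sd_pos' (N := N) (d := (N - 1) / 2) (by omega)
    have h5 := Real.log_le_log (by positivity) a
    rw [Real.log_div (by positivity) (by norm_num), Real.log_pow] at h5
    push_cast at h5
    rw [div_div, div_div, mul_comm (N : ℝ) 2, ← sub_div, ← div_div]
    refine (div_le_div_iff_of_pos_right hN').2 ?_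
    linarith
  · filter_upwards [eventually_ge_atTop 1] with N hN
    have hN' : (0 : ℝ) < N := by exact_mod_cast hN
    obtain ⟨a, _⟩ := Sd_mid (N := N) (by omega)
    have hp := Pool.Agent.Y941.TK.Sd_pos' (N := N) (d := (N - 1) / 2) (by omega)
    have h5 := Real.log_le_log (by positivity) a
    rw [Real.log_pow] at h5
    push_cast at h5
    rw [div_div, mul_comm (N : ℝ) 2, ← div_div]
    refine (div_le_div_iff_of_pos_right hN').2 ?_
    linarith

lemma Md_lim {χ : ℕ → ℂ} {χ₀ : ℂ} (h : Tendsto χ atTop (𝓝 χ₀)) (h0 : 2 * Complex.cos χ₀ + 2 ≠ 0) :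
    (∀ᶠ N : ℕ in atTop, Md N (χ N) ≠ 0) ∧
    Tendsto (fun N : ℕ => Real.log ‖Md N (χ N)‖ / N) atTop (𝓝 0) := by
  have h1 : Tendsto (fun N : ℕ => 2 * Complex.cos (χ N) + 2) atTop (𝓝 (2 * Complex.cos χ₀ + 2)) :=
    (((Complex.continuous_cos.tendsto _).comp h).const_mul 2).add_const 2
  have h2 : ∀ᶠ N : ℕ in atTop, 2 * Complex.cos (χ N) + 2 ≠ 0 := h1.eventually_ne h0
  have h3 : Tendsto (fun N : ℕ => Real.log ‖2 * Complex.cos (χ N) + 2‖) atTop
      (𝓝 (Real.log ‖2 * Complex.cos χ₀ + 2‖)) := h1.norm.log (norm_ne_zero_iff.2 h0)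
  have h4 : Tendsto (fun N : ℕ => Real.log ‖2 * Complex.cos (χ N) + 2‖ / N) atTop (𝓝 0) :=
    h3.div_atTop tendsto_natCast_atTop_atTop
  constructor
  · filter_upwards [h2, eventually_gt_atTop 0] with N a b
    rcases em (Even N) with h | h
    · rwa [Md_even b h]
    · rw [Md_odd h]; exact one_ne_zero
  · rw [Metric.tendsto_nhds] at h4 ⊢
    intro ε hε
    filter_upwards [h4 ε hε, eventually_gt_atTop 0] with N a b
    rcases em (Even N) with h | h
    · rwa [Md_even b h]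
    · rw [Md_odd h, norm_one, Real.log_one, zero_div, dist_self]
      exact hε

lemma Gv_pos {n : ℕ} [NeZero n] : 0 < (Gv n 0).re := by
  have h := Qp_pos (n := n)
  unfold Gv
  rw [bet_zero, Up_zero]
  exact h

theorem near_main (n : ℕ) [NeZero n] : ∃ ρ : Ix n → ℝ, (∀ i, 0 < ρ i ∧ ρ i < 1 / 1000) ∧
    ∀ᶠ χ₀ in 𝓝 (0 : ℂ), ∀ χ : ℕ → ℂ, Tendsto χ atTop (𝓝 χ₀) →
      Tendsto (fun N : ℕ => Real.log ‖∑ c ∈ NC n ρ N, co n N c.1 c.2 * Qc n N c.1 c.2 (χ N)‖ / N) atTop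
        (𝓝 (Gv n χ₀).re) := by
  obtain ⟨ρ₀, mm, D, hI, hmm⟩ := exists_itp
  have hρ := hI.pos
  have hρ2 := hI.lt
  obtain ⟨ρ, QT, Ψ, El⟩ := elim (S := Sv n) (k := 1) one_pos Qp_max (Qp_an n)
    (fun i hi => Dp_zero i (by unfold Sv at hi; simpa using hi)) Qp_pos (f := f0 n mm D)
    (f0_san mm D) (f0_lim hI hmm) (c := 1 / 3) (by norm_num) (ρ₀ := ρ₀ / 4) (by positivity) (Sv n)
    (Finset.Subset.refl _)
  refine ⟨ρ, fun i => ⟨(El.hρ i).1, by linarith [(El.hρ i).2]⟩, ?_⟩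
  have c1 : ∀ᶠ χ₀ : ℂ in 𝓝 0, χ₀ / (2 * π) ∈ ball (0 : ℂ) ρ₀ := by
    have : Tendsto (fun χ : ℂ => χ / (2 * π)) (𝓝 0) (𝓝 0) := by
      have := (tendsto_id (x := 𝓝 (0 : ℂ))).div_const (2 * π : ℂ)
      simpa using this
    exact this.eventually (ball_mem_nhds 0 hρ)
  have c2 : ∀ᶠ χ₀ : ℂ in 𝓝 0, 2 * Complex.cos χ₀ + 2 ≠ 0 := by
    have : Tendsto (fun χ : ℂ => 2 * Complex.cos χ + 2) (𝓝 0) (𝓝 (2 * Complex.cos 0 + 2)) :=
      ((Complex.continuous_cos.tendsto 0).const_mul 2).add_const 2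
    refine this.eventually_ne ?_
    rw [Complex.cos_zero]
    norm_num
  have c3 : ∀ᶠ χ₀ : ℂ in 𝓝 0, 0 < (Gv n χ₀).re :=
    ((Complex.continuous_re.tendsto _).comp (Gv_an (n := n)).continuousAt.tendsto).eventually_const_lt Gv_pos
  have hQ : ∀ᶠ χ : ℂ in 𝓝 0, AnalyticAt ℂ (Qp n) (Up n (bet χ) χ) :=
    Up_tend.eventually (Qp_an n).eventually_analyticAt
  filter_upwards [c1, c2, c3, hQ, bet_mem, bet_crit, Up_tend.eventually El.lim,
    Up_tend.eventually El.ev, Up_tend.eventually El.uniq] with χ₀ c1 c2 c3 hQ hm hc l1 l2 l3 χ hχ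
  set x₀ : Ix n → ℂ := Up n (bet χ₀) χ₀ with hx₀
  have hx : Tendsto (fun N => Up n (bet χ₀) (χ N)) atTop (𝓝 x₀) := by
    rw [tendsto_pi_nhds]
    intro i
    by_cases hi : i = none
    · subst hi
      simpa [Up, hx₀] using hχ
    · simp [Up, hx₀, hi]
  have hL := l1 _ hx
  have hcrit : ∀ i ∈ Sv n, Dp (Qp n) i x₀ = 0 := by
    intro i hi
    have hi' : i ≠ none := by unfold Sv at hi; simpa using hi
    unfold Dp
    rw [hx₀, fderiv_Up hm.1 hm.2.1 hm.2.2 hQ.differentiableAt, hc]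
    have : (Pi.single i (1 : ℂ) : Ix n → ℂ) none = 0 := by
      rw [Pi.single_eq_of_ne (Ne.symm hi')]
    rw [this]
    ring
  have hQT : QT x₀ = Gv n χ₀ := by
    rw [l2.2.2.1, l3 hcrit]
    rfl
  rw [hQT] at hL
  obtain ⟨m1, m2⟩ := Md_lim hχ c2
  have hST : ∀ᶠ N : ℕ in atTop, ST (1 / 3) ρ (Sv n) (f0 n mm D) N (Up n (bet χ₀) (χ N)) ≠ 0 := by
    filter_upwards [hL.eventually_const_lt c3] with N hN h0
    rw [h0, norm_zero, Real.log_zero, zero_div] at hN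
    exact lt_irrefl _ hN
  have hsum : Tendsto (fun N : ℕ => (n : ℝ) * (Real.log ‖Md N (χ N)‖ / N -
      2 * (Real.log (Sd N ((N - 1) / 2)) / N)) +
      Real.log ‖ST (1 / 3) ρ (Sv n) (f0 n mm D) N (Up n (bet χ₀) (χ N))‖ / N) atTop (𝓝 (Gv n χ₀).re) := by
    have := ((m2.sub (log_Sd_lim.const_mul 2)).const_mul (n : ℝ)).add hL
    simpa using this
  have c4 : ∀ᶠ N : ℕ in atTop, χ N / (2 * π) ∈ ball (0 : ℂ) ρ₀ :=
    (hχ.div_const (2 * π : ℂ)).eventually (isOpen_ball.mem_nhds c1)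
  have c5 : ∀ᶠ N : ℕ in atTop, 1 / (N : ℝ) < ρ₀ / 4 :=
    (tendsto_one_div_atTop_nhds_zero_nat (𝕜 := ℝ)).eventually_lt_const (by positivity)
  refine hsum.congr' ?_
  filter_upwards [m1, hST, hmm, hI.eq, c4, c5, eventually_ge_atTop 1000] with N m1 hST hmm hI c4 c5 hN
  have hx1 : Up n (bet χ₀) (χ N) none = χ N := by simp [Up]
  have hns := near_sum (n := n) hN hmm hI hρ hρ2 c5 (ρ := ρ) (fun i => (El.hρ i).2)
    (x := Up n (bet χ₀) (χ N)) (by rw [hx1]; exact c4)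
  rw [hx1] at hns
  rw [hns]
  have hp := Pool.Agent.Y941.TK.Sd_pos' (N := N) (d := (N - 1) / 2) (by omega)
  have hpC : ((Sd N ((N - 1) / 2) : ℝ) : ℂ) ≠ 0 := by exact_mod_cast hp.ne'
  have hN' : (0 : ℝ) < N := by
    have : 0 < N := by omega
    exact_mod_cast this
  rw [norm_mul, norm_pow, norm_div, norm_pow, Complex.norm_real, Real.norm_eq_abs, abs_of_pos hp,
    Real.log_mul (by positivity) (norm_ne_zero_iff.2 hST), Real.log_pow,
    Real.log_div (norm_ne_zero_iff.2 m1) (by positivity), Real.log_pow]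
  push_cast
  field_simp

end Run7.h260.VC
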