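import Pool.Agent.Run7.h260.VC.F2
import Pool.Agent.Run7.h260.VC.N3

/-!
# The traces as sums over configurations
-/

set_option autoImplicit false

namespace Run7.h260.VC

open Finset Filter Topology Pool.Agent.W711.HT Pool.Agent.Y472 Pool.Agent.Y472.K Pool.Agent.Y941.TK
open scoped Real

/-- matrix entries of the generators -/
def CJC (N : ℕ) (u u' : ℂ) : Prop := ∀ j i : ℕ, j ≤ i → i < N →
    cJ N 1 j i = u * ((-1) ^ j * vN N ^ ((i : ℤ) * j + i) /
      ((Sd N (i - j) : ℂ) * ((Sd N i : ℂ) / Sd N j))) ∧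
    cJ N (-1) j i = u' * ((-1) ^ j * vN N ^ (-((i : ℤ) * j + i)) /
      ((Sd N (i - j) : ℂ) * ((Sd N i : ℂ) / Sd N j)))

/-- the masked traces -/
theorem mask_eq {n N : ℕ} [NeZero n] {u u' : ℂ} (hc : CJC N u u') (χ : ℂ) (μ ν : ℕ → ℂ) :
    ((MA0 N 1 * Matrix.diagonal (fun i : Fin N => μ i) * MB0 N χ (-1) *
      Matrix.diagonal (fun i : Fin N => ν i)) ^ n).trace =
      (u * u') ^ n * ∑ c ∈ cfg n N, (∏ r, μ (c.2 r) * ν (c.1 (r + 1))) *
        (co n N c.1 c.2 * Qc n N c.1 c.2 χ) := by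
  classical
  have e2 : ∀ i i' : Fin N, (MA0 N 1 * Matrix.diagonal (fun i : Fin N => μ i) * MB0 N χ (-1) *
      Matrix.diagonal (fun i : Fin N => ν i)) i i' =
      ∑ j : Fin N, u * u' * ((Dg N i)⁻¹ * (μ j * ν i' * ee' N i j i' χ) * Dg N i') := by
    intro i i'
    rw [Matrix.mul_diagonal, Matrix.mul_apply, Finset.sum_mul]
    refine Finset.sum_congr rfl fun j _ => ?_
    rw [Matrix.mul_diagonal]
    have := entry hc χ i j i'
    calc MA0 N 1 i j * μ j * MB0 N χ (-1) j i' * ν i' =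
        (MA0 N 1 i j * MB0 N χ (-1) j i') * (μ j * ν i') := by ring
      _ = _ := by rw [this]; ring
  rw [trace_pow_cyc]
  simp only [e2, Finset.prod_univ_sum, Fintype.piFinset_univ]
  have e3 : ∀ w z : Fin n → Fin N,
      (∏ r, u * u' * ((Dg N (w r))⁻¹ * (μ (z r) * ν (w (r + 1)) * ee' N (w r) (z r) (w (r + 1)) χ) *
        Dg N (w (r + 1)))) =
      (u * u') ^ n * ∏ r, (μ (z r) * ν (w (r + 1)) * ee' N (w r) (z r) (w (r + 1)) χ) := by
    intro w z
    rw [Finset.prod_mul_distrib, Finset.prod_const, card_univ, Fintype.card_fin,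
      Finset.prod_mul_distrib, Finset.prod_mul_distrib, Finset.prod_inv_distrib]
    have h1 : ∏ r : Fin n, Dg N (w (r + 1)) = ∏ r : Fin n, Dg N (w r) :=
      Equiv.prod_comp (Equiv.addRight (1 : Fin n)) (fun r => Dg N (w r))
    have h2 : ∏ r : Fin n, Dg N (w r) ≠ 0 := Finset.prod_ne_zero_iff.2 fun r _ => Dg_ne (w r).2
    rw [h1]
    field_simp
  simp only [e3]
  simp only [← Finset.mul_sum]
  congr 1
  have e4 : ∀ i j : Fin n → ℕ, (∀ r, i r < N) →
      (∏ r, (μ (j r) * ν (i (r + 1)) * ee' N (i r) (j r) (i (r + 1)) χ)) =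
      if Ok n N i j then (∏ r, μ (j r) * ν (i (r + 1))) * (co n N i j * Qc n N i j χ) else 0 := by
    intro i j hi
    rw [Finset.prod_mul_distrib (f := fun r => μ (j r) * ν (i (r + 1)))]
    unfold ee'
    rw [Finset.prod_ite_zero]
    by_cases h : ∀ r : Fin n, j r ≤ i r ∧ j r ≤ i (r + 1)
    · rw [if_pos (fun r _ => h r), if_pos ⟨hi, fun r => (h r).1, fun r => (h r).2⟩]
      unfold co Qc
      congr 1
      exact Finset.prod_mul_distrib
    · rw [if_neg (fun h' => h fun r => h' r (mem_univ r)),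
        if_neg (fun h' => h fun r => ⟨h'.le r, h'.le' r⟩), mul_zero]
  unfold cfg
  rw [Finset.sum_filter, Finset.sum_product]
  have e5 := sum_fun n N (fun i => ∑ j ∈ Fintype.piFinset (fun _ : Fin n => range N),
    ∏ r, (μ (j r) * ν (i (r + 1)) * ee' N (i r) (j r) (i (r + 1)) χ))
  have e6 : ∀ w : Fin n → Fin N, (∑ z : Fin n → Fin N,
      ∏ r, (μ (z r) * ν (w (r + 1)) * ee' N (w r) (z r) (w (r + 1)) χ)) =
      ∑ j ∈ Fintype.piFinset (fun _ : Fin n => range N),
        ∏ r, (μ (j r) * ν (w (r + 1)) * ee' N (w r) (j r) (w (r + 1)) χ) := fun w =>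
    sum_fun n N (fun j => ∏ r, (μ (j r) * ν (w (r + 1)) * ee' N (w r) (j r) (w (r + 1)) χ))
  simp only [e6]
  rw [e5]
  refine Finset.sum_congr rfl fun i hi => Finset.sum_congr rfl fun j _ => ?_
  rw [Fintype.mem_piFinset] at hi
  rw [e4 i j (fun r => mem_range.1 (hi r))]

/-- the word -/
abbrev wd (n : ℕ) : List (ℤ × ℤ) := List.replicate n (1, -1)

/-- the mask -/
def mk (N p : ℕ) (k : ℕ) : ℂ := if N ≤ k + p then 1 else 0

lemma Thi_eq {n N : ℕ} [NeZero n] {u u' : ℂ} (hc : CJC N u u') (p : ℕ) :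
    Thi N (wd n) p = (u * u') ^ n * ∑ c ∈ cfg n N, (∏ r, mk N p (c.2 r) * mk N p (c.1 (r + 1))) *
      (co n N c.1 c.2 * Qc n N c.1 c.2 (2 * π * p / N)) := by
  rw [← mask_eq hc]
  unfold Thi
  rw [List.map_replicate, List.prod_replicate]
  have hp : pH N p = Matrix.diagonal (fun i : Fin N => mk N p i) := rfl
  rw [hp]
  set M := MA0 N 1 * Matrix.diagonal (fun i : Fin N => mk N p i) * MB0 N (2 * π * p / N) (-1) *
    Matrix.diagonal (fun i : Fin N => mk N p i) with hM
  have h1 : M * Matrix.diagonal (fun i : Fin N => mk N p i) = M := by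
    rw [hM, Matrix.mul_assoc, Matrix.diagonal_mul_diagonal]
    congr 2
    funext i
    unfold mk
    split_ifs <;> simp
  rw [Matrix.trace_mul_comm]
  obtain ⟨m, rfl⟩ : ∃ m, n = m + 1 := ⟨n - 1, by have := NeZero.pos n; omega⟩
  rw [pow_succ, Matrix.mul_assoc, h1]

/-- mixed configurations do not contribute -/
lemma mixed {n N : ℕ} [NeZero n] {i j : Fin n → ℕ} (h : Ok n N i j) {p : ℕ} (hp : p < N)
    (hN : 0 < N) (h0 : co n N i j * Qc n N i j (2 * π * p / N) ≠ 0)
    (h1 : (∏ r, mk N p (j r) * mk N p (i (r + 1))) ≠ 1) : ∀ r, i r + p < N ∧ j r + p < N := by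
  have hQ : Qc n N i j (2 * π * p / N) ≠ 0 := right_ne_zero_of_mul h0
  have hstep : ∀ r, j r + p < N → i (r + 1) + p < N := by
    intro r hr
    by_contra hc
    push Not at hc
    apply hQ
    unfold Qc
    rw [Finset.prod_eq_zero (mem_univ r)]
    unfold Pq
    refine Finset.prod_eq_zero (i := N - p) (mem_Ioc.2 ⟨by omega, by omega⟩) ?_
    have hN' : (N : ℝ) ≠ 0 := by exact_mod_cast hN.ne'
    have e : Real.cos (2 * π * ((N - p : ℕ) : ℝ) / N) = Real.cos (2 * π * p / N) := by
      rw [Nat.cast_sub hp.le, ← Real.cos_two_pi_sub]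
      congr 1
      field_simp
      ring
    rw [e]
    have : (2 * π * p / N : ℂ) = ((2 * π * p / N : ℝ) : ℂ) := by push_cast; rfl
    rw [this, ← Complex.ofReal_cos, sub_self]
  have hstep2 : ∀ r, i r + p < N → i (r + 1) + p < N := by
    intro r hr
    have := h.le r
    exact hstep r (by omega)
  have hall : ∀ r₀, i r₀ + p < N → ∀ r, i r + p < N := by
    intro r₀ hr₀ r
    have key : ∀ k : ℕ, i (r₀ + (Fin.ofNat n k)) + p < N := by
      intro k
      induction k with
      | zero => simpa using hr₀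
      | succ k ih =>
        have := hstep2 _ ih
        have e : r₀ + Fin.ofNat n (k + 1) = r₀ + Fin.ofNat n k + 1 := by
          rw [add_assoc]
          congr 1
          ext
          simp [Fin.val_add, Fin.ofNat]
        rw [e]
        exact this
    have h2 := key ((r - r₀ : Fin n) : ℕ)
    have e : r₀ + Fin.ofNat n ((r - r₀ : Fin n) : ℕ) = r := by
      have : Fin.ofNat n ((r - r₀ : Fin n) : ℕ) = r - r₀ := by
        ext
        simp [Fin.ofNat, Nat.mod_eq_of_lt (r - r₀).2]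
      rw [this]
      abel
    rwa [e] at h2
  have hex : ∃ r, i r + p < N := by
    by_contra hc
    push Not at hc
    apply h1
    refine Finset.prod_eq_one fun r _ => ?_
    have a2 : N ≤ i (r + 1) + p := hc _
    have a1 : N ≤ j r + p := by
      by_contra hj
      push Not at hj
      have := hstep r hj
      omega
    unfold mk
    rw [if_pos a1, if_pos a2, one_mul]
  obtain ⟨r₀, hr₀⟩ := hex
  intro r
  have := hall r₀ hr₀ r
  have := h.le r
  omega

lemma card_cfg (n N : ℕ) [NeZero n] : ((cfg n N).card : ℝ) ≤ (N : ℝ) ^ (2 * n) := by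
  classical
  unfold cfg
  refine (Nat.cast_le.2 (Finset.card_filter_le _ _)).trans ?_
  rw [card_product, Fintype.card_piFinset, prod_const, card_range, card_univ, Fintype.card_fin,
      ← pow_add, ← two_mul]
  exact_mod_cast le_refl _

lemma Qc_congr {n N : ℕ} [NeZero n] {i j : Fin n → ℕ} {z z' : ℂ} (h : Complex.cos z = Complex.cos z') :
    Qc n N i j z = Qc n N i j z' := by
  unfold Qc Pq
  rw [h]

end Run7.h260.VC
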