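import Pool.Agent.Run7.h260.VC.P1
import Pool.Agent.W505.VC.Five

/-!
# The primitive of `log (2 sin π z)` in terms of the Bloch-Wigner function
-/

set_option autoImplicit false

namespace Run7.h260.VC

open Filter Topology Metric Set
open Pool.Agent.W709.VC (Dv)
open Pool.Agent.W505.VC (LD Dv_cont)
open scoped Real

/-- `e^{2 π i x}` -/
noncomputable def ex (x : ℂ) : ℂ := Complex.exp (2 * π * Complex.I * x)

lemma one_sub_ex (x : ℂ) : 1 - ex x =
    -(Complex.I * Complex.exp (π * Complex.I * x)) * (2 * Complex.sin (π * x)) := by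
  unfold ex
  have h1 : Complex.exp (2 * π * Complex.I * x) = Complex.exp (π * Complex.I * x) *
      Complex.exp (π * Complex.I * x) := by
    rw [← Complex.exp_add]; congr 1; ring
  have h2 : Complex.sin (π * x) = (Complex.exp (-(π * Complex.I * x)) - Complex.exp (π * Complex.I * x)) *
      Complex.I / 2 := by
    rw [Complex.sin]
    congr 3
    · congr 1; ring
    · congr 1; ring
  have h3 : Complex.exp (π * Complex.I * x) * Complex.exp (-(π * Complex.I * x)) = 1 := by
    rw [← Complex.exp_add, add_neg_cancel, Complex.exp_zero]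
  rw [h1, h2]
  have hI := Complex.I_sq
  linear_combination (-1) * h3 + (Complex.exp (π * Complex.I * x) * Complex.exp (-(π * Complex.I * x)) -
    Complex.exp (π * Complex.I * x) ^ 2) * hI

lemma norm_ex (x : ℂ) : Real.log ‖ex x‖ = -(2 * π * x.im) := by
  unfold ex
  rw [Complex.norm_exp, Real.log_exp]
  simp

lemma ex_im (x : ℂ) : (ex x).im = Real.exp (-(2 * π * x.im)) * Real.sin (2 * π * x.re) := by
  unfold ex
  rw [Complex.exp_im]
  congr 2
  · simp
  · simp

lemma norm_one_sub_ex {x : ℂ} (h0 : 0 < x.re) (h1 : x.re < 1) :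
    Real.log ‖1 - ex x‖ = (ls x).re - π * x.im := by
  rw [one_sub_ex, norm_mul, norm_neg, norm_mul, Complex.norm_I, one_mul, ← ls_exp h0 h1,
    Complex.norm_exp, Complex.norm_exp, ← Real.exp_add, Real.log_exp]
  simp
  ring

theorem FF_Dv {x : ℂ} (hx : x ∈ Bh) (hre : x.re < 1 / 2) :
    Dv (ex x) + 2 * π * x.im * (ls x).im + 2 * π * (FF x).re = 0 := by
  have hpi := Real.pi_pos
  set v : ℂ := x - 1 / 2 with hv
  set X : ℝ → ℂ := fun s => 1 / 2 + s * v with hX
  have hXB : ∀ s ∈ Icc (0 : ℝ) 1, X s ∈ Bh := by
    intro s hs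
    unfold Bh at hx ⊢
    rw [mem_ball, dist_eq_norm] at hx ⊢
    show ‖1 / 2 + s * v - 1 / 2‖ < 1 / 2
    rw [add_sub_cancel_left, norm_mul, Complex.norm_real, Real.norm_eq_abs, abs_of_nonneg hs.1]
    calc s * ‖v‖ ≤ 1 * ‖v‖ := by gcongr; exact hs.2
      _ < 1 / 2 := by rw [one_mul]; exact hx
  have hX' : ∀ s : ℝ, HasDerivAt X v s := by
    intro s
    have h1 : HasDerivAt (fun s : ℝ => (s : ℂ)) 1 s := Complex.ofRealCLM.hasDerivAt
    have h2 := (h1.mul_const v).const_add (1 / 2 : ℂ)
    rw [one_mul] at h2
    exact h2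
  have hXc : Continuous X := continuous_iff_continuousAt.2 fun s => (hX' s).continuousAt
  set F : ℝ → ℝ := fun s => Dv (ex (X s)) + 2 * π * (X s).im * (ls (X s)).im + 2 * π * (FF (X s)).re with hF
  have hlsc : ContinuousOn (fun s => ls (X s)) (Icc 0 1) := fun s hs =>
    (ContinuousAt.comp (g := ls) (f := X)
      (ls_hasDerivAt (Bh_re (hXB s hs)).1 (Bh_re (hXB s hs)).2).continuousAt
      hXc.continuousAt).continuousWithinAt
  have hFFc : ContinuousOn (fun s => FF (X s)) (Icc 0 1) := fun s hs =>
    (ContinuousAt.comp (g := FF) (f := X) (FF_deriv (hXB s hs)).continuousAt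
      hXc.continuousAt).continuousWithinAt
  have hFc : ContinuousOn F (Icc 0 1) := by
    refine ((Dv_cont.comp_continuousOn ?_).add ?_).add ?_
    · unfold ex
      fun_prop
    · exact (continuousOn_const.mul (Complex.continuous_im.comp hXc).continuousOn).mul
        (Complex.continuous_im.comp_continuousOn hlsc)
    · exact continuousOn_const.mul (Complex.continuous_re.comp_continuousOn hFFc)
  have hFd : ∀ s ∈ Ioo (0 : ℝ) 1, HasDerivAt F 0 s := by
    intro s hs
    have hsI : s ∈ Icc (0 : ℝ) 1 := ⟨hs.1.le, hs.2.le⟩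
    have hB := hXB s hsI
    have hre' := Bh_re hB
    have hXre : (X s).re = 1 / 2 + s * (x.re - 1 / 2) := by
      simp [hX, hv]
    have hXre1 : (X s).re < 1 / 2 := by
      rw [hXre]
      nlinarith [hs.1]
    have hlsd := ls_hasDerivAt hre'.1 hre'.2
    set K : ℂ := π * Complex.cot (π * X s) with hK
    have d1 : LD (fun s => ex (X s)) (2 * π * Complex.I * v) s := by
      unfold LD ex
      have h1 : HasDerivAt (fun s : ℝ => 2 * π * Complex.I * X s) (2 * π * Complex.I * v) s :=
        (hX' s).const_mul _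
      refine h1.cexp.congr_deriv ?_
      ring
    have hsin : 2 * Complex.sin (π * X s) ≠ 0 := by
      rw [← ls_exp hre'.1 hre'.2]
      exact Complex.exp_ne_zero _
    have d2 : LD (fun s => 1 - ex (X s)) (π * Complex.I * v + K * v) s := by
      have e : (fun s : ℝ => 1 - ex (X s)) = fun s =>
          -(Complex.I * Complex.exp (π * Complex.I * X s)) * (2 * Complex.sin (π * X s)) := by
        funext t
        exact one_sub_ex _
      rw [e]
      have h1 : LD (fun s => -(Complex.I * Complex.exp (π * Complex.I * X s))) (π * Complex.I * v) s := by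
        unfold LD
        have h2 : HasDerivAt (fun s : ℝ => π * Complex.I * X s) (π * Complex.I * v) s :=
          (hX' s).const_mul _
        refine ((h2.cexp.const_mul Complex.I).neg).congr_deriv ?_
        ring
      have h3 : LD (fun s => 2 * Complex.sin (π * X s)) (K * v) s := by
        unfold LD
        have h2 : HasDerivAt (fun s : ℝ => (π : ℂ) * X s) (π * v) s := (hX' s).const_mul _
        have h4 : HasDerivAt (fun s : ℝ => Complex.sin (π * X s)) (Complex.cos (π * X s) * (π * v)) s :=
          (Complex.hasDerivAt_sin _).comp s h2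
        refine (h4.const_mul 2).congr_deriv ?_
        have h5 : Complex.sin (π * X s) ≠ 0 := right_ne_zero_of_mul hsin
        rw [hK, Complex.cot]
        field_simp
      exact h1.mul h3
    have him : (ex (X s)).im ≠ 0 := by
      rw [ex_im]
      refine mul_ne_zero (Real.exp_pos _).ne' ?_
      refine (Real.sin_pos_of_pos_of_lt_pi ?_ ?_).ne'
      · have := hre'.1
        positivity
      · nlinarith
    have d3 := d1.dv d2 him
    have d4 : HasDerivAt (fun s => ls (X s)) (K * v) s := hlsd.comp s (hX' s)
    have d5 : HasDerivAt (fun s => FF (X s)) (ls (X s) * v) s := (FF_deriv hB).comp s (hX' s)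
    have d6 : HasDerivAt (fun s => (X s).im) v.im s := by
      have := Complex.imCLM.hasFDerivAt.comp_hasDerivAt s (hX' s)
      simpa [Function.comp_def] using this
    have d7 : HasDerivAt (fun s => (ls (X s)).im) (K * v).im s := by
      have := Complex.imCLM.hasFDerivAt.comp_hasDerivAt s d4
      simpa [Function.comp_def] using this
    have d8 : HasDerivAt (fun s => (FF (X s)).re) (ls (X s) * v).re s := by
      have := Complex.reCLM.hasFDerivAt.comp_hasDerivAt s d5
      simpa [Function.comp_def] using this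
    refine ((d3.add ((d6.const_mul (2 * π)).mul d7)).add (d8.const_mul (2 * π))).congr_deriv ?_
    rw [norm_ex, norm_one_sub_ex hre'.1 hre'.2]
    have e1 : (2 * π * Complex.I * v : ℂ).im = 2 * π * v.re := by simp
    have e2 : (π * Complex.I * v + K * v : ℂ).im = π * v.re + (K * v).im := by
      rw [Complex.add_im]
      congr 1
      simp
    rw [e1, e2, Complex.mul_re]
    ring
  obtain ⟨c, hc, hslope⟩ := exists_hasDerivAt_eq_slope F (fun _ => 0) zero_lt_one hFc hFd
  have h01 : F 1 = F 0 := by
    rw [sub_zero, div_one] at hslope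
    linarith
  have hX1 : X 1 = x := by simp [hX, hv]
  have hX0 : X 0 = 1 / 2 := by simp [hX]
  have hF0 : F 0 = 0 := by
    rw [hF]
    simp only
    rw [hX0, FF_half]
    have e1 : ex (1 / 2) = -1 := by
      unfold ex
      rw [show (2 * π * Complex.I * (1 / 2) : ℂ) = π * Complex.I by ring, Complex.exp_pi_mul_I]
    have e2 : Dv (-1) = 0 := by
      unfold Dv
      have a1 : Complex.arg (-1) = π := Complex.arg_neg_one
      have a2 : (1 : ℂ) / (1 - -1) = ((1 / 2 : ℝ) : ℂ) := by push_cast; norm_num
      have a3 : (1 : ℂ) - 1 / -1 = ((2 : ℝ) : ℂ) := by push_cast; norm_num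
      rw [a1, a2, a3, Complex.arg_ofReal_of_nonneg (by norm_num), Complex.arg_ofReal_of_nonneg (by norm_num),
        GapVol.lob_zero, EvenVol.LobIneq.lob_pi]
      ring
    rw [e1, e2]
    simp
  have h2 : F 1 = 0 := h01.trans hF0
  have h3 : F 1 = Dv (ex x) + 2 * π * x.im * (ls x).im + 2 * π * (FF x).re := by
    show Dv (ex (X 1)) + 2 * π * (X 1).im * (ls (X 1)).im + 2 * π * (FF (X 1)).re = _
    rw [hX1]
  linarith

end Run7.h260.VC
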