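import Pool.Agent.Run7.h260.VC.G1

/-!
# The shape parameters
-/

set_option autoImplicit false

namespace Run7.h260.VC

open Filter Topology Metric Set
open Pool.Agent.W709.VC (Dv)
open GapVol (lob)
open scoped Real

/-- the data of a solution: `A = π a`, `B = π b`, `C = π c` -/
structure Shp (a b c u : ℂ) : Prop where
  ma : a ∈ Bh
  mb : b ∈ Bh
  mc : c ∈ Bh
  ra : a.re < 1 / 2
  rb : b.re < 1 / 2
  rc : c.re < 1 / 2
  sum : a + b + c = 1
  ub : ls b = ls a + u
  uc : ls c = ls a - u

variable {a b c u : ℂ}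

lemma Shp.eb (h : Shp a b c u) : Complex.exp u * Complex.sin (π * a) = Complex.sin (π * b) := by
  have h1 := ls_exp (Bh_re h.mb).1 (Bh_re h.mb).2
  have h2 := ls_exp (Bh_re h.ma).1 (Bh_re h.ma).2
  rw [h.ub, Complex.exp_add, h2] at h1
  linear_combination h1 / 2

lemma Shp.ec (h : Shp a b c u) : Complex.exp u * Complex.sin (π * c) = Complex.sin (π * a) := by
  have h1 := ls_exp (Bh_re h.mc).1 (Bh_re h.mc).2
  have h2 := ls_exp (Bh_re h.ma).1 (Bh_re h.ma).2
  have h3 : ls a = ls c + u := by rw [h.uc]; ring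
  rw [h3, Complex.exp_add, h1] at h2
  linear_combination h2 / 2

lemma sin_ne {x : ℂ} (h : x ∈ Bh) : Complex.sin (π * x) ≠ 0 := by
  have h1 := ls_exp (Bh_re h).1 (Bh_re h).2
  intro h2
  rw [h2, mul_zero] at h1
  exact Complex.exp_ne_zero _ h1

/-- the basic identity -/
lemma tri_id {A B C : ℂ} (h : A + B + C = π) (σ : ℂ) :
    Complex.sin C - Complex.sin B * (Complex.cos A + σ * Complex.sin A) =
      Complex.sin A * (Complex.cos B - σ * Complex.sin B) := by
  have hC : C = π - (A + B) := by linear_combination h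
  rw [hC, Complex.sin_pi_sub, Complex.sin_add]
  ring

lemma exp_cs (x : ℂ) : Complex.exp (Complex.I * x) = Complex.cos x + Complex.I * Complex.sin x := by
  rw [mul_comm, Complex.exp_mul_I]; ring

lemma exp_cs' (x : ℂ) : Complex.exp (-(Complex.I * x)) = Complex.cos x - Complex.I * Complex.sin x := by
  rw [show -(Complex.I * x) = Complex.I * (-x) by ring, exp_cs, Complex.cos_neg, Complex.sin_neg]; ring

lemma Shp.sumpi (h : Shp a b c u) : (π * a : ℂ) + π * b + π * c = π := by
  rw [← mul_add, ← mul_add, h.sum, mul_one]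

/-- `1 - e^{2 u + i A} = e^{u - i B}` -/
lemma Shp.w1 (h : Shp a b c u) : 1 - Complex.exp (2 * u + Complex.I * (π * a)) =
    Complex.exp (u - Complex.I * (π * b)) := by
  have hs := sin_ne h.mc
  have h1 := tri_id h.sumpi Complex.I
  rw [← exp_cs, ← exp_cs'] at h1
  have e1 : Complex.exp (2 * u + Complex.I * (π * a)) = Complex.exp u * Complex.exp u *
      Complex.exp (Complex.I * (π * a)) := by
    rw [← Complex.exp_add, ← Complex.exp_add]; congr 1; ring
  have e2 : Complex.exp (u - Complex.I * (π * b)) = Complex.exp u * Complex.exp (-(Complex.I * (π * b))) := by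
    rw [← Complex.exp_add]; congr 1
  apply mul_left_cancel₀ hs
  rw [e1, e2]
  have h2 := h.eb
  have h3 := h.ec
  linear_combination h1 - Complex.exp (Complex.I * (π * a)) * Complex.exp u * h3 -
    Complex.exp (Complex.I * (π * a)) * h2 - Complex.exp (-(Complex.I * (π * b))) * h3

/-- `1 - e^{2 u - i A} = e^{u + i B}` -/
lemma Shp.w1' (h : Shp a b c u) : 1 - Complex.exp (2 * u - Complex.I * (π * a)) =
    Complex.exp (u + Complex.I * (π * b)) := by
  have hs := sin_ne h.mc
  have h1 := tri_id h.sumpi (-Complex.I)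
  have f1 : Complex.cos (π * a) + -Complex.I * Complex.sin (π * a) =
      Complex.exp (-(Complex.I * (π * a))) := by rw [exp_cs']; ring
  have f2 : Complex.cos (π * b) - -Complex.I * Complex.sin (π * b) =
      Complex.exp (Complex.I * (π * b)) := by rw [exp_cs]; ring
  rw [f1, f2] at h1
  have e1 : Complex.exp (2 * u - Complex.I * (π * a)) = Complex.exp u * Complex.exp u *
      Complex.exp (-(Complex.I * (π * a))) := by
    rw [← Complex.exp_add, ← Complex.exp_add]; congr 1; ring
  have e2 : Complex.exp (u + Complex.I * (π * b)) = Complex.exp u * Complex.exp (Complex.I * (π * b)) := by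
    rw [← Complex.exp_add]
  apply mul_left_cancel₀ hs
  rw [e1, e2]
  have h2 := h.eb
  have h3 := h.ec
  linear_combination h1 - Complex.exp (-(Complex.I * (π * a))) * Complex.exp u * h3 -
    Complex.exp (-(Complex.I * (π * a))) * h2 - Complex.exp (Complex.I * (π * b)) * h3

/-- the symmetry -/
lemma Shp.swap (h : Shp a b c u) : Shp a c b (-u) :=
  ⟨h.ma, h.mc, h.mb, h.ra, h.rc, h.rb, by rw [← h.sum]; ring, by rw [h.uc]; ring, by rw [h.ub]; ring⟩

/-- `1 - 1 / w_A = w_C` -/
lemma Shp.w2 (h : Shp a b c u) : 1 - 1 / Complex.exp (2 * u + Complex.I * (π * a)) =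
    Complex.exp (-u + Complex.I * (π * c)) := by
  have h1 := h.w1
  have h0 : Complex.exp (2 * u + Complex.I * (π * a)) ≠ 0 := Complex.exp_ne_zero _
  have e : (1 : ℂ) - 1 / Complex.exp (2 * u + Complex.I * (π * a)) =
      -(1 - Complex.exp (2 * u + Complex.I * (π * a))) / Complex.exp (2 * u + Complex.I * (π * a)) := by
    field_simp
    ring
  rw [e, h1, neg_div, ← Complex.exp_sub]
  have e2 : u - Complex.I * (π * b) - (2 * u + Complex.I * (π * a)) =
      (-u + Complex.I * (π * c)) - π * Complex.I := by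
    have := h.sumpi
    linear_combination (-Complex.I) * this
  rw [e2, Complex.exp_sub, Complex.exp_pi_mul_I]
  ring

lemma Shp.w3 (h : Shp a b c u) : 1 / (1 - Complex.exp (2 * u + Complex.I * (π * a))) =
    Complex.exp (-u + Complex.I * (π * b)) := by
  rw [h.w1, one_div, ← Complex.exp_neg]
  congr 1
  ring

/-- the angles -/
noncomputable def tA (a u : ℂ) : ℝ := 2 * u.im + π * a.re
noncomputable def tB (b u : ℂ) : ℝ := -u.im + π * b.re

lemma arg_exp' {z : ℂ} (h0 : -π < z.im) (h1 : z.im ≤ π) : (Complex.exp z).arg = z.im := by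
  have := congrArg Complex.im (Complex.log_exp h0 h1)
  rwa [Complex.log_im] at this

lemma im_tA (a u : ℂ) : (2 * u + Complex.I * (π * a)).im = tA a u := by
  simp [tA]
lemma im_tB (b u : ℂ) : (-u + Complex.I * (π * b)).im = tB b u := by
  simp [tB]

lemma Shp.Dv_w (h : Shp a b c u) (hA : 0 < tA a u ∧ tA a u < π) (hB : 0 < tB b u ∧ tB b u < π)
    (hC : 0 < tB c u ∧ tB c u < π) : Dv (Complex.exp (2 * u + Complex.I * (π * a))) =
      lob (tA a u) + lob (tB b u) + lob (tB c u) := by
  have hpi := Real.pi_pos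
  unfold Dv
  rw [h.w3, h.w2, arg_exp' (by rw [im_tA]; linarith) (by rw [im_tA]; linarith),
    arg_exp' (by rw [im_tB]; linarith) (by rw [im_tB]; linarith),
    arg_exp' (by rw [im_tB]; linarith) (by rw [im_tB]; linarith), im_tA, im_tB, im_tB]

lemma tsum (h : Shp a b c u) : tA a u + tB b u + tB c u = π := by
  have h1 := congrArg Complex.re h.sum
  simp only [Complex.add_re, Complex.one_re] at h1
  unfold tA tB
  linear_combination π * h1

/-- logarithms of the sines -/
lemma Shp.logB (h : Shp a b c u) (hA : 0 < tA a u ∧ tA a u < π) (hB : 0 < tB b u ∧ tB b u < π) :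
    Real.log (2 * Real.sin (tB b u)) = Real.log (2 * Real.sin (tA a u)) + u.re + π * c.im := by
  have h1 := congrArg Complex.im h.w1
  rw [Complex.sub_im, Complex.one_im, Complex.exp_im, Complex.exp_im, im_tA] at h1
  have e1 : (u - Complex.I * (π * b)).im = -tB b u := by simp [tB]; ring
  have e2 : (2 * u + Complex.I * (π * a)).re = 2 * u.re - π * a.im := by simp; ring
  have e3 : (u - Complex.I * (π * b)).re = u.re + π * b.im := by simp
  rw [e1, e2, e3, Real.sin_neg] at h1
  have s1 := Real.sin_pos_of_pos_of_lt_pi hA.1 hA.2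
  have s2 := Real.sin_pos_of_pos_of_lt_pi hB.1 hB.2
  have h2 : Real.exp (2 * u.re - π * a.im) * (2 * Real.sin (tA a u)) =
      Real.exp (u.re + π * b.im) * (2 * Real.sin (tB b u)) := by linarith
  have h3 := congrArg Real.log h2
  rw [Real.log_mul (Real.exp_pos _).ne' (by positivity), Real.log_mul (Real.exp_pos _).ne' (by positivity),
    Real.log_exp, Real.log_exp] at h3
  have h4 := congrArg Complex.im h.sum
  simp only [Complex.add_im, Complex.one_im] at h4
  linear_combination -h3 - π * h4

lemma Shp.logC (h : Shp a b c u) (hA : 0 < tA a u ∧ tA a u < π) (hC : 0 < tB c u ∧ tB c u < π) :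
    Real.log (2 * Real.sin (tB c u)) = Real.log (2 * Real.sin (tA a u)) - u.re - π * b.im := by
  -- from `1 - 1 / w_A = w_C`
  have h1 := congrArg Complex.im h.w2
  rw [one_div, ← Complex.exp_neg, Complex.sub_im, Complex.one_im, Complex.exp_im, Complex.exp_im,
    im_tB, Complex.neg_im, im_tA, Real.sin_neg] at h1
  have e2 : (-(2 * u + Complex.I * (π * a))).re = -2 * u.re + π * a.im := by simp; ring
  have e3 : (-u + Complex.I * (π * c)).re = -u.re - π * c.im := by simp; ring
  rw [e2, e3] at h1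
  have s1 := Real.sin_pos_of_pos_of_lt_pi hA.1 hA.2
  have s2 := Real.sin_pos_of_pos_of_lt_pi hC.1 hC.2
  have h2 : Real.exp (-2 * u.re + π * a.im) * (2 * Real.sin (tA a u)) =
      Real.exp (-u.re - π * c.im) * (2 * Real.sin (tB c u)) := by linarith
  have h3 := congrArg Real.log h2
  rw [Real.log_mul (Real.exp_pos _).ne' (by positivity), Real.log_mul (Real.exp_pos _).ne' (by positivity),
    Real.log_exp, Real.log_exp] at h3
  have h4 := congrArg Complex.im h.sum
  simp only [Complex.add_im, Complex.one_im] at h4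
  linear_combination -h3 + π * h4

/-- the sum of the volumes -/
lemma Shp.five (h : Shp a b c u) : Dv (Complex.exp (2 * u + Complex.I * (π * a))) +
    Dv (Complex.exp (-(2 * u) + Complex.I * (π * a))) = Dv (ex a) + Dv (ex b) + Dv (ex c) := by
  have hne1 : ∀ {z w : ℂ}, 1 - Complex.exp z = Complex.exp w → Complex.exp z ≠ 1 := by
    intro z w hz h1
    rw [h1, sub_self] at hz
    exact Complex.exp_ne_zero w hz.symm
  set x := Complex.exp (2 * u + Complex.I * (π * a)) with hx
  set y := Complex.exp (2 * u - Complex.I * (π * a)) with hy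
  have hx0 : x ≠ 0 := Complex.exp_ne_zero _
  have hy0 : y ≠ 0 := Complex.exp_ne_zero _
  have hx1 : x ≠ 1 := hne1 h.w1
  have hy1 : y ≠ 1 := hne1 h.w1'
  have hyx : y / x = (ex a)⁻¹ := by
    rw [hx, hy, ← Complex.exp_sub, ex, ← Complex.exp_neg]
    congr 1
    ring
  have hxy : x ≠ y := by
    intro hxy
    rw [hxy, div_self hy0] at hyx
    have h1 : ex a = 1 := by rw [← inv_inv (ex a), ← hyx, inv_one]
    have h2 := one_sub_ex a
    rw [h1, sub_self] at h2
    have h3 : -(Complex.I * Complex.exp (π * Complex.I * a)) * (2 * Complex.sin (π * a)) ≠ 0 :=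
      mul_ne_zero (neg_ne_zero.2 (mul_ne_zero Complex.I_ne_zero (Complex.exp_ne_zero _)))
        (mul_ne_zero two_ne_zero (sin_ne h.ma))
    exact h3 h2.symm
  have key := Pool.Agent.W505.VC.five x y hx0 hx1 hy0 hy1 hxy
  have hz : y⁻¹ = Complex.exp (-(2 * u) + Complex.I * (π * a)) := by
    rw [hy, ← Complex.exp_neg]; congr 1; ring
  have k1 : (1 - x) / (1 - y) = (ex b)⁻¹ := by
    rw [hx, hy, h.w1, h.w1', ← Complex.exp_sub, ex, ← Complex.exp_neg]
    congr 1
    ring
  have k2 : (1 - x⁻¹) / (1 - y⁻¹) = ex c := by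
    have h1 := h.w2
    have h2 := h.swap.w1
    have e1 : 2 * -u + Complex.I * (π * a) = -(2 * u) + Complex.I * (π * a) := by ring
    rw [e1] at h2
    rw [hz, ← one_div, hx, h1, h2, ← Complex.exp_sub, ex]
    congr 1
    ring
  rw [hyx, k1, k2, Pool.Agent.W505.VC.Dv_inv, Pool.Agent.W505.VC.Dv_inv] at key
  have hDy : Dv y = -Dv (Complex.exp (-(2 * u) + Complex.I * (π * a))) := by
    rw [← hz, Pool.Agent.W505.VC.Dv_inv, neg_neg]
  rw [hDy] at key
  linarith

/-- the value of the potential -/
theorem Shp.value (h : Shp a b c u) {n : ℕ} {m : ℤ} {χ : ℂ} (hχ : b - c = χ / π)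
    (hu : 2 * n * u = Complex.I * (m * χ + π)) :
    2 * π * (Complex.I * m * χ ^ 2 / (2 * π) + Complex.I * χ - 2 * n * (FF a + FF b + FF c)).re =
      2 * n * (Dv (Complex.exp (2 * u + Complex.I * (π * a))) +
        Dv (Complex.exp (-(2 * u) + Complex.I * (π * a)))) := by
  have hpi := Real.pi_pos
  have hpiC : (π : ℂ) ≠ 0 := by exact_mod_cast hpi.ne'
  rw [h.five]
  have f1 := FF_Dv h.ma h.ra
  have f2 := FF_Dv h.mb h.rb
  have f3 := FF_Dv h.mc h.rc
  have i1 := congrArg Complex.im h.ub
  have i2 := congrArg Complex.im h.uc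
  rw [Complex.add_im] at i1
  rw [Complex.sub_im] at i2
  have i3 := congrArg Complex.im h.sum
  simp only [Complex.add_im, Complex.one_im] at i3
  have i4 : π * (b.im - c.im) = χ.im := by
    have h1 : χ = ((π : ℝ) : ℂ) * (b - c) := by rw [hχ]; field_simp
    rw [h1, Complex.im_ofReal_mul, Complex.sub_im]
  have i5 : 2 * n * u.im = m * χ.re + π := by
    have h1 := congrArg Complex.im hu
    have e1 : (2 * n * u : ℂ).im = 2 * n * u.im := by
      have : (2 * n * u : ℂ) = ((2 * n : ℝ) : ℂ) * u := by push_cast; rfl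
      rw [this, Complex.im_ofReal_mul]
    have e2 : (Complex.I * (m * χ + π)).im = m * χ.re + π := by simp
    rw [e1, e2] at h1
    exact h1
  have e1 : (Complex.I * m * χ ^ 2 / (2 * π) + Complex.I * χ - 2 * n * (FF a + FF b + FF c)).re =
      -(m * χ.re * χ.im / π) - χ.im - 2 * n * ((FF a).re + (FF b).re + (FF c).re) := by
    have g1 : Complex.I * m * χ ^ 2 / (2 * π) = ((m / (2 * π) : ℝ) : ℂ) * (Complex.I * χ ^ 2) := by
      push_cast; field_simp
    have g2 : (Complex.I * χ ^ 2).re = -(2 * (χ.re * χ.im)) := by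
      rw [sq]; simp [Complex.mul_re, Complex.mul_im]; ring
    have g3 : (2 * n * (FF a + FF b + FF c) : ℂ) = ((2 * n : ℝ) : ℂ) * (FF a + FF b + FF c) := by
      push_cast; rfl
    rw [Complex.sub_re, Complex.add_re, g1, g3, Complex.re_ofReal_mul, Complex.re_ofReal_mul, g2,
      Complex.add_re, Complex.add_re]
    simp
    field_simp
    ring
  rw [e1]
  have e2 : 2 * π * (-(m * χ.re * χ.im / π) - χ.im - 2 * n * ((FF a).re + (FF b).re + (FF c).re)) =
      -2 * χ.im * (m * χ.re + π) - 2 * n * (2 * π * (FF a).re + 2 * π * (FF b).re + 2 * π * (FF c).re) := by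
    field_simp
    ring
  rw [e2]
  have e3 : 2 * π * (FF a).re + 2 * π * (FF b).re + 2 * π * (FF c).re =
      -(Dv (ex a) + Dv (ex b) + Dv (ex c)) - 2 * π * (a.im * (ls a).im + b.im * (ls b).im + c.im * (ls c).im) := by
    linarith
  rw [e3, i1, i2]
  have e4 : 2 * π * (a.im * (ls a).im + b.im * ((ls a).im + u.im) + c.im * ((ls a).im - u.im)) =
      2 * χ.im * u.im := by
    rw [← i4]
    linear_combination 2 * π * (ls a).im * i3
  rw [e4, ← i5]
  ring

end Run7.h260.VC
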