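import Pool.Agent.Run7.h260.VC.G2
import Pool.Agent.W120.VC.Tet

/-!
# Angle structures
-/

set_option autoImplicit false

namespace Run7.h260.VC

open Finset
open GapVol (lob)
open scoped Real

/-! ### Sums over a period -/

lemma shift (f : ℕ → ℝ) {M : ℕ} (h : f M = f 0) : ∑ k ∈ range M, f (k + 1) = ∑ k ∈ range M, f k := by
  have h1 := Finset.sum_range_succ' f M
  have h2 := Finset.sum_range_succ f M
  linarith

lemma alt_shift (f : ℕ → ℝ) {n : ℕ} (h : f (2 * n) = f 0) :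
    ∑ k ∈ range (2 * n), (-1) ^ k * f (k + 1) = -∑ k ∈ range (2 * n), (-1) ^ k * f k := by
  have h1 := shift (fun k => (-1) ^ k * f k) (M := 2 * n) (by simp [h])
  rw [← h1, ← Finset.sum_neg_distrib]
  refine Finset.sum_congr rfl fun k _ => ?_
  rw [pow_succ]
  ring

lemma lin3 (F G H : ℕ → ℝ) (s q t : ℝ) (M : ℕ) : ∑ k ∈ range M, (s * F k + (q * G k + t * H k)) =
    s * ∑ k ∈ range M, F k + (q * ∑ k ∈ range M, G k + t * ∑ k ∈ range M, H k) := by
  rw [Finset.sum_add_distrib, Finset.sum_add_distrib, ← Finset.mul_sum, ← Finset.mul_sum,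
    ← Finset.mul_sum]

/-- the conditions on differences of angle structures -/
structure Hom (n : ℕ) (a b c a' b' c' : ℕ → ℝ) : Prop where
  pa : ∀ k, a (k + 2 * n) = a k
  pb : ∀ k, b (k + 2 * n) = b k
  pc : ∀ k, c (k + 2 * n) = c k
  pa' : ∀ k, a' (k + 2 * n) = a' k
  pb' : ∀ k, b' (k + 2 * n) = b' k
  pc' : ∀ k, c' (k + 2 * n) = c' k
  tet : ∀ k, a k + b k + c k = 0
  tet' : ∀ k, a' k + b' k + c' k = 0
  e1 : ∀ k, a' k + c (k + 1) + c' (k + 1) + b (k + 2) + b' (k + 2) + a (k + 3) = 0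
  e2 : ∀ k, a k + c (k + 1) + c' (k + 1) + b (k + 2) + b' (k + 2) + a' (k + 3) = 0

variable {n : ℕ} {a b c a' b' c' : ℕ → ℝ}

lemma Hom.rho (h : Hom n a b c a' b' c') :
    ∑ k ∈ range (2 * n), (-a k - b' k + c k + a' k) =
      2 * n * -(a 0 + b 0 + b' 0 + a 1 + c 0 + c' 0 + b 1 + b' 1 + a 2) := by
  have hr : ∀ k, a' k + c (k + 1) - b' (k + 1) - a (k + 2) = a' 0 + c 1 - b' 1 - a 2 := by
    intro k
    induction k with
    | zero => rfl
    | succ k ih =>
      have h1 := h.e1 k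
      have h2 := h.tet' (k + 1)
      have h3 := h.tet (k + 2)
      have e1 : k + 1 + 1 = k + 2 := rfl
      have e2 : k + 1 + 2 = k + 3 := rfl
      rw [e1, e2]
      linarith
  have hs : ∑ k ∈ range (2 * n), (a' k + c (k + 1) - b' (k + 1) - a (k + 2)) =
      2 * n * (a' 0 + c 1 - b' 1 - a 2) := by
    rw [Finset.sum_congr rfl fun k _ => hr k, Finset.sum_const, card_range, nsmul_eq_mul]
    push_cast
    ring
  have p0 : ∀ {f : ℕ → ℝ}, (∀ k, f (k + 2 * n) = f k) → f (2 * n) = f 0 := by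
    intro f hf
    have := hf 0
    rwa [zero_add] at this
  have s1 := shift c (p0 h.pc)
  have s2 := shift b' (p0 h.pb')
  have s3 := shift a (p0 h.pa)
  have s4 := shift (fun k => a (k + 1)) (M := 2 * n) (by
    have := h.pa 1
    rw [add_comm] at this
    simpa using this)
  have e : ∀ k, k + 1 + 1 = k + 2 := fun k => rfl
  simp only [e] at s4
  simp only [Finset.sum_add_distrib, Finset.sum_sub_distrib] at hs
  rw [s1, s2, s4, s3] at hs
  simp only [Finset.sum_add_distrib, Finset.sum_sub_distrib, Finset.sum_neg_distrib]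
  have t0 := h.tet 0
  have t0' := h.tet' 0
  have t1 := h.tet 1
  have e3 : -(a 0 + b 0 + b' 0 + a 1 + c 0 + c' 0 + b 1 + b' 1 + a 2) = a' 0 + c 1 - b' 1 - a 2 := by
    linarith
  rw [e3]
  linarith

lemma Hom.alt (h : Hom n a b c a' b' c') :
    ∑ k ∈ range (2 * n), (-1) ^ k * (a k + b' k) = -∑ k ∈ range (2 * n), (-1) ^ k * b k ∧
    ∑ k ∈ range (2 * n), (-1) ^ k * (c k + a' k) = -∑ k ∈ range (2 * n), (-1) ^ k * b k := by
  have sh : ∀ {f : ℕ → ℝ}, (∀ k, f (k + 2 * n) = f k) →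
      ∑ k ∈ range (2 * n), (-1) ^ k * f (k + 1) = -∑ k ∈ range (2 * n), (-1) ^ k * f k := by
    intro f hf
    refine alt_shift f ?_
    have := hf 0
    rwa [zero_add] at this
  have sh2 : ∀ {f : ℕ → ℝ}, (∀ k, f (k + 2 * n) = f k) →
      ∑ k ∈ range (2 * n), (-1) ^ k * f (k + 2) = ∑ k ∈ range (2 * n), (-1) ^ k * f k := by
    intro f hf
    have h1 := sh (f := fun k => f (k + 1)) (fun k => by
      have := hf (k + 1)
      rwa [show k + 1 + 2 * n = k + 2 * n + 1 by ring] at this)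
    rw [sh hf, neg_neg] at h1
    exact h1
  have sh3 : ∀ {f : ℕ → ℝ}, (∀ k, f (k + 2 * n) = f k) →
      ∑ k ∈ range (2 * n), (-1) ^ k * f (k + 3) = -∑ k ∈ range (2 * n), (-1) ^ k * f k := by
    intro f hf
    have h1 := sh2 (f := fun k => f (k + 1)) (fun k => by
      have := hf (k + 1)
      rwa [show k + 1 + 2 * n = k + 2 * n + 1 by ring] at this)
    rw [sh hf] at h1
    exact h1
  have k1 : ∑ k ∈ range (2 * n), (-1) ^ k * (a k + b k + c k) = 0 :=
    Finset.sum_eq_zero fun k _ => by rw [h.tet k, mul_zero]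
  have k2 : ∑ k ∈ range (2 * n), (-1) ^ k * (a' k + b' k + c' k) = 0 :=
    Finset.sum_eq_zero fun k _ => by rw [h.tet' k, mul_zero]
  have k3 : ∑ k ∈ range (2 * n), (-1) ^ k *
      (a' k + c (k + 1) + c' (k + 1) + b (k + 2) + b' (k + 2) + a (k + 3)) = 0 :=
    Finset.sum_eq_zero fun k _ => by rw [h.e1 k, mul_zero]
  have k4 : ∑ k ∈ range (2 * n), (-1) ^ k *
      (a k + c (k + 1) + c' (k + 1) + b (k + 2) + b' (k + 2) + a' (k + 3)) = 0 :=
    Finset.sum_eq_zero fun k _ => by rw [h.e2 k, mul_zero]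
  simp only [mul_add, Finset.sum_add_distrib] at k1 k2 k3 k4 ⊢
  rw [sh h.pc, sh h.pc', sh2 h.pb, sh2 h.pb', sh3 h.pa] at k3
  rw [sh h.pc, sh h.pc', sh2 h.pb, sh2 h.pb', sh3 h.pa'] at k4
  constructor <;> linarith

/-- angle structures with the condition at the filled cusp -/
structure AngC (n : ℕ) (m : ℤ) (a b c a' b' c' : ℕ → ℝ) : Prop where
  pa : ∀ k, a (k + 2 * n) = a k
  pb : ∀ k, b (k + 2 * n) = b k
  pc : ∀ k, c (k + 2 * n) = c k
  pa' : ∀ k, a' (k + 2 * n) = a' k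
  pb' : ∀ k, b' (k + 2 * n) = b' k
  pc' : ∀ k, c' (k + 2 * n) = c' k
  pos : ∀ k, 0 < a k ∧ 0 < b k ∧ 0 < c k ∧ 0 < a' k ∧ 0 < b' k ∧ 0 < c' k
  tet : ∀ k, a k + b k + c k = π
  tet' : ∀ k, a' k + b' k + c' k = π
  e1 : ∀ k, a' k + c (k + 1) + c' (k + 1) + b (k + 2) + b' (k + 2) + a (k + 3) = 2 * π
  e2 : ∀ k, a k + c (k + 1) + c' (k + 1) + b (k + 2) + b' (k + 2) + a' (k + 3) = 2 * π
  fill : ∑ k ∈ range (2 * n), (-1) ^ k * b k -
    m * (3 * π - (a 0 + b 0 + b' 0 + a 1 + c 0 + c' 0 + b 1 + b' 1 + a 2)) = 2 * π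

/-- the volume -/
noncomputable def volC (n : ℕ) (a b c a' b' c' : ℕ → ℝ) : ℝ :=
  ∑ k ∈ range (2 * n), (lob (a k) + lob (b k) + lob (c k) + (lob (a' k) + lob (b' k) + lob (c' k)))

/-- the maximum -/
theorem max_of {m : ℤ} {x y z x' y' z' : ℕ → ℝ} (h1 : AngC n m x y z x' y' z')
    (h2 : AngC n m a b c a' b' c') {P : ℕ → ℝ} {s q t X : ℝ}
    (hx : ∀ k, Real.log (2 * Real.sin (x k)) = P k - s - (-1) ^ k * q)
    (hy : ∀ k, Real.log (2 * Real.sin (y k)) = P k)
    (hz : ∀ k, Real.log (2 * Real.sin (z k)) = P k + s + (-1) ^ k * t)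
    (hx' : ∀ k, Real.log (2 * Real.sin (x' k)) = P k + s + (-1) ^ k * t)
    (hy' : ∀ k, Real.log (2 * Real.sin (y' k)) = P k - s - (-1) ^ k * q)
    (hz' : ∀ k, Real.log (2 * Real.sin (z' k)) = P k)
    (hs : 2 * n * s = -(m * X)) (hX : q - t = X) :
    volC n a b c a' b' c' ≤ volC n x y z x' y' z' := by
  have hH : Hom n (fun k => a k - x k) (fun k => b k - y k) (fun k => c k - z k)
      (fun k => a' k - x' k) (fun k => b' k - y' k) (fun k => c' k - z' k) := by
    refine ⟨fun k => ?_, fun k => ?_, fun k => ?_, fun k => ?_, fun k => ?_, fun k => ?_, fun k => ?_,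
      fun k => ?_, fun k => ?_, fun k => ?_⟩
    · rw [h1.pa, h2.pa]
    · rw [h1.pb, h2.pb]
    · rw [h1.pc, h2.pc]
    · rw [h1.pa', h2.pa']
    · rw [h1.pb', h2.pb']
    · rw [h1.pc', h2.pc']
    · have := h1.tet k; have := h2.tet k; linarith
    · have := h1.tet' k; have := h2.tet' k; linarith
    · have := h1.e1 k; have := h2.e1 k; linarith
    · have := h1.e2 k; have := h2.e2 k; linarith
  have hrho := hH.rho
  obtain ⟨ha1, ha2⟩ := hH.alt
  have hle : ∀ k, lob (a k) + lob (b k) + lob (c k) + (lob (a' k) + lob (b' k) + lob (c' k)) ≤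
      lob (x k) + lob (y k) + lob (z k) + (lob (x' k) + lob (y' k) + lob (z' k)) -
      (s * (-(a k - x k) - (b' k - y' k) + (c k - z k) + (a' k - x' k)) +
        (-q * ((-1) ^ k * ((a k - x k) + (b' k - y' k))) +
          t * ((-1) ^ k * ((c k - z k) + (a' k - x' k))))) := by
    intro k
    obtain ⟨p1, p2, p3, p4, p5, p6⟩ := h1.pos k
    obtain ⟨r1, r2, r3, r4, r5, r6⟩ := h2.pos k
    have t1 := Pool.Agent.W120.VC.tet (x k) (y k) (z k) (a k) (b k) (c k) p1 p2 p3 (h1.tet k)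
      r1.le r2.le r3.le (h2.tet k)
    have t2 := Pool.Agent.W120.VC.tet (x' k) (y' k) (z' k) (a' k) (b' k) (c' k) p4 p5 p6 (h1.tet' k)
      r4.le r5.le r6.le (h2.tet' k)
    rw [hx, hy, hz] at t1
    rw [hx', hy', hz'] at t2
    have e1 := h1.tet k
    have e2 := h2.tet k
    have e3 := h1.tet' k
    have e4 := h2.tet' k
    have f1 : (a k - x k) * P k + (b k - y k) * P k + (c k - z k) * P k = 0 := by
      rw [← add_mul, ← add_mul]
      have : a k - x k + (b k - y k) + (c k - z k) = 0 := by linarith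
      rw [this, zero_mul]
    have f2 : (a' k - x' k) * P k + (b' k - y' k) * P k + (c' k - z' k) * P k = 0 := by
      rw [← add_mul, ← add_mul]
      have : a' k - x' k + (b' k - y' k) + (c' k - z' k) = 0 := by linarith
      rw [this, zero_mul]
    linarith
  have hsum : ∑ k ∈ range (2 * n), (s * (-(a k - x k) - (b' k - y' k) + (c k - z k) + (a' k - x' k)) +
        (-q * ((-1) ^ k * ((a k - x k) + (b' k - y' k))) +
          t * ((-1) ^ k * ((c k - z k) + (a' k - x' k))))) = 0 := by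
    rw [lin3 (fun k => -(a k - x k) - (b' k - y' k) + (c k - z k) + (a' k - x' k))
      (fun k => (-1) ^ k * ((a k - x k) + (b' k - y' k)))
      (fun k => (-1) ^ k * ((c k - z k) + (a' k - x' k))), hrho, ha1, ha2]
    have f1 := h1.fill
    have f2 := h2.fill
    have e5 : ∑ k ∈ range (2 * n), (-1) ^ k * (b k - y k) =
        ∑ k ∈ range (2 * n), (-1) ^ k * b k - ∑ k ∈ range (2 * n), (-1) ^ k * y k := by
      rw [← Finset.sum_sub_distrib]
      exact Finset.sum_congr rfl fun k _ => by ring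
    rw [e5]
    set Y := ∑ k ∈ range (2 * n), (-1) ^ k * b k
    set Y' := ∑ k ∈ range (2 * n), (-1) ^ k * y k
    set ρ := (a 0 - x 0) + (b 0 - y 0) + (b' 0 - y' 0) + (a 1 - x 1) + (c 0 - z 0) + (c' 0 - z' 0) +
      (b 1 - y 1) + (b' 1 - y' 1) + (a 2 - x 2) with hρ
    have f3 : (Y - Y') = m * -ρ := by
      rw [hρ]
      linarith
    rw [f3]
    linear_combination (-ρ) * hs - m * ρ * hX
  unfold volC
  refine (Finset.sum_le_sum fun k _ => hle k).trans (le_of_eq ?_)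
  rw [Finset.sum_sub_distrib, hsum, sub_zero]

end Run7.h260.VC
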