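import Pool.Agent.Run7.h260.VC.G3
import Pool.Agent.Run7.h260.VC.F5

/-!
# The growth rate is the maximal volume of an angle structure
-/

set_option autoImplicit false

namespace Run7.h260.VC

open Finset Filter Topology
open GapVol (lob)
open Pool.Agent.W709.VC (Dv)
open scoped Real

/-- alternating sequence -/
noncomputable def alt (p q : ℝ) (k : ℕ) : ℝ := if Even k then p else q

lemma alt_succ (p q : ℝ) (k : ℕ) : alt p q (k + 1) = alt q p k := by
  unfold alt
  by_cases h : Even k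
  · have h' : ¬ Even (k + 1) := by rw [Nat.even_add_one]; exact not_not.2 h
    rw [if_neg h', if_pos h]
  · have h' : Even (k + 1) := by rw [Nat.even_add_one]; exact h
    rw [if_pos h', if_neg h]

lemma alt_zero (p q : ℝ) : alt p q 0 = p := by simp [alt]

lemma alt_two (p q : ℝ) (k : ℕ) : alt p q (k + 2) = alt p q k := by
  rw [show k + 2 = k + 1 + 1 by ring, alt_succ, alt_succ]

lemma alt_three (p q : ℝ) (k : ℕ) : alt p q (k + 3) = alt q p k := by
  rw [show k + 3 = k + 2 + 1 by ring, alt_succ, alt_two]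

lemma alt_per (p q : ℝ) (k n : ℕ) : alt p q (k + 2 * n) = alt p q k := by
  unfold alt
  have : Even (k + 2 * n) ↔ Even k := by
    rw [Nat.even_add]
    simp
  simp only [this]

lemma alt_cases (p q : ℝ) (k : ℕ) : (alt p q k = p ∧ (-1 : ℝ) ^ k = 1 ∧ Even k) ∨
    (alt p q k = q ∧ (-1 : ℝ) ^ k = -1 ∧ ¬ Even k) := by
  unfold alt
  by_cases h : Even k
  · left; exact ⟨if_pos h, h.neg_one_pow, h⟩
  · right; exact ⟨if_neg h, (Nat.not_even_iff_odd.1 h).neg_one_pow, h⟩

lemma sum_two (f : ℕ → ℝ) (n : ℕ) (A B : ℝ) (h : ∀ k, f (2 * k) = A ∧ f (2 * k + 1) = B) :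
    ∑ k ∈ range (2 * n), f k = n * (A + B) := by
  induction n with
  | zero => simp
  | succ n ih =>
    rw [show 2 * (n + 1) = 2 * n + 1 + 1 by ring, Finset.sum_range_succ, Finset.sum_range_succ, ih,
      (h n).1, (h n).2]
    push_cast
    ring

lemma alt_even (p q : ℝ) (k : ℕ) : alt p q (2 * k) = p := by simp [alt]
lemma alt_odd (p q : ℝ) (k : ℕ) : alt p q (2 * k + 1) = q := by rw [alt_succ, alt_even]

variable {a b c u : ℂ}

/-- the angles are positive -/
structure Shp.Pos (a b c u : ℂ) : Prop where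
  A : 0 < tA a u ∧ tA a u < π
  B : 0 < tB b u ∧ tB b u < π
  C : 0 < tB c u ∧ tB c u < π

theorem Shp.angC (h : Shp a b c u) (h1 : Shp.Pos a b c u) (h2 : Shp.Pos a b c (-u)) {n : ℕ} {m : ℤ}
    {χ : ℂ} (hχ : b - c = χ / π) (hu : 2 * n * u = Complex.I * (m * χ + π)) :
    AngC n m (alt (tB c u) (tB c (-u))) (alt (tA a u) (tA a (-u))) (alt (tB b u) (tB b (-u)))
      (alt (tB b u) (tB b (-u))) (alt (tB c u) (tB c (-u))) (alt (tA a u) (tA a (-u))) := by
  have hpi := Real.pi_pos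
  have hpiC : (π : ℂ) ≠ 0 := by exact_mod_cast hpi.ne'
  have s1 := tsum h
  have s2 := tsum h.swap
  have i3 := congrArg Complex.re h.sum
  simp only [Complex.add_re, Complex.one_re] at i3
  have i4 : π * (b.re - c.re) = χ.re := by
    have h1 : χ = ((π : ℝ) : ℂ) * (b - c) := by rw [hχ]; field_simp
    rw [h1, Complex.re_ofReal_mul, Complex.sub_re]
  have i5 : 2 * n * u.im = m * χ.re + π := by
    have h1 := congrArg Complex.im hu
    have e1 : (2 * n * u : ℂ).im = 2 * n * u.im := by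
      have : (2 * n * u : ℂ) = ((2 * n : ℝ) : ℂ) * u := by push_cast; rfl
      rw [this, Complex.im_ofReal_mul]
    have e2 : (Complex.I * (m * χ + π)).im = m * χ.re + π := by simp
    rw [e1, e2] at h1
    exact h1
  have hπ3 : π * a.re + π * b.re + π * c.re = π := by rw [← mul_add, ← mul_add, i3, mul_one]
  refine ⟨fun k => alt_per _ _ _ _, fun k => alt_per _ _ _ _, fun k => alt_per _ _ _ _,
    fun k => alt_per _ _ _ _, fun k => alt_per _ _ _ _, fun k => alt_per _ _ _ _, ?_, ?_, ?_, ?_, ?_, ?_⟩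
  · intro k
    unfold alt
    split_ifs
    · exact ⟨h1.C.1, h1.A.1, h1.B.1, h1.B.1, h1.C.1, h1.A.1⟩
    · exact ⟨h2.C.1, h2.A.1, h2.B.1, h2.B.1, h2.C.1, h2.A.1⟩
  · intro k
    unfold alt
    split_ifs <;> linarith
  · intro k
    unfold alt
    split_ifs <;> linarith
  · intro k
    simp only [alt_succ, alt_two, alt_three]
    unfold alt
    split_ifs <;> linarith
  · intro k
    simp only [alt_succ, alt_two, alt_three]
    unfold alt
    unfold tA tB
    simp only [Complex.neg_im]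
    split_ifs <;> linarith
  · rw [sum_two _ n (tA a u) (-tA a (-u)) (fun k => ⟨by rw [alt_even, pow_mul]; simp, by
      rw [alt_odd, pow_succ, pow_mul]; simp⟩)]
    have e0 : ∀ p q : ℝ, alt p q 1 = q := fun p q => alt_odd p q 0
    have e2 : ∀ p q : ℝ, alt p q 2 = p := fun p q => alt_even p q 1
    simp only [alt_zero, e0, e2]
    unfold tA tB
    simp only [Complex.neg_im]
    have g1 : 3 * π - (-u.im + π * c.re + (2 * u.im + π * a.re) + (-u.im + π * c.re) + (- -u.im + π * c.re) +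
        (-u.im + π * b.re) + (2 * u.im + π * a.re) + (2 * -u.im + π * a.re) + (- -u.im + π * c.re) +
        (-u.im + π * c.re)) = 2 * χ.re := by
      rw [← i4]
      linear_combination (-3) * hπ3
    rw [g1]
    linear_combination 2 * i5

theorem Shp.volC_eq (h : Shp a b c u) (h1 : Shp.Pos a b c u) (h2 : Shp.Pos a b c (-u)) (n : ℕ) :
    volC n (alt (tB c u) (tB c (-u))) (alt (tA a u) (tA a (-u))) (alt (tB b u) (tB b (-u)))
      (alt (tB b u) (tB b (-u))) (alt (tB c u) (tB c (-u))) (alt (tA a u) (tA a (-u))) =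
    2 * n * (Dv (Complex.exp (2 * u + Complex.I * (π * a))) +
        Dv (Complex.exp (-(2 * u) + Complex.I * (π * a)))) := by
  have e1 : -(2 * u) + Complex.I * (π * a) = 2 * -u + Complex.I * (π * a) := by ring
  rw [e1, h.Dv_w h1.A h1.B h1.C, h.swap.Dv_w h2.A h2.C h2.B]
  unfold volC
  rw [sum_two _ n (2 * (lob (tA a u) + lob (tB b u) + lob (tB c u)))
    (2 * (lob (tA a (-u)) + lob (tB c (-u)) + lob (tB b (-u)))) (fun k => ⟨by
      simp only [alt_even]; ring, by simp only [alt_odd]; ring⟩)]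
  ring

theorem Shp.max (h : Shp a b c u) (h1 : Shp.Pos a b c u) (h2 : Shp.Pos a b c (-u)) {n : ℕ} {m : ℤ}
    {χ : ℂ} (hχ : b - c = χ / π) (hu : 2 * n * u = Complex.I * (m * χ + π)) {x y z x' y' z' : ℕ → ℝ}
    (h3 : AngC n m x y z x' y' z') : volC n x y z x' y' z' ≤
      volC n (alt (tB c u) (tB c (-u))) (alt (tA a u) (tA a (-u))) (alt (tB b u) (tB b (-u)))
      (alt (tB b u) (tB b (-u))) (alt (tB c u) (tB c (-u))) (alt (tA a u) (tA a (-u))) := by
  have hpi := Real.pi_pos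
  have hpiC : (π : ℂ) ≠ 0 := by exact_mod_cast hpi.ne'
  have i4 : π * (b.im - c.im) = χ.im := by
    have h1 : χ = ((π : ℝ) : ℂ) * (b - c) := by rw [hχ]; field_simp
    rw [h1, Complex.im_ofReal_mul, Complex.sub_im]
  have i5 : 2 * n * u.re = -(m * χ.im) := by
    have h1 := congrArg Complex.re hu
    have e1 : (2 * n * u : ℂ).re = 2 * n * u.re := by
      have : (2 * n * u : ℂ) = ((2 * n : ℝ) : ℂ) * u := by push_cast; rfl
      rw [this, Complex.re_ofReal_mul]
    have e2 : (Complex.I * (m * χ + π)).re = -(m * χ.im) := by simp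
    rw [e1, e2] at h1
    exact h1
  have lB := h.logB h1.A h1.B
  have lC := h.logC h1.A h1.C
  have lB' := h.swap.logB h2.A h2.C
  have lC' := h.swap.logC h2.A h2.B
  rw [Complex.neg_re] at lB' lC'
  have hxx : ∀ k, Real.log (2 * Real.sin (alt (tB c u) (tB c (-u)) k)) =
      alt (Real.log (2 * Real.sin (tA a u))) (Real.log (2 * Real.sin (tA a (-u)))) k - u.re -
        (-1) ^ k * (π * b.im) := by
    intro k
    rcases alt_cases (tB c u) (tB c (-u)) k with ⟨e1, e2, e3⟩ | ⟨e1, e2, e3⟩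
    · rw [e1, e2, alt, if_pos e3, lC]; ring
    · rw [e1, e2, alt, if_neg e3, lB']; ring
  have hyy : ∀ k, Real.log (2 * Real.sin (alt (tA a u) (tA a (-u)) k)) =
      alt (Real.log (2 * Real.sin (tA a u))) (Real.log (2 * Real.sin (tA a (-u)))) k := by
    intro k
    unfold alt
    split_ifs <;> rfl
  have hzz : ∀ k, Real.log (2 * Real.sin (alt (tB b u) (tB b (-u)) k)) =
      alt (Real.log (2 * Real.sin (tA a u))) (Real.log (2 * Real.sin (tA a (-u)))) k + u.re +
        (-1) ^ k * (π * c.im) := by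
    intro k
    rcases alt_cases (tB b u) (tB b (-u)) k with ⟨e1, e2, e3⟩ | ⟨e1, e2, e3⟩
    · rw [e1, e2, alt, if_pos e3, lB]; ring
    · rw [e1, e2, alt, if_neg e3, lC']; ring
  exact max_of (h.angC h1 h2 hχ hu) h3 hxx hyy hzz hzz hxx hyy i5 (by rw [← i4]; ring)

/-- geometry of the critical points near the origin -/
theorem geo (n : ℕ) [NeZero n] : ∀ᶠ χ : ℂ in 𝓝 0, ∀ m : ℤ,
    Complex.I * m * χ / π + Complex.I + deriv (Gv n) χ = 0 → ∃ x y z x' y' z' : ℕ → ℝ,
      AngC n m x y z x' y' z' ∧ volC n x y z x' y' z' =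
        2 * π * (Complex.I * m * χ ^ 2 / (2 * π) + Complex.I * χ + Gv n χ).re ∧
      ∀ a b c a' b' c' : ℕ → ℝ, AngC n m a b c a' b' c' →
        volC n a b c a' b' c' ≤ volC n x y z x' y' z' := by
  have hpi := Real.pi_pos
  have hpiC : (π : ℂ) ≠ 0 := by exact_mod_cast hpi.ne'
  set fa : ℂ → ℂ := fun χ => 1 - 2 * (1 / 3 + bet χ) with hfa
  set fb : ℂ → ℂ := fun χ => 1 / 3 + bet χ + χ / (2 * π) with hfb
  set fc : ℂ → ℂ := fun χ => 1 / 3 + bet χ - χ / (2 * π) with hfc
  set fu : ℂ → ℂ := fun χ => ls (fb χ) - ls (fa χ) with hfu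
  have hq : Tendsto (fun χ : ℂ => χ / (2 * π)) (𝓝 0) (𝓝 0) := by
    have := (tendsto_id (x := 𝓝 (0 : ℂ))).div_const (2 * π : ℂ)
    simpa using this
  have ta : Tendsto fa (𝓝 0) (𝓝 (1 / 3)) := by
    have := ((bet_tend.const_add (1 / 3)).const_mul 2).const_sub 1
    have e : (1 : ℂ) - 2 * (1 / 3 + 0) = 1 / 3 := by norm_num
    rwa [e] at this
  have tb : Tendsto fb (𝓝 0) (𝓝 (1 / 3)) := by
    have := (bet_tend.const_add (1 / 3)).add hq
    have e : (1 : ℂ) / 3 + 0 + 0 = 1 / 3 := by norm_num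
    rwa [e] at this
  have tc : Tendsto fc (𝓝 0) (𝓝 (1 / 3)) := by
    have := (bet_tend.const_add (1 / 3)).sub hq
    have e : (1 : ℂ) / 3 + 0 - 0 = 1 / 3 := by norm_num
    rwa [e] at this
  have hlc : ContinuousAt ls (1 / 3) :=
    (ls_hasDerivAt (Bh_re third_mem).1 (Bh_re third_mem).2).continuousAt
  have tu : Tendsto fu (𝓝 0) (𝓝 0) := by
    have := (hlc.tendsto.comp tb).sub (hlc.tendsto.comp ta)
    rw [sub_self] at this
    exact this
  have hnear : ∀ {f : ℂ → ℂ} {w : ℂ}, Tendsto f (𝓝 0) (𝓝 w) → ∀ {ε : ℝ}, 0 < ε →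
      ∀ᶠ χ in 𝓝 0, ‖f χ - w‖ < ε := by
    intro f w hf ε hε
    have := Metric.tendsto_nhds.1 hf ε hε
    simpa [dist_eq_norm] using this
  filter_upwards [hnear ta (show (0 : ℝ) < 1 / 24 by norm_num), hnear tb (show (0 : ℝ) < 1 / 24 by norm_num),
    hnear tc (show (0 : ℝ) < 1 / 24 by norm_num), hnear tu (show (0 : ℝ) < 1 / 24 by norm_num), bet_crit,
    Gv_deriv (n := n), Bh_open.eventually_mem third_mem |> ta.eventually,
    Bh_open.eventually_mem third_mem |> tb.eventually,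
    Bh_open.eventually_mem third_mem |> tc.eventually] with χ na nb nc nu hcr hGd ma mb mc m hcrit
  have hre : ∀ {x : ℂ}, ‖x - 1 / 3‖ < 1 / 24 → |x.re - 1 / 3| < 1 / 24 := by
    intro x hx
    have h1 := (Complex.abs_re_le_norm (x - 1 / 3)).trans_lt hx
    have e : (x - 1 / 3).re = x.re - 1 / 3 := by
      rw [Complex.sub_re]; norm_num
    rwa [e] at h1
  have ra := hre na
  have rb := hre nb
  have rc := hre nc
  rw [abs_lt] at ra rb rc
  have ru : |(fu χ).im| < 1 / 24 := by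
    have h1 := (Complex.abs_im_le_norm (fu χ - 0)).trans_lt nu
    rwa [sub_zero] at h1
  rw [abs_lt] at ru
  have hls2 : ls (fa χ) = ls (2 * (1 / 3 + bet χ)) := ls_symm _
  have hcr' : 2 * ls (fa χ) = ls (fb χ) + ls (fc χ) := by
    rw [hls2]
    unfold Dd at hcr
    linear_combination hcr
  have hS : Shp (fa χ) (fb χ) (fc χ) (fu χ) := by
    refine ⟨ma, mb, mc, by linarith, by linarith, by linarith, ?_, ?_, ?_⟩
    · rw [hfa, hfb, hfc]; ring
    · rw [hfu]; ring
    · rw [hfu]; linear_combination -hcr'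
  have hpi4 : π < 4 := by have := Real.pi_lt_d2; linarith
  have hpi3 := Real.pi_gt_three
  have pos : ∀ {v : ℂ}, |v.im| < 1 / 24 → Shp.Pos (fa χ) (fb χ) (fc χ) v := by
    intro v hv
    rw [abs_lt] at hv
    have hm : ∀ {x : ℝ}, -(1 / 24) < x - 1 / 3 → x - 1 / 3 < 1 / 24 → 7 / 24 * π < π * x ∧ π * x < 9 / 24 * π := by
      intro x h1 h2
      constructor <;> nlinarith
    have pa := hm ra.1 ra.2
    have pb := hm rb.1 rb.2
    have pc := hm rc.1 rc.2
    refine ⟨?_, ?_, ?_⟩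
    · unfold tA; constructor <;> linarith [pa.1, pa.2]
    · unfold tB; constructor <;> linarith [pb.1, pb.2]
    · unfold tB; constructor <;> linarith [pc.1, pc.2]
  have hP1 := pos (v := fu χ) (abs_lt.2 ru)
  have hP2 := pos (v := -fu χ) (by rw [Complex.neg_im, abs_neg]; exact abs_lt.2 ru)
  have hχ : fb χ - fc χ = χ / π := by
    rw [hfb, hfc]
    field_simp
    ring
  have hu : 2 * n * fu χ = Complex.I * (m * χ + π) := by
    rw [hGd.deriv] at hcrit
    have e1 : ls (1 / 3 + bet χ + χ / (2 * π)) - ls (1 / 3 + bet χ - χ / (2 * π)) = 2 * fu χ := by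
      have : ls (fb χ) - ls (fc χ) = 2 * fu χ := by
        rw [hfu]; linear_combination hcr'
      exact this
    rw [e1] at hcrit
    field_simp at hcrit
    linear_combination -hcrit
  have hG : Gv n χ = -(2 * n * (FF (fa χ) + FF (fb χ) + FF (fc χ))) := by
    unfold Gv Qp
    simp only [Av_Up, Bv_Up, Xv_Up]
    rw [Finset.sum_const, card_univ, Fintype.card_fin, nsmul_eq_mul]
    unfold qt
    have hm2 : 2 * (1 / 3 + bet χ) ∈ Bh := by
      have := Bh_symm ma
      rw [hfa] at this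
      simpa using this
    have e1 : FF (fa χ) = -FF (2 * (1 / 3 + bet χ)) := FF_symm hm2
    rw [e1]
    have e2 : (1 / 3 + bet χ + (1 / 3 + bet χ)) = 2 * (1 / 3 + bet χ) := by ring
    rw [e2]
    show (n : ℂ) * (π * Complex.I * (1 / 3 + bet χ - (1 / 3 + bet χ)) * (1 / 3 + bet χ) +
      FF (2 * (1 / 3 + bet χ)) + FF (2 * (1 / 3 + bet χ)) - FF (fb χ) - FF (fc χ) - FF (fb χ) - FF (fc χ)) = _
    ring
  have hval := hS.value hχ hu
  refine ⟨_, _, _, _, _, _, hS.angC hP1 hP2 hχ hu, ?_, fun a b c a' b' c' h => hS.max hP1 hP2 hχ hu h⟩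
  rw [hS.volC_eq hP1 hP2 n, ← hval, hG]
  congr 2

/-- the main theorem -/
theorem main_geo (n : ℕ) [NeZero n] : ∃ C M : ℝ, 0 < C ∧ 0 < M ∧ ∀ m : ℤ, M ≤ |(m : ℝ)| →
    ∃ x y z x' y' z' : ℕ → ℝ, AngC n m x y z x' y' z' ∧
      (∀ a b c a' b' c' : ℕ → ℝ, AngC n m a b c a' b' c' →
        volC n a b c a' b' c' ≤ volC n x y z x' y' z') ∧
      |volC n x y z x' y' z' - 12 * n * lob (π / 3)| ≤ C / |(m : ℝ)| ∧
      Tendsto (fun N : ℕ => 2 * π * (Real.log ‖Pool.Agent.H550R3.Jones.cjones N 2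
        (Pool.Agent.Y472.ftw m ++ Pool.Agent.Y472.bw (wd n)) (Pool.Agent.W711.HT.vN N)‖ / N))
        atTop (𝓝 (volC n x y z x' y' z')) := by
  have hpi := Real.pi_pos
  obtain ⟨C, M, hC, hM, H⟩ := main_limit n
  obtain ⟨r, hr, hgeo⟩ := Metric.eventually_nhds_iff_ball.1 (geo n)
  refine ⟨2 * π * C, max M (C / r + 1), by positivity, lt_of_lt_of_le hM (le_max_left _ _), fun m hm => ?_⟩
  have hmM : M ≤ |(m : ℝ)| := (le_max_left _ _).trans hm
  have hm0 : 0 < |(m : ℝ)| := lt_of_lt_of_le hM hmM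
  obtain ⟨χ, -, hχn, hcrit, hval, hlim⟩ := H m hmM
  have hχr : χ ∈ Metric.ball (0 : ℂ) r := by
    rw [mem_ball_zero_iff]
    refine hχn.trans_lt ?_
    have h1 : C / r + 1 ≤ |(m : ℝ)| := (le_max_right _ _).trans hm
    have h2 : C / r < |(m : ℝ)| := by linarith
    rw [div_lt_iff₀ hr] at h2
    rw [div_lt_iff₀ hm0]
    linarith
  obtain ⟨x, y, z, x', y', z', h1, h2, h3⟩ := hgeo χ hχr m hcrit
  refine ⟨x, y, z, x', y', z', h1, h3, ?_, ?_⟩
  · rw [h2]
    have h4 := Complex.abs_re_le_norm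
      (Complex.I * m * χ ^ 2 / (2 * π) + Complex.I * χ + Gv n χ - Gv n 0)
    rw [Complex.sub_re, Gv_zero_re] at h4
    have h5 := h4.trans hval
    have e : 2 * π * (Complex.I * m * χ ^ 2 / (2 * π) + Complex.I * χ + Gv n χ).re - 12 * n * lob (π / 3) =
        2 * π * ((Complex.I * m * χ ^ 2 / (2 * π) + Complex.I * χ + Gv n χ).re - G0 n) := by
      unfold G0
      field_simp
      ring
    rw [e, abs_mul, abs_of_pos (by positivity)]
    refine (mul_le_mul_of_nonneg_left h5 (by positivity)).trans (le_of_eq ?_)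
    ring
  · rw [h2]
    exact hlim.const_mul (2 * π)

end Run7.h260.VC
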