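import Pool.Agent.Run7.h260.VC.P7
import Pool.Agent.Y941.TK.Exa
import Pool.Agent.W346.HT.Asm

/-!
# The terms of the sum over configurations
-/

set_option autoImplicit false

namespace Run7.h260.VC

open Filter Topology Metric Finset Pool.Agent.W711.HT Pool.Agent.Y472 Pool.Agent.Y472.K
open scoped Real

/-- the middle factor -/
noncomputable def Md (N : ℕ) (χ : ℂ) : ℂ :=
  ∏ s ∈ Ioc ((N - 1) / 2) (N - 1 - (N - 1) / 2), (2 * Complex.cos χ - 2 * (Real.cos (2 * π * s / N) : ℂ))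

lemma Md_odd {N : ℕ} (h : ¬ Even N) (χ : ℂ) : Md N χ = 1 := by
  unfold Md
  have : N - 1 - (N - 1) / 2 = (N - 1) / 2 := by
    rw [Nat.not_even_iff_odd] at h
    obtain ⟨k, rfl⟩ := h
    omega
  rw [this, Ioc_self, prod_empty]

lemma Md_even {N : ℕ} (hN : 0 < N) (h : Even N) (χ : ℂ) : Md N χ = 2 * Complex.cos χ + 2 := by
  unfold Md
  obtain ⟨k, rfl⟩ := h
  have h1 : (k + k - 1) / 2 = k - 1 := by omega
  have h2 : k + k - 1 - (k - 1) = (k - 1) + 1 := by omega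
  rw [h1, h2, Finset.prod_Ioc_succ_top (le_refl _), Ioc_self, prod_empty, one_mul]
  have h3 : ((k - 1 + 1 : ℕ) : ℝ) = k := by
    have : k - 1 + 1 = k := by omega
    rw [this]
  rw [h3]
  have hk : (k : ℝ) ≠ 0 := by
    have : k ≠ 0 := by omega
    exact_mod_cast this
  have h4 : 2 * π * (k : ℝ) / ((k + k : ℕ) : ℝ) = π := by
    push_cast
    field_simp
    ring
  rw [h4, Real.cos_pi]
  push_cast
  ring

lemma Sd_Pn {N d : ℕ} (hd : d ≤ (N - 1) / 2) :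
    (Sd N d : ℂ) * Pn N d 0 = Sd N ((N - 1) / 2) := by
  unfold Pn
  have key : ∀ m, d ≤ m → (Sd N d : ℂ) *
      ∏ t ∈ Ioc d m, (2 * Complex.sin (π * ((t : ℂ) / N + 0))) = Sd N m := by
    intro m hm
    induction m, hm using Nat.le_induction with
    | base => rw [Ioc_self, prod_empty, mul_one]
    | succ m hm ih =>
      rw [Finset.prod_Ioc_succ_top (by omega), ← mul_assoc, ih, Pool.Agent.Y941.TK.Sd_succ']
      push_cast
      rw [add_zero, mul_div_assoc]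
  exact key _ hd

lemma inv_Sd {N d : ℕ} (hd : d ≤ (N - 1) / 2) (hN : 0 < N) :
    ((Sd N d : ℂ))⁻¹ = Pn N d 0 / Sd N ((N - 1) / 2) := by
  have h1 := Pool.Agent.Y941.TK.Sd_ne (N := N) (d := d) (by omega)
  have h2 := Pool.Agent.Y941.TK.Sd_ne (N := N) (d := (N - 1) / 2) (by omega)
  rw [← Sd_Pn hd]
  rw [← Sd_Pn hd] at h2
  have h3 := right_ne_zero_of_mul h2
  rw [div_mul_eq_div_div_swap, div_self h3, one_div]

lemma fac_eq (t ξ : ℂ) : 2 * Complex.cos (2 * π * ξ) - 2 * Complex.cos (2 * π * t) =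
    (2 * Complex.sin (π * (t + ξ))) * (2 * Complex.sin (π * (t + -ξ))) := by
  rw [← mul_sub, Complex.cos_sub_cos]
  have e1 : (2 * π * ξ + 2 * π * t) / 2 = π * (t + ξ) := by ring
  have e2 : (2 * π * ξ - 2 * π * t) / 2 = -(π * (t + -ξ)) := by ring
  rw [e1, e2, Complex.sin_neg]
  ring

lemma Pn_pair (N d : ℕ) (ξ : ℂ) : Pn N d ξ * Pn N d (-ξ) =
    ∏ t ∈ Ioc d ((N - 1) / 2), (2 * Complex.cos (2 * π * ξ) - 2 * (Real.cos (2 * π * t / N) : ℂ)) := by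
  unfold Pn
  rw [← prod_mul_distrib]
  refine prod_congr rfl fun t _ => ?_
  have : ((Real.cos (2 * π * t / N) : ℝ) : ℂ) = Complex.cos (2 * π * ((t : ℂ) / N)) := by
    push_cast
    congr 1
    ring
  rw [this, fac_eq]

lemma Pq_eq {N j a : ℕ} (hj : j ≤ (N - 1) / 2) (ha : a ≤ (N - 1) / 2) (hN : 0 < N) (ξ : ℂ) :
    Pq N j (N - 1 - a) (2 * π * ξ) =
      Md N (2 * π * ξ) * (Pn N j ξ * Pn N j (-ξ)) * (Pn N a ξ * Pn N a (-ξ)) := by
  unfold Pq Md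
  rw [Pn_pair, Pn_pair]
  have h1 : (N - 1) / 2 ≤ N - 1 - (N - 1) / 2 := by omega
  have h2 : N - 1 - (N - 1) / 2 ≤ N - 1 - a := by omega
  rw [← Finset.prod_Ioc_consecutive _ (hj.trans h1) h2, ← Finset.prod_Ioc_consecutive _ hj h1]
  have h3 : ∏ s ∈ Ioc (N - 1 - (N - 1) / 2) (N - 1 - a),
      (2 * Complex.cos (2 * π * ξ) - 2 * (Real.cos (2 * π * s / N) : ℂ)) =
      ∏ t ∈ Ioc a ((N - 1) / 2), (2 * Complex.cos (2 * π * ξ) - 2 * (Real.cos (2 * π * t / N) : ℂ)) := by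
    refine Finset.prod_nbij' (fun s => N - s) (fun t => N - t) ?_ ?_ ?_ ?_ ?_
    · intro s hs
      rw [mem_Ioc] at hs ⊢
      omega
    · intro s hs
      rw [mem_Ioc] at hs ⊢
      omega
    · intro s hs
      rw [mem_Ioc] at hs
      omega
    · intro s hs
      rw [mem_Ioc] at hs
      omega
    · intro s hs
      rw [mem_Ioc] at hs
      have hs' : s ≤ N := by omega
      have hN' : (N : ℝ) ≠ 0 := by exact_mod_cast hN.ne'
      have e : 2 * π * ((N - s : ℕ) : ℝ) / N = 2 * π - 2 * π * s / N := by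
        rw [Nat.cast_sub hs']
        field_simp
      rw [e, Real.cos_two_pi_sub]
  rw [h3]
  ring

variable {n : ℕ}

lemma pt_Av {T : Finset (Ix n)} {N : ℕ} {d : Ix n → ℕ} {x : Ix n → ℂ} {r : Fin n} (h : ai r ∈ T) :
    Av (pt (1 / 3) T N d x) r = (d (ai r) : ℂ) / N := by
  unfold Av pt
  rw [if_pos h]
  push_cast
  ring

lemma pt_Bv {T : Finset (Ix n)} {N : ℕ} {d : Ix n → ℕ} {x : Ix n → ℂ} {r : Fin n} (h : bi r ∈ T) :
    Bv (pt (1 / 3) T N d x) r = (d (bi r) : ℂ) / N := by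
  unfold Bv pt
  rw [if_pos h]
  push_cast
  ring

lemma pt_Xv {T : Finset (Ix n)} {N : ℕ} {d : Ix n → ℕ} {x : Ix n → ℂ} (h : none ∉ T) :
    Xv (pt (1 / 3) T N d x) = x none / (2 * π) := by
  unfold Xv pt
  rw [if_neg h]

/-- one term of the sum -/
lemma term_eq {ρ : ℝ} {mm D : ℕ → ℕ} {N : ℕ} (hN : 0 < N)
    (hI : ∀ d : ℕ, |(d : ℝ) / N - 1 / 3| < ρ → ∀ ξ ∈ ball (0 : ℂ) ρ,
      Pn N d ξ = Wn N (mm N) (D N) ((d : ℂ) / N) ξ) (hρ : 0 < ρ)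
    {i i' j a a' : ℕ} (ha : a ≤ (N - 1) / 2) (ha' : a' ≤ (N - 1) / 2) (hj : j ≤ (N - 1) / 2)
    (hi : i = N - 1 - a) (hi' : i' = N - 1 - a') (h1 : i - j ≤ (N - 1) / 2) (h2 : i' - j ≤ (N - 1) / 2)
    (h1' : j ≤ i) (h2' : j ≤ i')
    (c1 : |((i - j : ℕ) : ℝ) / N - 1 / 3| < ρ) (c2 : |((i' - j : ℕ) : ℝ) / N - 1 / 3| < ρ)
    (c3 : |(a : ℝ) / N - 1 / 3| < ρ) (c4 : |(a' : ℝ) / N - 1 / 3| < ρ) (c5 : |(j : ℝ) / N - 1 / 3| < ρ)
    {ξ : ℂ} (hξ : ξ ∈ ball (0 : ℂ) ρ) :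
    vN N ^ (((i : ℤ) - i') * j) / ((Sd N (i - j) : ℂ) * (Sd N (i' - j) : ℂ)) *
      Pq N j i' (2 * π * ξ) * (Wn N (mm N) (D N) ((a : ℂ) / N) ξ * Wn N (mm N) (D N) ((a : ℂ) / N) (-ξ)) =
    Md N (2 * π * ξ) / (Sd N ((N - 1) / 2) : ℂ) ^ 2 *
      ft mm D N ((a : ℂ) / N) ((a' : ℂ) / N) ((j : ℂ) / N) ξ *
      (Wn N (mm N) (D N) ((a' : ℂ) / N) ξ * Wn N (mm N) (D N) ((a' : ℂ) / N) (-ξ)) := by
  have hξ' : -ξ ∈ ball (0 : ℂ) ρ := by
    rw [mem_ball_zero_iff] at *; rwa [norm_neg]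
  have h0 : (0 : ℂ) ∈ ball (0 : ℂ) ρ := mem_ball_self hρ
  have hNC : (N : ℂ) ≠ 0 := by exact_mod_cast hN.ne'
  unfold ft
  have k1 : (1 : ℂ) - 1 / N - (a : ℂ) / N - (j : ℂ) / N = ((i - j : ℕ) : ℂ) / N := by
    rw [Nat.cast_sub h1', hi, show N - 1 - a = N - (1 + a) by omega, Nat.cast_sub (by omega)]
    push_cast
    field_simp
    ring
  have k2 : (1 : ℂ) - 1 / N - (a' : ℂ) / N - (j : ℂ) / N = ((i' - j : ℕ) : ℂ) / N := by
    rw [Nat.cast_sub h2', hi', show N - 1 - a' = N - (1 + a') by omega, Nat.cast_sub (by omega)]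
    push_cast
    field_simp
    ring
  rw [k1, k2, ← hI _ c1 0 h0, ← hI _ c2 0 h0, ← hI _ c3 ξ hξ, ← hI _ c3 (-ξ) hξ', ← hI _ c4 ξ hξ,
    ← hI _ c4 (-ξ) hξ', ← hI _ c5 ξ hξ, ← hI _ c5 (-ξ) hξ']
  have k3 : vN N ^ (((i : ℤ) - i') * j) =
      Complex.exp (N * (π * Complex.I * ((a' : ℂ) / N - (a : ℂ) / N) * ((j : ℂ) / N))) := by
    unfold vN
    rw [← Complex.exp_int_mul]
    congr 1
    have e1 : (i : ℤ) = (N : ℤ) - 1 - a := by omega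
    have e2 : (i' : ℤ) = (N : ℤ) - 1 - a' := by omega
    rw [e1, e2]
    push_cast
    field_simp
    ring
  have k4 := Pq_eq (ξ := ξ) hj ha' hN
  rw [← hi'] at k4
  rw [k3, k4]
  set E := Complex.exp (N * (π * Complex.I * ((a' : ℂ) / N - (a : ℂ) / N) * ((j : ℂ) / N)))
  have k5 : E / ((Sd N (i - j) : ℂ) * (Sd N (i' - j) : ℂ)) =
      E * (Pn N (i - j) 0 / Sd N ((N - 1) / 2)) * (Pn N (i' - j) 0 / Sd N ((N - 1) / 2)) := by
    rw [← inv_Sd h1 hN, ← inv_Sd h2 hN]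
    rw [div_eq_mul_inv, mul_inv, mul_assoc]
  rw [k5]
  have h3 := Pool.Agent.Y941.TK.Sd_ne (N := N) (d := (N - 1) / 2) (by omega)
  field_simp

end Run7.h260.VC
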