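import Pool.Agent.Run7.h260.VC.N1

/-!
# The sum over the configurations near the maximum
-/

set_option autoImplicit false

namespace Run7.h260.VC

open Filter Topology Metric Finset Pool.Agent.W711.HT Pool.Agent.Y472 Pool.Agent.Y472.K
open scoped Real

variable {n : ℕ}

open Classical in
/-- configurations near the maximum -/
noncomputable def NC (n : ℕ) [NeZero n] (ρ : Ix n → ℝ) (N : ℕ) : Finset ((Fin n → ℕ) × (Fin n → ℕ)) :=
  (cfg n N).filter fun c => ∀ r, N - 1 - c.1 r ∈ Ws (1 / 3) (ρ (ai r)) N ∧ c.2 r ∈ Ws (1 / 3) (ρ (bi r)) N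

lemma mem_cfg [NeZero n] {N : ℕ} {c : (Fin n → ℕ) × (Fin n → ℕ)} : c ∈ cfg n N ↔ Ok n N c.1 c.2 := by
  unfold cfg
  simp only [mem_filter, mem_product, Fintype.mem_piFinset]
  constructor
  · rintro ⟨_, h⟩; exact h
  · intro h
    refine ⟨⟨fun r => mem_range.2 (h.lt r), fun r => mem_range.2 ?_⟩, h⟩
    exact lt_of_le_of_lt (h.le r) (h.lt r)

lemma ai_mem (r : Fin n) : ai r ∈ Sv n := by
  unfold Sv ai
  simp
lemma bi_mem (r : Fin n) : bi r ∈ Sv n := by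
  unfold Sv bi
  simp
lemma none_mem : (none : Ix n) ∉ Sv n := by
  unfold Sv
  simp

/-- one configuration -/
lemma cfg_term [NeZero n] {ρ₀ : ℝ} {mm D : ℕ → ℕ} {N : ℕ} (hN : 1000 ≤ N)
    (hm : 3 / 10 + 1 / 200 ≤ (mm N : ℝ) / N)
    (hI : ∀ d : ℕ, |(d : ℝ) / N - 1 / 3| < ρ₀ → ∀ ξ ∈ ball (0 : ℂ) ρ₀,
      Pn N d ξ = Wn N (mm N) (D N) ((d : ℂ) / N) ξ) (hρ : 0 < ρ₀) (hρ2 : ρ₀ < 1 / 800)
    (hNρ : 1 / (N : ℝ) < ρ₀ / 4) {a b : Fin n → ℕ} (ha : ∀ r, |(a r : ℝ) / N - 1 / 3| < ρ₀ / 4)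
    (hb : ∀ r, |(b r : ℝ) / N - 1 / 3| < ρ₀ / 4) {ξ : ℂ} (hξ : ξ ∈ ball (0 : ℂ) ρ₀) :
    Ok n N (fun r => N - 1 - a r) b ∧
    co n N (fun r => N - 1 - a r) b * Qc n N (fun r => N - 1 - a r) b (2 * π * ξ) =
      (Md N (2 * π * ξ) / (Sd N ((N - 1) / 2) : ℂ) ^ 2) ^ n *
        ∏ r, ft mm D N ((a r : ℂ) / N) ((a (r + 1) : ℂ) / N) ((b r : ℂ) / N) ξ := by
  have hN0 : 0 < N := by omega
  have hN' : (0 : ℝ) < N := by exact_mod_cast hN0
  have hN1 : (1000 : ℝ) ≤ N := by exact_mod_cast hN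
  have rng : ∀ {d : ℕ}, |(d : ℝ) / N - 1 / 3| < ρ₀ / 4 → 3 * d < N + N / 100 ∧ N < 3 * d + N / 100 := by
    intro d hd
    rw [abs_lt, lt_sub_iff_add_lt, sub_lt_iff_lt_add, lt_div_iff₀ hN', div_lt_iff₀ hN'] at hd
    have h1 : 100 * (3 * (d : ℝ)) + 100 ≤ 101 * N := by nlinarith
    have h2 : 100 * (N : ℝ) + 100 ≤ 100 * (3 * d) + N := by nlinarith
    have h1' : 100 * (3 * d) + 100 ≤ 101 * N := by exact_mod_cast h1
    have h2' : 100 * N + 100 ≤ 100 * (3 * d) + N := by exact_mod_cast h2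
    constructor <;> omega
  have hok : Ok n N (fun r => N - 1 - a r) b := by
    refine ⟨fun r => ?_, fun r => ?_, fun r => ?_⟩
    · show N - 1 - a r < N
      omega
    · show b r ≤ N - 1 - a r
      have := rng (ha r)
      have := rng (hb r)
      omega
    · show b r ≤ N - 1 - a (r + 1)
      have := rng (ha (r + 1))
      have := rng (hb r)
      omega
  refine ⟨hok, ?_⟩
  have hW : ∀ (z : ℂ), Wn N (mm N) (D N) z ξ * Wn N (mm N) (D N) z (-ξ) ≠ 0 := by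
    intro z
    rw [mem_ball_zero_iff] at hξ
    exact mul_ne_zero (Wn_ne (by omega) hm (by linarith)) (Wn_ne (by omega) hm (by rw [norm_neg]; linarith))
  have key : ∀ r : Fin n, (vN N ^ (((((fun r => N - 1 - a r) r : ℕ) : ℤ) - ((fun r => N - 1 - a r) (r + 1) : ℕ)) * b r) /
      ((Sd N ((fun r => N - 1 - a r) r - b r) : ℂ) * (Sd N ((fun r => N - 1 - a r) (r + 1) - b r) : ℂ)) *
      Pq N (b r) ((fun r => N - 1 - a r) (r + 1)) (2 * π * ξ)) *
      (Wn N (mm N) (D N) ((a r : ℂ) / N) ξ * Wn N (mm N) (D N) ((a r : ℂ) / N) (-ξ)) =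
      Md N (2 * π * ξ) / (Sd N ((N - 1) / 2) : ℂ) ^ 2 *
      ft mm D N ((a r : ℂ) / N) ((a (r + 1) : ℂ) / N) ((b r : ℂ) / N) ξ *
      (Wn N (mm N) (D N) ((a (r + 1) : ℂ) / N) ξ * Wn N (mm N) (D N) ((a (r + 1) : ℂ) / N) (-ξ)) := by
    intro r
    have q1 := rng (ha r)
    have q2 := rng (ha (r + 1))
    have q3 := rng (hb r)
    have cl : ∀ s : Fin n, b r ≤ N - 1 - a s → |((N - 1 - a s - b r : ℕ) : ℝ) / N - 1 / 3| < ρ₀ := by
      intro s hs
      have p1 := ha s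
      have p2 := hb r
      have q4 := rng (ha s)
      rw [Nat.cast_sub hs, show N - 1 - a s = N - (1 + a s) by omega, Nat.cast_sub (by omega)]
      have e : (((N : ℝ) - ((1 + a s : ℕ) : ℝ)) - b r) / N - 1 / 3 =
          -((a s : ℝ) / N - 1 / 3) - ((b r : ℝ) / N - 1 / 3) - 1 / N := by
        push_cast
        field_simp
        ring
      rw [e]
      rw [abs_lt] at p1 p2 ⊢
      have : 0 < 1 / (N : ℝ) := by positivity
      constructor <;> linarith [p1.1, p1.2, p2.1, p2.2]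
    have b1 : |(a r : ℝ) / N - 1 / 3| < ρ₀ := (ha r).trans (by linarith)
    have b2 : |(a (r + 1) : ℝ) / N - 1 / 3| < ρ₀ := (ha (r + 1)).trans (by linarith)
    have b3 : |(b r : ℝ) / N - 1 / 3| < ρ₀ := (hb r).trans (by linarith)
    exact term_eq hN0 hI hρ (by omega) (by omega) (by omega) rfl rfl (by show N - 1 - a r - b r ≤ _; omega)
      (by show N - 1 - a (r + 1) - b r ≤ _; omega) (hok.le r) (hok.le' r) (cl r (hok.le r))
      (cl (r + 1) (hok.le' r)) b1 b2 b3 hξ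
  set Wf : Fin n → ℂ := fun r => Wn N (mm N) (D N) ((a r : ℂ) / N) ξ *
    Wn N (mm N) (D N) ((a r : ℂ) / N) (-ξ) with hWf
  set Tf : Fin n → ℂ := fun r => (vN N ^ (((((fun r => N - 1 - a r) r : ℕ) : ℤ) - ((fun r => N - 1 - a r) (r + 1) : ℕ)) * b r) /
      ((Sd N ((fun r => N - 1 - a r) r - b r) : ℂ) * (Sd N ((fun r => N - 1 - a r) (r + 1) - b r) : ℂ)) *
      Pq N (b r) ((fun r => N - 1 - a r) (r + 1)) (2 * π * ξ)) with hTf
  set Gf : Fin n → ℂ := fun r => ft mm D N ((a r : ℂ) / N) ((a (r + 1) : ℂ) / N) ((b r : ℂ) / N) ξ with hGf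
  set K : ℂ := Md N (2 * π * ξ) / (Sd N ((N - 1) / 2) : ℂ) ^ 2 with hK
  have key' : ∀ r, Tf r * Wf r = K * Gf r * Wf (r + 1) := key
  have hprod : (∏ r, Tf r) * ∏ r, Wf r = (K ^ n * ∏ r, Gf r) * ∏ r, Wf (r + 1) := by
    rw [← Finset.prod_mul_distrib, Finset.prod_congr rfl fun r _ => key' r, Finset.prod_mul_distrib,
      Finset.prod_mul_distrib, Finset.prod_const, card_univ, Fintype.card_fin]
  have hshift : ∏ r : Fin n, Wf (r + 1) = ∏ r : Fin n, Wf r :=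
    Equiv.prod_comp (Equiv.addRight (1 : Fin n)) Wf
  rw [hshift] at hprod
  have hne : ∏ r : Fin n, Wf r ≠ 0 := Finset.prod_ne_zero_iff.2 fun r _ => hW _
  have h2 := mul_right_cancel₀ hne hprod
  unfold co Qc
  rw [← Finset.prod_mul_distrib]
  exact h2

/-- the sum over the configurations near the maximum -/
lemma near_sum [NeZero n] {ρ₀ : ℝ} {mm D : ℕ → ℕ} {N : ℕ} (hN : 1000 ≤ N)
    (hm : 3 / 10 + 1 / 200 ≤ (mm N : ℝ) / N)
    (hI : ∀ d : ℕ, |(d : ℝ) / N - 1 / 3| < ρ₀ → ∀ ξ ∈ ball (0 : ℂ) ρ₀,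
      Pn N d ξ = Wn N (mm N) (D N) ((d : ℂ) / N) ξ) (hρ : 0 < ρ₀) (hρ2 : ρ₀ < 1 / 800)
    (hNρ : 1 / (N : ℝ) < ρ₀ / 4) {ρ : Ix n → ℝ} (hr : ∀ i, ρ i < ρ₀ / 4) {x : Ix n → ℂ}
    (hx : x none / (2 * π) ∈ ball (0 : ℂ) ρ₀) :
    ∑ c ∈ NC n ρ N, co n N c.1 c.2 * Qc n N c.1 c.2 (x none) =
      (Md N (x none) / (Sd N ((N - 1) / 2) : ℂ) ^ 2) ^ n * ST (1 / 3) ρ (Sv n) (f0 n mm D) N x := by
  have hN0 : 0 < N := by omega
  have hN' : (0 : ℝ) < N := by exact_mod_cast hN0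
  have hπ : (2 * π : ℂ) ≠ 0 := by
    have : (π : ℂ) ≠ 0 := by exact_mod_cast Real.pi_ne_zero
    simp
  have hxe : 2 * π * (x none / (2 * π)) = x none := by field_simp
  have win : ∀ {d : ℕ} {i : Ix n}, d ∈ Ws (1 / 3) (ρ i) N → |(d : ℝ) / N - 1 / 3| < ρ₀ / 4 := by
    intro d i hd
    rw [ws_mem hN0] at hd
    have := hr i
    rw [abs_lt]
    constructor <;> linarith [hd.1, hd.2]
  unfold ST
  rw [mul_sum]
  symm
  refine Finset.sum_nbij' (fun d => (fun r => N - 1 - d (ai r), fun r => d (bi r)))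
    (fun c i => match i with
      | none => 0
      | some (Sum.inl r) => N - 1 - c.1 r
      | some (Sum.inr r) => c.2 r) ?_ ?_ ?_ ?_ ?_
  · intro d hd
    rw [Cf_mem] at hd
    have ha : ∀ r : Fin n, |((d (ai r) : ℕ) : ℝ) / N - 1 / 3| < ρ₀ / 4 := fun r =>
      win ((hd (ai r)).1 (ai_mem r))
    have hb : ∀ r : Fin n, |((d (bi r) : ℕ) : ℝ) / N - 1 / 3| < ρ₀ / 4 := fun r =>
      win ((hd (bi r)).1 (bi_mem r))
    have h1 := (cfg_term hN hm hI hρ hρ2 hNρ ha hb hx).1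
    unfold NC
    simp only [mem_filter, mem_cfg]
    refine ⟨h1, fun r => ⟨?_, (hd (bi r)).1 (bi_mem r)⟩⟩
    show N - 1 - (N - 1 - d (ai r)) ∈ _
    have h2 : d (ai r) ≤ N - 1 := by
      have h3 := ha r
      rw [abs_lt] at h3
      have h4 : ((d (ai r) : ℕ) : ℝ) / N < 1 / 2 := by linarith [h3.2]
      rw [div_lt_iff₀ hN'] at h4
      have h5 : (2 : ℝ) * (d (ai r) : ℕ) < N := by linarith
      have h6 : 2 * d (ai r) < N := by exact_mod_cast h5
      omega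
    rw [show N - 1 - (N - 1 - d (ai r)) = d (ai r) by omega]
    exact (hd (ai r)).1 (ai_mem r)
  · intro c hc
    unfold NC at hc
    simp only [mem_filter] at hc
    rw [Cf_mem]
    intro i
    match i with
    | none => exact ⟨fun h => absurd h none_mem, fun _ => rfl⟩
    | some (Sum.inl r) => exact ⟨fun _ => (hc.2 r).1, fun h => absurd (ai_mem r) h⟩
    | some (Sum.inr r) => exact ⟨fun _ => (hc.2 r).2, fun h => absurd (bi_mem r) h⟩
  · intro d hd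
    rw [Cf_mem] at hd
    funext i
    match i with
    | none => exact ((hd none).2 none_mem).symm
    | some (Sum.inl r) =>
      show N - 1 - (N - 1 - d (ai r)) = d (ai r)
      have h3 := win ((hd (ai r)).1 (ai_mem r))
      rw [abs_lt] at h3
      have h4 : ((d (ai r) : ℕ) : ℝ) / N < 1 / 2 := by linarith [h3.2]
      rw [div_lt_iff₀ hN'] at h4
      have h5 : (2 : ℝ) * (d (ai r) : ℕ) < N := by linarith
      have h6 : 2 * d (ai r) < N := by exact_mod_cast h5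
      omega
    | some (Sum.inr r) => rfl
  · intro c hc
    unfold NC at hc
    simp only [mem_filter, mem_cfg] at hc
    refine Prod.ext ?_ ?_
    · funext r
      show N - 1 - (N - 1 - c.1 r) = c.1 r
      have := hc.1.lt r
      omega
    · funext r
      rfl
  · intro d hd
    rw [Cf_mem] at hd
    have ha : ∀ r : Fin n, |((d (ai r) : ℕ) : ℝ) / N - 1 / 3| < ρ₀ / 4 := fun r =>
      win ((hd (ai r)).1 (ai_mem r))
    have hb : ∀ r : Fin n, |((d (bi r) : ℕ) : ℝ) / N - 1 / 3| < ρ₀ / 4 := fun r =>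
      win ((hd (bi r)).1 (bi_mem r))
    have h1 := (cfg_term hN hm hI hρ hρ2 hNρ ha hb hx).2
    rw [hxe] at h1
    show _ = co n N (fun r => N - 1 - d (ai r)) (fun r => d (bi r)) *
      Qc n N (fun r => N - 1 - d (ai r)) (fun r => d (bi r)) (x none)
    rw [h1]
    congr 1
    unfold f0
    refine Finset.prod_congr rfl fun r _ => ?_
    rw [pt_Av (ai_mem r), pt_Av (ai_mem (r + 1)), pt_Bv (bi_mem r), pt_Xv none_mem]

end Run7.h260.VC
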