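import Pool.Agent.Y681.TK.Fin
import Pool.Agent.Y813.TK.Ineq
import Pool.Agent.W366.HT.Int

/-!
# The function `∫ log (2 sin π z) dz`
-/

set_option autoImplicit false

namespace Run7.h260.VC

open Filter Topology Metric Function MeasureTheory
open Pool.Agent.Y472.K (Lc)
open scoped Real

/-- `log (2 sin π z)` -/
noncomputable def ls (z : ℂ) : ℂ := Complex.log (2 * Complex.sin (π * z))

lemma sin_re_pos {z : ℂ} (h0 : 0 < z.re) (h1 : z.re < 1) : 0 < (Complex.sin (π * z)).re := by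
  have h2 : (π * z : ℂ) = ((π * z.re : ℝ) : ℂ) + ((π * z.im : ℝ) : ℂ) * Complex.I := by
    apply Complex.ext <;> simp
  rw [h2, Complex.sin_add_mul_I]
  have h3 : (Complex.sin ((π * z.re : ℝ) : ℂ) * Complex.cosh ((π * z.im : ℝ) : ℂ) +
      Complex.cos ((π * z.re : ℝ) : ℂ) * Complex.sinh ((π * z.im : ℝ) : ℂ) * Complex.I).re =
      Real.sin (π * z.re) * Real.cosh (π * z.im) := by
    rw [← Complex.ofReal_sin, ← Complex.ofReal_cosh, ← Complex.ofReal_cos, ← Complex.ofReal_sinh]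
    simp only [Complex.add_re, Complex.mul_re, Complex.mul_im, Complex.ofReal_re, Complex.ofReal_im,
      Complex.I_re, Complex.I_im]
    ring
  rw [h3]
  have h4 : 0 < Real.sin (π * z.re) := by
    apply Real.sin_pos_of_pos_of_lt_pi
    · positivity
    · nlinarith [Real.pi_pos]
  have := Real.cosh_pos (π * z.im)
  positivity

lemma sin_re_pos' {z : ℂ} (h0 : 0 < z.re) (h1 : z.re < 1) : 0 < (2 * Complex.sin (π * z)).re := by
  have := sin_re_pos h0 h1
  have h : (2 * Complex.sin (π * z)).re = 2 * (Complex.sin (π * z)).re := by simp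
  rw [h]
  positivity

lemma ls_exp {z : ℂ} (h0 : 0 < z.re) (h1 : z.re < 1) : Complex.exp (ls z) = 2 * Complex.sin (π * z) := by
  unfold ls
  rw [Complex.exp_log]
  intro h
  have := sin_re_pos' h0 h1
  rw [h] at this
  simp at this

lemma ls_hasDerivAt {z : ℂ} (h0 : 0 < z.re) (h1 : z.re < 1) :
    HasDerivAt ls (π * Complex.cot (π * z)) z := by
  have h2 := sin_re_pos' h0 h1
  have h3 : HasDerivAt (fun z : ℂ => 2 * Complex.sin (π * z)) (2 * (Complex.cos (π * z) * π)) z := by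
    have h4 : HasDerivAt (fun z : ℂ => (π : ℂ) * z) π z := by
      simpa using (hasDerivAt_id z).const_mul (π : ℂ)
    exact (h4.csin).const_mul 2
  have h5 := h3.clog (Or.inl h2)
  have h6 : 2 * (Complex.cos (π * z) * π) / (2 * Complex.sin (π * z)) = π * Complex.cot (π * z) := by
    rw [Complex.cot]
    have : Complex.sin (π * z) ≠ 0 := by
      intro h
      have := sin_re_pos h0 h1
      rw [h] at this
      simp at this
    field_simp
  rw [h6] at h5
  exact h5

lemma ls_analytic {z : ℂ} (h0 : 0 < z.re) (h1 : z.re < 1) : AnalyticAt ℂ ls z := by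
  unfold ls
  refine AnalyticAt.clog ?_ (Or.inl (sin_re_pos' h0 h1))
  fun_prop

lemma ls_real (x : ℝ) (h0 : 0 < x) (h1 : x < 1) :
    ls x = ((Real.log (2 * Real.sin (π * x)) : ℝ) : ℂ) := by
  have h : (2 * Complex.sin (π * x) : ℂ) = ((2 * Real.sin (π * x) : ℝ) : ℂ) := by push_cast; rfl
  unfold ls
  have h4 : 0 < Real.sin (π * x) := by
    apply Real.sin_pos_of_pos_of_lt_pi
    · positivity
    · nlinarith [Real.pi_pos]
  rw [h, Complex.ofReal_log (by positivity)]

lemma ls_symm (z : ℂ) : ls (1 - z) = ls z := by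
  unfold ls
  congr 2
  rw [show (π * (1 - z) : ℂ) = π - π * z by ring, Complex.sin_pi_sub]

/-- the disk -/
def Bh : Set ℂ := ball (1 / 2 : ℂ) (1 / 2)

lemma Bh_re {z : ℂ} (h : z ∈ Bh) : 0 < z.re ∧ z.re < 1 := by
  unfold Bh at h
  rw [mem_ball, dist_eq_norm] at h
  have h1 := (Complex.abs_re_le_norm (z - 1 / 2)).trans_lt h
  have h2 : (z - 1 / 2).re = z.re - 1 / 2 := by simp
  rw [h2, abs_lt] at h1
  constructor <;> linarith

lemma exists_FF : ∃ F : ℂ → ℂ, F (1 / 2) = 0 ∧ ∀ z ∈ Bh, HasDerivAt F (ls z) z := by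
  have h : DifferentiableOn ℂ ls Bh := fun z hz =>
    (ls_hasDerivAt (Bh_re hz).1 (Bh_re hz).2).differentiableAt.differentiableWithinAt
  exact h.isExactOn_ball.with_val_at (1 / 2) 0

/-- the primitive -/
noncomputable def FF : ℂ → ℂ := exists_FF.choose

lemma FF_half : FF (1 / 2) = 0 := exists_FF.choose_spec.1

lemma FF_deriv {z : ℂ} (h : z ∈ Bh) : HasDerivAt FF (ls z) z := exists_FF.choose_spec.2 z h

lemma Bh_open : IsOpen Bh := isOpen_ball

lemma FF_analytic {z : ℂ} (h : z ∈ Bh) : AnalyticAt ℂ FF z := by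
  have : DifferentiableOn ℂ FF Bh := fun w hw => (FF_deriv hw).differentiableAt.differentiableWithinAt
  exact this.analyticAt (Bh_open.mem_nhds h)

lemma Bh_real {x : ℝ} (h0 : 0 < x) (h1 : x < 1) : (x : ℂ) ∈ Bh := by
  unfold Bh
  rw [mem_ball, dist_eq_norm]
  have e : (x : ℂ) - 1 / 2 = ((x - 1 / 2 : ℝ) : ℂ) := by push_cast; ring
  rw [e, Complex.norm_real, Real.norm_eq_abs, abs_lt]
  constructor <;> linarith

lemma Bh_symm {z : ℂ} (h : z ∈ Bh) : 1 - z ∈ Bh := by
  unfold Bh at h ⊢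
  rw [mem_ball, dist_eq_norm] at h ⊢
  rw [show 1 - z - 1 / 2 = -(z - 1 / 2) by ring, norm_neg]
  exact h

/-- symmetry -/
lemma FF_symm {z : ℂ} (h : z ∈ Bh) : FF (1 - z) = -FF z := by
  have hd : ∀ w ∈ Bh, HasDerivAt (fun w => FF (1 - w) + FF w) 0 w := by
    intro w hw
    have h1 := (FF_deriv (Bh_symm hw)).comp_of_eq w ((hasDerivAt_id w).const_sub 1) rfl
    have h2 := h1.add (FF_deriv hw)
    rw [ls_symm] at h2
    have h3 : ls w * -1 + ls w = 0 := by ring
    rw [h3] at h2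
    exact h2
  have hconst := (convex_ball (1 / 2 : ℂ) (1 / 2)).is_const_of_fderivWithin_eq_zero (𝕜 := ℂ)
    (f := fun w => FF (1 - w) + FF w)
    (fun w hw => (hd w hw).differentiableAt.differentiableWithinAt)
    (fun w hw => by
      rw [fderivWithin_of_isOpen isOpen_ball hw]
      have := (hd w hw).hasFDerivAt.fderiv
      rw [this]
      ext
      simp)
    (x := z) (y := 1 / 2) h (mem_ball_self (by norm_num))
  have h2 : (1 : ℂ) - 1 / 2 = 1 / 2 := by norm_num
  simp only [h2, FF_half, add_zero] at hconst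
  linear_combination hconst

/-- values at real points -/
lemma FF_real {x : ℝ} (h0 : 0 < x) (h1 : x < 1) :
    FF x = ((∫ t in (1 / 2 : ℝ)..x, Real.log (2 * Real.sin (π * t)) : ℝ) : ℂ) := by
  have hsub : ∀ t ∈ Set.uIcc (1 / 2 : ℝ) x, 0 < t ∧ t < 1 := by
    intro t ht
    have h2 := ht.1
    have h3 := ht.2
    constructor
    · exact lt_of_lt_of_le (lt_min (by norm_num) h0) h2
    · exact lt_of_le_of_lt h3 (max_lt (by norm_num) h1)
  have hd : ∀ t ∈ Set.uIcc (1 / 2 : ℝ) x, HasDerivAt (fun t : ℝ => FF t)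
      (((Real.log (2 * Real.sin (π * t)) : ℝ) : ℂ)) t := by
    intro t ht
    obtain ⟨h2, h3⟩ := hsub t ht
    have h4 := (FF_deriv (Bh_real h2 h3)).comp_ofReal
    rw [ls_real t h2 h3] at h4
    exact h4
  have hi : IntervalIntegrable (fun t : ℝ => ((Real.log (2 * Real.sin (π * t)) : ℝ) : ℂ)) volume
      (1 / 2) x := by
    have := (Pool.Agent.Y813.TK.ls_int (1 / 2) x)
    exact ⟨this.1.ofReal, this.2.ofReal⟩
  have h5 := intervalIntegral.integral_eq_sub_of_hasDerivAt hd hi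
  rw [intervalIntegral.integral_ofReal] at h5
  have h6 : ((1 / 2 : ℝ) : ℂ) = 1 / 2 := by push_cast; ring
  rw [h6, FF_half, sub_zero] at h5
  exact h5.symm

end Run7.h260.VC
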