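import Pool.Agent.Run7.h260.VC.P1
import Pool.Agent.W176.HTN.Newt

/-!
# Analytic interpolation of the products of sines
-/

set_option autoImplicit false

namespace Run7.h260.VC

open Filter Topology Metric Function MeasureTheory
open Pool.Agent.W366.HT (nw nw_diff)
open scoped Real

/-- a compact convex region -/
def K0 : Set ℂ := closedBall (5 / 12 : ℂ) (1 / 8)

lemma K0_sub : K0 ⊆ Bh := by
  intro z hz
  unfold K0 at hz
  unfold Bh
  rw [mem_closedBall, dist_eq_norm] at hz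
  rw [mem_ball, dist_eq_norm]
  have e : z - 1 / 2 = (z - 5 / 12) + ((-(1 / 12) : ℝ) : ℂ) := by push_cast; ring
  rw [e]
  refine (norm_add_le _ _).trans_lt ?_
  rw [Complex.norm_real, Real.norm_eq_abs, abs_neg, abs_of_pos (by norm_num)]
  linarith

lemma K0_mem {x : ℝ} {ξ : ℂ} (h0 : 3 / 10 + 1 / 200 ≤ x) (h1 : x ≤ 51 / 100) (h : ‖ξ‖ ≤ 1 / 100) :
    (x : ℂ) + ξ ∈ K0 := by
  unfold K0
  rw [mem_closedBall, dist_eq_norm]
  have e : (x : ℂ) + ξ - 5 / 12 = ((x - 5 / 12 : ℝ) : ℂ) + ξ := by push_cast; ring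
  rw [e]
  refine (norm_add_le _ _).trans ?_
  rw [Complex.norm_real, Real.norm_eq_abs]
  have : |x - 5 / 12| ≤ 1 / 8 - 1 / 100 := by rw [abs_le]; constructor <;> linarith
  linarith

lemma K0_convex : Convex ℝ K0 := convex_closedBall _ _

lemma ls_cont : ContinuousOn ls Bh := fun _ hz =>
  (ls_hasDerivAt (Bh_re hz).1 (Bh_re hz).2).continuousAt.continuousWithinAt

lemma ls_bdd : ∃ C : ℝ, 0 < C ∧ ∀ z ∈ K0, ‖ls z‖ ≤ C := by
  obtain ⟨C, hC⟩ := (isCompact_closedBall (5 / 12 : ℂ) (1 / 8)).exists_bound_of_continuousOn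
    (ls_cont.mono K0_sub)
  exact ⟨max C 1, lt_of_lt_of_le one_pos (le_max_right _ _), fun z hz => (hC z hz).trans (le_max_left _ _)⟩

lemma ls_lip : ∃ C : ℝ, 0 < C ∧ ∀ z ∈ K0, ∀ w ∈ K0, ‖ls z - ls w‖ ≤ C * ‖z - w‖ := by
  have hc : ContinuousOn (deriv ls) K0 := by
    intro z hz
    have hz' := K0_sub hz
    exact (ls_analytic (Bh_re hz').1 (Bh_re hz').2).deriv.continuousAt.continuousWithinAt
  obtain ⟨C, hC⟩ := (isCompact_closedBall (5 / 12 : ℂ) (1 / 8)).exists_bound_of_continuousOn hc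
  refine ⟨max C 1, lt_of_lt_of_le one_pos (le_max_right _ _), fun z hz w hw => ?_⟩
  refine Convex.norm_image_sub_le_of_norm_deriv_le (𝕜 := ℂ) (s := K0) ?_ ?_ K0_convex hw hz
  · intro y hy
    have hy' := K0_sub hy
    exact (ls_hasDerivAt (Bh_re hy').1 (Bh_re hy').2).differentiableAt
  · intro y hy
    exact (hC y hy).trans (le_max_left _ _)

/-- the integral along a segment -/
lemma seg {z w : ℂ} (hz : z ∈ Bh) (hw : w ∈ Bh) :
    (z - w) * ∫ t in (0 : ℝ)..1, ls (w + (z - w) * t) = FF z - FF w := by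
  have hmem : ∀ t ∈ Set.uIcc (0 : ℝ) 1, w + (z - w) * t ∈ Bh := by
    intro t ht
    rw [Set.uIcc_of_le zero_le_one] at ht
    have h1 := (convex_ball (1 / 2 : ℂ) (1 / 2)) hw hz (by linarith [ht.2] : (0 : ℝ) ≤ 1 - t) ht.1
      (by ring)
    have e : w + (z - w) * t = (1 - t : ℝ) • w + t • z := by
      rw [Complex.real_smul, Complex.real_smul]; push_cast; ring
    rw [e]
    exact h1
  have hd : ∀ t ∈ Set.uIcc (0 : ℝ) 1, HasDerivAt (fun t : ℝ => FF (w + (z - w) * t))
      ((z - w) * ls (w + (z - w) * t)) t := by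
    intro t ht
    have h1 : HasDerivAt (fun t : ℝ => w + (z - w) * (t : ℂ)) (z - w) t := by
      have h2 : HasDerivAt (fun t : ℝ => (t : ℂ)) 1 t := Complex.ofRealCLM.hasDerivAt
      simpa using (h2.const_mul (z - w)).const_add w
    have h3 := (FF_deriv (hmem t ht)).comp_of_eq t h1 rfl
    rw [mul_comm] at h3
    exact h3
  have hc : ContinuousOn (fun t : ℝ => ls (w + (z - w) * t)) (Set.uIcc (0 : ℝ) 1) :=
    ls_cont.comp (by fun_prop) hmem
  have h4 := intervalIntegral.integral_eq_sub_of_hasDerivAt hd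
    ((continuousOn_const.mul hc).intervalIntegrable)
  rw [intervalIntegral.integral_const_mul] at h4
  rw [h4]
  simp

/-- the product of sines -/
noncomputable def Pn (N d : ℕ) (ξ : ℂ) : ℂ :=
  ∏ t ∈ Finset.Ioc d ((N - 1) / 2), (2 * Complex.sin (π * ((t : ℂ) / N + ξ)))

/-- Riemann sums -/
lemma riem : ∃ C : ℝ, 0 < C ∧ ∀ (N m n : ℕ) (ξ : ℂ), 1 ≤ N → m ≤ n → 3 / 10 + 1 / 200 ≤ (m : ℝ) / N →
    (n : ℝ) / N ≤ 51 / 100 → ‖ξ‖ ≤ 1 / 100 →
    ‖(∑ t ∈ Finset.Ioc m n, ls ((t : ℂ) / N + ξ)) / N - (FF ((n : ℂ) / N + ξ) - FF ((m : ℂ) / N + ξ))‖ ≤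
      C / N := by
  obtain ⟨C, hC, hL⟩ := ls_lip
  refine ⟨C, hC, fun N m n ξ hN hmn h0 h1 hξ => ?_⟩
  have hN' : (0 : ℝ) < N := by exact_mod_cast hN
  have hNc : (N : ℂ) ≠ 0 := by exact_mod_cast hN'.ne'
  have hmem : ∀ t : ℕ, m ≤ t → t ≤ n → ((t : ℂ) / N + ξ) ∈ K0 := by
    intro t ht1 ht2
    have e : ((t : ℂ) / N + ξ) = (((t : ℝ) / N : ℝ) : ℂ) + ξ := by push_cast; rfl
    rw [e]
    refine K0_mem (h0.trans ?_) (le_trans ?_ h1) hξ
    · gcongr
    · gcongr
  have key : ∀ k : ℕ, m ≤ k → k ≤ n →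
      ‖(∑ t ∈ Finset.Ioc m k, ls ((t : ℂ) / N + ξ)) / N - (FF ((k : ℂ) / N + ξ) - FF ((m : ℂ) / N + ξ))‖ ≤
      (k - m) * (C / N ^ 2) := by
    intro k hk
    induction k, hk using Nat.le_induction with
    | base => intro _; simp
    | succ k hk ih =>
      intro hkn
      have ih := ih (by omega)
      rw [Finset.sum_Ioc_succ_top hk]
      have ha := hmem k hk (by omega)
      have hb := hmem (k + 1) (by omega) hkn
      have hstep : ‖(FF (((k + 1 : ℕ) : ℂ) / N + ξ) - FF ((k : ℂ) / N + ξ)) -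
          ls (((k + 1 : ℕ) : ℂ) / N + ξ) / N‖ ≤ C / N ^ 2 := by
        set b := (((k + 1 : ℕ) : ℂ) / N + ξ) with hbd
        set a := ((k : ℂ) / N + ξ) with had
        have hab : b - a = 1 / N := by
          rw [hbd, had]; push_cast; field_simp; ring
        have hnab : ‖b - a‖ = 1 / N := by
          rw [hab, norm_div, norm_one, Complex.norm_natCast]
        have h2 : ‖(FF b - b * ls b) - (FF a - a * ls b)‖ ≤ (C * (1 / N)) * ‖b - a‖ := by
          refine Convex.norm_image_sub_le_of_norm_hasDerivWithin_le (𝕜 := ℂ) (s := segment ℝ a b)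
            (f := fun w => FF w - w * ls b) (f' := fun w => ls w - ls b) ?_ ?_
            (convex_segment a b) (left_mem_segment ℝ a b) (right_mem_segment ℝ a b)
          · intro w hw
            have hw' : w ∈ K0 := K0_convex.segment_subset ha hb hw
            have h3 := (FF_deriv (K0_sub hw')).sub ((hasDerivAt_id w).mul_const (ls b))
            rw [one_mul] at h3
            exact h3.hasDerivWithinAt
          · intro w hw
            have hw' : w ∈ K0 := K0_convex.segment_subset ha hb hw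
            refine (hL w hw' b hb).trans (mul_le_mul_of_nonneg_left ?_ hC.le)
            rw [← hnab, norm_sub_rev b a]
            rw [segment_symm] at hw
            exact norm_sub_le_of_mem_segment hw
        have e : (FF b - FF a) - ls b / N = (FF b - b * ls b) - (FF a - a * ls b) := by
          linear_combination (-(ls b)) * (hab.symm)
        rw [e]
        refine h2.trans (le_of_eq ?_)
        rw [hnab]
        field_simp
      have e : (∑ t ∈ Finset.Ioc m k, ls ((t : ℂ) / N + ξ) + ls (((k + 1 : ℕ) : ℂ) / N + ξ)) / N -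
          (FF (((k + 1 : ℕ) : ℂ) / N + ξ) - FF ((m : ℂ) / N + ξ)) =
          ((∑ t ∈ Finset.Ioc m k, ls ((t : ℂ) / N + ξ)) / N - (FF ((k : ℂ) / N + ξ) - FF ((m : ℂ) / N + ξ))) -
          ((FF (((k + 1 : ℕ) : ℂ) / N + ξ) - FF ((k : ℂ) / N + ξ)) -
          ls (((k + 1 : ℕ) : ℂ) / N + ξ) / N) := by ring
      rw [e]
      refine (norm_sub_le _ _).trans ?_
      push_cast at hstep ih ⊢
      linarith
  refine (key n hmn le_rfl).trans ?_
  have h3 : ((n : ℝ) - m) ≤ N := by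
    have h4 : (n : ℝ) ≤ 51 / 100 * N := by rwa [div_le_iff₀ hN'] at h1
    have h5 : (0 : ℝ) ≤ m := by positivity
    linarith
  calc ((n : ℝ) - m) * (C / N ^ 2) ≤ N * (C / N ^ 2) := by gcongr
    _ = C / N := by field_simp

end Run7.h260.VC
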