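import Pool.Agent.Run7.h260.VC.P2

/-!
# Analytic interpolation of the products of sines: the interpolating function
-/

set_option autoImplicit false

namespace Run7.h260.VC

open Filter Topology Metric Function MeasureTheory
open Pool.Agent.W366.HT (nw nw_diff)
open scoped Real

/-- the small disk -/
def Bs : Set ℂ := ball (0 : ℂ) (1 / 200)
/-- the disk around `1 / 3` -/
def Bt : Set ℂ := ball (1 / 3 : ℂ) (1 / 200)

lemma Bt_mem {z ξ : ℂ} {x : ℝ} (hz : z ∈ Bt) (hξ : ξ ∈ Bs) (h0 : 0 ≤ x) (h1 : x ≤ 1 / 200) :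
    z + x + ξ ∈ K0 := by
  unfold Bt at hz
  unfold Bs at hξ
  rw [mem_ball, dist_eq_norm] at hz
  rw [mem_ball_zero_iff] at hξ
  unfold K0
  rw [mem_closedBall, dist_eq_norm]
  have e : z + x + ξ - 5 / 12 = (z - 1 / 3) + ((x - 1 / 12 : ℝ) : ℂ) + ξ := by push_cast; ring
  rw [e]
  refine (norm_add_le _ _).trans ?_
  have h2 := norm_add_le (z - 1 / 3) (((x - 1 / 12 : ℝ) : ℂ))
  rw [Complex.norm_real, Real.norm_eq_abs] at h2
  have h3 : |x - 1 / 12| ≤ 1 / 12 := by rw [abs_le]; constructor <;> linarith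
  linarith

open Classical in
/-- the family -/
noncomputable def lam (N : ℕ) (ξ z : ℂ) : ℂ := if z ∈ Bt then ls (z + ((1 / N : ℝ) : ℂ) + ξ) else 0

lemma lam_mem {N : ℕ} {ξ z : ℂ} (hz : z ∈ Bt) : lam N ξ z = ls (z + ((1 / N : ℝ) : ℂ) + ξ) := if_pos hz

lemma inv_le' {N : ℕ} (hN : 200 ≤ N) : (0 : ℝ) ≤ 1 / N ∧ (1 / N : ℝ) ≤ 1 / 200 := by
  have h : (200 : ℝ) ≤ N := by exact_mod_cast hN
  refine ⟨by positivity, ?_⟩
  rw [div_le_div_iff₀ (by positivity) (by norm_num)]; linarith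

lemma lam_diffξ {N : ℕ} (hN : 200 ≤ N) (z : ℂ) : DifferentiableOn ℂ (fun ξ => lam N ξ z) Bs := by
  by_cases hz : z ∈ Bt
  · have e : (fun ξ => lam N ξ z) = fun ξ => ls (z + ((1 / N : ℝ) : ℂ) + ξ) := by
      funext ξ; exact lam_mem hz
    rw [e]
    intro ξ hξ
    have h1 := K0_sub (Bt_mem hz hξ (inv_le' hN).1 (inv_le' hN).2)
    have h2 := (ls_hasDerivAt (Bh_re h1).1 (Bh_re h1).2).differentiableAt
    have h3 : DifferentiableAt ℂ (fun ξ : ℂ => z + ((1 / N : ℝ) : ℂ) + ξ) ξ := by fun_prop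
    exact (DifferentiableAt.comp (g := ls) ξ h2 h3).differentiableWithinAt
  · have e : (fun ξ => lam N ξ z) = fun _ => 0 := by
      funext ξ; exact if_neg hz
    rw [e]
    exact differentiableOn_const _

/-- coefficients -/
noncomputable def cf (N m j : ℕ) (ξ : ℂ) : ℂ :=
  ∑ i ∈ Finset.range (j + 1), (-1 : ℂ) ^ (j - i) * (j.choose i : ℂ) * lam N ξ (((m + i : ℕ) : ℂ) / N)

lemma cf_diff {N : ℕ} (hN : 200 ≤ N) (m j : ℕ) : DifferentiableOn ℂ (cf N m j) Bs := by
  unfold cf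
  refine DifferentiableOn.fun_sum fun i _ => ?_
  exact (lam_diffξ hN _).const_mul _

/-- the Newton sum -/
noncomputable def Nt (N m D : ℕ) (z ξ : ℂ) : ℂ := ∑ j ∈ Finset.range D, cf N m j ξ * nw N m j z

lemma Nt_diff {N : ℕ} (hN : 200 ≤ N) (m D : ℕ) :
    DifferentiableOn ℂ (fun p : ℂ × ℂ => Nt N m D p.1 p.2) (Set.univ ×ˢ Bs) := by
  unfold Nt
  refine DifferentiableOn.fun_sum fun j _ => ?_
  refine DifferentiableOn.mul ?_ ?_
  · exact (cf_diff hN m j).comp differentiable_snd.differentiableOn (fun p hp => hp.2)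
  · exact ((nw_diff N m j).comp differentiable_fst).differentiableOn

/-- the interpolating function -/
noncomputable def Wn (N m D : ℕ) (z ξ : ℂ) : ℂ := Pn N m ξ * Complex.exp (-Nt N m D z ξ)

lemma Pn_diff (N d : ℕ) : Differentiable ℂ (Pn N d) := by
  unfold Pn
  refine Differentiable.fun_finsetProd fun t _ => ?_
  fun_prop

lemma Wn_diff {N : ℕ} (hN : 200 ≤ N) (m D : ℕ) :
    DifferentiableOn ℂ (fun p : ℂ × ℂ => Wn N m D p.1 p.2) (Set.univ ×ˢ Bs) := by
  unfold Wn
  refine DifferentiableOn.mul ?_ ?_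
  · exact ((Pn_diff N m).comp differentiable_snd).differentiableOn
  · exact (Nt_diff hN m D).fun_neg.cexp

/-- logarithm of a product of sines -/
lemma Pn_exp {N m : ℕ} {ξ : ℂ} (hN : 200 ≤ N) (h0 : 3 / 10 + 1 / 200 ≤ (m : ℝ) / N)
    (h1 : ‖ξ‖ ≤ 1 / 100) :
    Pn N m ξ = Complex.exp (∑ t ∈ Finset.Ioc m ((N - 1) / 2), ls ((t : ℂ) / N + ξ)) := by
  have hN' : (0 : ℝ) < N := by
    have : 0 < N := by omega
    exact_mod_cast this
  rw [Complex.exp_sum]
  unfold Pn
  refine Finset.prod_congr rfl fun t ht => ?_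
  rw [Finset.mem_Ioc] at ht
  have e : ((t : ℂ) / N + ξ) = (((t : ℝ) / N : ℝ) : ℂ) + ξ := by push_cast; rfl
  have hK : ((t : ℂ) / N + ξ) ∈ K0 := by
    rw [e]
    refine K0_mem (h0.trans ?_) ?_ h1
    · have : (m : ℝ) ≤ t := by exact_mod_cast ht.1.le
      gcongr
    · rw [div_le_iff₀ hN']
      have h2 : (2 * t : ℝ) ≤ N := by
        have : 2 * t ≤ N := by omega
        exact_mod_cast this
      linarith
  have h2 := Bh_re (K0_sub hK)
  rw [ls_exp h2.1 h2.2]

theorem interp : ∃ (ρ : ℝ) (m D : ℕ → ℕ), 0 < ρ ∧ ρ < 1 / 800 ∧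
    (∀ᶠ N : ℕ in atTop, 3 / 10 + 1 / 200 ≤ (m N : ℝ) / N) ∧
    (∀ᶠ N : ℕ in atTop, ∀ d : ℕ, |(d : ℝ) / N - 1 / 3| < ρ → ∀ ξ ∈ ball (0 : ℂ) ρ,
      Pn N d ξ = Wn N (m N) (D N) ((d : ℂ) / N) ξ) ∧
    ∀ (z ξ : ℕ → ℂ) (z₀ ξ₀ : ℂ), z₀ ∈ ball (1 / 3 : ℂ) ρ → ξ₀ ∈ ball (0 : ℂ) ρ →
      Tendsto z atTop (𝓝 z₀) → Tendsto ξ atTop (𝓝 ξ₀) →
      Tendsto (fun N : ℕ => Real.log ‖Wn N (m N) (D N) (z N) (ξ N)‖ / N) atTop
        (𝓝 (FF (1 / 2 + ξ₀) - FF (z₀ + ξ₀)).re) := by
  obtain ⟨ρ, hρ0, hρR, hNw⟩ := Pool.Agent.W176.HTN.newt (1 / 400) (by norm_num)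
  obtain ⟨Cb, hCb, hbd⟩ := ls_bdd
  obtain ⟨Cl, hCl, hlip⟩ := ls_lip
  obtain ⟨m, hm⟩ : ∃ m : ℕ → ℕ, m = fun N : ℕ => ⌊(1 / 3 - ρ) * (N : ℝ)⌋₊ := ⟨_, rfl⟩
  have hmt : Tendsto (fun N : ℕ => (m N : ℝ) / N) atTop (𝓝 (1 / 3 - ρ)) := by
    rw [hm]
    exact (tendsto_nat_floor_mul_div_atTop (R := ℝ) (a := 1 / 3 - ρ) (by linarith)).comp
      tendsto_natCast_atTop_atTop
  have hm1 : ∀ᶠ N : ℕ in atTop, |(m N : ℝ) / N - (1 / 3 - ρ)| ≤ ρ / 4 := by
    have := Metric.tendsto_nhds.1 hmt (ρ / 4) (by linarith)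
    filter_upwards [this] with N hN
    rw [Real.dist_eq] at hN
    exact hN.le
  have e4 : (((1 / 3 : ℝ)) : ℂ) = 1 / 3 := by norm_num
  have hBt : ball (1 / 3 : ℂ) (1 / 400) ⊆ Bt := ball_subset_ball (by norm_num)
  obtain ⟨c, D, hc, hs, hl⟩ := hNw (1 / 3) {ξ : ℂ // ξ ∈ Bs} (fun N k z => lam N k.1 z)
    (fun k z => ls (z + k.1)) Cb
    (by
      filter_upwards [eventually_ge_atTop 200] with N hN k
      rw [e4]
      have h1 : DifferentiableOn ℂ (fun z => ls (z + ((1 / N : ℝ) : ℂ) + k.1)) (ball (1 / 3) (1 / 400)) := by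
        intro z hz
        replace hz := hBt hz
        have h1 := K0_sub (Bt_mem hz k.2 (inv_le' hN).1 (inv_le' hN).2)
        have h2 := (ls_hasDerivAt (Bh_re h1).1 (Bh_re h1).2).differentiableAt
        have h3 : DifferentiableAt ℂ (fun z : ℂ => z + ((1 / N : ℝ) : ℂ) + k.1) z := by fun_prop
        exact (DifferentiableAt.comp (g := ls) z h2 h3).differentiableWithinAt
      exact h1.congr fun z hz => lam_mem (hBt hz))
    (by
      intro k
      rw [e4]
      intro z hz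
      replace hz := hBt hz
      have h0 := Bt_mem hz k.2 le_rfl (by norm_num : (0 : ℝ) ≤ 1 / 200)
      rw [Complex.ofReal_zero, add_zero] at h0
      have h1 := K0_sub h0
      have h2 := (ls_hasDerivAt (Bh_re h1).1 (Bh_re h1).2).differentiableAt
      have h3 : DifferentiableAt ℂ (fun z : ℂ => z + k.1) z := by fun_prop
      exact (DifferentiableAt.comp (g := ls) z h2 h3).differentiableWithinAt)
    (by
      filter_upwards [eventually_ge_atTop 200] with N hN k z hz
      rw [e4] at hz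
      replace hz := hBt hz
      rw [lam_mem hz]
      exact hbd _ (Bt_mem hz k.2 (inv_le' hN).1 (inv_le' hN).2))
    (by
      intro ε hε
      have hlim : Tendsto (fun N : ℕ => Cl * (1 / (N : ℝ))) atTop (𝓝 0) := by
        have := (tendsto_one_div_atTop_nhds_zero_nat (𝕜 := ℝ)).const_mul Cl
        simpa using this
      filter_upwards [eventually_ge_atTop 200, hlim.eventually_lt_const hε] with N hN hN2 k z hz
      rw [e4] at hz
      replace hz := hBt hz
      rw [lam_mem hz]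
      have h0 := Bt_mem hz k.2 le_rfl (by norm_num : (0 : ℝ) ≤ 1 / 200)
      rw [Complex.ofReal_zero, add_zero] at h0
      refine (hlip _ (Bt_mem hz k.2 (inv_le' hN).1 (inv_le' hN).2) _ h0).trans ?_
      have e : z + ((1 / N : ℝ) : ℂ) + k.1 - (z + k.1) = ((1 / N : ℝ) : ℂ) := by ring
      rw [e, Complex.norm_real, Real.norm_eq_abs, abs_of_nonneg (inv_le' hN).1]
      exact hN2.le)
    m hm1
  refine ⟨ρ / 4, m, D, by linarith, by linarith, ?_, ?_, ?_⟩
  · filter_upwards [hm1] with N hN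
    have := (abs_le.1 hN).1
    linarith
  · -- interpolation
    filter_upwards [eventually_ge_atTop 200, hm1, hs] with N hN hmN hs d hd ξ hξ
    have hN0 : 0 < N := by omega
    have hN' : (0 : ℝ) < N := by exact_mod_cast hN0
    have hNc : (N : ℂ) ≠ 0 := by exact_mod_cast hN0.ne'
    have hξs : ξ ∈ Bs := ball_subset_ball (by linarith) hξ
    have hξn : ‖ξ‖ ≤ 1 / 100 := by
      rw [mem_ball_zero_iff] at hξ; linarith
    have hdl := abs_lt.1 hd
    have hml := abs_le.1 hmN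
    have hmd : m N ≤ d := by
      have h1 : (m N : ℝ) / N ≤ (d : ℝ) / N := by linarith [hml.2, hdl.1]
      rw [div_le_div_iff_of_pos_right hN'] at h1
      exact_mod_cast h1
    have hdn : d ≤ (N - 1) / 2 := by
      have h1 : (d : ℝ) < (1 / 3 + ρ / 4) * N := by
        rw [← div_lt_iff₀ hN']; linarith [hdl.2]
      have h2 : (N : ℝ) ≥ 200 := by exact_mod_cast hN
      have h3 : (2 * d + 2 : ℝ) ≤ N := by nlinarith
      have h4 : 2 * d + 2 ≤ N := by exact_mod_cast h3
      omega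
    have hjA : ∀ j ∈ Finset.Ico (m N) d, ((j : ℂ) / N) ∈ Bt := by
      intro j hj
      rw [Finset.mem_Ico] at hj
      have e : ((j : ℂ) / N) = (((j : ℝ) / N : ℝ) : ℂ) := by push_cast; rfl
      unfold Bt
      rw [e, mem_ball, dist_eq_norm, ← e4, ← Complex.ofReal_sub, Complex.norm_real, Real.norm_eq_abs]
      have h1 : (m N : ℝ) / N ≤ (j : ℝ) / N :=
        div_le_div_of_nonneg_right (by exact_mod_cast hj.1) hN'.le
      have h2 : (j : ℝ) / N ≤ (d : ℝ) / N :=
        div_le_div_of_nonneg_right (by exact_mod_cast hj.2.le) hN'.le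
      rw [abs_lt]
      constructor <;> linarith
    have hnw : ∀ j, nw N (m N) j ((d : ℂ) / N) =
        (∏ i ∈ Finset.range (j + 1), ((d : ℂ) - m N - i)) / ((j + 1).factorial : ℂ) := by
      intro j
      unfold nw
      rw [mul_div_cancel₀ _ hNc]
    have h1 := hs ⟨ξ, hξs⟩ d (by rw [abs_le]; constructor <;> linarith [hdl.1, hdl.2])
    have e1 : Nt N (m N) (D N) ((d : ℂ) / N) ξ = ∑ j ∈ Finset.Ico (m N) d, lam N ξ ((j : ℂ) / N) := by
      unfold Nt
      rw [h1]
      refine Finset.sum_congr rfl fun j _ => ?_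
      rw [hnw, hc]
      rfl
    have e2 : ∑ j ∈ Finset.Ico (m N) d, lam N ξ ((j : ℂ) / N) =
        ∑ t ∈ Finset.Ioc (m N) d, ls ((t : ℂ) / N + ξ) := by
      have e3 : (Finset.Ico (m N) d).image (fun j => j + 1) = Finset.Ioc (m N) d := by
        ext t
        simp only [Finset.mem_image, Finset.mem_Ico, Finset.mem_Ioc]
        constructor
        · rintro ⟨j, hj, rfl⟩; omega
        · intro ht; exact ⟨t - 1, by omega, by omega⟩
      rw [← e3, Finset.sum_image (by intro a _ b _ h; simpa using h)]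
      refine Finset.sum_congr rfl fun j hj => ?_
      rw [lam_mem (hjA j hj)]
      congr 1
      push_cast
      field_simp
    unfold Wn
    rw [e1, e2, Pn_exp (m := d) hN (by linarith [hdl.1]) hξn,
      Pn_exp (m := m N) hN (by linarith [hml.1]) hξn, ← Complex.exp_add]
    congr 1
    have e5 : ∑ t ∈ Finset.Ioc (m N) ((N - 1) / 2), ls ((t : ℂ) / N + ξ) =
        ∑ t ∈ Finset.Ioc (m N) d, ls ((t : ℂ) / N + ξ) +
          ∑ t ∈ Finset.Ioc d ((N - 1) / 2), ls ((t : ℂ) / N + ξ) := by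
      rw [← Finset.sum_union]
      · rw [Finset.Ioc_union_Ioc_eq_Ioc hmd hdn]
      · rw [Finset.disjoint_left]
        intro t ht1 ht2
        rw [Finset.mem_Ioc] at ht1 ht2
        omega
    rw [e5]
    ring
  · -- the limit
    intro z ξ z₀ ξ₀ hz₀ hξ₀ hz hξ
    obtain ⟨Cr, hCr, hriem⟩ := riem
    set u : ℝ := 1 / 3 - ρ with hu
    have hzev : ∀ᶠ N : ℕ in atTop, z N ∈ ball (1 / 3 : ℂ) (ρ / 4) :=
      hz.eventually (isOpen_ball.mem_nhds hz₀)
    have hξev : ∀ᶠ N : ℕ in atTop, ξ N ∈ ball (0 : ℂ) (ρ / 4) :=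
      hξ.eventually (isOpen_ball.mem_nhds hξ₀)
    have hmc : Tendsto (fun N : ℕ => (m N : ℂ) / N) atTop (𝓝 (u : ℂ)) := by
      have := (Complex.continuous_ofReal.tendsto u).comp hmt
      refine this.congr fun N => ?_
      simp
    have hn : Tendsto (fun N : ℕ => (((N - 1) / 2 : ℕ) : ℂ) / N) atTop (𝓝 (1 / 2)) := by
      have h1 : Tendsto (fun N : ℕ => (((N - 1) / 2 : ℕ) : ℝ) / N) atTop (𝓝 (1 / 2)) := by
        have h2 : Tendsto (fun N : ℕ => (1 / 2 : ℝ) - 1 / N) atTop (𝓝 (1 / 2 - 0)) :=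
          tendsto_const_nhds.sub tendsto_one_div_atTop_nhds_zero_nat
        rw [sub_zero] at h2
        refine tendsto_of_tendsto_of_tendsto_of_le_of_le' h2 tendsto_const_nhds ?_ ?_
        · filter_upwards [eventually_ge_atTop 1] with N hN
          have hN' : (0 : ℝ) < N := by exact_mod_cast hN
          rw [le_div_iff₀ hN', sub_mul, div_mul_cancel₀ _ hN'.ne']
          have : (N : ℝ) ≤ 2 * ((N - 1) / 2 : ℕ) + 2 := by
            have : N ≤ 2 * ((N - 1) / 2) + 2 := by omega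
            exact_mod_cast this
          linarith
        · filter_upwards [eventually_ge_atTop 1] with N hN
          have hN' : (0 : ℝ) < N := by exact_mod_cast hN
          rw [div_le_iff₀ hN']
          have : (2 * ((N - 1) / 2 : ℕ) : ℝ) ≤ N := by
            have : 2 * ((N - 1) / 2) ≤ N := by omega
            exact_mod_cast this
          linarith
      have := (Complex.continuous_ofReal.tendsto _).comp h1
      have e : (((1 / 2 : ℝ)) : ℂ) = 1 / 2 := by norm_num
      rw [e] at this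
      refine this.congr fun N => ?_
      simp
    -- continuity of `FF`
    have hFc : ∀ w₀ ∈ K0, ContinuousAt FF w₀ := fun w₀ hw => (FF_deriv (K0_sub hw)).continuousAt
    have hξ₀n : ‖ξ₀‖ ≤ 1 / 100 := by rw [mem_ball_zero_iff] at hξ₀; linarith
    have hk1 : (u : ℂ) + ξ₀ ∈ K0 := K0_mem (by rw [hu]; linarith) (by rw [hu]; linarith) hξ₀n
    have hk2 : (1 / 2 : ℂ) + ξ₀ ∈ K0 := by
      have := K0_mem (x := 1 / 2) (ξ := ξ₀) (by norm_num) (by norm_num) hξ₀n
      have e : (((1 / 2 : ℝ)) : ℂ) = 1 / 2 := by norm_num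
      rwa [e] at this
    have hk3 : z₀ + ξ₀ ∈ K0 := by
      have hz' : z₀ ∈ Bt := ball_subset_ball (by linarith) hz₀
      have hξ' : ξ₀ ∈ Bs := ball_subset_ball (by linarith) hξ₀
      have h0 := Bt_mem hz' hξ' le_rfl (by norm_num : (0 : ℝ) ≤ 1 / 200)
      rwa [Complex.ofReal_zero, add_zero] at h0
    -- base
    have hA : Tendsto (fun N : ℕ => (∑ t ∈ Finset.Ioc (m N) ((N - 1) / 2), ls ((t : ℂ) / N + ξ N)) / N)
        atTop (𝓝 (FF (1 / 2 + ξ₀) - FF (u + ξ₀))) := by
      have h1 : Tendsto (fun N : ℕ => FF ((((N - 1) / 2 : ℕ) : ℂ) / N + ξ N) - FF ((m N : ℂ) / N + ξ N))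
          atTop (𝓝 (FF (1 / 2 + ξ₀) - FF (u + ξ₀))) :=
        ((hFc _ hk2).tendsto.comp (hn.add hξ)).sub ((hFc _ hk1).tendsto.comp (hmc.add hξ))
      have h2 : Tendsto (fun N : ℕ => Cr / (N : ℝ)) atTop (𝓝 0) := tendsto_const_div_atTop_nhds_zero_nat _
      have h3 : Tendsto (fun N : ℕ => (∑ t ∈ Finset.Ioc (m N) ((N - 1) / 2), ls ((t : ℂ) / N + ξ N)) / N -
          (FF ((((N - 1) / 2 : ℕ) : ℂ) / N + ξ N) - FF ((m N : ℂ) / N + ξ N))) atTop (𝓝 0) := by
        refine squeeze_zero_norm' ?_ h2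
        filter_upwards [eventually_ge_atTop 200, hm1, hξev] with N hN hmN hξN
        have hN' : (0 : ℝ) < N := by
          have : 0 < N := by omega
          exact_mod_cast this
        have hml := abs_le.1 hmN
        refine hriem N (m N) _ (ξ N) (by omega) ?_ (by linarith [hml.1]) ?_ ?_
        · have h1 : (m N : ℝ) ≤ 2 / 5 * N := by
            rw [← div_le_iff₀ hN']; linarith [hml.2]
          have h2 : (200 : ℝ) ≤ N := by exact_mod_cast hN
          have h3 : (2 * m N + 2 : ℝ) ≤ N := by nlinarith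
          have h4 : 2 * m N + 2 ≤ N := by exact_mod_cast h3
          omega
        · rw [div_le_iff₀ hN']
          have : (2 * ((N - 1) / 2 : ℕ) : ℝ) ≤ N := by
            have : 2 * ((N - 1) / 2) ≤ N := by omega
            exact_mod_cast this
          linarith
        · rw [mem_ball_zero_iff] at hξN; linarith
      have := h3.add h1
      simpa using this
    have hB : Tendsto (fun N : ℕ => Nt N (m N) (D N) (z N) (ξ N) / N) atTop
        (𝓝 (FF (z₀ + ξ₀) - FF (u + ξ₀))) := by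
      have h1 : Tendsto (fun N : ℕ => FF (z N + ξ N) - FF ((m N : ℂ) / N + ξ N)) atTop
          (𝓝 (FF (z₀ + ξ₀) - FF (u + ξ₀))) :=
        ((hFc _ hk3).tendsto.comp (hz.add hξ)).sub ((hFc _ hk1).tendsto.comp (hmc.add hξ))
      have h3 : Tendsto (fun N : ℕ => Nt N (m N) (D N) (z N) (ξ N) / N -
          (FF (z N + ξ N) - FF ((m N : ℂ) / N + ξ N))) atTop (𝓝 0) := by
        rw [Metric.tendsto_nhds]
        intro ε hε
        filter_upwards [eventually_ge_atTop 200, hm1, hξev, hzev, hl (ε / 2) (by linarith)]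
          with N hN hmN hξN hzN hl
        have hN' : (0 : ℝ) < N := by
          have : 0 < N := by omega
          exact_mod_cast this
        have hml := abs_le.1 hmN
        have hξs : ξ N ∈ Bs := ball_subset_ball (by linarith) hξN
        have hzt : z N ∈ Bt := ball_subset_ball (by linarith) hzN
        have h4 := hl ⟨ξ N, hξs⟩ (z N) (by rw [e4]; exact ball_subset_ball (by linarith) hzN)
        have e5 : ∑ j ∈ Finset.range (D N), c N j ⟨ξ N, hξs⟩ * ((∏ i ∈ Finset.range (j + 1),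
            (N * z N - m N - i)) / ((j + 1).factorial : ℂ)) = Nt N (m N) (D N) (z N) (ξ N) := by
          unfold Nt
          refine Finset.sum_congr rfl fun j _ => ?_
          rw [hc]
          rfl
        rw [e5] at h4
        have ha : z N + ξ N ∈ Bh := by
          have h0 := Bt_mem hzt hξs le_rfl (by norm_num : (0 : ℝ) ≤ 1 / 200)
          rw [Complex.ofReal_zero, add_zero] at h0
          exact K0_sub h0
        have hb : (m N : ℂ) / N + ξ N ∈ Bh := by
          have e : ((m N : ℂ) / N + ξ N) = (((m N : ℝ) / N : ℝ) : ℂ) + ξ N := by push_cast; rfl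
          rw [e]
          refine K0_sub (K0_mem (by linarith [hml.1]) (by linarith [hml.2]) ?_)
          rw [mem_ball_zero_iff] at hξN; linarith
        have h5 := seg ha hb
        have e6 : z N + ξ N - ((m N : ℂ) / N + ξ N) = z N - (m N : ℂ) / N := by ring
        have e7 : ∀ t : ℝ, (m N : ℂ) / N + ξ N + (z N - (m N : ℂ) / N) * t =
            (m N : ℂ) / N + (z N - (m N : ℂ) / N) * t + ξ N := by intro t; ring
        rw [e6] at h5
        simp only [e7] at h5
        rw [← h5, dist_zero_right]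
        exact h4.trans_lt (by linarith)
      have := h3.add h1
      simpa using this
    have hC := (Complex.continuous_re.tendsto _).comp (hA.sub hB)
    have e8 : FF (1 / 2 + ξ₀) - FF (u + ξ₀) - (FF (z₀ + ξ₀) - FF (u + ξ₀)) =
        FF (1 / 2 + ξ₀) - FF (z₀ + ξ₀) := by ring
    rw [e8] at hC
    refine hC.congr' ?_
    filter_upwards [eventually_ge_atTop 200, hm1, hξev] with N hN hmN hξN
    have hN' : (0 : ℝ) < N := by
      have : 0 < N := by omega
      exact_mod_cast this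
    have hml := abs_le.1 hmN
    unfold Wn
    rw [Pn_exp hN (by linarith [hml.1]) (by rw [mem_ball_zero_iff] at hξN; linarith),
      ← Complex.exp_add, Complex.norm_exp, Real.log_exp]
    show ((∑ t ∈ Finset.Ioc (m N) ((N - 1) / 2), ls ((t : ℂ) / N + ξ N)) / N -
      Nt N (m N) (D N) (z N) (ξ N) / N).re = _
    rw [← sub_div, ← sub_eq_add_neg]
    have : ∀ w : ℂ, (w / (N : ℂ)).re = w.re / N := by
      intro w
      rw [← Complex.ofReal_natCast, Complex.div_ofReal_re]
    rw [this]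

end Run7.h260.VC
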