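import Pool.Agent.Run7.h260.VC.E5
import Pool.Agent.Run7.h260.VC.P3

/-!
# The potential
-/

set_option autoImplicit false

namespace Run7.h260.VC

open Filter Topology Metric Function MeasureTheory
open scoped Real

/-- the indices: the variable of the axis, the upper and the lower indices -/
abbrev Ix (n : ℕ) : Type := Option (Fin n ⊕ Fin n)

/-- upper index -/
def ai {n : ℕ} (r : Fin n) : Ix n := some (Sum.inl r)
/-- lower index -/
def bi {n : ℕ} (r : Fin n) : Ix n := some (Sum.inr r)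

variable {n : ℕ}

/-- the values -/
noncomputable def Av (x : Ix n → ℂ) (r : Fin n) : ℂ := 1 / 3 + x (ai r)
noncomputable def Bv (x : Ix n → ℂ) (r : Fin n) : ℂ := 1 / 3 + x (bi r)
noncomputable def Xv (x : Ix n → ℂ) : ℂ := x none / (2 * π)

/-- the terms of the potential -/
noncomputable def qt (A A' B ξ : ℂ) : ℂ :=
  π * Complex.I * (A' - A) * B + FF (A + B) + FF (A' + B) - FF (B + ξ) - FF (B - ξ) -
    FF (A + ξ) - FF (A - ξ)

/-- the potential -/
noncomputable def Qp (n : ℕ) [NeZero n] (x : Ix n → ℂ) : ℂ :=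
  ∑ r : Fin n, qt (Av x r) (Av x (r + 1)) (Bv x r) (Xv x)

lemma proj_an (j : Ix n) (x : Ix n → ℂ) : AnalyticAt ℂ (fun x : Ix n → ℂ => x j) x :=
  (ContinuousLinearMap.proj (R := ℂ) (φ := fun _ : Ix n => ℂ) j).analyticAt x

lemma Av_an (r : Fin n) (x : Ix n → ℂ) : AnalyticAt ℂ (fun x : Ix n → ℂ => Av x r) x :=
  analyticAt_const.add (proj_an _ x)
lemma Bv_an (r : Fin n) (x : Ix n → ℂ) : AnalyticAt ℂ (fun x : Ix n → ℂ => Bv x r) x :=
  analyticAt_const.add (proj_an _ x)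
lemma Xv_an (x : Ix n → ℂ) : AnalyticAt ℂ (fun x : Ix n → ℂ => Xv x) x := by
  unfold Xv
  simp only [div_eq_mul_inv]
  exact (proj_an _ x).mul analyticAt_const

lemma third_mem : (1 / 3 : ℂ) ∈ Bh := by
  have := Bh_real (x := 1 / 3) (by norm_num) (by norm_num)
  simpa using this

lemma twothird_mem : (2 / 3 : ℂ) ∈ Bh := by
  have := Bh_real (x := 2 / 3) (by norm_num) (by norm_num)
  simpa using this

lemma Qp_an (n : ℕ) [NeZero n] : AnalyticAt ℂ (Qp n) 0 := by
  have hA : ∀ r : Fin n, Av (0 : Ix n → ℂ) r = 1 / 3 := fun r => by simp [Av]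
  have hB : ∀ r : Fin n, Bv (0 : Ix n → ℂ) r = 1 / 3 := fun r => by simp [Bv]
  have hX : Xv (0 : Ix n → ℂ) = 0 := by simp [Xv]
  unfold Qp
  refine Finset.analyticAt_fun_sum _ fun r _ => ?_
  unfold qt
  have c1 : ∀ {g : (Ix n → ℂ) → ℂ}, AnalyticAt ℂ g 0 → g 0 ∈ Bh →
      AnalyticAt ℂ (fun x => FF (g x)) 0 := fun hg h => AnalyticAt.fun_comp (FF_analytic h) hg
  have e : (1 / 3 : ℂ) + 1 / 3 = 2 / 3 := by norm_num
  refine ((((((AnalyticAt.add ?_ ?_).add ?_).sub ?_).sub ?_).sub ?_).sub ?_)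
  · exact ((analyticAt_const.mul ((Av_an _ 0).sub (Av_an _ 0))).mul (Bv_an _ 0))
  · exact c1 ((Av_an _ 0).add (Bv_an _ 0)) (by rw [hA, hB, e]; exact twothird_mem)
  · exact c1 ((Av_an _ 0).add (Bv_an _ 0)) (by rw [hA, hB, e]; exact twothird_mem)
  · exact c1 ((Bv_an _ 0).add (Xv_an 0)) (by rw [hB, hX, add_zero]; exact third_mem)
  · exact c1 ((Bv_an _ 0).sub (Xv_an 0)) (by rw [hB, hX, sub_zero]; exact third_mem)
  · exact c1 ((Av_an _ 0).add (Xv_an 0)) (by rw [hA, hX, add_zero]; exact third_mem)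
  · exact c1 ((Av_an _ 0).sub (Xv_an 0)) (by rw [hA, hX, sub_zero]; exact third_mem)

/-- the uniform points -/
def Up (n : ℕ) (b χ : ℂ) : Ix n → ℂ := fun i => if i = none then χ else b

lemma Av_Up (b χ : ℂ) (r : Fin n) : Av (Up n b χ) r = 1 / 3 + b := by simp [Av, Up, ai]
lemma Bv_Up (b χ : ℂ) (r : Fin n) : Bv (Up n b χ) r = 1 / 3 + b := by simp [Bv, Up, bi]
lemma Xv_Up (b χ : ℂ) : Xv (Up n b χ) = χ / (2 * π) := by simp [Xv, Up]

/-- the defect of the equation of the critical points -/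
noncomputable def Dd (b χ : ℂ) : ℂ :=
  2 * ls (2 * (1 / 3 + b)) - ls (1 / 3 + b + χ / (2 * π)) - ls (1 / 3 + b - χ / (2 * π))

lemma line [NeZero n] {b χ : ℂ} (h1 : 2 * (1 / 3 + b) ∈ Bh) (h2 : 1 / 3 + b + χ / (2 * π) ∈ Bh)
    (h3 : 1 / 3 + b - χ / (2 * π) ∈ Bh) (v : Ix n → ℂ) :
    HasDerivAt (fun t : ℂ => Qp n (Up n b χ + t • v))
      (Dd b χ * (∑ r : Fin n, (v (ai r) + v (bi r))) - (n / π) * v none *
        (ls (1 / 3 + b + χ / (2 * π)) - ls (1 / 3 + b - χ / (2 * π)))) 0 := by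
  set β := 1 / 3 + b with hβ
  set ξ := χ / (2 * π) with hξ
  set S := ls (2 * β) with hS
  set L1 := ls (β + ξ) with hL1
  set L2 := ls (β - ξ) with hL2
  have hπ : (π : ℂ) ≠ 0 := by exact_mod_cast Real.pi_ne_zero
  have hA : ∀ (r : Fin n), HasDerivAt (fun t : ℂ => Av (Up n b χ + t • v) r) (v (ai r)) 0 := by
    intro r
    have : (fun t : ℂ => Av (Up n b χ + t • v) r) = fun t => β + t * v (ai r) := by
      funext t; simp [Av, Up, ai, hβ]; ring
    rw [this]
    simpa using ((hasDerivAt_id (0 : ℂ)).mul_const (v (ai r))).const_add β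
  have hB : ∀ (r : Fin n), HasDerivAt (fun t : ℂ => Bv (Up n b χ + t • v) r) (v (bi r)) 0 := by
    intro r
    have : (fun t : ℂ => Bv (Up n b χ + t • v) r) = fun t => β + t * v (bi r) := by
      funext t; simp [Bv, Up, bi, hβ]; ring
    rw [this]
    simpa using ((hasDerivAt_id (0 : ℂ)).mul_const (v (bi r))).const_add β
  have hX : HasDerivAt (fun t : ℂ => Xv (Up n b χ + t • v)) (v none / (2 * π)) 0 := by
    have : (fun t : ℂ => Xv (Up n b χ + t • v)) = fun t => ξ + t * (v none / (2 * π)) := by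
      funext t; simp [Xv, Up, hξ]; ring
    rw [this]
    simpa using ((hasDerivAt_id (0 : ℂ)).mul_const (v none / (2 * π))).const_add ξ
  have hA0 : ∀ r : Fin n, Av (Up n b χ + (0 : ℂ) • v) r = β := fun r => by
    rw [zero_smul, add_zero, Av_Up]
  have hB0 : ∀ r : Fin n, Bv (Up n b χ + (0 : ℂ) • v) r = β := fun r => by
    rw [zero_smul, add_zero, Bv_Up]
  have hX0 : Xv (Up n b χ + (0 : ℂ) • v) = ξ := by
    rw [zero_smul, add_zero, Xv_Up]
  have hc : ∀ {g : ℂ → ℂ} {g' z : ℂ}, HasDerivAt g g' 0 → g 0 = z → z ∈ Bh →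
      HasDerivAt (fun t => FF (g t)) (ls z * g') 0 := by
    intro g g' z hg hz hm
    exact (FF_deriv hm).comp_of_eq 0 hg hz.symm
  have hterm : ∀ r : Fin n, HasDerivAt (fun t : ℂ => qt (Av (Up n b χ + t • v) r)
      (Av (Up n b χ + t • v) (r + 1)) (Bv (Up n b χ + t • v) r) (Xv (Up n b χ + t • v)))
      (π * Complex.I * β * (v (ai (r + 1)) - v (ai r)) + S * (v (ai r) + v (bi r)) +
        S * (v (ai (r + 1)) + v (bi r)) - L1 * (v (bi r) + v none / (2 * π)) -
        L2 * (v (bi r) - v none / (2 * π)) - L1 * (v (ai r) + v none / (2 * π)) -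
        L2 * (v (ai r) - v none / (2 * π))) 0 := by
    intro r
    unfold qt
    have e2 : β + β = 2 * β := by ring
    have t1 := ((((hA (r + 1)).sub (hA r)).const_mul (π * Complex.I)).mul (hB r))
    have t2 := hc (z := 2 * β) ((hA r).add (hB r)) (by simp only [Pi.add_apply]; rw [hA0, hB0, e2]) h1
    have t3 := hc (z := 2 * β) ((hA (r + 1)).add (hB r)) (by simp only [Pi.add_apply]; rw [hA0, hB0, e2]) h1
    have t4 := hc (z := β + ξ) ((hB r).add hX) (by simp only [Pi.add_apply]; rw [hB0, hX0]) h2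
    have t5 := hc (z := β - ξ) ((hB r).sub hX) (by simp only [Pi.sub_apply]; rw [hB0, hX0]) h3
    have t6 := hc (z := β + ξ) ((hA r).add hX) (by simp only [Pi.add_apply]; rw [hA0, hX0]) h2
    have t7 := hc (z := β - ξ) ((hA r).sub hX) (by simp only [Pi.sub_apply]; rw [hA0, hX0]) h3
    have t := (((((t1.add t2).add t3).sub t4).sub t5).sub t6).sub t7
    refine (HasDerivAt.congr_deriv t ?_)
    simp only [hA0, hB0, Pi.sub_apply]
    ring
  have hsum := HasDerivAt.fun_sum (u := Finset.univ) fun r _ => hterm r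
  refine (HasDerivAt.congr_deriv hsum ?_)
  have hsh : ∑ r : Fin n, v (ai (r + 1)) = ∑ r : Fin n, v (ai r) :=
    Equiv.sum_comp (Equiv.addRight (1 : Fin n)) fun r => v (ai r)
  have hD : Dd b χ = 2 * S - L1 - L2 := by rw [Dd]
  rw [hD]
  simp only [Finset.sum_add_distrib, Finset.sum_sub_distrib, ← Finset.mul_sum, hsh,
    Finset.sum_const, Finset.card_univ, Fintype.card_fin, nsmul_eq_mul]
  field_simp
  ring

end Run7.h260.VC
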