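import Pool.Agent.Run7.h260.VC.P4
import Pool.Agent.H776R3.EvenVol.TaskL

/-!
# The potential: critical point, quadratic maximum, value
-/

set_option autoImplicit false

namespace Run7.h260.VC

open Filter Topology Metric Function MeasureTheory
open scoped Real

/-- values at real points, Lobachevsky's function -/
lemma FF_lob {x : ℝ} (h0 : 0 < x) (h1 : x < 1) : FF x = ((-(GapVol.lob (π * x) / π) : ℝ) : ℂ) := by
  rw [FF_real h0 h1]
  congr 1
  have hπ := Real.pi_pos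
  have h2 := GapVol.lob_sub (π / 2) (π * x)
  rw [GapVol.lob_half, sub_zero] at h2
  have h3 : ∫ t in (1 / 2 : ℝ)..x, GapVol.g (π * t) = π⁻¹ * ∫ t in (π * (1 / 2))..(π * x), GapVol.g t := by
    have := intervalIntegral.integral_comp_mul_left (a := 1 / 2) (b := x) GapVol.g hπ.ne'
    rw [this, smul_eq_mul]
  have h4 : ∫ t in (1 / 2 : ℝ)..x, Real.log (2 * Real.sin (π * t)) =
      -∫ t in (1 / 2 : ℝ)..x, GapVol.g (π * t) := by
    rw [← intervalIntegral.integral_neg]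
    congr 1
    funext t
    unfold GapVol.g
    ring
  rw [h4, h3, show π * (1 / 2) = π / 2 by ring, ← h2]
  field_simp

lemma sin_third : Real.sin (π * (1 / 3)) = √3 / 2 := by
  rw [show π * (1 / 3) = π / 3 by ring, Real.sin_pi_div_three]

lemma cos_third : Real.cos (π * (1 / 3)) = 1 / 2 := by
  rw [show π * (1 / 3) = π / 3 by ring, Real.cos_pi_div_three]

/-- the slope -/
noncomputable def Ll : ℝ := Real.log (2 * Real.sin (π * (1 / 3)))

lemma FF_third_min : ∀ᶠ s : ℝ in 𝓝 0,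
    (FF ((1 / 3 : ℝ) : ℂ)).re + Ll * s + s ^ 2 / 2 ≤ (FF ((1 / 3 + s : ℝ) : ℂ)).re := by
  set φ : ℝ → ℝ := fun s => (FF ((1 / 3 + s : ℝ) : ℂ)).re - Ll * s - s ^ 2 / 2 with hφ
  have hd : ∀ s : ℝ, |s| < 1 / 3 → HasDerivAt φ (Real.log (2 * Real.sin (π * (1 / 3 + s))) - Ll - s) s := by
    intro s hs
    rw [abs_lt] at hs
    have h1 := FF_deriv (Bh_real (x := 1 / 3 + s) (by linarith) (by linarith))
    rw [ls_real _ (by linarith) (by linarith)] at h1
    have h2 := h1.comp_ofReal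
    have h3 := (Complex.reCLM.hasFDerivAt.comp_hasDerivAt (1 / 3 + s) h2)
    have h4 : HasDerivAt (fun s : ℝ => 1 / 3 + s) 1 s := (hasDerivAt_id s).const_add _
    have h5 := h3.comp_of_eq s h4 rfl
    have h6 := (hasDerivAt_id s).const_mul Ll
    have h7 := (hasDerivAt_pow 2 s).div_const 2
    have h8 := (h5.sub h6).sub h7
    refine h8.congr_deriv ?_
    simp
  have hnear : ∀ᶠ s : ℝ in 𝓝 0, |s| < 1 / 3 := by
    have : Tendsto (fun s : ℝ => |s|) (𝓝 0) (𝓝 |0|) := tendsto_id.abs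
    exact this.eventually_lt_const (by rw [abs_zero]; norm_num)
  have hde : deriv φ =ᶠ[𝓝 0] fun s => Real.log (2 * Real.sin (π * (1 / 3 + s))) - Ll - s := by
    filter_upwards [hnear] with s hs
    exact (hd s hs).deriv
  have hs3 : (0 : ℝ) < √3 := by positivity
  have h2 : HasDerivAt (fun s : ℝ => Real.log (2 * Real.sin (π * (1 / 3 + s))) - Ll - s)
      (π / √3 - 1) 0 := by
    have a1 : HasDerivAt (fun s : ℝ => π * (1 / 3 + s)) π 0 := by
      have := ((hasDerivAt_id (0 : ℝ)).const_add (1 / 3)).const_mul π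
      rw [mul_one] at this
      exact this
    have a2 := (a1.sin.const_mul 2)
    have hne : 2 * Real.sin (π * (1 / 3 + 0)) ≠ 0 := by
      rw [add_zero, sin_third]; positivity
    have a3 := ((a2.log hne).sub_const Ll).sub (hasDerivAt_id (0 : ℝ))
    refine a3.congr_deriv ?_
    rw [add_zero, sin_third, cos_third]
    have : √3 * √3 = 3 := Real.mul_self_sqrt (by norm_num)
    field_simp
  have hpos : 0 < deriv (deriv φ) 0 := by
    rw [hde.deriv_eq, h2.deriv]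
    have : √3 < 2 := by
      rw [Real.sqrt_lt' (by norm_num)]; norm_num
    have h3 := Real.pi_gt_three
    rw [sub_pos, lt_div_iff₀ hs3]
    linarith
  have h0 : deriv φ 0 = 0 := by
    rw [hde.self_of_nhds]
    simp [Ll]
  have hc : ContinuousAt φ 0 := (hd 0 (by norm_num)).continuousAt
  have hmin := isLocalMin_of_deriv_deriv_pos hpos h0 hc
  filter_upwards [hmin] with s hs
  simp only [hφ] at hs
  simp only [add_zero, mul_zero, sub_zero] at hs
  norm_num at hs ⊢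
  linarith

lemma third_cast : ((1 / 3 : ℝ) : ℂ) = 1 / 3 := by norm_num
lemma twothird_cast : ((2 / 3 : ℝ) : ℂ) = 2 / 3 := by norm_num

lemma FF_twothird : FF (2 / 3) = -FF (1 / 3) := by
  have := FF_symm third_mem
  rw [← this]
  norm_num

lemma FF_twothird_max : ∀ᶠ s : ℝ in 𝓝 0,
    (FF ((2 / 3 + s : ℝ) : ℂ)).re ≤ -(FF ((1 / 3 : ℝ) : ℂ)).re + Ll * s - s ^ 2 / 2 := by
  have h1 : Tendsto (fun s : ℝ => -s) (𝓝 0) (𝓝 0) := by
    have := (continuous_neg (G := ℝ)).tendsto 0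
    simpa using this
  have hnear : ∀ᶠ s : ℝ in 𝓝 0, |s| < 1 / 3 := by
    have : Tendsto (fun s : ℝ => |s|) (𝓝 0) (𝓝 |0|) := tendsto_id.abs
    exact this.eventually_lt_const (by rw [abs_zero]; norm_num)
  filter_upwards [h1.eventually FF_third_min, hnear] with s hs hn
  rw [abs_lt] at hn
  have h2 := FF_symm (Bh_real (x := 1 / 3 + -s) (by linarith) (by linarith))
  have e : (1 : ℂ) - ((1 / 3 + -s : ℝ) : ℂ) = ((2 / 3 + s : ℝ) : ℂ) := by push_cast; ring
  rw [e] at h2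
  rw [h2, Complex.neg_re]
  have : (-s) ^ 2 = s ^ 2 := by ring
  rw [this] at hs
  linarith

variable {n : ℕ}

lemma Up_zero : Up n 0 0 = 0 := by
  funext i; simp [Up]

lemma Dd_zero : Dd 0 0 = 0 := by
  unfold Dd
  have h1 : ls (2 * (1 / 3 + 0)) = ls (1 / 3) := by
    rw [← ls_symm]; congr 1; norm_num
  rw [h1]
  simp
  ring

/-- the derivative at the uniform points -/
lemma fderiv_Up [NeZero n] {b χ : ℂ} (h1 : 2 * (1 / 3 + b) ∈ Bh) (h2 : 1 / 3 + b + χ / (2 * π) ∈ Bh)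
    (h3 : 1 / 3 + b - χ / (2 * π) ∈ Bh) (hd : DifferentiableAt ℂ (Qp n) (Up n b χ)) (v : Ix n → ℂ) :
    fderiv ℂ (Qp n) (Up n b χ) v =
      (Dd b χ * (∑ r : Fin n, (v (ai r) + v (bi r))) - (n / π) * v none *
        (ls (1 / 3 + b + χ / (2 * π)) - ls (1 / 3 + b - χ / (2 * π)))) := by
  have hl := line h1 h2 h3 v
  have h4 : HasDerivAt (fun t : ℂ => Up n b χ + t • v) v 0 := by
    simpa using ((hasDerivAt_id (0 : ℂ)).smul_const v).const_add (Up n b χ)
  have h5 : HasFDerivAt (Qp n) (fderiv ℂ (Qp n) (Up n b χ)) (Up n b χ + (0 : ℂ) • v) := by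
    rw [zero_smul, add_zero]; exact hd.hasFDerivAt
  have h6 := h5.comp_hasDerivAt (0 : ℂ) h4
  exact h6.unique hl

lemma Dp_zero [NeZero n] (j : Ix n) (hj : j ≠ none) : Dp (Qp n) j 0 = 0 := by
  have h1 : 2 * (1 / 3 + (0 : ℂ)) ∈ Bh := by
    have : 2 * (1 / 3 + (0 : ℂ)) = 2 / 3 := by norm_num
    rw [this]; exact twothird_mem
  have h2 : 1 / 3 + (0 : ℂ) + 0 / (2 * π) ∈ Bh := by
    have : 1 / 3 + (0 : ℂ) + 0 / (2 * π) = 1 / 3 := by simp
    rw [this]; exact third_mem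
  have h3 : 1 / 3 + (0 : ℂ) - 0 / (2 * π) ∈ Bh := by
    have : 1 / 3 + (0 : ℂ) - 0 / (2 * π) = 1 / 3 := by simp
    rw [this]; exact third_mem
  have hd : DifferentiableAt ℂ (Qp n) (Up n 0 0) := by
    rw [Up_zero]; exact (Qp_an n).differentiableAt
  have := fderiv_Up h1 h2 h3 hd (Pi.single j 1)
  rw [Up_zero, Dd_zero] at this
  unfold Dp
  rw [this]
  have : (Pi.single j (1 : ℂ) : Ix n → ℂ) none = 0 := by simp [hj.symm]
  rw [this]
  ring

lemma sum_Ix (g : Ix n → ℝ) : ∑ j, g j = g none + (∑ r, g (ai r) + ∑ r, g (bi r)) := by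
  rw [Fintype.sum_option, Fintype.sum_sum_type]
  rfl

lemma Qp_zero [NeZero n] : Qp n 0 = ((6 * n * GapVol.lob (π / 3) / π : ℝ) : ℂ) := by
  have hA : ∀ r : Fin n, Av (0 : Ix n → ℂ) r = 1 / 3 := fun r => by simp [Av]
  have hB : ∀ r : Fin n, Bv (0 : Ix n → ℂ) r = 1 / 3 := fun r => by simp [Bv]
  have hX : Xv (0 : Ix n → ℂ) = 0 := by simp [Xv]
  have h1 : FF (1 / 3) = ((-(GapVol.lob (π / 3) / π) : ℝ) : ℂ) := by
    have := FF_lob (x := 1 / 3) (by norm_num) (by norm_num)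
    rw [third_cast, show π * (1 / 3) = π / 3 by ring] at this
    exact this
  have hqt : ∀ r : Fin n, qt (Av (0 : Ix n → ℂ) r) (Av (0 : Ix n → ℂ) (r + 1)) (Bv (0 : Ix n → ℂ) r)
      (Xv (0 : Ix n → ℂ)) = -6 * FF (1 / 3) := by
    intro r
    rw [hA, hA, hB, hX]
    unfold qt
    rw [show (1 / 3 : ℂ) + 1 / 3 = 2 / 3 by norm_num, FF_twothird]
    simp only [sub_self, mul_zero, zero_mul, add_zero, sub_zero]
    ring
  unfold Qp
  rw [Finset.sum_congr rfl fun r _ => hqt r, Finset.sum_const, Finset.card_univ, Fintype.card_fin,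
    nsmul_eq_mul, h1]
  push_cast
  ring

lemma Qp_pos [NeZero n] : 0 < (Qp n 0).re := by
  rw [Qp_zero, Complex.ofReal_re]
  have h1 := GapVol.lob_dup
  have h2 := EvenVol.LobIneq.lob_six_pos
  have h3 : 0 < GapVol.lob (π / 3) := by linarith
  have hn : (0 : ℝ) < n := by exact_mod_cast Nat.pos_of_ne_zero (NeZero.ne n)
  have := Real.pi_pos
  positivity

/-- the set of the summed variables -/
def Sv (n : ℕ) : Finset (Ix n) := Finset.univ.erase none

lemma Qp_max [NeZero n] : Qm (Sv n) 1 (Qp n) := by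
  have hcont : ∀ {g : (Ix n → ℝ) → ℝ}, Continuous g → g 0 = 0 → Tendsto g (𝓝 0) (𝓝 0) := by
    intro g hg h0
    have := hg.tendsto 0
    rwa [h0] at this
  have e1 : ∀ j : Ix n, ∀ᶠ t : Ix n → ℝ in 𝓝 0,
      (FF ((1 / 3 : ℝ) : ℂ)).re + Ll * t j + t j ^ 2 / 2 ≤ (FF ((1 / 3 + t j : ℝ) : ℂ)).re := by
    intro j
    exact (hcont (g := fun t => t j) (continuous_apply j) rfl).eventually FF_third_min
  have e2 : ∀ j k : Ix n, ∀ᶠ t : Ix n → ℝ in 𝓝 0,
      (FF ((2 / 3 + (t j + t k) : ℝ) : ℂ)).re ≤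
        -(FF ((1 / 3 : ℝ) : ℂ)).re + Ll * (t j + t k) - (t j + t k) ^ 2 / 2 := by
    intro j k
    exact (hcont (g := fun t => t j + t k) (by fun_prop) (by simp)).eventually FF_twothird_max
  unfold Qm
  filter_upwards [eventually_all.2 e1, eventually_all.2 fun j => eventually_all.2 (e2 j)]
    with t h1 h2 h3
  have h0 : t none = 0 := h3 none (by simp [Sv])
  have hX : Xv (rc t) = 0 := by simp [Xv, rc, h0]
  have hterm : ∀ r : Fin n, (qt (Av (rc t) r) (Av (rc t) (r + 1)) (Bv (rc t) r) (Xv (rc t))).re ≤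
      -6 * (FF ((1 / 3 : ℝ) : ℂ)).re + Ll * (t (ai (r + 1)) - t (ai r)) - t (ai r) ^ 2 - t (bi r) ^ 2 := by
    intro r
    have c1 : Av (rc t) r = ((1 / 3 + t (ai r) : ℝ) : ℂ) := by simp [Av, rc]
    have c2 : Av (rc t) (r + 1) = ((1 / 3 + t (ai (r + 1)) : ℝ) : ℂ) := by simp [Av, rc]
    have c3 : Bv (rc t) r = ((1 / 3 + t (bi r) : ℝ) : ℂ) := by simp [Bv, rc]
    rw [hX, c1, c2, c3]
    unfold qt
    have c4 : ((1 / 3 + t (ai r) : ℝ) : ℂ) + ((1 / 3 + t (bi r) : ℝ) : ℂ) =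
        ((2 / 3 + (t (ai r) + t (bi r)) : ℝ) : ℂ) := by push_cast; ring
    have c5 : ((1 / 3 + t (ai (r + 1)) : ℝ) : ℂ) + ((1 / 3 + t (bi r) : ℝ) : ℂ) =
        ((2 / 3 + (t (ai (r + 1)) + t (bi r)) : ℝ) : ℂ) := by push_cast; ring
    have c6 : (π * Complex.I * (((1 / 3 + t (ai (r + 1)) : ℝ) : ℂ) - ((1 / 3 + t (ai r) : ℝ) : ℂ)) *
        ((1 / 3 + t (bi r) : ℝ) : ℂ)).re = 0 := by
      have : (π * Complex.I * (((1 / 3 + t (ai (r + 1)) : ℝ) : ℂ) - ((1 / 3 + t (ai r) : ℝ) : ℂ)) *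
        ((1 / 3 + t (bi r) : ℝ) : ℂ)) = ((π * ((1 / 3 + t (ai (r + 1))) - (1 / 3 + t (ai r))) *
          (1 / 3 + t (bi r)) : ℝ) : ℂ) * Complex.I := by push_cast; ring
      rw [this, Complex.re_ofReal_mul, Complex.I_re, mul_zero]
    rw [c4, c5, add_zero, sub_zero, add_zero, sub_zero]
    simp only [Complex.add_re, Complex.sub_re] at *
    rw [c6]
    have d1 := h1 (ai r)
    have d2 := h1 (bi r)
    have d3 := h2 (ai r) (bi r)
    have d4 := h2 (ai (r + 1)) (bi r)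
    nlinarith [sq_nonneg (t (ai r) + t (bi r)), sq_nonneg (t (ai (r + 1)) + t (bi r))]
  have hre : (Qp n (rc t)).re = ∑ r : Fin n, (qt (Av (rc t) r) (Av (rc t) (r + 1)) (Bv (rc t) r)
      (Xv (rc t))).re := by
    unfold Qp
    rw [Complex.re_sum]
  have hz : (Qp n 0).re = ∑ r : Fin n, -6 * (FF ((1 / 3 : ℝ) : ℂ)).re := by
    have h1 := FF_lob (x := 1 / 3) (by norm_num) (by norm_num)
    rw [show π * (1 / 3) = π / 3 by ring] at h1
    rw [Qp_zero, Complex.ofReal_re, Finset.sum_const, Finset.card_univ, Fintype.card_fin,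
      nsmul_eq_mul, h1, Complex.ofReal_re]
    ring
  rw [hre, hz]
  refine (Finset.sum_le_sum fun r _ => hterm r).trans (le_of_eq ?_)
  have hsh : ∑ r : Fin n, t (ai (r + 1)) = ∑ r : Fin n, t (ai r) :=
    Equiv.sum_comp (Equiv.addRight (1 : Fin n)) fun r => t (ai r)
  rw [sum_Ix, h0]
  simp only [Finset.sum_add_distrib, Finset.sum_sub_distrib, ← Finset.mul_sum, hsh]
  ring

end Run7.h260.VC
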