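import Pool.Agent.Run7.h260.VC.P5

/-!
# The critical points and the critical value
-/

set_option autoImplicit false

namespace Run7.h260.VC

open Filter Topology Metric Function MeasureTheory
open scoped Real

lemma pj_an (j : Fin 2) (x : Fin 2 → ℂ) : AnalyticAt ℂ (fun x : Fin 2 → ℂ => x j) x :=
  (ContinuousLinearMap.proj (R := ℂ) (φ := fun _ : Fin 2 => ℂ) j).analyticAt x

lemma ls_third_deriv : HasDerivAt ls ((π / √3 : ℝ) : ℂ) (1 / 3) := by
  have h := ls_hasDerivAt (z := 1 / 3) (by norm_num) (by norm_num)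
  have e : (π * (1 / 3) : ℂ) = ((π * (1 / 3) : ℝ) : ℂ) := by push_cast; ring
  have e2 : (π : ℂ) * Complex.cot (π * (1 / 3)) = ((π / √3 : ℝ) : ℂ) := by
    rw [Complex.cot, e, ← Complex.ofReal_cos, ← Complex.ofReal_sin, sin_third, cos_third]
    have h3 : (√3 : ℝ) ≠ 0 := by positivity
    push_cast
    field_simp
  rw [e2] at h
  exact h

lemma ls_twothird_deriv : HasDerivAt ls (-((π / √3 : ℝ) : ℂ)) (2 / 3) := by
  have h1 : HasDerivAt (fun z : ℂ => 1 - z) (-1) (2 / 3) := by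
    simpa using (hasDerivAt_id (2 / 3 : ℂ)).const_sub 1
  have h2 := ls_third_deriv.comp_of_eq (2 / 3 : ℂ) h1 (by norm_num)
  have e : (ls ∘ fun z : ℂ => 1 - z) = ls := by
    funext z; exact ls_symm z
  rw [e] at h2
  refine h2.congr_deriv (by ring)

/-- existence of the critical points -/
theorem exists_beta : ∃ b : ℂ → ℂ, AnalyticAt ℂ b 0 ∧ b 0 = 0 ∧ (∀ᶠ χ in 𝓝 0, Dd (b χ) χ = 0) ∧
    ∀ᶠ χ in 𝓝 0, b (-χ) = b χ := by
  set D : (Fin 2 → ℂ) → ℂ := fun x => Dd (x 0) (x 1) with hD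
  have hDa : AnalyticAt ℂ D 0 := by
    have c1 : ∀ {g : (Fin 2 → ℂ) → ℂ} {z : ℂ}, AnalyticAt ℂ g 0 → g 0 = z → z ∈ Bh →
        AnalyticAt ℂ (fun x => ls (g x)) 0 := by
      intro g z hg hz h
      refine AnalyticAt.fun_comp ?_ hg
      rw [hz]
      exact ls_analytic (Bh_re h).1 (Bh_re h).2
    have p0 := pj_an 0 0
    have p1 : AnalyticAt ℂ (fun x : Fin 2 → ℂ => x 1 / (2 * π)) 0 := by
      simp only [div_eq_mul_inv]
      exact (pj_an 1 0).mul analyticAt_const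
    have q1 : AnalyticAt ℂ (fun x : Fin 2 → ℂ => 2 * (1 / 3 + x 0)) 0 :=
      analyticAt_const.mul (analyticAt_const.add p0)
    have q2 : AnalyticAt ℂ (fun x : Fin 2 → ℂ => 1 / 3 + x 0 + x 1 / (2 * π)) 0 :=
      (analyticAt_const.add p0).add p1
    have q3 : AnalyticAt ℂ (fun x : Fin 2 → ℂ => 1 / 3 + x 0 - x 1 / (2 * π)) 0 :=
      (analyticAt_const.add p0).sub p1
    simp only [hD, Dd]
    exact ((analyticAt_const.mul (c1 q1 (by simp; norm_num) twothird_mem)).sub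
      (c1 q2 (by simp) third_mem)).sub (c1 q3 (by simp) third_mem)
  have hD0 : D 0 = 0 := Dd_zero
  have hup0 : update (0 : Fin 2 → ℂ) 0 0 = 0 := by simp
  have hD1 : Dp D 0 0 = ((-(6 * (π / √3)) : ℝ) : ℂ) := by
    have h1 := slice (Q := D) (x := 0) (i := (0 : Fin 2)) (w := 0) (by
      rw [hup0]; exact hDa.differentiableAt)
    rw [hup0] at h1
    have h2 : HasDerivAt (fun w => D (update 0 0 w)) ((-(6 * (π / √3)) : ℝ) : ℂ) 0 := by
      have e : (fun w : ℂ => D (update 0 0 w)) = fun w => 2 * ls (2 * (1 / 3 + w)) - ls (1 / 3 + w + 0) -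
          ls (1 / 3 + w - 0) := by
        funext w
        simp [hD, Dd]
      rw [e]
      have g1 : HasDerivAt (fun w : ℂ => 2 * (1 / 3 + w)) 2 0 := by
        have := ((hasDerivAt_id (0 : ℂ)).const_add (1 / 3)).const_mul 2
        rw [mul_one] at this
        exact this
      have g2 : HasDerivAt (fun w : ℂ => 1 / 3 + w + 0) 1 0 := by
        exact ((hasDerivAt_id (0 : ℂ)).const_add (1 / 3)).add_const 0
      have g3 : HasDerivAt (fun w : ℂ => 1 / 3 + w - 0) 1 0 := by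
        exact ((hasDerivAt_id (0 : ℂ)).const_add (1 / 3)).sub_const 0
      have k1 := (ls_twothird_deriv.comp_of_eq (0 : ℂ) g1 (by norm_num)).const_mul 2
      have k2 := ls_third_deriv.comp_of_eq (0 : ℂ) g2 (by norm_num)
      have k3 := ls_third_deriv.comp_of_eq (0 : ℂ) g3 (by norm_num)
      refine ((k1.sub k2).sub k3).congr_deriv ?_
      push_cast
      ring
    exact h1.unique h2
  have hne : Dp D 0 0 ≠ 0 := by
    rw [hD1]
    have h3 : (0 : ℝ) < √3 := by positivity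
    have hπ := Real.pi_pos
    have : (-(6 * (π / √3)) : ℝ) ≠ 0 := by
      have : 0 < π / √3 := by positivity
      linarith
    exact_mod_cast this
  obtain ⟨om, a1, a2, a3, a4, a5⟩ := impl (0 : Fin 2) hDa hD0 hne
  have hv : AnalyticAt ℂ (fun χ : ℂ => (![0, χ] : Fin 2 → ℂ)) 0 := by
    rw [analyticAt_pi_iff]
    intro j
    fin_cases j
    · exact analyticAt_const
    · exact analyticAt_id
  have hv0 : (![0, 0] : Fin 2 → ℂ) = 0 := by
    funext j; fin_cases j <;> rfl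
  have hvt : Tendsto (fun χ : ℂ => (![0, χ] : Fin 2 → ℂ)) (𝓝 0) (𝓝 0) := by
    have := hv.continuousAt.tendsto
    rwa [hv0] at this
  set b : ℂ → ℂ := fun χ => om ![0, χ] with hb
  have hba : AnalyticAt ℂ b 0 := by
    refine AnalyticAt.fun_comp ?_ hv
    rw [hv0]; exact a1
  have hb0 : b 0 = 0 := by
    rw [hb]; simp only; rw [hv0, a2]
  have hup : ∀ χ w : ℂ, update (![0, χ] : Fin 2 → ℂ) 0 w = ![w, χ] := by
    intro χ w
    funext j; fin_cases j <;> simp
  have hbt : Tendsto b (𝓝 0) (𝓝 0) := by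
    have := hba.continuousAt.tendsto
    rwa [hb0] at this
  have hev : ∀ᶠ χ in 𝓝 0, Dd (b χ) χ = 0 := by
    filter_upwards [hvt.eventually a4] with χ h
    rw [hup] at h
    exact h
  refine ⟨b, hba, hb0, hev, ?_⟩
  have hneg : Tendsto (fun χ : ℂ => -χ) (𝓝 0) (𝓝 0) := by
    have := (continuous_neg (G := ℂ)).tendsto 0
    simpa using this
  have hw : Tendsto (fun χ : ℂ => (![b χ, -χ] : Fin 2 → ℂ)) (𝓝 0) (𝓝 0) := by
    rw [tendsto_pi_nhds]
    intro j
    fin_cases j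
    · exact hbt
    · exact hneg
  filter_upwards [hw.eventually a5, hev] with χ h1 h2
  have h3 : D ![b χ, -χ] = 0 := by
    have : D ![b χ, -χ] = Dd (b χ) (-χ) := rfl
    rw [this, ← h2]
    unfold Dd
    rw [neg_div, sub_neg_eq_add, ← sub_eq_add_neg]
    ring
  have h4 := h1 h3
  have h5 : om ![b χ, -χ] = om ![0, -χ] := by
    have := a3 ![0, -χ] (b χ)
    rw [hup] at this
    exact this
  rw [h5] at h4
  exact h4.symm

/-- the critical points -/
noncomputable def bet : ℂ → ℂ := exists_beta.choose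
lemma bet_an : AnalyticAt ℂ bet 0 := exists_beta.choose_spec.1
lemma bet_zero : bet 0 = 0 := exists_beta.choose_spec.2.1
lemma bet_crit : ∀ᶠ χ in 𝓝 0, Dd (bet χ) χ = 0 := exists_beta.choose_spec.2.2.1
lemma bet_even : ∀ᶠ χ in 𝓝 0, bet (-χ) = bet χ := exists_beta.choose_spec.2.2.2
lemma bet_tend : Tendsto bet (𝓝 0) (𝓝 0) := by
  have := bet_an.continuousAt.tendsto
  rwa [bet_zero] at this

/-- the critical value -/
noncomputable def Gv (n : ℕ) [NeZero n] (χ : ℂ) : ℂ := Qp n (Up n (bet χ) χ)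

variable {n : ℕ}

lemma Up_an : AnalyticAt ℂ (fun χ : ℂ => Up n (bet χ) χ) 0 := by
  rw [analyticAt_pi_iff]
  intro j
  by_cases hj : j = none
  · subst hj
    have : (fun χ : ℂ => Up n (bet χ) χ none) = fun χ => χ := by funext χ; simp [Up]
    rw [this]
    exact analyticAt_id
  · have : (fun χ : ℂ => Up n (bet χ) χ j) = bet := by funext χ; simp [Up, hj]
    rw [this]
    exact bet_an

lemma Up_tend : Tendsto (fun χ : ℂ => Up n (bet χ) χ) (𝓝 0) (𝓝 0) := by
  have := (Up_an (n := n)).continuousAt.tendsto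
  rwa [bet_zero, Up_zero] at this

lemma Gv_an [NeZero n] : AnalyticAt ℂ (Gv n) 0 := by
  unfold Gv
  refine AnalyticAt.fun_comp ?_ Up_an
  rw [bet_zero, Up_zero]
  exact Qp_an n

lemma Gv_zero [NeZero n] : Gv n 0 = ((6 * n * GapVol.lob (π / 3) / π : ℝ) : ℂ) := by
  unfold Gv
  rw [bet_zero, Up_zero, Qp_zero]

lemma Gv_even [NeZero n] : ∀ᶠ χ in 𝓝 0, Gv n (-χ) = Gv n χ := by
  filter_upwards [bet_even] with χ h
  unfold Gv Qp
  rw [h]
  refine Finset.sum_congr rfl fun r _ => ?_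
  rw [Av_Up, Av_Up, Av_Up, Av_Up, Bv_Up, Bv_Up, Xv_Up, Xv_Up]
  unfold qt
  have e1 : (1 / 3 + bet χ + -χ / (2 * π) : ℂ) = 1 / 3 + bet χ - χ / (2 * π) := by ring
  have e2 : (1 / 3 + bet χ - -χ / (2 * π) : ℂ) = 1 / 3 + bet χ + χ / (2 * π) := by ring
  rw [e1, e2]
  ring

/-- the arguments are in the disk -/
lemma bet_mem : ∀ᶠ χ in 𝓝 0, 2 * (1 / 3 + bet χ) ∈ Bh ∧ 1 / 3 + bet χ + χ / (2 * π) ∈ Bh ∧
    1 / 3 + bet χ - χ / (2 * π) ∈ Bh := by
  have h1 : Tendsto (fun χ : ℂ => 2 * (1 / 3 + bet χ)) (𝓝 0) (𝓝 (2 / 3)) := by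
    have := (bet_tend.const_add (1 / 3)).const_mul 2
    have e : (2 : ℂ) * (1 / 3 + 0) = 2 / 3 := by norm_num
    rwa [e] at this
  have h0 : Tendsto (fun χ : ℂ => χ / (2 * π)) (𝓝 0) (𝓝 0) := by
    have : Continuous (fun χ : ℂ => χ / (2 * π)) := by fun_prop
    have := this.tendsto 0
    simpa using this
  have h2 : Tendsto (fun χ : ℂ => 1 / 3 + bet χ + χ / (2 * π)) (𝓝 0) (𝓝 (1 / 3)) := by
    have := (bet_tend.const_add (1 / 3)).add h0
    simpa using this
  have h3 : Tendsto (fun χ : ℂ => 1 / 3 + bet χ - χ / (2 * π)) (𝓝 0) (𝓝 (1 / 3)) := by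
    have := (bet_tend.const_add (1 / 3)).sub h0
    simpa using this
  exact (h1.eventually (Bh_open.mem_nhds twothird_mem)).and
    ((h2.eventually (Bh_open.mem_nhds third_mem)).and (h3.eventually (Bh_open.mem_nhds third_mem)))

/-- the derivative of the critical value -/
lemma Gv_deriv [NeZero n] : ∀ᶠ χ in 𝓝 0, HasDerivAt (Gv n)
    (-(n / π) * (ls (1 / 3 + bet χ + χ / (2 * π)) - ls (1 / 3 + bet χ - χ / (2 * π)))) χ := by
  have hQ : ∀ᶠ χ : ℂ in 𝓝 0, AnalyticAt ℂ (Qp n) (Up n (bet χ) χ) :=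
    Up_tend.eventually (Qp_an n).eventually_analyticAt
  filter_upwards [bet_mem, bet_crit, hQ, bet_an.eventually_analyticAt] with χ h1 h2 h3 h4
  have h5 : HasDerivAt (fun χ : ℂ => Up n (bet χ) χ) (Up n (deriv bet χ) 1) χ := by
    rw [hasDerivAt_pi]
    intro j
    by_cases hj : j = none
    · subst hj
      have : (fun χ : ℂ => Up n (bet χ) χ none) = fun χ => χ := by funext χ; simp [Up]
      rw [this]
      have h1 : Up n (deriv bet χ) 1 none = 1 := by simp [Up]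
      rw [h1]
      exact hasDerivAt_id' χ
    · have : (fun χ : ℂ => Up n (bet χ) χ j) = bet := by funext χ; simp [Up, hj]
      rw [this]
      simpa [Up, hj] using h4.differentiableAt.hasDerivAt
  have h6 := HasFDerivAt.comp_hasDerivAt (f := fun χ : ℂ => Up n (bet χ) χ) χ
    h3.differentiableAt.hasFDerivAt h5
  refine HasDerivAt.congr_deriv h6 ?_
  rw [fderiv_Up h1.1 h1.2.1 h1.2.2 h3.differentiableAt, h2]
  simp only [Up, if_true]
  ring

lemma Gv_deriv2 [NeZero n] : deriv (deriv (Gv n)) 0 = ((-(n / (π * √3)) : ℝ) : ℂ) := by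
  have h0 : deriv (Gv n) =ᶠ[𝓝 0] fun χ =>
      (-(n / π) * (ls (1 / 3 + bet χ + χ / (2 * π)) - ls (1 / 3 + bet χ - χ / (2 * π)))) := by
    filter_upwards [Gv_deriv (n := n)] with χ h
    exact h.deriv
  rw [h0.deriv_eq]
  have hb := bet_an.differentiableAt.hasDerivAt
  have hx : HasDerivAt (fun χ : ℂ => χ / (2 * π)) (1 / (2 * π)) 0 := (hasDerivAt_id (0 : ℂ)).div_const _
  have g1 := (hb.const_add (1 / 3)).add hx
  have g2 := (hb.const_add (1 / 3)).sub hx
  have k1 := ls_third_deriv.comp_of_eq (0 : ℂ) g1 (by simp [bet_zero])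
  have k2 := ls_third_deriv.comp_of_eq (0 : ℂ) g2 (by simp [bet_zero])
  have k3 := (k1.sub k2).const_mul (-(n / π : ℂ))
  refine HasDerivAt.deriv (k3.congr_deriv ?_)
  have hπ : (π : ℂ) ≠ 0 := by exact_mod_cast Real.pi_ne_zero
  have h3 : ((√3 : ℝ) : ℂ) ≠ 0 := by
    have : (√3 : ℝ) ≠ 0 := by positivity
    exact_mod_cast this
  push_cast
  field_simp
  ring

end Run7.h260.VC
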