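import Pool.Agent.Run7.h260.VC.P6

/-!
# The interpolated terms
-/

set_option autoImplicit false

namespace Run7.h260.VC

open Filter Topology Metric Function MeasureTheory
open scoped Real

/-- one factor -/
noncomputable def ft (mm D : ℕ → ℕ) (N : ℕ) (A A' B ξ : ℂ) : ℂ :=
  Complex.exp (N * (π * Complex.I * (A' - A) * B)) *
    (Wn N (mm N) (D N) (1 - 1 / N - A - B) 0 * Wn N (mm N) (D N) (1 - 1 / N - A' - B) 0) *
    (Wn N (mm N) (D N) B ξ * Wn N (mm N) (D N) B (-ξ)) *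
    (Wn N (mm N) (D N) A ξ * Wn N (mm N) (D N) A (-ξ))

/-- the terms -/
noncomputable def f0 (n : ℕ) [NeZero n] (mm D : ℕ → ℕ) (N : ℕ) (x : Ix n → ℂ) : ℂ :=
  ∏ r : Fin n, ft mm D N (Av x r) (Av x (r + 1)) (Bv x r) (Xv x)

/-- the properties of the interpolation -/
structure Itp (ρ : ℝ) (mm D : ℕ → ℕ) : Prop where
  pos : 0 < ρ
  lt : ρ < 1 / 800
  eq : ∀ᶠ N : ℕ in atTop, ∀ d : ℕ, |(d : ℝ) / N - 1 / 3| < ρ → ∀ ξ ∈ ball (0 : ℂ) ρ,
      Pn N d ξ = Wn N (mm N) (D N) ((d : ℂ) / N) ξ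
  lim : ∀ (z ξ : ℕ → ℂ) (z₀ ξ₀ : ℂ), z₀ ∈ ball (1 / 3 : ℂ) ρ → ξ₀ ∈ ball (0 : ℂ) ρ →
      Tendsto z atTop (𝓝 z₀) → Tendsto ξ atTop (𝓝 ξ₀) →
      Tendsto (fun N : ℕ => Real.log ‖Wn N (mm N) (D N) (z N) (ξ N)‖ / N) atTop
        (𝓝 (FF (1 / 2 + ξ₀) - FF (z₀ + ξ₀)).re)

theorem exists_itp : ∃ (ρ : ℝ) (mm D : ℕ → ℕ), Itp ρ mm D ∧
    ∀ᶠ N : ℕ in atTop, 3 / 10 + 1 / 200 ≤ (mm N : ℝ) / N := by
  obtain ⟨ρ, m, D, h1, h2, h3, h4, h5⟩ := interp
  exact ⟨ρ, m, D, ⟨h1, h2, h4, h5⟩, h3⟩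

variable {n : ℕ}

lemma Av_diff (r : Fin n) : Differentiable ℂ (fun x : Ix n → ℂ => Av x r) :=
  (differentiable_const _).add (differentiable_apply _)
lemma Bv_diff (r : Fin n) : Differentiable ℂ (fun x : Ix n → ℂ => Bv x r) :=
  (differentiable_const _).add (differentiable_apply _)
lemma Xv_diff : Differentiable ℂ (fun x : Ix n → ℂ => Xv x) := by
  unfold Xv
  simp only [div_eq_mul_inv]
  exact (differentiable_apply _).mul_const _

lemma Xv_norm (x : Ix n → ℂ) : ‖Xv x‖ ≤ ‖x‖ := by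
  unfold Xv
  have hπ := Real.pi_gt_three
  rw [norm_div, norm_mul, Complex.norm_real, Real.norm_eq_abs, abs_of_pos Real.pi_pos]
  have h2 : ‖(2 : ℂ)‖ = 2 := by simp
  rw [h2, div_le_iff₀ (by positivity)]
  have := norm_le_pi_norm x none
  nlinarith [norm_nonneg x]

lemma diffOn_prod {E ι : Type*} [NormedAddCommGroup E] [NormedSpace ℂ E] (s : Finset ι) {S : Set E}
    {f : ι → E → ℂ} (h : ∀ i ∈ s, DifferentiableOn ℂ (f i) S) :
    DifferentiableOn ℂ (fun x => ∏ i ∈ s, f i x) S := by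
  classical
  induction s using Finset.induction_on with
  | empty => simp only [Finset.prod_empty]; exact differentiableOn_const _
  | insert a s ha ih =>
    simp only [Finset.prod_insert ha]
    exact (h a (Finset.mem_insert_self a s)).mul
      (ih fun i hi => h i (Finset.mem_insert_of_mem hi))

lemma f0_diff [NeZero n] (mm D : ℕ → ℕ) {N : ℕ} (hN : 200 ≤ N) :
    DifferentiableOn ℂ (f0 n mm D N) (ball 0 (1 / 200)) := by
  have hW : ∀ {g h : (Ix n → ℂ) → ℂ}, Differentiable ℂ g → Differentiable ℂ h →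
      (∀ x ∈ ball (0 : Ix n → ℂ) (1 / 200), h x ∈ Bs) →
      DifferentiableOn ℂ (fun x => Wn N (mm N) (D N) (g x) (h x)) (ball 0 (1 / 200)) := by
    intro g h hg hh hm
    exact (Wn_diff hN (mm N) (D N)).comp (f := fun x : Ix n → ℂ => (g x, h x))
      (hg.prodMk hh).differentiableOn (fun x hx => ⟨Set.mem_univ _, hm x hx⟩)
  have hX : ∀ x ∈ ball (0 : Ix n → ℂ) (1 / 200), Xv x ∈ Bs := by
    intro x hx
    rw [mem_ball_zero_iff] at hx
    unfold Bs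
    rw [mem_ball_zero_iff]
    exact (Xv_norm x).trans_lt hx
  have hX' : ∀ x ∈ ball (0 : Ix n → ℂ) (1 / 200), -Xv x ∈ Bs := by
    intro x hx
    have := hX x hx
    unfold Bs at this ⊢
    rw [mem_ball_zero_iff] at this ⊢
    rwa [norm_neg]
  have h0 : ∀ x ∈ ball (0 : Ix n → ℂ) (1 / 200), (0 : ℂ) ∈ Bs := by
    intro x _
    unfold Bs
    exact mem_ball_self (by norm_num)
  unfold f0
  refine diffOn_prod _ fun r _ => ?_
  unfold ft
  have a1 := Av_diff r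
  have a2 := Av_diff (r + 1)
  have a3 := Bv_diff r
  have a4 := Xv_diff (n := n)
  have b1 : Differentiable ℂ (fun x : Ix n → ℂ =>
      Complex.exp (N * (π * Complex.I * (Av x (r + 1) - Av x r) * Bv x r))) := by fun_prop
  have b2 := (hW (g := fun x => 1 - 1 / (N : ℂ) - Av x r - Bv x r) (h := fun _ => 0) (by fun_prop)
    (by fun_prop) h0).mul (hW (g := fun x => 1 - 1 / (N : ℂ) - Av x (r + 1) - Bv x r)
    (h := fun _ => 0) (by fun_prop) (by fun_prop) h0)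
  have b3 := (hW a3 a4 hX).mul (hW a3 a4.neg hX')
  have b4 := (hW a1 a4 hX).mul (hW a1 a4.neg hX')
  exact ((b1.differentiableOn.mul b2).mul b3).mul b4

lemma f0_san [NeZero n] (mm D : ℕ → ℕ) : San (f0 n mm D) := by
  refine ⟨1 / 200, by norm_num, ?_⟩
  filter_upwards [eventually_ge_atTop 200] with N hN x hx j
  refine (f0_diff mm D hN).comp (f := fun w : ℂ => update x j w) ?_ ?_
  · intro w _
    exact (hasDerivAt_update x j w).differentiableAt.differentiableWithinAt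
  · intro w hw
    rw [mem_ball_zero_iff] at *
    exact upd_norm (by norm_num) hx hw

lemma Wn_ne {mm D : ℕ → ℕ} {N : ℕ} (hN : 200 ≤ N) (hm : 3 / 10 + 1 / 200 ≤ (mm N : ℝ) / N) {z ξ : ℂ}
    (hξ : ‖ξ‖ ≤ 1 / 100) : Wn N (mm N) (D N) z ξ ≠ 0 := by
  unfold Wn
  rw [Pn_exp hN hm hξ]
  exact mul_ne_zero (Complex.exp_ne_zero _) (Complex.exp_ne_zero _)

lemma ft_lim {ρ : ℝ} {mm D : ℕ → ℕ} (h : Itp ρ mm D)
    (hmm : ∀ᶠ N : ℕ in atTop, 3 / 10 + 1 / 200 ≤ (mm N : ℝ) / N) {A A' B ξ : ℕ → ℂ} {A₀ A₀' B₀ ξ₀ : ℂ}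
    (hA : Tendsto A atTop (𝓝 A₀)) (hA' : Tendsto A' atTop (𝓝 A₀')) (hB : Tendsto B atTop (𝓝 B₀))
    (hξ : Tendsto ξ atTop (𝓝 ξ₀)) (mA : A₀ ∈ ball (1 / 3 : ℂ) ρ) (mB : B₀ ∈ ball (1 / 3 : ℂ) ρ)
    (m1 : 1 - A₀ - B₀ ∈ ball (1 / 3 : ℂ) ρ) (m2 : 1 - A₀' - B₀ ∈ ball (1 / 3 : ℂ) ρ)
    (mξ : ξ₀ ∈ ball (0 : ℂ) ρ) :
    (∀ᶠ N : ℕ in atTop, ft mm D N (A N) (A' N) (B N) (ξ N) ≠ 0) ∧
    Tendsto (fun N : ℕ => Real.log ‖ft mm D N (A N) (A' N) (B N) (ξ N)‖ / N) atTop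
      (𝓝 (qt A₀ A₀' B₀ ξ₀).re) := by
  have hρ := h.pos
  have hρ2 := h.lt
  have mξ' : -ξ₀ ∈ ball (0 : ℂ) ρ := by
    rw [mem_ball_zero_iff] at *; rwa [norm_neg]
  have m0 : (0 : ℂ) ∈ ball (0 : ℂ) ρ := mem_ball_self hρ
  have hξ' : Tendsto (fun N => -ξ N) atTop (𝓝 (-ξ₀)) := hξ.neg
  have hinv : Tendsto (fun N : ℕ => (1 : ℂ) / N) atTop (𝓝 0) := by
    exact tendsto_one_div_atTop_nhds_zero_nat (𝕜 := ℂ)
  have c1 : Tendsto (fun N : ℕ => 1 - 1 / (N : ℂ) - A N - B N) atTop (𝓝 (1 - A₀ - B₀)) := by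
    have := ((tendsto_const_nhds (x := (1 : ℂ))).sub hinv).sub hA |>.sub hB
    simpa using this
  have c2 : Tendsto (fun N : ℕ => 1 - 1 / (N : ℂ) - A' N - B N) atTop (𝓝 (1 - A₀' - B₀)) := by
    have := ((tendsto_const_nhds (x := (1 : ℂ))).sub hinv).sub hA' |>.sub hB
    simpa using this
  have l1 := h.lim _ (fun _ => 0) _ 0 m1 m0 c1 tendsto_const_nhds
  have l2 := h.lim _ (fun _ => 0) _ 0 m2 m0 c2 tendsto_const_nhds
  have l3 := h.lim _ _ _ _ mB mξ hB hξ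
  have l4 := h.lim _ _ _ _ mB mξ' hB hξ'
  have l5 := h.lim _ _ _ _ mA mξ hA hξ
  have l6 := h.lim _ _ _ _ mA mξ' hA hξ'
  have l0 : Tendsto (fun N : ℕ => (π * Complex.I * (A' N - A N) * B N).re) atTop
      (𝓝 (π * Complex.I * (A₀' - A₀) * B₀).re) :=
    (Complex.continuous_re.tendsto _).comp ((((hA'.sub hA).const_mul (π * Complex.I))).mul hB)
  have hsmall : ∀ᶠ N : ℕ in atTop, ‖ξ N‖ ≤ 1 / 100 := by
    have : ‖ξ₀‖ < 1 / 100 := by rw [mem_ball_zero_iff] at mξ; linarith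
    exact (hξ.norm.eventually_lt_const this).mono fun N hN => hN.le
  have hne : ∀ᶠ N : ℕ in atTop, ∀ z, Wn N (mm N) (D N) z 0 ≠ 0 ∧ Wn N (mm N) (D N) z (ξ N) ≠ 0 ∧
      Wn N (mm N) (D N) z (-ξ N) ≠ 0 := by
    filter_upwards [hmm, hsmall, eventually_ge_atTop 200] with N h1 h2 h3 z
    exact ⟨Wn_ne h3 h1 (by rw [norm_zero]; norm_num), Wn_ne h3 h1 h2, Wn_ne h3 h1 (by rwa [norm_neg])⟩
  constructor
  · filter_upwards [hne] with N hN
    unfold ft
    have := hN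
    refine mul_ne_zero (mul_ne_zero (mul_ne_zero (Complex.exp_ne_zero _) ?_) ?_) ?_
    · exact mul_ne_zero (hN _).1 (hN _).1
    · exact mul_ne_zero (hN _).2.1 (hN _).2.2
    · exact mul_ne_zero (hN _).2.1 (hN _).2.2
  · have key := ((((((l0.add l1).add l2).add l3).add l4).add l5).add l6)
    have e1 : (π * Complex.I * (A₀' - A₀) * B₀).re + (FF (1 / 2 + 0) - FF (1 - A₀ - B₀ + 0)).re +
        (FF (1 / 2 + 0) - FF (1 - A₀' - B₀ + 0)).re + (FF (1 / 2 + ξ₀) - FF (B₀ + ξ₀)).re +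
        (FF (1 / 2 + -ξ₀) - FF (B₀ + -ξ₀)).re + (FF (1 / 2 + ξ₀) - FF (A₀ + ξ₀)).re +
        (FF (1 / 2 + -ξ₀) - FF (A₀ + -ξ₀)).re = (qt A₀ A₀' B₀ ξ₀).re := by
      have hB1 : ∀ {z : ℂ}, z ∈ ball (1 / 3 : ℂ) ρ → z ∈ Bh := by
        intro z hz
        refine (ball_subset_ball' ?_ : ball (1 / 3 : ℂ) ρ ⊆ ball (1 / 2) (1 / 2)) hz
        rw [dist_eq_norm]
        norm_num
        linarith
      have s1 : FF (1 - A₀ - B₀) = -FF (A₀ + B₀) := by
        have := FF_symm (hB1 m1)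
        rw [show 1 - (1 - A₀ - B₀) = A₀ + B₀ by ring] at this
        rw [this, neg_neg]
      have s2 : FF (1 - A₀' - B₀) = -FF (A₀' + B₀) := by
        have := FF_symm (hB1 m2)
        rw [show 1 - (1 - A₀' - B₀) = A₀' + B₀ by ring] at this
        rw [this, neg_neg]
      have s3 : FF (1 / 2 + -ξ₀) = -FF (1 / 2 + ξ₀) := by
        have hm : (1 / 2 : ℂ) + ξ₀ ∈ Bh := by
          unfold Bh
          rw [mem_ball, dist_eq_norm, add_sub_cancel_left]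
          rw [mem_ball_zero_iff] at mξ
          linarith
        have := FF_symm hm
        rw [show 1 - ((1 : ℂ) / 2 + ξ₀) = 1 / 2 + -ξ₀ by ring] at this
        exact this
      rw [add_zero, add_zero, add_zero, s1, s2, s3, FF_half]
      unfold qt
      simp only [Complex.add_re, Complex.sub_re, Complex.neg_re, Complex.zero_re,
        ← sub_eq_add_neg]
      ring
    rw [e1] at key
    refine key.congr' ?_
    filter_upwards [hne, eventually_ge_atTop 1] with N hN hN1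
    have hN' : (N : ℝ) ≠ 0 := by
      have : N ≠ 0 := by omega
      exact_mod_cast this
    unfold ft
    have k0 : Complex.exp (N * (π * Complex.I * (A' N - A N) * B N)) ≠ 0 := Complex.exp_ne_zero _
    have k1 := (hN (1 - 1 / N - A N - B N)).1
    have k2 := (hN (1 - 1 / N - A' N - B N)).1
    have k3 := (hN (B N)).2.1
    have k4 := (hN (B N)).2.2
    have k5 := (hN (A N)).2.1
    have k6 := (hN (A N)).2.2
    simp only [norm_mul]
    rw [Real.log_mul (by positivity) (by positivity), Real.log_mul (by positivity) (by positivity),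
      Real.log_mul (by positivity) (by positivity), Real.log_mul (by positivity) (by positivity),
      Real.log_mul (by positivity) (by positivity), Real.log_mul (by positivity) (by positivity),
      Complex.norm_exp, Real.log_exp]
    have e2 : ((N : ℂ) * (π * Complex.I * (A' N - A N) * B N)).re =
        N * (π * Complex.I * (A' N - A N) * B N).re := by
      rw [← Complex.ofReal_natCast, Complex.re_ofReal_mul]
    rw [e2]
    field_simp
    ring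

lemma f0_lim [NeZero n] {ρ : ℝ} {mm D : ℕ → ℕ} (h : Itp ρ mm D)
    (hmm : ∀ᶠ N : ℕ in atTop, 3 / 10 + 1 / 200 ≤ (mm N : ℝ) / N) : Lim (f0 n mm D) (Qp n) := by
  have hρ := h.pos
  have hcont : ∀ {g : (Ix n → ℂ) → ℂ} {z : ℂ}, Continuous g → g 0 = z →
      ∀ᶠ x in 𝓝 (0 : Ix n → ℂ), g x ∈ ball z ρ := by
    intro g z hg h0
    have := hg.tendsto 0
    rw [h0] at this
    exact this.eventually (ball_mem_nhds z hρ)
  have hA : ∀ r : Fin n, Continuous (fun x : Ix n → ℂ => Av x r) := fun r => (Av_diff r).continuous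
  have hB : ∀ r : Fin n, Continuous (fun x : Ix n → ℂ => Bv x r) := fun r => (Bv_diff r).continuous
  have hX : Continuous (fun x : Ix n → ℂ => Xv x) := Xv_diff.continuous
  have hA0 : ∀ r : Fin n, Av (0 : Ix n → ℂ) r = 1 / 3 := fun r => by simp [Av]
  have hB0 : ∀ r : Fin n, Bv (0 : Ix n → ℂ) r = 1 / 3 := fun r => by simp [Bv]
  have hX0 : Xv (0 : Ix n → ℂ) = 0 := by simp [Xv]
  have g1 : ∀ᶠ x in 𝓝 (0 : Ix n → ℂ), ∀ r, Av x r ∈ ball (1 / 3 : ℂ) ρ :=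
    eventually_all.2 fun r => hcont (hA r) (hA0 r)
  have g2 : ∀ᶠ x in 𝓝 (0 : Ix n → ℂ), ∀ r, Bv x r ∈ ball (1 / 3 : ℂ) ρ :=
    eventually_all.2 fun r => hcont (hB r) (hB0 r)
  have g3 : ∀ᶠ x in 𝓝 (0 : Ix n → ℂ), ∀ r s, 1 - Av x r - Bv x s ∈ ball (1 / 3 : ℂ) ρ :=
    eventually_all.2 fun r => eventually_all.2 fun s =>
      hcont ((continuous_const.sub (hA r)).sub (hB s)) (by rw [hA0, hB0]; norm_num)
  have g4 : ∀ᶠ x in 𝓝 (0 : Ix n → ℂ), Xv x ∈ ball (0 : ℂ) ρ := hcont hX hX0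
  unfold Lim
  filter_upwards [g1, g2, g3, g4] with x₀ g1 g2 g3 g4 x hx
  have hAx : ∀ r : Fin n, Tendsto (fun N => Av (x N) r) atTop (𝓝 (Av x₀ r)) := fun r =>
    ((hA r).tendsto x₀).comp hx
  have hBx : ∀ r : Fin n, Tendsto (fun N => Bv (x N) r) atTop (𝓝 (Bv x₀ r)) := fun r =>
    ((hB r).tendsto x₀).comp hx
  have hXx : Tendsto (fun N => Xv (x N)) atTop (𝓝 (Xv x₀)) := (hX.tendsto x₀).comp hx
  have key := fun r : Fin n => ft_lim h hmm (hAx r) (hAx (r + 1)) (hBx r) hXx (g1 r) (g2 r) (g3 r r)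
    (g3 (r + 1) r) g4
  have hsum := tendsto_finsetSum Finset.univ fun r _ => (key r).2
  have e : (Qp n x₀).re = ∑ r : Fin n, (qt (Av x₀ r) (Av x₀ (r + 1)) (Bv x₀ r) (Xv x₀)).re := by
    unfold Qp
    rw [Complex.re_sum]
  rw [e]
  refine hsum.congr' ?_
  filter_upwards [eventually_all.2 fun r => (key r).1] with N hN
  unfold f0
  rw [norm_prod, Real.log_prod (fun r _ => norm_ne_zero_iff.2 (hN r)), Finset.sum_div]

end Run7.h260.VC
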